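import Mathlib

/-! Checks over `List.range 248` cut into sixteen ranges (keeps the memory of one kernel evaluation
small). -/

namespace Pool.Agent.Licci

/-- a check on `0, .., 247` from checks on `0..15`, `16..31`, .., `240..247` -/
theorem all_range_of16 (p : ℕ → Bool)
    (h0 : (List.range' 0 16).all p = true)
    (h1 : (List.range' 16 16).all p = true)
    (h2 : (List.range' 32 16).all p = true)
    (h3 : (List.range' 48 16).all p = true)
    (h4 : (List.range' 64 16).all p = true)
    (h5 : (List.range' 80 16).all p = true)
    (h6 : (List.range' 96 16).all p = true)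
    (h7 : (List.range' 112 16).all p = true)
    (h8 : (List.range' 128 16).all p = true)
    (h9 : (List.range' 144 16).all p = true)
    (h10 : (List.range' 160 16).all p = true)
    (h11 : (List.range' 176 16).all p = true)
    (h12 : (List.range' 192 16).all p = true)
    (h13 : (List.range' 208 16).all p = true)
    (h14 : (List.range' 224 16).all p = true)
    (h15 : (List.range' 240 8).all p = true) :
    (List.range 248).all p = true := by
  rw [List.all_eq_true]
  intro j hj
  rw [List.mem_range] at hj
  have key : ∀ a n, (List.range' a n).all p = true → a ≤ j → j < a + n → p j = true := by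
    intro a n h h1 h2
    rw [List.all_eq_true] at h
    exact h j (by rw [List.mem_range'_1]; exact ⟨h1, h2⟩)
  by_cases t0 : j < 16
  · exact key _ _ h0 (by omega) (by omega)
  by_cases t1 : j < 32
  · exact key _ _ h1 (by omega) (by omega)
  by_cases t2 : j < 48
  · exact key _ _ h2 (by omega) (by omega)
  by_cases t3 : j < 64
  · exact key _ _ h3 (by omega) (by omega)
  by_cases t4 : j < 80
  · exact key _ _ h4 (by omega) (by omega)
  by_cases t5 : j < 96
  · exact key _ _ h5 (by omega) (by omega)
  by_cases t6 : j < 112
  · exact key _ _ h6 (by omega) (by omega)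
  by_cases t7 : j < 128
  · exact key _ _ h7 (by omega) (by omega)
  by_cases t8 : j < 144
  · exact key _ _ h8 (by omega) (by omega)
  by_cases t9 : j < 160
  · exact key _ _ h9 (by omega) (by omega)
  by_cases t10 : j < 176
  · exact key _ _ h10 (by omega) (by omega)
  by_cases t11 : j < 192
  · exact key _ _ h11 (by omega) (by omega)
  by_cases t12 : j < 208
  · exact key _ _ h12 (by omega) (by omega)
  by_cases t13 : j < 224
  · exact key _ _ h13 (by omega) (by omega)
  by_cases t14 : j < 240
  · exact key _ _ h14 (by omega) (by omega)
  by_cases t15 : j < 248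
  · exact key _ _ h15 (by omega) (by omega)
  omega

/-- a check on `0, .., 239` from checks on seven ranges -/
theorem all_range_of7 (p : ℕ → Bool)
    (h0 : (List.range' 0 90).all p = true)
    (h1 : (List.range' 90 36).all p = true)
    (h2 : (List.range' 126 28).all p = true)
    (h3 : (List.range' 154 24).all p = true)
    (h4 : (List.range' 178 22).all p = true)
    (h5 : (List.range' 200 20).all p = true)
    (h6 : (List.range' 220 20).all p = true) :
    (List.range 240).all p = true := by
  rw [List.all_eq_true]
  intro j hj
  rw [List.mem_range] at hj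
  have key : ∀ a n, (List.range' a n).all p = true → a ≤ j → j < a + n → p j = true := by
    intro a n h h1 h2
    rw [List.all_eq_true] at h
    exact h j (by rw [List.mem_range'_1]; exact ⟨h1, h2⟩)
  by_cases t0 : j < 90
  · exact key _ _ h0 (by omega) (by omega)
  by_cases t1 : j < 126
  · exact key _ _ h1 (by omega) (by omega)
  by_cases t2 : j < 154
  · exact key _ _ h2 (by omega) (by omega)
  by_cases t3 : j < 178
  · exact key _ _ h3 (by omega) (by omega)
  by_cases t4 : j < 200
  · exact key _ _ h4 (by omega) (by omega)
  by_cases t5 : j < 220
  · exact key _ _ h5 (by omega) (by omega)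
  by_cases t6 : j < 240
  · exact key _ _ h6 (by omega) (by omega)
  omega

/-- a check on `240, .., 247`, one by one -/
theorem all_range_of8 (p : ℕ → Bool)
    (h240 : p 240 = true)
    (h241 : p 241 = true)
    (h242 : p 242 = true)
    (h243 : p 243 = true)
    (h244 : p 244 = true)
    (h245 : p 245 = true)
    (h246 : p 246 = true)
    (h247 : p 247 = true) :
    (List.range' 240 8).all p = true := by
  rw [List.all_eq_true]
  intro j hj
  rw [List.mem_range'_1] at hj
  have : j = 240 ∨ j = 241 ∨ j = 242 ∨ j = 243 ∨ j = 244 ∨ j = 245 ∨ j = 246 ∨ j = 247 := by omega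
  rcases this with rfl | rfl | rfl | rfl | rfl | rfl | rfl | rfl <;> assumption

end Pool.Agent.Licci
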