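import Pool.Agent.Work.MP_a98e4e_ag.L.Jac

/-! The Jacobi identity of `e_8`. -/

set_option linter.unusedSectionVars false

namespace Pool.Agent.Licci

open scoped BigOperators

/-- height -/
def htN (i : ℕ) : ℤ :=
  7 * wtN i 0 + 6 * wtN i 1 + 5 * wtN i 2 + 4 * wtN i 3 + 3 * wtN i 4 + 2 * wtN i 5 + wtN i 6
    - 2 * zdN i

/-- number of steps needed to reach a root from the generators -/
def dpN (i : ℕ) : ℕ := if 0 < htN i then (htN i).toNat else (htN i + 30).toNat

/-- (generator, smaller root) -/
def parT : List (ℕ × ℕ) := [(92, 1), (100, 2), (108, 3), (116, 4), (124, 5), (132, 6), (140, 7), (91, 33), (91, 72), (100, 8), (108, 9), (116, 10), (124, 11), (132, 12), (140, 13), (92, 9), (92, 10), (92, 11), (92, 12), (92, 13), (92, 14), (100, 16), (100, 17), (100, 18), (100, 19), (100, 20), (108, 22), (108, 23), (108, 24), (108, 25), (116, 27), (116, 28), (116, 29), (124, 31), (124, 32), (132, 34), (108, 37), (100, 42), (100, 43), (100, 44), (100, 45), (100, 46), (92, 57), (92, 58), (92, 59), (92, 60), (92, 61), (92, 62), (92, 63), (92, 64), (92,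 65), (92, 66), (92, 67), (92, 68), (92, 69), (92, 70), (92, 71), (116, 58), (108, 62), (108, 63), (108, 64), (108, 65), (100, 72), (100, 73), (100, 74), (100, 75), (100, 76), (100, 77), (100, 78), (100, 79), (100, 80), (100, 81), (124, 73), (116, 76), (116, 77), (116, 78), (108, 82), (108, 83), (108, 84), (108, 85), (108, 86), (108, 87), (132, 83), (124, 85), (124, 86), (116, 88), (116, 89), (116, 90), (140, 89), (132, 90), (124, 91), (0, 0), (0, 0), (92, 100), (92, 101), (92, 102), (92, 103), (92, 104), (92, 105), (100, 106), (0, 0), (100, 108), (100, 109), (100, 110), (100, 111), (100, 112), (108, 113), (92, 106), (0, 0), (108, 116), (108, 117), (108, 118), (108, 119), (116, 120), (92, 113), (100, 114), (0, 0), (116, 124), (116, 125), (116, 126), (124, 127), (92, 120), (100, 121), (108, 122), (0, 0), (124, 132), (124, 133), (132, 134), (92, 127), (100, 128), (108, 129), (116, 130), (0, 0), (132, 140), (140, 141), (92, 134), (100, 135), (108, 136), (116, 137), (124, 138), (0, 0), (91, 166), (92, 141), (100, 142), (108, 143), (116, 144), (124,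 145), (132, 146), (91, 222), (108, 148), (116, 149), (124, 150), (132, 151), (140, 152), (100, 149), (100, 150), (100, 151), (100, 152), (100, 153), (108, 155), (108, 156), (108, 157), (108, 158), (116, 160), (116, 161), (116, 162), (124, 164), (124, 165), (132, 167), (92, 154), (92, 155), (92, 156), (92, 157), (92, 158), (92, 159), (92, 160), (92, 161), (92, 162), (92, 163), (92, 164), (92, 165), (92, 166), (92, 167), (92, 168), (100, 174), (100, 175), (100, 176), (100, 177), (100, 178), (100, 179), (100, 180), (100, 181), (100, 182), (100, 183), (108, 188), (108, 189), (108, 190), (108, 191), (108, 192), (108, 193), (116, 197), (116, 198), (116, 199), (124, 202), (100, 205), (92, 211), (92, 212), (92, 213), (92, 214), (92, 215), (92, 216), (108, 212), (100, 217), (100, 218), (100, 219), (100, 220), (100, 221), (116, 218), (108, 222), (108, 223), (108, 224), (108, 225), (124, 223), (116, 226), (116, 227), (116, 228), (132, 227), (124, 229), (124, 230), (140, 230), (132, 231), (91, 237), (0, 0), (92, 232), (100, 233), (108, 234), (116, 235),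 (124, 236), (132, 237), (140, 238)]

/-- check of the table -/
def gck (k : ℕ) : Bool :=
  gens.contains k ||
    (let p := parT.getD k (0, 0)
     gens.contains p.1 && (Nat.blt p.2 240 && (Nat.blt (dpN p.2) (dpN k) &&
      (sp p.1 p.2 == [(k, 1)] || sp p.1 p.2 == [(k, -1)]))))

set_option maxRecDepth 100000 in
theorem gck_all : (List.range 240).all gck = true := by decide +kernel

variable {A : Type*} [CommRing A]

/-- basis vectors with natural number index -/
def ebN (n : ℕ) : E8 A := fun k => if (k : ℕ) = n then 1 else 0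

theorem ebN_eq (i : Fin 248) : (ebN i : E8 A) = eb i := by
  ext k
  simp only [ebN, eb_apply, Fin.ext_iff]

theorem br_eb_list (i j : Fin 248) : br (eb i : E8 A) (eb j) =
    ((sp i j).map (fun p => (p.2 : A) • (ebN p.1 : E8 A))).sum := by
  ext k
  rw [br_eb_eb, sc, scN]
  generalize sp i j = L
  induction L with
  | nil => simp [cf_nil]
  | cons p L ih =>
    rw [List.map_cons, List.sum_cons, Pi.add_apply, ← ih, cf_cons]
    simp only [ebN, Pi.smul_apply, smul_eq_mul]
    by_cases h : p.1 = (k : ℕ)
    · rw [if_pos h, if_pos h.symm, mul_one, Int.cast_add]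
    · rw [if_neg h, if_neg (fun h' => h h'.symm), mul_zero, zero_add, zero_add]

theorem Der.neg {x : E8 A} (h : Der x) : Der (-x) := by
  have := Der.smul (-1 : A) h
  rwa [neg_one_smul] at this

theorem Der.sub {x y : E8 A} (hx : Der x) (hy : Der y) : Der (x - y) := by
  rw [sub_eq_add_neg]
  exact hx.add hy.neg

theorem der_gens {g : ℕ} (hg : g ∈ gens) : Der (ebN g : E8 A) := by
  simp only [gens, List.mem_cons, List.not_mem_nil, or_false] at hg
  rcases hg with rfl | rfl | rfl | rfl | rfl | rfl | rfl | rfl | rfl
  · exact (ebN_eq (92 : Fin 248) : (ebN 92 : E8 A) = _) ▸ der_gen chk_92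
  · exact (ebN_eq (100 : Fin 248) : (ebN 100 : E8 A) = _) ▸ der_gen chk_100
  · exact (ebN_eq (108 : Fin 248) : (ebN 108 : E8 A) = _) ▸ der_gen chk_108
  · exact (ebN_eq (116 : Fin 248) : (ebN 116 : E8 A) = _) ▸ der_gen chk_116
  · exact (ebN_eq (124 : Fin 248) : (ebN 124 : E8 A) = _) ▸ der_gen chk_124
  · exact (ebN_eq (132 : Fin 248) : (ebN 132 : E8 A) = _) ▸ der_gen chk_132
  · exact (ebN_eq (140 : Fin 248) : (ebN 140 : E8 A) = _) ▸ der_gen chk_140
  · exact (ebN_eq (91 : Fin 248) : (ebN 91 : E8 A) = _) ▸ der_gen chk_91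
  · exact (ebN_eq (232 : Fin 248) : (ebN 232 : E8 A) = _) ▸ der_gen chk_232

theorem der_root : ∀ n k : ℕ, k < 240 → dpN k ≤ n → Der (ebN k : E8 A) := by
  intro n
  induction n with
  | zero =>
    intro k hk hn
    have h := all_range gck_all hk
    rw [gck, Bool.or_eq_true] at h
    rcases h with h | h
    · exact der_gens (by simpa using h)
    · simp only [Bool.and_eq_true, Nat.blt_eq] at h
      omega
  | succ n ih =>
    intro k hk hn
    have h := all_range gck_all hk
    rw [gck, Bool.or_eq_true] at h
    rcases h with h | h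
    · exact der_gens (by simpa using h)
    · simp only [Bool.and_eq_true, Nat.blt_eq, Bool.or_eq_true, beq_iff_eq] at h
      obtain ⟨h1, h2, h3, h4⟩ := h
      set p := parT.getD k (0, 0) with hp
      have hg : Der (ebN p.1 : E8 A) := der_gens (by simpa using h1)
      have hq : Der (ebN p.2 : E8 A) := ih p.2 h2 (by omega)
      have hp1 : p.1 < 248 := by
        have : p.1 ∈ gens := by simpa using h1
        simp only [gens, List.mem_cons, List.not_mem_nil, or_false] at this
        omega
      have hb := hg.br hq
      have e1 := ebN_eq (A := A) (⟨p.1, hp1⟩ : Fin 248)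
      have e2 := ebN_eq (A := A) (⟨p.2, by omega⟩ : Fin 248)
      simp only at e1 e2
      rw [e1, e2, br_eb_list] at hb
      simp only at hb
      rcases h4 with h4 | h4
      · rw [h4] at hb
        simp only [List.map_cons, List.map_nil, List.sum_cons, List.sum_nil, add_zero] at hb
        simpa using hb
      · rw [h4] at hb
        simp only [List.map_cons, List.map_nil, List.sum_cons, List.sum_nil, add_zero] at hb
        simpa using hb.neg

theorem der_rt {k : ℕ} (hk : k < 240) : Der (ebN k : E8 A) := der_root _ k hk le_rfl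

/-- the pairs of opposite simple roots -/
def opp : List (ℕ × ℕ) :=
  [(92, 99), (100, 107), (108, 115), (116, 123), (124, 131), (132, 139), (140, 147), (91, 203)]

theorem opp_chk : (List.range 8).all (fun q =>
    let p := opp.getD q (0, 0)
    Nat.blt p.1 240 && (Nat.blt p.2 240 && ((List.range 248).all (fun k =>
      Nat.beq (cf (sp p.1 p.2) k).natAbs (if k = 240 + q then 1 else 0) &&
        decide (cf (sp p.1 p.2) (240 + q) = -1))))) = true := by decide +kernel

theorem der_cartan (q : ℕ) (hq : q < 8) : Der (ebN (240 + q) : E8 A) := by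
  have h := all_range opp_chk hq
  simp only [Bool.and_eq_true, Nat.blt_eq] at h
  obtain ⟨h1, h2, h3⟩ := h
  set p := opp.getD q (0, 0) with hp
  have hd := ((der_rt (A := A) h1).br (der_rt h2)).neg
  have e1 := ebN_eq (A := A) (⟨p.1, by omega⟩ : Fin 248)
  have e2 := ebN_eq (A := A) (⟨p.2, by omega⟩ : Fin 248)
  simp only at e1 e2
  rw [e1, e2] at hd
  convert hd using 1
  ext k
  rw [Pi.neg_apply, br_eb_eb, ← Int.cast_neg]
  have h4 := all_range h3 k.2
  simp only [Bool.and_eq_true, decide_eq_true_eq] at h4
  obtain ⟨h5, h6⟩ := h4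
  have h7 : (cf (sp p.1 p.2) k).natAbs = if (k : ℕ) = 240 + q then 1 else 0 := by simpa using h5
  simp only [ebN, sc, scN]
  by_cases hk : (k : ℕ) = 240 + q
  · rw [if_pos hk, hk, h6]
    simp
  · rw [if_neg hk]
    rw [if_neg hk, Int.natAbs_eq_zero] at h7
    rw [h7]
    simp

theorem der_eb (i : Fin 248) : Der (eb i : E8 A) := by
  rw [← ebN_eq]
  rcases lt_or_ge (i : ℕ) 240 with h | h
  · exact der_rt h
  · have e : (i : ℕ) = 240 + ((i : ℕ) - 240) := by omega
    rw [e]
    exact der_cartan _ (by omega)

/-- the Jacobi identity -/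
theorem jacobi (x y z : E8 A) : br x (br y z) = br (br x y) z + br y (br x z) := by
  have h : Der x := by
    rw [E8.eq_sum x]
    exact Der.sum _ fun i _ => (der_eb i).smul _
  exact h y z

end Pool.Agent.Licci
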