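import Pool.Agent.Work.MP_a98e4e_ag.L.ChkDef

/-! Kernel checks for the Jacobi identity. -/

namespace Pool.Agent.Licci

set_option maxRecDepth 100000

theorem chk_116 : chk 116 = true := by decide +kernel

theorem chk_124 : chk 124 = true := by decide +kernel

theorem chk_132 : chk 132 = true := by decide +kernel

end Pool.Agent.Licci
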