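import Pool.Agent.Work.MP_a98e4e_ag.L.Chk1
import Pool.Agent.Work.MP_a98e4e_ag.L.Chk2
import Pool.Agent.Work.MP_a98e4e_ag.L.Chk3

/-! Antisymmetry and the Jacobi identity of `e_8` over a commutative ring. -/

set_option linter.unusedSectionVars false

namespace Pool.Agent.Licci

open scoped BigOperators

theorem blt_true {i n : ℕ} (h : i < n) : Nat.blt i n = true := by simpa [Nat.blt_eq] using h

theorem blt_false {i n : ℕ} (h : n ≤ i) : Nat.blt i n = false := by
  rw [Bool.eq_false_iff]
  intro h'
  rw [Nat.blt_eq] at h'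
  omega

theorem sp_cartan_right {i j : ℕ} (h1 : i < 240) (h2 : 240 ≤ j) :
    sp i j = [(i, -prN i (j - 240))] := by
  unfold sp
  rw [blt_true h1, blt_false h2, cond_true, cond_false]

theorem sp_cartan_left {i j : ℕ} (h1 : 240 ≤ i) (h2 : j < 240) :
    sp i j = [(j, prN j (i - 240))] := by
  unfold sp
  rw [blt_false h1, blt_true h2, cond_false, cond_true]

theorem sp_cartan {i j : ℕ} (h1 : 240 ≤ i) (h2 : 240 ≤ j) : sp i j = [] := by
  unfold sp
  rw [blt_false h1, blt_false h2, cond_false, cond_false]

set_option maxRecDepth 100000 in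
theorem skew_zr {i j : ℕ} (hj : j ≤ i) (k : ℕ) : scN i j k = - scN j i k := by
  rcases lt_or_ge i 240 with h1 | h1
  · have h2 : j < 240 := lt_of_le_of_lt hj h1
    have h := all_range (all_range skew_chk h1) (Nat.lt_succ_of_le hj)
    have key : zr (sp i j ++ sp j i) = true → scN i j k = - scN j i k := by
      intro h
      have h := zr_spec h k
      rw [cf_append] at h
      simp only [scN]
      linarith
    unfold sk at h
    simp only at h
    cases h3 : Nat.blt (fnd (Nat.add (cd i) (cd j))) 240 with
    | true => rw [h3, cond_true] at h; exact key h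
    | false =>
      rw [h3, cond_false] at h
      cases h4 : Nat.beq (Nat.add (cd i) (cd j)) 1145324612 with
      | true => rw [h4, cond_true] at h; exact key h
      | false =>
        have e : Nat.add (cd j) (cd i) = Nat.add (cd i) (cd j) := Nat.add_comm _ _
        have a1 : sp i j = [] := by
          unfold sp
          rw [blt_true h1, blt_true h2, cond_true, cond_true]
          simp only
          rw [h3, h4, cond_false, cond_false]
        have a2 : sp j i = [] := by
          unfold sp
          rw [blt_true h1, blt_true h2, cond_true, cond_true]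
          simp only
          rw [e, h3, h4, cond_false, cond_false]
        simp only [scN, a1, a2, cf_nil, neg_zero]
  · rcases lt_or_ge j 240 with h2 | h2
    · simp only [scN, sp_cartan_left h1 h2, sp_cartan_right h2 h1, cf_cons, cf_nil, add_zero]
      split_ifs <;> ring
    · simp only [scN, sp_cartan h1 h2, sp_cartan h2 h1, cf_nil, neg_zero]

theorem scN_skew {i j : ℕ} (_ : i < 248) (_ : j < 248) (k : ℕ) : scN i j k = - scN j i k := by
  rcases le_total j i with h | h
  · exact skew_zr h k
  · rw [skew_zr h k, neg_neg]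

theorem sum_cf (L : List (ℕ × ℤ)) (hL : ∀ p ∈ L, p.1 < 248) (g : ℕ → ℤ) :
    ∑ m : Fin 248, cf L m * g m = (L.map (fun p => p.2 * g p.1)).sum := by
  induction L with
  | nil => simp [cf_nil]
  | cons p L ih =>
    have h1 : p.1 < 248 := hL p List.mem_cons_self
    rw [List.map_cons, List.sum_cons, ← ih (fun q hq => hL q (List.mem_cons_of_mem _ hq))]
    simp only [cf_cons, add_mul, Finset.sum_add_distrib, ite_mul, zero_mul]
    congr 1
    rw [Finset.sum_eq_single (⟨p.1, h1⟩ : Fin 248)]
    · simp
    · intro b _ hb
      rw [if_neg]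
      intro h
      exact hb (Fin.ext h.symm)
    · intro h
      exact absurd (Finset.mem_univ _) h

theorem cf_map_smul (L : List (ℕ × ℤ)) (c : ℤ) (k : ℕ) :
    cf (L.map (fun q => (q.1, c * q.2))) k = c * cf L k := by
  induction L with
  | nil => simp [cf_nil]
  | cons p L ih =>
    rw [List.map_cons, cf_cons, cf_cons, ih]
    split_ifs <;> ring

theorem cf_lm (g : ℕ) (L : List (ℕ × ℤ)) (k : ℕ) :
    cf (lm g L) k = (L.map (fun p => p.2 * scN g p.1 k)).sum := by
  induction L with
  | nil => simp [cf_nil, lm]
  | cons p L ih =>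
    have : lm g (p :: L) = (sp g p.1).map (fun q => (q.1, p.2 * q.2)) ++ lm g L := by
      simp [lm]
    rw [this, cf_append, ih, cf_map_smul, List.map_cons, List.sum_cons]
    rfl

theorem cf_rm (g : ℕ) (L : List (ℕ × ℤ)) (k : ℕ) :
    cf (rm L g) k = (L.map (fun p => p.2 * scN p.1 g k)).sum := by
  induction L with
  | nil => simp [cf_nil, rm]
  | cons p L ih =>
    have : rm (p :: L) g = (sp p.1 g).map (fun q => (q.1, p.2 * q.2)) ++ rm L g := by
      simp [rm]
    rw [this, cf_append, ih, cf_map_smul, List.map_cons, List.sum_cons]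
    rfl

/-- Jacobi for structure constants, from `dv` -/
theorem sum_of_dv {g j k : Fin 248} (h : dv g j k = true) (l : Fin 248) :
    ∑ m : Fin 248, scN j k m * scN g m l =
      (∑ m : Fin 248, scN g j m * scN m k l) + ∑ m : Fin 248, scN g k m * scN j m l := by
  have h0 := zr_spec h l
  rw [cf_append, cf_append, cf_ng, cf_ng, cf_lm, cf_rm, cf_lm] at h0
  have e1 := sum_cf (sp j k) (fun p hp => sp_rng j.2 k.2 hp) (fun m => scN g m l)
  have e2 := sum_cf (sp g j) (fun p hp => sp_rng g.2 j.2 hp) (fun m => scN m k l)
  have e3 := sum_cf (sp g k) (fun p hp => sp_rng g.2 k.2 hp) (fun m => scN j m l)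
  simp only [scN] at *
  rw [e1, e2, e3]
  linarith

theorem sum_zero_of_wt {a b : Fin 248 → ℤ} {s : ℕ} {l : Fin 248} {c d : Fin 248 → ℕ}
    (ha : ∀ m, a m ≠ 0 → c m = cd m + off) (hb : ∀ m, b m ≠ 0 → cd m + d m = cd l + off)
    (hs : ∀ m, c m + d m = s) (h : s ≠ cd l + off + off) : ∑ m : Fin 248, a m * b m = 0 := by
  refine Finset.sum_eq_zero fun m _ => ?_
  by_contra hne
  have h1 := ha m (left_ne_zero_of_mul hne)
  have h2 := hb m (right_ne_zero_of_mul hne)
  have h3 := hs m
  omega

/-- Jacobi for structure constants, from `ck` -/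
theorem sum_of_ck {g j k : Fin 248} (h : ck g j k = true) (l : Fin 248) :
    ∑ m : Fin 248, scN j k m * scN g m l =
      (∑ m : Fin 248, scN g j m * scN m k l) + ∑ m : Fin 248, scN g k m * scN j m l := by
  unfold ck at h
  simp only at h
  cases h3 : Nat.blt (fnd (Nat.sub (Nat.add (cd g) (Nat.add (cd j) (cd k))) off)) 240 with
  | true => rw [h3, cond_true] at h; exact sum_of_dv h l
  | false =>
    rw [h3, cond_false] at h
    cases h4 : Nat.beq (Nat.add (cd g) (Nat.add (cd j) (cd k))) 1717986918 with
    | true => rw [h4, cond_true] at h; exact sum_of_dv h l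
    | false =>
      have hne : cd g + (cd j + cd k) ≠ cd l + off + off := by
        intro he
        rcases lt_or_ge (l : ℕ) 240 with h5 | h5
        · have e : Nat.sub (Nat.add (cd g) (Nat.add (cd j) (cd k))) off = cd l + off := by
            change cd g + (cd j + cd k) - off = _
            omega
          rw [e, fnd_cd h5, blt_true h5] at h3
          exact absurd h3 (by simp)
        · have e : Nat.beq (Nat.add (cd g) (Nat.add (cd j) (cd k))) 1717986918 = true := by
            rw [off3]
            change Nat.beq (cd g + (cd j + cd k)) _ = true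
            rw [he, cd_cartan h5 l.2]
            simp
          rw [e] at h4
          exact absurd h4 (by simp)
      rw [sum_zero_of_wt (s := cd g + (cd j + cd k)) (c := fun _ => cd j + cd k)
          (d := fun _ => cd g) (l := l) (fun m hm => scN_wt j.2 k.2 hm)
          (fun m hm => by rw [add_comm]; exact scN_wt g.2 m.2 hm) (fun m => by ring) hne,
        sum_zero_of_wt (s := cd g + (cd j + cd k)) (c := fun _ => cd g + cd j)
          (d := fun _ => cd k) (l := l) (fun m hm => scN_wt g.2 j.2 hm)
          (fun m hm => scN_wt m.2 k.2 hm) (fun m => by ring) hne,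
        sum_zero_of_wt (s := cd g + (cd j + cd k)) (c := fun _ => cd g + cd k)
          (d := fun _ => cd j) (l := l) (fun m hm => scN_wt g.2 k.2 hm)
          (fun m hm => by rw [add_comm]; exact scN_wt j.2 m.2 hm) (fun m => by ring) hne,
        add_zero]

theorem chk_spec {g : ℕ} (h : chk g = true) {j k : ℕ} (hj : j < 248) (hk : k < j) :
    ck g j k = true :=
  all_range (all_range h hj) hk

variable {A : Type*} [CommRing A]

theorem sc_skew (i j k : Fin 248) : sc i j k = - sc j i k := scN_skew i.2 j.2 k

theorem scN_self {i : ℕ} (hi : i < 248) (k : ℕ) : scN i i k = 0 := by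
  have := scN_skew hi hi k
  omega

theorem sc_self (i k : Fin 248) : sc i i k = 0 := scN_self i.2 k

theorem br_skew (x y : E8 A) : br x y = - br y x := by
  ext k
  simp only [br_apply, Pi.neg_apply]
  rw [Finset.sum_comm, ← Finset.sum_neg_distrib]
  refine Finset.sum_congr rfl fun i _ => ?_
  rw [← Finset.sum_neg_distrib]
  refine Finset.sum_congr rfl fun j _ => ?_
  rw [sc_skew, Int.cast_neg]
  ring

theorem br_eb_self (i : Fin 248) : br (eb i : E8 A) (eb i) = 0 := by
  ext k
  rw [br_eb_eb, sc_self, Int.cast_zero, Pi.zero_apply]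

/-- the set of elements acting as derivations -/
def Der (x : E8 A) : Prop := ∀ y z : E8 A, br x (br y z) = br (br x y) z + br y (br x z)

theorem Der.add {x y : E8 A} (hx : Der x) (hy : Der y) : Der (x + y) := by
  intro a b
  rw [br_add_left, br_add_left, br_add_left, br_add_left, br_add_right, hx, hy]
  abel

theorem Der.smul (c : A) {x : E8 A} (hx : Der x) : Der (c • x) := by
  intro a b
  rw [br_smul_left, br_smul_left, br_smul_left, br_smul_left, br_smul_right, hx, smul_add]

theorem Der.zero : Der (0 : E8 A) := by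
  intro a b
  simp

theorem Der.sum {ι : Type*} (s : Finset ι) {x : ι → E8 A} (h : ∀ i ∈ s, Der (x i)) :
    Der (∑ i ∈ s, x i) := by
  classical
  induction s using Finset.induction_on with
  | empty => simpa using Der.zero
  | insert a s ha ih =>
    rw [Finset.sum_insert ha]
    exact (h a (Finset.mem_insert_self a s)).add
      (ih fun i hi => h i (Finset.mem_insert_of_mem hi))

theorem Der.br {x y : E8 A} (hx : Der x) (hy : Der y) : Der (br x y) := by
  intro a b
  have e : ∀ c : E8 A, Licci.br (Licci.br x y) c =
      Licci.br x (Licci.br y c) - Licci.br y (Licci.br x c) := by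
    intro c
    rw [hx y c]
    abel
  rw [e, e, e, hy a b, hx a b]
  rw [br_add_right, br_add_right, hx (Licci.br y a) b, hx a (Licci.br y b),
    hy (Licci.br x a) b, hy a (Licci.br x b), br_sub_left, br_sub_right]
  abel

/-- trilinear reduction to basis vectors -/
theorem Der_of_basis {x : E8 A} (h : ∀ j k : Fin 248,
    br x (br (eb j) (eb k)) = br (br x (eb j)) (eb k) + br (eb j) (br x (eb k))) : Der x := by
  intro y z
  conv_lhs => rw [E8.eq_sum y, E8.eq_sum z]
  conv_rhs => rw [E8.eq_sum y, E8.eq_sum z]
  simp only [br_sum_left, br_sum_right, br_smul_left, br_smul_right, h, smul_add,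
    Finset.sum_add_distrib]

theorem br_eb_br (g j k l : Fin 248) :
    (br (eb g : E8 A) (br (eb j) (eb k))) l =
      ((∑ m : Fin 248, scN j k m * scN g m l : ℤ) : A) := by
  have : br (eb j : E8 A) (eb k) = ∑ m, (sc j k m : A) • (eb m : E8 A) := by
    conv_lhs => rw [E8.eq_sum (br (eb j : E8 A) (eb k))]
    simp only [br_eb_eb]
  rw [this, br_sum_right, Finset.sum_apply]
  simp only [br_smul_right, Pi.smul_apply, br_eb_eb, smul_eq_mul]
  push_cast
  rfl

theorem br_br_eb (g j k l : Fin 248) :
    (br (br (eb g : E8 A) (eb j)) (eb k)) l =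
      ((∑ m : Fin 248, scN g j m * scN m k l : ℤ) : A) := by
  have : br (eb g : E8 A) (eb j) = ∑ m, (sc g j m : A) • (eb m : E8 A) := by
    conv_lhs => rw [E8.eq_sum (br (eb g : E8 A) (eb j))]
    simp only [br_eb_eb]
  rw [this, br_sum_left, Finset.sum_apply]
  simp only [br_smul_left, Pi.smul_apply, br_eb_eb, smul_eq_mul]
  push_cast
  rfl

theorem der_gen {g : Fin 248} (hg : chk g = true) : Der (eb g : E8 A) := by
  have key : ∀ j k : Fin 248, (k : ℕ) < j → br (eb g : E8 A) (br (eb j) (eb k)) =
      br (br (eb g) (eb j)) (eb k) + br (eb j) (br (eb g) (eb k)) := by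
    intro j k hjk
    ext l
    have e : ∀ m : Fin 248, scN g k m * scN j m l = - (scN g k m * scN m j l) := fun m => by
      rw [scN_skew m.2 j.2 l, mul_neg, neg_neg]
    have e1 : (∑ m : Fin 248, scN j k m * scN g m l) =
        (∑ m : Fin 248, scN g j m * scN m k l) + - ∑ m : Fin 248, scN g k m * scN m j l := by
      rw [sum_of_ck (chk_spec hg j.2 hjk) l, ← Finset.sum_neg_distrib]
      exact congrArg _ (Finset.sum_congr rfl fun m _ => e m)
    rw [Pi.add_apply, br_eb_br, br_br_eb, br_skew (eb j) (br (eb g) (eb k)), Pi.neg_apply,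
      br_br_eb, ← Int.cast_neg, ← Int.cast_add, e1]
  apply Der_of_basis
  intro j k
  rcases lt_trichotomy (k : ℕ) (j : ℕ) with h | h | h
  · exact key j k h
  · have : k = j := Fin.ext h
    subst this
    rw [br_eb_self, br_zero_right, br_skew (br (eb g) (eb k)) (eb k)]
    simp
  · have := key k j h
    rw [br_skew (eb j) (eb k), br_neg_right, this]
    rw [br_skew (br (eb g) (eb j)) (eb k), br_skew (eb j) (br (eb g) (eb k))]
    abel

end Pool.Agent.Licci
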