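import Pool.Agent.Work.MP_a98e4e_ag.L.Form

/-!
# LICCI, codimension 4: further definitions for the modules L5 - L12
-/

namespace Pool.Agent.Licci

open scoped BigOperators
open U (Sup)

section

variable {A : Type*} [CommRing A]

/-- `f ∧ θ` -/
def wedge12 (f : Vec A) (θ : Fin 8 → Fin 8 → A) (i j k : Fin 8) : A :=
  f i * θ j k - f j * θ i k + f k * θ i j

/-- `f ∧ η` -/
def wedge11 (f η : Vec A) (i j : Fin 8) : A := f i * η j - f j * η i

/-- index of the negative of the `i`-th root, `1 ≤ i ≤ 14` -/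
def ngN (i : ℕ) : ℕ := if i < 8 then 232 + i else 196 + i

/-- pairing of `x`-degree `-2` (of `y`) with `x`-degree `2` (of `g`) -/
def kp (y g : E8 A) : A := ∑ q : Fin 14, y (ix (ngN (q + 1))) * g (ix (q + 1))

/-- `e_-α ↦ e_α*` -/
def shp (y : E8 A) : E8 A :=
  ∑ q : Fin 7, (y (ix (232 + (q + 1))) • eb (ix (q + 8)) + y (ix (204 + q)) • eb (ix (q + 1)))

/-- `f` is the linear form of `k` -/
def FormOf (k : E8 A →ₗ[A] E8 A) (f : Vec A →ₗ[A] A) : Prop :=
  ∀ g h : E8 A, Sup xdg 2 g → Sup xdg 2 h → ∀ u, Th (k g) (k h) u = B0 g h * f u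

/-- the first order term of the form of `exp (t E) k`, computed on a pair with `B0 = -1` -/
def nuOf (k : E8 A →ₗ[A] E8 A) (x y z u : Vec A) : A :=
  -(Th (br (tri x y z) (k (eb (ix 1)))) (k (eb (ix 8))) u +
    Th (k (eb (ix 1))) (br (tri x y z) (k (eb (ix 8)))) u)

/-- the torus element `u ^ b_q` -/
def tor (q : Fin 8) (u : Aˣ) : E8 A →ₗ[A] E8 A where
  toFun Y := fun m => ((u ^ (wtg q m) : Aˣ) : A) * Y m
  map_add' Y Z := by funext m; simp [mul_add]
  map_smul' c Y := by funext m; simp; ring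

end

/-- a linear form and a `4`-form with `f ∧ ν = 0`, in coordinates -/
structure Dat (R : Type*) [CommRing R] where
  f : Vec R
  nu : Fin 8 → Fin 8 → Fin 8 → Fin 8 → R
  nu0 : ∀ i k l, nu i i k l = 0
  nu1 : ∀ i j k l, nu i j k l = - nu j i k l
  nu2 : ∀ i j k l, nu i j k l = - nu i k j l
  nu3 : ∀ i j k l, nu i j k l = - nu i j l k
  cyc : ∀ a b c d e, f a * nu b c d e - f b * nu a c d e + f c * nu a b d e - f d * nu a b c e +
    f e * nu a b c d = 0

/-- `(v, w) ∈ P'` : `f (v) = 0`, `f ∧ w = ι_v ν` -/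
structure Dat.IsP {R : Type*} [CommRing R] (D : Dat R) (v : Vec R) (w : Fin 8 → Fin 8 → R) :
    Prop where
  w0 : ∀ i, w i i = 0
  w1 : ∀ i j, w i j = - w j i
  fv : ∑ m, D.f m * v m = 0
  fw : ∀ a b c, D.f a * w b c - D.f b * w a c + D.f c * w a b = ∑ m, v m * D.nu m a b c

/-- `μ_i = ι_(e_i) ν / f_i` -/
noncomputable def Dat.mu {R : Type*} [CommRing R] {T : Type*} [CommRing T] [Algebra R T] (D : Dat R)
    (i : Fin 8) (a b c : Fin 8) : T :=
  Ring.inverse (algebraMap R T (D.f i)) * algebraMap R T (D.nu i a b c)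

/-- `v + (w + ι_v μ_i)` -/
noncomputable def Dat.sv {R : Type*} [CommRing R] (D : Dat R) (T : Type*) [CommRing T] [Algebra R T]
    (i : Fin 8) (v : Vec R) (w : Fin 8 → Fin 8 → R) : E8 T :=
  V3 (fun a => algebraMap R T (v a)) +
    W2 (fun a b => algebraMap R T (w a b) + ∑ m, algebraMap R T (v m) * D.mu (T := T) i m a b)

/-- a state: 14 vectors over `R` which are the image of the standard `x`-degree `2` under an
automorphism over `K` -/
structure RState (R : Type*) [CommRing R] (K : Type*) [Field K] [Algebra R K]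
    (M : Matrix (Fin 14) (Fin 14) R) where
  γ : Fin 14 → E8 R
  k : E8 K →ₗ[K] E8 K
  aut : IsAut k
  g : Fin 14 → E8 K
  sup : ∀ l, Sup xdg 2 (g l)
  kg : ∀ l, k (g l) = algebraMap R K ∘ γ l
  gram : ∀ l m, B0 (g l) (g m) = algebraMap R K (M l m)
  f : Vec R →ₗ[R] R
  th : ∀ l m u, Th (γ l) (γ m) u = M l m * f u
  f0 : f ≠ 0

end Pool.Agent.Licci
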