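import Pool.Agent.Work.MP_a98e4e_ag.CA1
import Pool.Agent.Work.MP_a98e4e_ag.L.Dat

/-!
# LICCI, codimension 4: coordinates of `(f, ν)` and of `P'(f, ν)`
-/

namespace Pool.Agent.Licci

open scoped BigOperators

universe u

namespace Coord

section

variable {R : Type*} [CommRing R]

/-- the standard basis vectors of `R ^ 8` -/
def se (i : Fin 8) : Vec R := Pi.single i 1

theorem vec_eq_sum (v : Vec R) : v = ∑ m, v m • (se m : Vec R) := by
  funext j
  simp [se, Finset.sum_apply, Pi.single_apply]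

theorem lin_eq_sum {M : Type*} [AddCommGroup M] [Module R M] (g : Vec R →ₗ[R] M) (v : Vec R) :
    g v = ∑ m, v m • g (se m) := by
  conv_lhs => rw [vec_eq_sum v]
  rw [map_sum]
  exact Finset.sum_congr rfl fun m _ => map_smul _ _ _

variable {N : Type*} [AddCommGroup N] [Module R N]

/-- a `2`-form in its first variable -/
theorem alt2_sum_left (w : Vec R [⋀^Fin 2]→ₗ[R] N) (v x : Vec R) :
    w ![v, x] = ∑ m, v m • w ![se m, x] := by
  let g : Vec R →ₗ[R] N :=
    { toFun := fun a => w ![a, x]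
      map_add' := fun a b => alt2_add_left w a b x
      map_smul' := fun c a => alt2_smul_left w c a x }
  exact lin_eq_sum g v

/-- a `2`-form in coordinates -/
theorem alt2_sum (w : Vec R [⋀^Fin 2]→ₗ[R] R) (x y : Vec R) :
    w ![x, y] = ∑ a, ∑ b, w ![se a, se b] * (x a * y b) := by
  rw [alt2_sum_left]
  refine Finset.sum_congr rfl fun a _ => ?_
  rw [alt2_swap, alt2_sum_left, smul_neg, ← smul_neg, ← Finset.sum_neg_distrib, Finset.smul_sum]
  refine Finset.sum_congr rfl fun b _ => ?_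
  rw [alt2_swap w (se b) (se a)]
  simp only [smul_eq_mul]
  ring

/-- a `4`-form in its first variable -/
theorem alt4_sum_left (w : Vec R [⋀^Fin 4]→ₗ[R] R) (v x y z : Vec R) :
    w ![v, x, y, z] = ∑ m, v m * w ![se m, x, y, z] := by
  let g : Vec R →ₗ[R] R :=
    { toFun := fun a => contr a 3 w ![x, y, z]
      map_add' := fun a b => by rw [contr_add_left]; rfl
      map_smul' := fun c a => by rw [contr_smul_left]; rfl }
  have h : g v = _ := lin_eq_sum g v
  simp only [g, LinearMap.coe_mk, AddHom.coe_mk, contr_apply_three, smul_eq_mul] at h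
  exact h

theorem alt4_swap01 (w : Vec R [⋀^Fin 4]→ₗ[R] N) (a b c d : Vec R) :
    w ![a, b, c, d] = - w ![b, a, c, d] := by
  have h := w.map_swap ![b, a, c, d] (i := 0) (j := 1) (by decide)
  rw [← h]
  congr 1
  ext i
  fin_cases i <;> rfl

theorem alt4_swap12 (w : Vec R [⋀^Fin 4]→ₗ[R] N) (a b c d : Vec R) :
    w ![a, b, c, d] = - w ![a, c, b, d] := by
  have h := w.map_swap ![a, c, b, d] (i := 1) (j := 2) (by decide)
  rw [← h]
  congr 1
  ext i
  fin_cases i <;> rfl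

theorem alt4_swap23 (w : Vec R [⋀^Fin 4]→ₗ[R] N) (a b c d : Vec R) :
    w ![a, b, c, d] = - w ![a, b, d, c] := by
  have h := w.map_swap ![a, b, d, c] (i := 2) (j := 3) (by decide)
  rw [← h]
  congr 1
  ext i
  fin_cases i <;> rfl

theorem alt4_self01 (w : Vec R [⋀^Fin 4]→ₗ[R] N) (a c d : Vec R) : w ![a, a, c, d] = 0 :=
  w.map_eq_zero_of_eq ![a, a, c, d] (i := 0) (j := 1) rfl (by decide)

theorem wedge_four_apply {M : Type*} [AddCommGroup M] [Module R M] (f : M →ₗ[R] R)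
    (w : M [⋀^Fin 4]→ₗ[R] N) (a b c d e : M) :
    wedge f 4 w ![a, b, c, d, e] = f a • w ![b, c, d, e] - f b • w ![a, c, d, e] +
      f c • w ![a, b, d, e] - f d • w ![a, b, c, e] + f e • w ![a, b, c, d] := by
  have h0 : (Fin.removeNth 0 ![a, b, c, d, e] : Fin 4 → M) = ![b, c, d, e] := by
    ext i; fin_cases i <;> rfl
  have h1 : (Fin.removeNth 1 ![a, b, c, d, e] : Fin 4 → M) = ![a, c, d, e] := by
    ext i; fin_cases i <;> rfl
  have h2 : (Fin.removeNth 2 ![a, b, c, d, e] : Fin 4 → M) = ![a, b, d, e] := by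
    ext i; fin_cases i <;> rfl
  have h3 : (Fin.removeNth 3 ![a, b, c, d, e] : Fin 4 → M) = ![a, b, c, e] := by
    ext i; fin_cases i <;> rfl
  have h4 : (Fin.removeNth 4 ![a, b, c, d, e] : Fin 4 → M) = ![a, b, c, d] := by
    ext i; fin_cases i <;> rfl
  rw [wedge_apply, Fin.sum_univ_five, h0, h1, h2, h3, h4]
  simp [sub_eq_add_neg]

end

end Coord

open Coord

variable {R : Type*} [CommRing R]

/-- the coordinates of `(f, ν)` -/
def Dat.ofForm (f : Vec R →ₗ[R] R) (ν : Vec R [⋀^Fin 4]→ₗ[R] R) (hν : wedge f 4 ν = 0) : Dat R where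
  f := fun a => f (se a)
  nu := fun i j k l => ν ![se i, se j, se k, se l]
  nu0 := fun i k l => alt4_self01 ν _ _ _
  nu1 := fun i j k l => alt4_swap01 ν _ _ _ _
  nu2 := fun i j k l => alt4_swap12 ν _ _ _ _
  nu3 := fun i j k l => alt4_swap23 ν _ _ _ _
  cyc := fun a b c d e => by
    have h := congrArg (fun θ => θ ![se a, se b, se c, se d, se e]) hν
    simp only [wedge_four_apply, smul_eq_mul, AlternatingMap.zero_apply] at h
    exact h

theorem Dat.ofForm_isP {f : Vec R →ₗ[R] R} {ν : Vec R [⋀^Fin 4]→ₗ[R] R} (hν : wedge f 4 ν = 0)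
    (p : PP f ν) : (Dat.ofForm f ν hν).IsP p.1.1 (fun a b => p.1.2 ![se a, se b]) where
  w0 := fun i => p.1.2.map_eq_zero_of_eq ![se i, se i] (i := 0) (j := 1) rfl (by decide)
  w1 := fun i j => alt2_swap _ _ _
  fv := by
    have h := p.2.1
    rw [lin_eq_sum f] at h
    rw [← h]
    exact Finset.sum_congr rfl fun m _ => mul_comm _ _
  fw := fun a b c => by
    have h := PP_three p (se a) (se b) (se c)
    rw [alt4_sum_left] at h
    exact h

/-- The form `B` in coordinates. -/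
theorem Dat.ofForm_gram {f : Vec R →ₗ[R] R} {ν : Vec R [⋀^Fin 4]→ₗ[R] R} (hν : wedge f 4 ν = 0)
    (hf : HasReg f 4) (p q : PP f ν) (a : Fin 8) :
    ∑ m, (q.1.2 ![se m, se a] * p.1.1 m + p.1.2 ![se m, se a] * q.1.1 m) =
      B hf p q * (Dat.ofForm f ν hν).f a := by
  have h := B_spec hf p q (se a)
  rw [alt2_sum_left, alt2_sum_left p.1.2, ← Finset.sum_add_distrib] at h
  rw [show (Dat.ofForm f ν hν).f a = f (se a) from rfl, ← h]
  refine Finset.sum_congr rfl fun m _ => ?_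
  simp only [smul_eq_mul]
  ring

/-- the Gram matrix of `B` in a basis has unit determinant -/
theorem isUnit_gram {f : Vec R →ₗ[R] R} {ν : Vec R [⋀^Fin 4]→ₗ[R] R} (hν : wedge f 4 ν = 0)
    (hf : HasReg f 4) {n : ℕ} (b : Module.Basis (Fin n) R (PP f ν)) :
    IsUnit (Matrix.of fun k l => B hf (b k) (b l)).det := by
  let e : PP f ν ≃ₗ[R] Module.Dual R (PP f ν) := LinearEquiv.ofBijective (B hf)
    ⟨(injective_iff_map_eq_zero _).mpr fun p hp => B_injective hf hν
      (fun v hv => funext fun i => hv (LinearMap.proj i)) p hp,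
      fun φ => B_surjective hf hν φ⟩
  have h : IsUnit (LinearMap.toMatrix b b.dualBasis
      (e : PP f ν →ₗ[R] Module.Dual R (PP f ν))).det := by
    apply LinearEquiv.isUnit_det (M := PP f ν) (M' := Module.Dual R (PP f ν)) e
  have hM : (Matrix.of fun k l => B hf (b k) (b l)).transpose =
      LinearMap.toMatrix b b.dualBasis (e : PP f ν →ₗ[R] Module.Dual R (PP f ν)) := by
    ext k l
    rw [LinearMap.toMatrix_apply, Module.Basis.dualBasis_repr]
    rfl
  rw [← Matrix.det_transpose, hM]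
  exact h

/-- The module `P'(f, ν)` in coordinates: the input of `exists_udata`. -/
theorem exists_coord {f : Vec R →ₗ[R] R} {ν : Vec R [⋀^Fin 4]→ₗ[R] R} (hν : wedge f 4 ν = 0)
    (hf : HasReg f 4) {n : ℕ} (b : Module.Basis (Fin n) R (PP f ν)) :
    ∃ (v : Fin n → Vec R) (w : Fin n → Fin 8 → Fin 8 → R) (M : Matrix (Fin n) (Fin n) R),
      (∀ l, v l = (b l).1.1) ∧ (∀ l i j, w l i j = (b l).1.2 ![se i, se j]) ∧
      (∀ k l, M k l = B hf (b k) (b l)) ∧
      (∀ l, (Dat.ofForm f ν hν).IsP (v l) (w l)) ∧ M.transpose = M ∧ IsUnit M.det ∧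
      (∀ k l a, ∑ m, (w l m a * v k m + w k m a * v l m) =
        M k l * (Dat.ofForm f ν hν).f a) := by
  refine ⟨fun l => (b l).1.1, fun l i j => (b l).1.2 ![se i, se j],
    Matrix.of fun k l => B hf (b k) (b l), fun _ => rfl, fun _ _ _ => rfl, fun _ _ => rfl,
    fun l => Dat.ofForm_isP hν (b l), ?_, isUnit_gram hν hf b, fun k l a => ?_⟩
  · ext k l
    exact B_comm hf _ _
  · exact Dat.ofForm_gram hν hf (b k) (b l) a

theorem Dat.ofForm_apply {f : Vec R →ₗ[R] R} {ν : Vec R [⋀^Fin 4]→ₗ[R] R}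
    (hν : wedge f 4 ν = 0) (x : Vec R) : f x = ∑ m, (Dat.ofForm f ν hν).f m * x m := by
  rw [lin_eq_sum f x]
  exact Finset.sum_congr rfl fun m _ => mul_comm _ _

/-- the first components of a basis of `P'(f, ν)` span the kernel of `f` -/
theorem exists_comb {f : Vec R →ₗ[R] R} {ν : Vec R [⋀^Fin 4]→ₗ[R] R} (hν : wedge f 4 ν = 0)
    (hf : HasReg f 4) {n : ℕ} (b : Module.Basis (Fin n) R (PP f ν)) (x : Vec R) (hx : f x = 0) :
    ∃ c : Fin n → R, x = ∑ l, c l • (b l).1.1 := by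
  obtain ⟨w, hw⟩ := exists_PP hf hν x hx
  refine ⟨fun l => b.repr ⟨(x, w), hw⟩ l, ?_⟩
  have h := congrArg (fun p : PP f ν => p.1.1) (b.sum_repr ⟨(x, w), hw⟩)
  simp only [Submodule.coe_sum, Submodule.coe_smul, Prod.fst_sum, Prod.smul_fst] at h
  exact h.symm

theorem exists_dat {R : Type u} [CommRing R] [IsLocalRing R] (f : Vec R →ₗ[R] R)
    (ν : Vec R [⋀^Fin 4]→ₗ[R] R) (hν : wedge f 4 ν = 0) (hf : HasReg f 4)
    [Module.Free R (PP f ν)] [Module.Finite R (PP f ν)] (hr : Module.finrank R (PP f ν) = 14) :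
    ∃ (D : Dat R) (v : Fin 14 → Vec R) (w : Fin 14 → Fin 8 → Fin 8 → R)
      (M : Matrix (Fin 14) (Fin 14) R), (∀ x, f x = ∑ m, D.f m * x m) ∧
      (∀ a b c d, D.nu a b c d =
        ν ![Pi.single a 1, Pi.single b 1, Pi.single c 1, Pi.single d 1]) ∧
      (∀ l, D.IsP (v l) (w l)) ∧
      (∀ l, ∃ p : (Fin 8 → R) × ((Fin 8 → R) [⋀^Fin 2]→ₗ[R] R), p ∈ PP f ν ∧ p.1 = v l ∧
        ∀ x y : Vec R, p.2 ![x, y] = ∑ a, ∑ b, w l a b * (x a * y b)) ∧
      M.transpose = M ∧ IsUnit M.det ∧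
      (∀ k l a, ∑ m, (w l m a * v k m + w k m a * v l m) = M k l * D.f a) ∧
      ∀ x, f x = 0 → ∃ c : Fin 14 → R, x = ∑ l, c l • v l := by
  let b : Module.Basis (Fin 14) R (PP f ν) :=
    (Module.finBasis R (PP f ν)).reindex (finCongr hr)
  obtain ⟨v, w, M, hv, hw, -, hP, hMs, hMu, hM⟩ := exists_coord hν hf b
  refine ⟨Dat.ofForm f ν hν, v, w, M, Dat.ofForm_apply hν, fun _ _ _ _ => rfl, hP,
    fun l => ⟨(b l).1, (b l).2, (hv l).symm, fun x y => ?_⟩, hMs, hMu, hM, fun x hx => ?_⟩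
  · rw [alt2_sum]
    exact Finset.sum_congr rfl fun i _ => Finset.sum_congr rfl fun j _ => by rw [hw]
  obtain ⟨c, hc⟩ := exists_comb hν hf b x hx
  exact ⟨c, by rw [hc]; exact Finset.sum_congr rfl fun l _ => by rw [hv]⟩

end Pool.Agent.Licci
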