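import Pool.Agent.Work.MP_a98e4e_ag.L.Tab

/-! The bracket of `e_8` over a commutative ring, before the Jacobi identity. -/

set_option linter.unusedSectionVars false

namespace Pool.Agent.Licci

open scoped BigOperators

theorem cf_nil (k : ℕ) : cf [] k = 0 := rfl

theorem cf_cons (p : ℕ × ℤ) (L : List (ℕ × ℤ)) (k : ℕ) :
    cf (p :: L) k = (if p.1 = k then p.2 else 0) + cf L k := by
  simp only [cf, List.foldr]
  split_ifs with h
  · rw [show Nat.beq p.1 k = true from by simpa using h, cond_true]
  · rw [show Nat.beq p.1 k = false from by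
      rw [Bool.eq_false_iff]; simpa using h, cond_false, zero_add]

theorem isz_iff (n : ℤ) : isz n = true ↔ n = 0 := by
  cases n with
  | ofNat m => simp [isz]
  | negSucc m => simp [isz]

theorem cf_append (L L' : List (ℕ × ℤ)) (k : ℕ) : cf (L ++ L') k = cf L k + cf L' k := by
  induction L with
  | nil => simp [cf_nil]
  | cons p L ih => rw [List.cons_append, cf_cons, cf_cons, ih, add_assoc]

theorem cf_ng (L : List (ℕ × ℤ)) (k : ℕ) : cf (ng L) k = - cf L k := by
  induction L with
  | nil => simp [cf_nil, ng]
  | cons p L ih =>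
    rw [ng, List.map_cons, cf_cons, cf_cons]
    rw [ng] at ih
    rw [ih]
    split_ifs <;> simp_all
    ring

theorem cf_eq_zero_of_notMem (L : List (ℕ × ℤ)) (k : ℕ) (h : ∀ p ∈ L, p.1 ≠ k) : cf L k = 0 := by
  induction L with
  | nil => rfl
  | cons p L ih =>
    rw [cf_cons, ih (fun q hq => h q (List.mem_cons_of_mem _ hq)), if_neg (h p List.mem_cons_self)]
    rfl

theorem zr_spec {L : List (ℕ × ℤ)} (h : zr L = true) (k : ℕ) : cf L k = 0 := by
  by_cases hk : ∃ p ∈ L, p.1 = k
  · obtain ⟨p, hp, rfl⟩ := hk
    rw [zr, List.all_eq_true] at h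
    exact (isz_iff _).1 (h p hp)
  · exact cf_eq_zero_of_notMem L k (fun p hp h' => hk ⟨p, hp, h'⟩)

/-- `e_8` over `A`, as a module.  The bracket is `br` (no `LieRing` instance is used: the one which
Mathlib finds on this function space is the zero bracket). -/
abbrev E8 (A : Type*) := Fin 248 → A

variable {A : Type*} [CommRing A]

/-- basis vectors -/
def eb (i : Fin 248) : E8 A := Pi.single i 1

theorem eb_apply (i j : Fin 248) : (eb i : E8 A) j = if j = i then 1 else 0 := by
  simp [eb, Pi.single_apply]

theorem E8.eq_sum (x : E8 A) : x = ∑ i, x i • (eb i : E8 A) := by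
  ext j
  simp [eb_apply]

/-- structure constants -/
def sc (i j k : Fin 248) : ℤ := scN i j k

/-- the bracket -/
def br (x y : E8 A) : E8 A := fun k => ∑ i, ∑ j, (sc i j k : A) * (x i * y j)

theorem br_apply (x y : E8 A) (k : Fin 248) :
    (br x y) k = ∑ i, ∑ j, (sc i j k : A) * (x i * y j) := rfl

theorem br_add_left (x x' y : E8 A) : br (x + x') y = br x y + br x' y := by
  ext k
  simp only [br_apply, Pi.add_apply, add_mul, mul_add, Finset.sum_add_distrib]

theorem br_add_right (x y y' : E8 A) : br x (y + y') = br x y + br x y' := by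
  ext k
  simp only [br_apply, Pi.add_apply, mul_add, Finset.sum_add_distrib]

theorem br_smul_left (c : A) (x y : E8 A) : br (c • x) y = c • br x y := by
  ext k
  simp only [br_apply, Pi.smul_apply, smul_eq_mul, Finset.mul_sum]
  refine Finset.sum_congr rfl fun i _ => Finset.sum_congr rfl fun j _ => ?_
  ring

theorem br_smul_right (c : A) (x y : E8 A) : br x (c • y) = c • br x y := by
  ext k
  simp only [br_apply, Pi.smul_apply, smul_eq_mul, Finset.mul_sum]
  refine Finset.sum_congr rfl fun i _ => Finset.sum_congr rfl fun j _ => ?_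
  ring

/-- the bracket as a bilinear map -/
def brL : E8 A →ₗ[A] E8 A →ₗ[A] E8 A :=
  LinearMap.mk₂ A br br_add_left br_smul_left br_add_right br_smul_right

@[simp] theorem brL_apply (x y : E8 A) : brL x y = br x y := rfl

@[simp] theorem br_zero_left (y : E8 A) : br 0 y = 0 := by
  simpa using br_smul_left (0 : A) 0 y

@[simp] theorem br_zero_right (x : E8 A) : br x 0 = 0 := by
  simpa using br_smul_right (0 : A) x 0

theorem br_neg_left (x y : E8 A) : br (-x) y = - br x y := by
  simpa using br_smul_left (-1 : A) x y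

theorem br_neg_right (x y : E8 A) : br x (-y) = - br x y := by
  simpa using br_smul_right (-1 : A) x y

theorem br_sub_left (x x' y : E8 A) : br (x - x') y = br x y - br x' y := by
  rw [sub_eq_add_neg, br_add_left, br_neg_left, sub_eq_add_neg]

theorem br_sub_right (x y y' : E8 A) : br x (y - y') = br x y - br x y' := by
  rw [sub_eq_add_neg, br_add_right, br_neg_right, sub_eq_add_neg]

theorem br_eb_eb (i j : Fin 248) (k : Fin 248) :
    (br (eb i : E8 A) (eb j)) k = (sc i j k : A) := by
  simp [br_apply, eb_apply]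

theorem br_sum_left {ι : Type*} (s : Finset ι) (x : ι → E8 A) (y : E8 A) :
    br (∑ i ∈ s, x i) y = ∑ i ∈ s, br (x i) y := by
  have h := congrArg (fun f => f y) (map_sum (brL (A := A)) x s)
  rw [LinearMap.sum_apply] at h
  exact h

theorem br_sum_right {ι : Type*} (s : Finset ι) (x : E8 A) (y : ι → E8 A) :
    br x (∑ i ∈ s, y i) = ∑ i ∈ s, br x (y i) :=
  map_sum (brL (A := A) x) y s

/-- two linear maps out of `E8 A` agree if they agree on the basis -/
theorem E8.hom_ext {M : Type*} [AddCommMonoid M] [Module A M] {f g : E8 A →ₗ[A] M}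
    (h : ∀ i, f (eb i) = g (eb i)) : f = g := by
  refine LinearMap.ext fun x => ?_
  rw [E8.eq_sum x, map_sum, map_sum]
  refine Finset.sum_congr rfl fun i _ => ?_
  rw [map_smul, map_smul, h]

end Pool.Agent.Licci
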