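import Pool.Agent.Work.MP_a98e4e_ag.L.Dat
import Pool.Agent.Work.MP_a98e4e_ag.L.Gen

/-!
# Module L2: exponentials of nilpotent inner derivations of `e_8`
-/

set_option linter.unusedSectionVars false

namespace Pool.Agent.Licci

open scoped BigOperators TensorProduct

section bilin

open IsNilpotent

/-- the exponential of a nilpotent derivation of a bilinear map is an automorphism -/
theorem exp_bilin {R M : Type*} [CommRing R] [AddCommGroup M] [Module R M] [Module ℚ M]
    (B : M →ₗ[R] M →ₗ[R] M) (D : Module.End R M) (hD : ∀ x y, D (B x y) = B (D x) y + B x (D y))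
    (h_nil : IsNilpotent D) (x y : M) : exp D (B x y) = B (exp D x) (exp D y) := by
  let DL : Module.End R (M ⊗[R] M) := D.lTensor M
  let DR : Module.End R (M ⊗[R] M) := D.rTensor M
  have h_nilL : IsNilpotent DL := h_nil.map <| Module.End.lTensorAlgHom R M M
  have h_nilR : IsNilpotent DR := h_nil.map <| Module.End.rTensorAlgHom R M M
  have h_comm : Commute DL DR := by ext; simp [DL, DR]
  set m : M ⊗[R] M →ₗ[R] M := TensorProduct.lift B with hm
  have h₁ : exp D (B x y) = m (exp (DL + DR) (x ⊗ₜ[R] y)) := by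
    suffices exp D ∘ₗ m = m ∘ₗ exp (DL + DR) by
      have := LinearMap.congr_fun this (x ⊗ₜ[R] y)
      simpa [hm] using this
    apply Module.End.commute_exp_left_of_commute (h_comm.isNilpotent_add h_nilL h_nilR) h_nil
    refine TensorProduct.ext' fun a b => ?_
    simp only [hm, DL, DR, LinearMap.comp_apply, TensorProduct.lift.tmul, LinearMap.add_apply,
      LinearMap.lTensor_tmul, LinearMap.rTensor_tmul, map_add]
    rw [hD, add_comm]
  have h₂ : exp DL = (exp D).lTensor M := (h_nil.map_exp (Module.End.lTensorAlgHom R M M)).symm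
  have h₃ : exp DR = (exp D).rTensor M := (h_nil.map_exp (Module.End.rTensorAlgHom R M M)).symm
  rw [h₁, exp_add_of_commute h_comm h_nilL h_nilR, h₂, h₃]
  simp [hm]

end bilin

section gen

variable {A : Type*} [CommRing A]

/-- base change -/
theorem br_map {A' : Type*} [CommRing A'] (φ : A →+* A') (x y : E8 A) :
    φ ∘ br x y = br (φ ∘ x) (φ ∘ y) := by
  funext k
  simp only [Function.comp_apply, br_apply, map_sum, map_mul, map_intCast]

/-- coefficients in a subalgebra -/
theorem br_mem {R : Type*} [CommRing R] [Algebra R A] (S : Subalgebra R A) {x y : E8 A}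
    (hx : ∀ m, x m ∈ S) (hy : ∀ m, y m ∈ S) (m : Fin 248) : br x y m ∈ S := by
  rw [br_apply]
  refine S.sum_mem fun i _ => S.sum_mem fun j _ => ?_
  exact S.mul_mem (intCast_mem S _) (S.mul_mem (hx i) (hy j))

theorem brL_commute {x y : E8 A} (h : br x y = 0) : Commute (brL x) (brL y) := by
  refine LinearMap.ext fun z => ?_
  change br x (br y z) = br y (br x z)
  rw [jacobi, h, br_zero_left, zero_add]

theorem brL_smul_pow {x : E8 A} (hx : (brL x) ^ 7 = 0) (s : A) : (brL (s • x)) ^ 7 = 0 := by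
  rw [map_smul, smul_pow, hx, smul_zero]

theorem brL_neg_pow {x : E8 A} (hx : (brL x) ^ 7 = 0) : (brL (-x)) ^ 7 = 0 := by
  have := brL_smul_pow hx (-1)
  rwa [neg_one_smul] at this

end gen

section

variable {A : Type*} [CommRing A] [Algebra ℚ A]

theorem ex_apply (x Y : E8 A) : ex x Y =
    ∑ n ∈ Finset.range 7, algebraMap ℚ A ((n.factorial : ℚ)⁻¹) • ((brL x) ^ n) Y := by
  rw [ex, LinearMap.sum_apply]
  rfl

/-- the exponential is Mathlib's -/
theorem ex_eq_exp {x : E8 A} (hx : (brL x) ^ 7 = 0) : ex x = IsNilpotent.exp (brL x) := by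
  rw [IsNilpotent.exp_eq_sum hx, ex]
  refine Finset.sum_congr rfl fun n _ => ?_
  rw [algebraMap_smul]

theorem ex_zero : ex (0 : E8 A) = LinearMap.id := by
  have h : (brL (0 : E8 A)) ^ 7 = 0 := by rw [map_zero, zero_pow (by norm_num)]
  rw [ex_eq_exp h, map_zero, IsNilpotent.exp_zero]
  rfl

/-- `(ad x)^7 = 0 ⇒ exp (ad x)` is an automorphism -/
theorem ex_br {x : E8 A} (hx : (brL x) ^ 7 = 0) (Y Z : E8 A) :
    ex x (br Y Z) = br (ex x Y) (ex x Z) := by
  rw [ex_eq_exp hx]
  exact exp_bilin (brL (A := A)) (brL x) (fun a b => jacobi x a b) ⟨7, hx⟩ Y Z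

theorem ex_neg_ex {x : E8 A} (hx : (brL x) ^ 7 = 0) (Y : E8 A) : ex (-x) (ex x Y) = Y := by
  rw [ex_eq_exp hx, ex_eq_exp (brL_neg_pow hx), map_neg]
  have := IsNilpotent.exp_neg_mul_exp_self (a := brL x) ⟨7, hx⟩
  exact LinearMap.congr_fun this Y

theorem ex_ex_neg {x : E8 A} (hx : (brL x) ^ 7 = 0) (Y : E8 A) : ex x (ex (-x) Y) = Y := by
  rw [ex_eq_exp hx, ex_eq_exp (brL_neg_pow hx), map_neg]
  have := IsNilpotent.exp_mul_exp_neg_self (a := brL x) ⟨7, hx⟩
  exact LinearMap.congr_fun this Y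

theorem ex_isAut {x : E8 A} (hx : (brL x) ^ 7 = 0) : IsAut (ex x) where
  bij := ⟨fun Y Z h => by
    have := congrArg (ex (-x)) h
    rwa [ex_neg_ex hx, ex_neg_ex hx] at this, fun Y => ⟨ex (-x) Y, ex_ex_neg hx Y⟩⟩
  map_br := ex_br hx

theorem ex_add {x y : E8 A} (hx : (brL x) ^ 7 = 0) (hy : (brL y) ^ 7 = 0)
    (hxy' : (brL (x + y)) ^ 7 = 0) (h : br x y = 0) (Y : E8 A) :
    ex (x + y) Y = ex x (ex y Y) := by
  rw [ex_eq_exp hx, ex_eq_exp hy, ex_eq_exp hxy', map_add,
    IsNilpotent.exp_add_of_commute (brL_commute h) ⟨7, hx⟩ ⟨7, hy⟩]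
  rfl

theorem br_self (x : E8 A) : br x x = 0 := by
  have h := br_skew x x
  have h2 : (2 : A) • br x x = 0 := by
    rw [two_smul]
    nth_rewrite 1 [h]
    exact neg_add_cancel _
  have h3 : (algebraMap ℚ A 2⁻¹ : A) • ((2 : A) • br x x) = 0 := by rw [h2, smul_zero]
  rwa [smul_smul, ← map_ofNat (algebraMap ℚ A) 2, ← map_mul,
    inv_mul_cancel₀ (by norm_num : (2 : ℚ) ≠ 0), map_one, one_smul] at h3

theorem ex_smul_smul {x : E8 A} (hx : (brL x) ^ 7 = 0) (s t : A) (Y : E8 A) :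
    ex ((s + t) • x) Y = ex (s • x) (ex (t • x) Y) := by
  rw [add_smul]
  refine ex_add (brL_smul_pow hx s) (brL_smul_pow hx t) ?_ ?_ Y
  · rw [← add_smul]; exact brL_smul_pow hx _
  · rw [br_smul_left, br_smul_right, br_self, smul_zero, smul_zero]

theorem pow_map {A' : Type*} [CommRing A'] (φ : A →+* A') (x Y : E8 A) (n : ℕ) :
    φ ∘ ((brL x) ^ n) Y = ((brL (φ ∘ x : E8 A')) ^ n) (φ ∘ Y) := by
  induction n with
  | zero => simp
  | succ n ih =>
    rw [pow_succ', pow_succ', Module.End.mul_apply, Module.End.mul_apply, brL_apply, brL_apply,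
      br_map, ih]

theorem ex_map {A' : Type*} [CommRing A'] [Algebra ℚ A'] (φ : A →+* A') (x Y : E8 A) :
    φ ∘ ex x Y = ex (φ ∘ x) (φ ∘ Y) := by
  rw [ex_apply, ex_apply]
  funext k
  rw [Function.comp_apply, Finset.sum_apply, Finset.sum_apply, map_sum]
  refine Finset.sum_congr rfl fun n _ => ?_
  rw [Pi.smul_apply, Pi.smul_apply, smul_eq_mul, smul_eq_mul, map_mul, φ.map_rat_algebraMap,
    ← pow_map]
  rfl

theorem pow_mem' {R : Type*} [CommRing R] [Algebra R A] (S : Subalgebra R A) {x Y : E8 A}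
    (hx : ∀ m, x m ∈ S) (hY : ∀ m, Y m ∈ S) (n : ℕ) (m : Fin 248) : ((brL x) ^ n) Y m ∈ S := by
  induction n generalizing m with
  | zero => simpa using hY m
  | succ n ih =>
    rw [pow_succ', Module.End.mul_apply, brL_apply]
    exact br_mem S hx ih m

theorem ex_mem {R : Type*} [CommRing R] [Algebra ℚ R] [Algebra R A] (S : Subalgebra R A)
    {x Y : E8 A} (hx : ∀ m, x m ∈ S) (hY : ∀ m, Y m ∈ S) (m : Fin 248) : ex x Y m ∈ S := by
  rw [ex_apply, Finset.sum_apply]
  refine S.sum_mem fun n _ => ?_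
  rw [Pi.smul_apply, smul_eq_mul]
  refine S.mul_mem ?_ (pow_mem' S hx hY n m)
  rw [← (algebraMap R A).map_rat_algebraMap]
  exact S.algebraMap_mem _

end

end Pool.Agent.Licci
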