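import Pool.Agent.Work.MP_a98e4e_ag.L.Form
import Pool.Agent.Work.MP_a98e4e_ag.L.ChkDef

/-!
# LICCI, codimension 4: brackets with `x ∧ y ∧ z` (helper43)

`p3_tri` and `om_tri`: the components of degree `3` and `2` of `[x ∧ y ∧ z, Y]`.
-/

set_option linter.unusedSectionVars false

namespace Pool.Agent.Licci

open scoped BigOperators

variable {A : Type*} [CommRing A]

/-! ### general facts -/

theorem sc_eq_zero_of_ne {n c m : Fin 248} (hn : (n : ℕ) < 240) (hm : (m : ℕ) < 240) (hnm : n ≠ m)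
    (h : (c : ℕ) ≠ fnd (cd m + off + off - cd n)) : sc n c m = 0 := by
  by_contra hs
  have h1 := scN_wt n.2 c.2 hs
  rcases lt_or_ge (c : ℕ) 240 with hc | hc
  · apply h
    have h2 : cd (c : ℕ) + off = cd m + off + off - cd n := by omega
    rw [← h2, fnd_cd hc]
  · have h2 := cd_cartan hc c.2
    have h3 : cd n = cd m := by omega
    apply hnm
    apply Fin.ext
    rw [← fnd_cd hn, ← fnd_cd hm, h3]

theorem br_eb_left (n : Fin 248) (Y : E8 A) (m : Fin 248) :
    br (eb n) Y m = ∑ c, (sc n c m : A) * Y c := by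
  rw [br_apply, Finset.sum_eq_single n]
  · simp [eb_apply]
  · intro b _ hb
    apply Finset.sum_eq_zero
    intro c _
    simp [eb_apply, hb]
  · intro h
    exact absurd (Finset.mem_univ _) h

/-- a bracket with a root vector, one component -/
theorem br_eb_left_of {n c m : Fin 248} (hn : (n : ℕ) < 240) (hm : (m : ℕ) < 240) (hnm : n ≠ m)
    (h : (c : ℕ) = fnd (cd m + off + off - cd n)) (Y : E8 A) :
    br (eb n) Y m = (sc n c m : A) * Y c := by
  rw [br_eb_left, Finset.sum_eq_single c]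
  · intro b _ hb
    rw [sc_eq_zero_of_ne hn hm hnm (fun hb' => hb (Fin.ext (hb'.trans h.symm)))]
    simp
  · intro h
    exact absurd (Finset.mem_univ _) h

theorem br_eb_left_zero {n m : Fin 248} (hn : (n : ℕ) < 240) (hm : (m : ℕ) < 240) (hnm : n ≠ m)
    (h : 248 ≤ fnd (cd m + off + off - cd n)) (Y : E8 A) :
    br (eb n) Y m = 0 := by
  rw [br_eb_left]
  apply Finset.sum_eq_zero
  intro b _
  rw [sc_eq_zero_of_ne hn hm hnm (by have := b.2; omega)]
  simp

/-! ### kernel checks -/

set_option maxRecDepth 100000 in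
theorem i1_rng : ∀ i j k : Fin 8, i < j → j < k → 36 ≤ (i1 i j k : ℕ) ∧ (i1 i j k : ℕ) < 92 := by
  decide +kernel

set_option maxRecDepth 100000 in
theorem i2_rng : ∀ i j : Fin 8, i < j → 8 ≤ (i2 i j : ℕ) ∧ (i2 i j : ℕ) < 36 := by
  decide +kernel

set_option maxRecDepth 100000 in
theorem tri3_chk : ∀ i j k : Fin 8, i < j → j < k → ∀ a : Fin 8,
    if a = i then (i2 j k : ℕ) = fnd (cd (ix a) + off + off - cd (i1 i j k)) ∧
      sc (i1 i j k) (i2 j k) (ix a) = - sg3 i j k
    else if a = j then (i2 i k : ℕ) = fnd (cd (ix a) + off + off - cd (i1 i j k)) ∧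
      sc (i1 i j k) (i2 i k) (ix a) = sg3 i j k
    else if a = k then (i2 i j : ℕ) = fnd (cd (ix a) + off + off - cd (i1 i j k)) ∧
      sc (i1 i j k) (i2 i j) (ix a) = - sg3 i j k
    else 248 ≤ fnd (cd (ix a) + off + off - cd (i1 i j k)) := by
  decide +kernel


/-- sign of the permutation sorting `i, j, k, p, q` -/
def ep5 (i j k p q : Fin 8) : ℤ :=
  ep3 i j k * ep2 p q * Int.sign (((p : ℤ) - i) * ((p : ℤ) - j) * ((p : ℤ) - k)) *
    Int.sign (((q : ℤ) - i) * ((q : ℤ) - j) * ((q : ℤ) - k))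

/-- index of the triple complementary to `i, j, k, p, q` -/
def cpl (i j k p q : Fin 8) : Fin 248 :=
  ix (fnd (0x44444444 + 0x11111111 - 16 ^ (i : ℕ) - 16 ^ (j : ℕ) - 16 ^ (k : ℕ) - 16 ^ (p : ℕ) -
    16 ^ (q : ℕ)))

set_option maxRecDepth 100000 in
theorem tri2_chk : ∀ i j k : Fin 8, i < j → j < k → ∀ p q : Fin 8, p < q →
    if ep5 i j k p q = 0 then
      248 ≤ fnd (cd (i2 p q) + off + off - cd (i1 i j k))
    else (cpl i j k p q : ℕ) = fnd (cd (i2 p q) + off + off - cd (i1 i j k)) ∧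
      sc (i1 i j k) (cpl i j k p q) (i2 p q) = - sg3 i j k * ep5 i j k p q := by
  decide +kernel

/-! ### symmetries -/

theorem ix_val {n : ℕ} (h : n < 248) : ((ix n : Fin 248) : ℕ) = n := by
  simp [ix, Nat.mod_eq_of_lt h]

theorem ix_fin (a : Fin 8) : ((ix a : Fin 248) : ℕ) = a := ix_val (lt_trans a.2 (by norm_num))

theorem ep3_of_lt {i j k : Fin 8} (h1 : i < j) (h2 : j < k) : ep3 i j k = 1 := by
  have h3 : ((i : ℕ) : ℤ) < j := by exact_mod_cast h1
  have h4 : ((j : ℕ) : ℤ) < k := by exact_mod_cast h2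
  unfold ep3
  rw [Int.sign_eq_one_iff_pos]
  have a1 : (0 : ℤ) < (j : ℤ) - i := by omega
  have a2 : (0 : ℤ) < (k : ℤ) - i := by omega
  have a3 : (0 : ℤ) < (k : ℤ) - j := by omega
  positivity

theorem ep2_of_lt {i j : Fin 8} (h1 : i < j) : ep2 i j = 1 := by
  have h3 : ((i : ℕ) : ℤ) < j := by exact_mod_cast h1
  unfold ep2
  rw [Int.sign_eq_one_iff_pos]
  omega

theorem ep3_swap (i j k : Fin 8) : ep3 i j k = - ep3 j i k := by
  unfold ep3
  rw [← Int.sign_neg]
  congr 1
  ring

theorem ep3_swap' (i j k : Fin 8) : ep3 i j k = - ep3 i k j := by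
  unfold ep3
  rw [← Int.sign_neg]
  congr 1
  ring

theorem ep3_self (i k : Fin 8) : ep3 i i k = 0 := by simp [ep3]

theorem ep2_swap (i j : Fin 8) : ep2 i j = - ep2 j i := by
  unfold ep2
  rw [← Int.sign_neg]
  congr 1
  ring

theorem ep2_self (i : Fin 8) : ep2 i i = 0 := by simp [ep2]

theorem sg3_swap (i j k : Fin 8) : sg3 i j k = sg3 j i k := by
  unfold sg3
  congr 1
  omega

theorem sg3_swap' (i j k : Fin 8) : sg3 i j k = sg3 i k j := by
  unfold sg3
  congr 1
  omega

theorem sg3_sq (i j k : Fin 8) : sg3 i j k * sg3 i j k = 1 := by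
  unfold sg3
  rw [← pow_add, ← two_mul, pow_mul]
  simp

theorem i1_swap (i j k : Fin 8) : i1 i j k = i1 j i k := by
  unfold i1
  congr 2
  ring

theorem i1_swap' (i j k : Fin 8) : i1 i j k = i1 i k j := by
  unfold i1
  congr 2
  ring

theorem i2_swap (i j : Fin 8) : i2 i j = i2 j i := by
  unfold i2
  congr 2
  omega

theorem T_swap (i j k : Fin 8) : (T i j k : E8 A) = - T j i k := by
  unfold T
  rw [i1_swap i j k, sg3_swap i j k, ep3_swap i j k, mul_neg, neg_neg, ← neg_smul]
  congr 1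
  push_cast
  ring

theorem T_swap' (i j k : Fin 8) : (T i j k : E8 A) = - T i k j := by
  unfold T
  rw [i1_swap' i j k, sg3_swap' i j k, ep3_swap' i j k, mul_neg, neg_neg, ← neg_smul]
  congr 1
  push_cast
  ring

theorem T_self (i k : Fin 8) : (T i i k : E8 A) = 0 := by
  unfold T
  rw [ep3_self]
  simp

theorem w2_swap (Y : E8 A) (i j : Fin 8) : w2 Y i j = - w2 Y j i := by
  unfold w2
  rw [ep2_swap i j, i2_swap i j]
  push_cast
  ring

theorem w2_self (Y : E8 A) (i : Fin 8) : w2 Y i i = 0 := by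
  unfold w2
  rw [ep2_self]
  simp

/-- an alternating function vanishes if it vanishes on increasing triples -/
theorem alt3_zero {M : Type*} [AddCommGroup M] (Φ : Fin 8 → Fin 8 → Fin 8 → M)
    (h1 : ∀ i j k, Φ i j k = - Φ j i k) (h2 : ∀ i j k, Φ i j k = - Φ i k j)
    (h0 : ∀ i k, Φ i i k = 0) (hs : ∀ i j k, i < j → j < k → Φ i j k = 0) (i j k : Fin 8) :
    Φ i j k = 0 := by
  have key : ∀ i j k, i < j → Φ i j k = 0 := by
    intro i j k hij
    rcases lt_trichotomy j k with h | h | h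
    · exact hs i j k hij h
    · subst h
      rw [h1, h2, h0]
      simp
    · rcases lt_trichotomy i k with h' | h' | h'
      · rw [h2, hs i k j h' h, neg_zero]
      · subst h'
        rw [h2, h0, neg_zero]
      · rw [h2, h1, hs k i j h' hij]
        simp
  rcases lt_trichotomy i j with h | h | h
  · exact key i j k h
  · subst h
    exact h0 i k
  · rw [h1, key j i k h, neg_zero]

/-! ### degree three -/

theorem br_T_three {i j k : Fin 8} (hij : i < j) (hjk : j < k) (Y : E8 A) (a : Fin 8) :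
    br (T i j k) Y (ix a) = w2 Y j k * (if a = i then 1 else 0) - w2 Y i k * (if a = j then 1 else 0) +
      w2 Y i j * (if a = k then 1 else 0) := by
  have hr := i1_rng i j k hij hjk
  have ha : ((ix a : Fin 248) : ℕ) = a := ix_fin a
  have hn : ((i1 i j k : Fin 248) : ℕ) < 240 := by omega
  have hm : ((ix a : Fin 248) : ℕ) < 240 := by omega
  have hnm : i1 i j k ≠ ix a := by
    intro h
    have := congrArg Fin.val h
    omega
  have hc := tri3_chk i j k hij hjk a
  have hs : ((sg3 i j k : ℤ) : A) * ((sg3 i j k : ℤ) : A) = 1 := by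
    rw [← Int.cast_mul, sg3_sq, Int.cast_one]
  have hik : i < k := lt_trans hij hjk
  unfold T
  rw [br_smul_left, Pi.smul_apply, smul_eq_mul, ep3_of_lt hij hjk, mul_one]
  unfold w2
  rw [ep2_of_lt hij, ep2_of_lt hjk, ep2_of_lt hik, Int.cast_one, one_mul, one_mul, one_mul]
  by_cases h1 : a = i
  · rw [if_pos h1] at hc
    rw [br_eb_left_of hn hm hnm hc.1, hc.2, if_pos h1, if_neg (by rw [h1]; exact ne_of_lt hij),
      if_neg (by rw [h1]; exact ne_of_lt hik)]
    push_cast
    linear_combination (Y (i2 j k)) * hs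
  · rw [if_neg h1] at hc
    by_cases h2 : a = j
    · rw [if_pos h2] at hc
      rw [br_eb_left_of hn hm hnm hc.1, hc.2, if_neg h1, if_pos h2,
        if_neg (by rw [h2]; exact ne_of_lt hjk)]
      push_cast
      linear_combination - (Y (i2 i k)) * hs
    · rw [if_neg h2] at hc
      by_cases h3 : a = k
      · rw [if_pos h3] at hc
        rw [br_eb_left_of hn hm hnm hc.1, hc.2, if_neg h1, if_neg h2, if_pos h3]
        push_cast
        linear_combination (Y (i2 i j)) * hs
      · rw [if_neg h3] at hc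
        rw [br_eb_left_zero hn hm hnm hc, if_neg h1, if_neg h2, if_neg h3]
        ring

theorem br_T_three' (i j k : Fin 8) (Y : E8 A) (a : Fin 8) :
    br (T i j k) Y (ix a) = w2 Y j k * (if a = i then 1 else 0) - w2 Y i k * (if a = j then 1 else 0) +
      w2 Y i j * (if a = k then 1 else 0) := by
  rw [← sub_eq_zero]
  refine alt3_zero (fun i j k => br (T i j k) Y (ix a) - (w2 Y j k * (if a = i then 1 else 0) -
    w2 Y i k * (if a = j then 1 else 0) + w2 Y i j * (if a = k then 1 else 0))) ?_ ?_ ?_ ?_ i j k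
  · intro i j k
    rw [T_swap i j k, br_neg_left, Pi.neg_apply, w2_swap Y j i]
    ring
  · intro i j k
    rw [T_swap' i j k, br_neg_left, Pi.neg_apply, w2_swap Y j k]
    ring
  · intro i k
    rw [T_self, br_zero_left, w2_self, Pi.zero_apply]
    ring
  · intro i j k h1 h2
    rw [br_T_three h1 h2, sub_self]

theorem br_tri_apply (x y z : Vec A) (Y : E8 A) (m : Fin 248) :
    br (tri x y z) Y m = ∑ i, ∑ j, ∑ k, (x i * y j * z k) * br (T i j k) Y m := by
  unfold tri
  rw [br_sum_left, Finset.sum_apply]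
  refine Finset.sum_congr rfl fun i _ => ?_
  rw [br_sum_left, Finset.sum_apply]
  refine Finset.sum_congr rfl fun j _ => ?_
  rw [br_sum_left, Finset.sum_apply]
  refine Finset.sum_congr rfl fun k _ => ?_
  rw [br_smul_left, Pi.smul_apply, smul_eq_mul]

/-- (F2) -/
theorem p3_tri (x y z : Vec A) (Y : E8 A) :
    p3 (br (tri x y z) Y) = om Y y z • x - om Y x z • y + om Y x y • z := by
  funext a
  change br (tri x y z) Y (ix a) = _
  rw [br_tri_apply]
  simp only [br_T_three', Pi.add_apply, Pi.sub_apply, Pi.smul_apply, smul_eq_mul, om]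
  have e1 : ∑ i, ∑ j, ∑ k, x i * y j * z k * (w2 Y j k * (if a = i then 1 else 0)) =
      (∑ j, ∑ k, w2 Y j k * (y j * z k)) * x a := by
    rw [Finset.sum_eq_single a]
    · simp only [if_true, mul_one, Finset.sum_mul]
      refine Finset.sum_congr rfl fun j _ => Finset.sum_congr rfl fun k _ => ?_
      ring
    · intro i _ hi
      simp [Ne.symm hi]
    · intro h
      exact absurd (Finset.mem_univ _) h
  have e2 : ∑ i, ∑ j, ∑ k, x i * y j * z k * (w2 Y i k * (if a = j then 1 else 0)) =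
      (∑ i, ∑ k, w2 Y i k * (x i * z k)) * y a := by
    rw [Finset.sum_mul]
    refine Finset.sum_congr rfl fun i _ => ?_
    rw [Finset.sum_eq_single a]
    · simp only [if_true, mul_one, Finset.sum_mul]
      refine Finset.sum_congr rfl fun k _ => ?_
      ring
    · intro j _ hj
      simp [Ne.symm hj]
    · intro h
      exact absurd (Finset.mem_univ _) h
  have e3 : ∑ i, ∑ j, ∑ k, x i * y j * z k * (w2 Y i j * (if a = k then 1 else 0)) =
      (∑ i, ∑ j, w2 Y i j * (x i * y j)) * z a := by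
    rw [Finset.sum_mul]
    refine Finset.sum_congr rfl fun i _ => ?_
    rw [Finset.sum_mul]
    refine Finset.sum_congr rfl fun j _ => ?_
    rw [Finset.sum_eq_single a]
    · simp only [if_true, mul_one]
      ring
    · intro k _ hk
      simp [Ne.symm hk]
    · intro h
      exact absurd (Finset.mem_univ _) h
  rw [← e1, ← e2, ← e3]
  simp only [← Finset.sum_sub_distrib, ← Finset.sum_add_distrib]
  refine Finset.sum_congr rfl fun i _ => Finset.sum_congr rfl fun j _ =>
    Finset.sum_congr rfl fun k _ => ?_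
  ring

/-! ### degree two -/

theorem ep5_swap12 (i j k p q : Fin 8) : ep5 i j k p q = - ep5 j i k p q := by
  unfold ep5
  rw [ep3_swap i j k, show ((p : ℤ) - i) * ((p : ℤ) - j) * ((p : ℤ) - k) =
    ((p : ℤ) - j) * ((p : ℤ) - i) * ((p : ℤ) - k) by ring,
    show ((q : ℤ) - i) * ((q : ℤ) - j) * ((q : ℤ) - k) =
    ((q : ℤ) - j) * ((q : ℤ) - i) * ((q : ℤ) - k) by ring]
  ring

theorem ep5_swap23 (i j k p q : Fin 8) : ep5 i j k p q = - ep5 i k j p q := by
  unfold ep5
  rw [ep3_swap' i j k, show ((p : ℤ) - i) * ((p : ℤ) - j) * ((p : ℤ) - k) =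
    ((p : ℤ) - i) * ((p : ℤ) - k) * ((p : ℤ) - j) by ring,
    show ((q : ℤ) - i) * ((q : ℤ) - j) * ((q : ℤ) - k) =
    ((q : ℤ) - i) * ((q : ℤ) - k) * ((q : ℤ) - j) by ring]
  ring

theorem ep5_swap45 (i j k p q : Fin 8) : ep5 i j k p q = - ep5 i j k q p := by
  unfold ep5
  rw [ep2_swap p q]
  ring

theorem ep5_eq (i j k p q : Fin 8) : ep5 i j k p q =
    Int.sign ((((j : ℤ) - i) * ((k : ℤ) - i) * ((k : ℤ) - j)) * ((q : ℤ) - p) *
      (((p : ℤ) - i) * ((p : ℤ) - j) * ((p : ℤ) - k)) *
      (((q : ℤ) - i) * ((q : ℤ) - j) * ((q : ℤ) - k))) := by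
  unfold ep5 ep3 ep2
  simp only [Int.sign_mul]

theorem ep5_swap14 (i j k p q : Fin 8) : ep5 i j k p q = - ep5 p j k i q := by
  rw [ep5_eq, ep5_eq, ← Int.sign_neg]
  congr 1
  ring

theorem cpl_swap12 (i j k p q : Fin 8) : cpl i j k p q = cpl j i k p q := by
  unfold cpl
  congr 2
  omega

theorem cpl_swap23 (i j k p q : Fin 8) : cpl i j k p q = cpl i k j p q := by
  unfold cpl
  congr 2
  omega

theorem cpl_swap45 (i j k p q : Fin 8) : cpl i j k p q = cpl i j k q p := by
  unfold cpl
  congr 2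
  omega

theorem cpl_swap14 (i j k p q : Fin 8) : cpl i j k p q = cpl p j k i q := by
  unfold cpl
  congr 2
  omega

theorem w2_br_T_sorted {i j k p q : Fin 8} (hij : i < j) (hjk : j < k) (hpq : p < q) (Y : E8 A) :
    w2 (br (T i j k) Y) p q = (ep5 i j k p q : A) * Y (cpl i j k p q) := by
  have hr := i1_rng i j k hij hjk
  have hr2 := i2_rng p q hpq
  have hn : ((i1 i j k : Fin 248) : ℕ) < 240 := by omega
  have hm : ((i2 p q : Fin 248) : ℕ) < 240 := by omega
  have hnm : i1 i j k ≠ i2 p q := by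
    intro h
    have := congrArg Fin.val h
    omega
  have hc := tri2_chk i j k hij hjk p q hpq
  have hs : ((sg3 i j k : ℤ) : A) * ((sg3 i j k : ℤ) : A) = 1 := by
    rw [← Int.cast_mul, sg3_sq, Int.cast_one]
  unfold T w2
  rw [br_smul_left, Pi.smul_apply, smul_eq_mul, ep3_of_lt hij hjk, mul_one, ep2_of_lt hpq,
    Int.cast_one, one_mul]
  by_cases h : ep5 i j k p q = 0
  · rw [if_pos h] at hc
    rw [br_eb_left_zero hn hm hnm hc, h]
    simp
  · rw [if_neg h] at hc
    rw [br_eb_left_of hn hm hnm hc.1, hc.2]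
    push_cast
    linear_combination ((ep5 i j k p q : ℤ) : A) * Y (cpl i j k p q) * hs

theorem w2_br_T (i j k p q : Fin 8) (Y : E8 A) :
    w2 (br (T i j k) Y) p q = (ep5 i j k p q : A) * Y (cpl i j k p q) := by
  have key : ∀ p q : Fin 8, p < q → ∀ i j k : Fin 8,
      w2 (br (T i j k) Y) p q = (ep5 i j k p q : A) * Y (cpl i j k p q) := by
    intro p q hpq i j k
    rw [← sub_eq_zero]
    refine alt3_zero (fun i j k => w2 (br (T i j k) Y) p q -
      (ep5 i j k p q : A) * Y (cpl i j k p q)) ?_ ?_ ?_ ?_ i j k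
    · intro i j k
      simp only [w2]
      rw [T_swap i j k, br_neg_left, Pi.neg_apply, ep5_swap12 i j k, cpl_swap12 i j k]
      push_cast
      ring
    · intro i j k
      simp only [w2]
      rw [T_swap' i j k, br_neg_left, Pi.neg_apply, ep5_swap23 i j k, cpl_swap23 i j k]
      push_cast
      ring
    · intro i k
      simp only [w2]
      rw [T_self, br_zero_left, Pi.zero_apply]
      simp [ep5, ep3_self]
    · intro i j k h1 h2
      rw [w2_br_T_sorted h1 h2 hpq, sub_self]
  rcases lt_trichotomy p q with h | h | h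
  · exact key p q h i j k
  · subst h
    rw [w2_self]
    simp [ep5, ep2_self]
  · rw [w2_swap, key q p h, ep5_swap45 i j k p q, cpl_swap45 i j k p q]
    push_cast
    ring

theorem sum_alt {M : Type*} [CommRing M] (a : Fin 8 → Fin 8 → M) (h0 : ∀ i, a i i = 0)
    (h : ∀ i p, a i p = - a p i) (x : Fin 8 → M) : ∑ i, ∑ p, a i p * (x i * x p) = 0 := by
  rw [← Finset.sum_product']
  refine Finset.sum_involution (fun ip _ => (ip.2, ip.1)) ?_ ?_ ?_ ?_
  · intro ip _
    simp only
    rw [h ip.1 ip.2]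
    ring
  · intro ip _ hne heq
    apply hne
    have h1 : ip.2 = ip.1 := congrArg Prod.fst heq
    rw [h1, h0, zero_mul]
  · intro ip _
    simp
  · intro ip _
    rfl

theorem w2_br_tri (x y z : Vec A) (Y : E8 A) (p q : Fin 8) :
    w2 (br (tri x y z) Y) p q =
      ∑ i, ∑ j, ∑ k, (x i * y j * z k) * ((ep5 i j k p q : A) * Y (cpl i j k p q)) := by
  have e : ∀ i j k, ((ep5 i j k p q : A) * Y (cpl i j k p q)) =
      (ep2 p q : A) * br (T i j k) Y (i2 p q) := by
    intro i j k
    rw [← w2_br_T]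
    rfl
  unfold w2
  rw [br_tri_apply, Finset.mul_sum]
  refine Finset.sum_congr rfl fun i _ => ?_
  rw [Finset.mul_sum]
  refine Finset.sum_congr rfl fun j _ => ?_
  rw [Finset.mul_sum]
  refine Finset.sum_congr rfl fun k _ => ?_
  rw [e]
  ring

/-- (F3) -/
theorem om_tri (x y z : Vec A) (Y : E8 A) (u : Vec A) : om (br (tri x y z) Y) x u = 0 := by
  unfold om
  have e : ∀ p q, w2 (br (tri x y z) Y) p q * (x p * u q) =
      ∑ i, (∑ j, ∑ k, (y j * z k * u q) * ((ep5 i j k p q : A) * Y (cpl i j k p q))) *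
        (x i * x p) := by
    intro p q
    rw [w2_br_tri, Finset.sum_mul]
    refine Finset.sum_congr rfl fun i _ => ?_
    rw [Finset.sum_mul, Finset.sum_mul]
    refine Finset.sum_congr rfl fun j _ => ?_
    rw [Finset.sum_mul, Finset.sum_mul]
    refine Finset.sum_congr rfl fun k _ => ?_
    ring
  simp only [e]
  rw [Finset.sum_comm]
  apply Finset.sum_eq_zero
  intro q _
  rw [Finset.sum_comm]
  refine sum_alt (fun i p => ∑ j, ∑ k, (y j * z k * u q) * ((ep5 i j k p q : A) *
    Y (cpl i j k p q))) ?_ ?_ x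
  · intro i
    refine Finset.sum_eq_zero fun j _ => Finset.sum_eq_zero fun k _ => ?_
    have h0 : ep5 i j k i q = 0 := by simp [ep5]
    rw [h0]
    simp
  · intro i p
    rw [← Finset.sum_neg_distrib]
    refine Finset.sum_congr rfl fun j _ => ?_
    rw [← Finset.sum_neg_distrib]
    refine Finset.sum_congr rfl fun k _ => ?_
    rw [ep5_swap14 i j k p q, cpl_swap14 i j k p q]
    push_cast
    ring

end Pool.Agent.Licci
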