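import Pool.Agent.Work.MP_a98e4e_ag.L.FormA1
import Pool.Agent.Work.MP_a98e4e_ag.L.FormA2
import Pool.Agent.Work.MP_a98e4e_ag.L.Exp
import Pool.Agent.Work.MP_a98e4e_ag.TermX

/-!
# LICCI, codimension 4: the hypotheses of the termination step (helper43)

`E x y z = ad (x ∧ y ∧ z)`; degree of the `m`-th basis vector = `z`-degree `+ 3`.
-/

set_option linter.unusedSectionVars false

noncomputable section

namespace Pool.Agent.Licci

open scoped BigOperators
open Module

variable {A : Type*} [CommRing A]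

/-! ### `x ∧ y ∧ z` is trilinear -/

theorem tri_add_left (x x' y z : Vec A) : tri (x + x') y z = tri x y z + tri x' y z := by
  simp only [tri, ← Finset.sum_add_distrib, ← add_smul, Pi.add_apply]
  refine Finset.sum_congr rfl fun i _ => Finset.sum_congr rfl fun j _ =>
    Finset.sum_congr rfl fun k _ => ?_
  congr 1
  ring

theorem tri_smul_left (c : A) (x y z : Vec A) : tri (c • x) y z = c • tri x y z := by
  simp only [tri, Finset.smul_sum, smul_smul, Pi.smul_apply, smul_eq_mul]
  refine Finset.sum_congr rfl fun i _ => Finset.sum_congr rfl fun j _ =>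
    Finset.sum_congr rfl fun k _ => ?_
  congr 1
  ring

theorem tri_add_mid (x y y' z : Vec A) : tri x (y + y') z = tri x y z + tri x y' z := by
  simp only [tri, ← Finset.sum_add_distrib, ← add_smul, Pi.add_apply]
  refine Finset.sum_congr rfl fun i _ => Finset.sum_congr rfl fun j _ =>
    Finset.sum_congr rfl fun k _ => ?_
  congr 1
  ring

theorem tri_smul_mid (c : A) (x y z : Vec A) : tri x (c • y) z = c • tri x y z := by
  simp only [tri, Finset.smul_sum, smul_smul, Pi.smul_apply, smul_eq_mul]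
  refine Finset.sum_congr rfl fun i _ => Finset.sum_congr rfl fun j _ =>
    Finset.sum_congr rfl fun k _ => ?_
  congr 1
  ring

theorem tri_add_right (x y z z' : Vec A) : tri x y (z + z') = tri x y z + tri x y z' := by
  simp only [tri, ← Finset.sum_add_distrib, ← add_smul, Pi.add_apply]
  refine Finset.sum_congr rfl fun i _ => Finset.sum_congr rfl fun j _ =>
    Finset.sum_congr rfl fun k _ => ?_
  congr 1
  ring

theorem tri_smul_right (c : A) (x y z : Vec A) : tri x y (c • z) = c • tri x y z := by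
  simp only [tri, Finset.smul_sum, smul_smul, Pi.smul_apply, smul_eq_mul]
  refine Finset.sum_congr rfl fun i _ => Finset.sum_congr rfl fun j _ =>
    Finset.sum_congr rfl fun k _ => ?_
  congr 1
  ring

/-- `x ∧ y ∧ z` as a trilinear map -/
def triL : Vec A →ₗ[A] Vec A →ₗ[A] Vec A →ₗ[A] E8 A :=
  LinearMap.mk₂ A (fun x y =>
    { toFun := fun z => tri x y z
      map_add' := tri_add_right x y
      map_smul' := fun c z => tri_smul_right c x y z })
    (fun x x' y => LinearMap.ext fun z => tri_add_left x x' y z)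
    (fun c x y => LinearMap.ext fun z => tri_smul_left c x y z)
    (fun x y y' => LinearMap.ext fun z => tri_add_mid x y y' z)
    (fun c x y => LinearMap.ext fun z => tri_smul_mid c x y z)

@[simp] theorem triL_apply (x y z : Vec A) : triL x y z = tri x y z := rfl

/-- `ad (x ∧ y ∧ z)` -/
def EL : Vec A →ₗ[A] Vec A →ₗ[A] Vec A →ₗ[A] Module.End A (Fin 248 → A) :=
  triL.compr₂ (LinearMap.compRight A brL)

@[simp] theorem EL_apply (x y z : Vec A) (u : Fin 248 → A) : EL x y z u = br (tri x y z) u := by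
  unfold EL
  rw [LinearMap.compr₂_apply]
  rfl

theorem tri_single (i j k : Fin 8) :
    tri (Pi.single i (1 : A)) (Pi.single j 1) (Pi.single k 1) = T i j k := by
  unfold tri
  rw [Finset.sum_eq_single i]
  · rw [Finset.sum_eq_single j]
    · rw [Finset.sum_eq_single k]
      · simp
      · intro b _ hb
        simp [hb]
      · intro h
        exact absurd (Finset.mem_univ _) h
    · intro b _ hb
      refine Finset.sum_eq_zero fun k' _ => ?_
      simp [hb]
    · intro h
      exact absurd (Finset.mem_univ _) h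
  · intro b _ hb
    refine Finset.sum_eq_zero fun j' _ => Finset.sum_eq_zero fun k' _ => ?_
    simp [hb]
  · intro h
    exact absurd (Finset.mem_univ _) h

/-! ### degrees -/

/-- degree of a basis vector, shifted -/
def dgE (m : Fin 248) : ℕ := (zdg m + 3).toNat

set_option maxRecDepth 100000 in
theorem zdg_chk : ∀ m : Fin 248, -3 ≤ zdg m ∧ zdg m ≤ 3 ∧ (zdg m = 3 → (m : ℕ) < 8) ∧
    (zdg m = 2 → 8 ≤ (m : ℕ) ∧ (m : ℕ) < 36) ∧ (zdg m ≤ 1 → 36 ≤ (m : ℕ)) ∧
    (36 ≤ (m : ℕ) → (m : ℕ) < 92 → zdg m = 1) ∧ (240 ≤ (m : ℕ) → zdg m = 0) := by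
  decide +kernel

theorem dgE_eq_iff (m : Fin 248) (d : ℤ) (hd : -3 ≤ d) : dgE m = (d + 3).toNat ↔ zdg m = d := by
  have := (zdg_chk m).1
  unfold dgE
  omega

theorem dgE_le (m : Fin 248) : dgE m ≤ 6 := by
  have := zdg_chk m
  unfold dgE
  omega


/-- brackets with the root vectors of degree `1` -/
def oneck (n c : ℕ) : Bool := (sp n c).all (fun p => decide (zdN p.1 = zdN c + 1))

set_option maxRecDepth 100000 in
theorem one_chk : (List.range 56).all (fun n => (List.range 248).all
    (fun c => oneck (36 + n) c)) = true := by decide +kernel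


theorem sc_one {n c m : Fin 248} (h1 : 36 ≤ (n : ℕ)) (h2 : (n : ℕ) < 92) (h : sc n c m ≠ 0) :
    zdg c + 1 = zdg m := by
  have e1 := all_range one_chk (i := (n : ℕ) - 36) (by omega)
  have e2 := all_range e1 (i := (c : ℕ)) c.2
  have e3 : 36 + ((n : ℕ) - 36) = n := by omega
  simp only [e3, oneck, List.all_eq_true, decide_eq_true_eq] at e2
  by_contra hc
  apply h
  refine cf_eq_zero_of_notMem _ _ fun p hp hl => hc ?_
  have e4 := e2 p hp
  rw [hl] at e4
  exact e4.symm

theorem br_T_deg (i j k : Fin 8) (u : E8 A) (a : Fin 248)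
    (h : ∀ b, dgE b + 1 = dgE a → u b = 0) : br (T i j k) u a = 0 := by
  refine alt3_zero (fun i j k => br (T i j k) u a) ?_ ?_ ?_ ?_ i j k
  · intro i j k
    rw [T_swap i j k, br_neg_left, Pi.neg_apply]
  · intro i j k
    rw [T_swap' i j k, br_neg_left, Pi.neg_apply]
  · intro i k
    rw [T_self, br_zero_left, Pi.zero_apply]
  · intro i j k h1 h2
    have hr := i1_rng i j k h1 h2
    unfold T
    rw [br_smul_left, Pi.smul_apply, br_eb_left]
    rw [Finset.sum_eq_zero, smul_zero]
    intro c _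
    by_cases hs : sc (i1 i j k) c a = 0
    · rw [hs]
      simp
    · have h3 := sc_one hr.1 hr.2 hs
      have h4 := (zdg_chk c).1
      rw [h c (by unfold dgE; omega), mul_zero]

theorem br_tri_deg (x y z : Vec A) (u : E8 A) (a : Fin 248)
    (h : ∀ b, dgE b + 1 = dgE a → u b = 0) : br (tri x y z) u a = 0 := by
  rw [br_tri_apply]
  refine Finset.sum_eq_zero fun i _ => Finset.sum_eq_zero fun j _ =>
    Finset.sum_eq_zero fun k _ => ?_
  rw [br_T_deg i j k u a h, mul_zero]

/-- `[x ∧ y ∧ z, [x ∧ y ∧ z, Y]]` has no component of degree `3` -/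
theorem p3_tri_tri (x y z : Vec A) (Y : E8 A) : p3 (br (tri x y z) (br (tri x y z) Y)) = 0 := by
  have h1 : om (br (tri x y z) Y) x z = 0 := om_tri x y z Y z
  have h2 : om (br (tri x y z) Y) x y = 0 := om_tri x y z Y y
  have h3 : om (br (tri x y z) Y) y z = 0 := by
    rw [tri_swap_left, br_neg_left, ← neg_one_smul A (br (tri y x z) Y)]
    have h4 := om_tri y x z Y z
    simp only [om, w2, Pi.smul_apply, smul_eq_mul] at h4 ⊢
    have h5 : ∑ i, ∑ j, (ep2 i j : A) * (-1 * br (tri y x z) Y (i2 i j)) * (y i * z j) =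
        - ∑ i, ∑ j, (ep2 i j : A) * br (tri y x z) Y (i2 i j) * (y i * z j) := by
      rw [← Finset.sum_neg_distrib]
      refine Finset.sum_congr rfl fun i _ => ?_
      rw [← Finset.sum_neg_distrib]
      refine Finset.sum_congr rfl fun j _ => ?_
      ring
    rw [h5, h4, neg_zero]
  rw [p3_tri, h1, h2, h3]
  simp

theorem H3E (x y z : Vec A) (u : E8 A) (hu : ∀ a, dgE a ≠ 4 → u a = 0) :
    br (tri x y z) (br (tri x y z) u) = 0 := by
  funext a
  by_cases ha : zdg a = 3
  · have h1 := (zdg_chk a).2.2.1 ha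
    have h2 := congrFun (p3_tri_tri x y z u) ⟨a, h1⟩
    have h3 : ix ((⟨a, h1⟩ : Fin 8) : ℕ) = a := Fin.ext (ix_val a.2)
    simp only [p3] at h2
    rw [h3] at h2
    exact h2
  · refine br_tri_deg x y z _ a fun b hb => br_tri_deg x y z u b fun c hc => hu c ?_
    have h4 := (zdg_chk a).1
    have h5 := (zdg_chk b).1
    have h6 := (zdg_chk c).1
    unfold dgE at hb hc ⊢
    omega

/-! ### faithfulness in degrees at most one -/

set_option maxRecDepth 100000 in
theorem pick_chk : ∀ m : Fin 248, 36 ≤ (m : ℕ) → (m : ℕ) < 240 → ∃ i j k : Fin 8, i < j ∧ j < k ∧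
    fnd (cd (i1 i j k) + cd m) < 240 := by
  decide +kernel

theorem fnd_off : ¬ fnd (off + off) < 240 := by decide +kernel

/-- the bracket of two roots whose sum is a root -/
theorem scN_root {i j : ℕ} (hi : i < 240) (hj : j < 240) (h : fnd (cd i + cd j) < 240) :
    scN i j (fnd (cd i + cd j)) = 1 ∨ scN i j (fnd (cd i + cd j)) = -1 := by
  have b1 : Nat.blt i 240 = true := by simpa [Nat.blt_eq] using hi
  have b2 : Nat.blt j 240 = true := by simpa [Nat.blt_eq] using hj
  have b3 : Nat.blt (fnd (Nat.add (cd i) (cd j))) 240 = true := by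
    simpa [Nat.blt_eq] using h
  unfold scN sp
  simp only [b1, b2, b3, cond_true]
  cases h6 : sgB i j with
  | true =>
    right
    simp only [cond_true]
    rw [cf_cons, cf_nil]
    simp
  | false =>
    left
    simp only [cond_false]
    rw [cf_cons, cf_nil]
    simp

variable {k : Type*} [Field k]

theorem eb_of_T {i j l : Fin 8} (h1 : i < j) (h2 : j < l) {u : E8 k} (h : br (T i j l) u = 0) :
    br (eb (i1 i j l)) u = 0 := by
  unfold T at h
  rw [br_smul_left, ep3_of_lt h1 h2, mul_one] at h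
  have hs : ((sg3 i j l : ℤ) : k) * ((sg3 i j l : ℤ) : k) = 1 := by
    rw [← Int.cast_mul, sg3_sq, Int.cast_one]
  have h3 := congrArg (fun v => (((-sg3 i j l : ℤ)) : k) • v) h
  simp only [smul_smul, smul_zero] at h3
  have h4 : (((-sg3 i j l : ℤ)) : k) * (((-sg3 i j l : ℤ)) : k) = 1 := by
    push_cast
    linear_combination hs
  rwa [h4, one_smul] at h3

theorem root_zero {u : E8 k} (h : ∀ x y z : Vec k, br (tri x y z) u = 0) (m : Fin 248)
    (h1 : 36 ≤ (m : ℕ)) (h2 : (m : ℕ) < 240) : u m = 0 := by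
  obtain ⟨i, j, l, hij, hjl, hf⟩ := pick_chk m h1 h2
  have hr := i1_rng i j l hij hjl
  have h3 : br (T i j l) u = 0 := by rw [← tri_single]; exact h _ _ _
  have h4 := eb_of_T hij hjl h3
  set n := i1 i j l with hn
  have hc : fnd (cd n + cd m) < 248 := by omega
  have e1 : cd (fnd (cd n + cd m)) + off = cd n + cd m := fnd_spec hf
  have e2 : (m : ℕ) = fnd (cd ((⟨fnd (cd n + cd m), hc⟩ : Fin 248) : ℕ) + off + off - cd n) := by
    change (m : ℕ) = fnd (cd (fnd (cd n + cd m)) + off + off - cd n)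
    rw [show cd (fnd (cd n + cd m)) + off + off - cd n = cd m + off by omega, fnd_cd h2]
  have e3 : n ≠ (⟨fnd (cd n + cd m), hc⟩ : Fin 248) := by
    intro h5
    have h6 : cd n = cd (fnd (cd n + cd m)) := congrArg (fun t : Fin 248 => cd t) h5
    have h7 : cd m = off := by omega
    have h8 := fnd_cd h2
    rw [h7] at h8
    exact fnd_off (by omega)
  have e4 := br_eb_left_of (n := n) (c := m) (m := ⟨fnd (cd n + cd m), hc⟩) (by omega) hf e3 e2 u
  rw [h4, Pi.zero_apply] at e4
  have e5 : sc n m ⟨fnd (cd n + cd m), hc⟩ = 1 ∨ sc n m ⟨fnd (cd n + cd m), hc⟩ = -1 :=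
    scN_root (by omega) h2 hf
  rcases e5 with e5 | e5
  · rw [e5] at e4
    simpa using e4.symm
  · rw [e5] at e4
    simpa using e4.symm

/-- eight roots of degree `1` -/
def tt : List (Fin 8 × Fin 8 × Fin 8) :=
  [(0, 2, 5), (1, 5, 6), (1, 3, 7), (2, 3, 4), (3, 4, 7), (1, 6, 7), (1, 2, 5), (0, 4, 6)]

/-- the inverse of the matrix of their pairings with the simple coroots -/
def CC : List (List ℤ) := [[1, 0, 1, 0, 0, 0, 0, 1], [1, 0, 2, 0, 0, 0, 1, 2],
  [2, 0, 2, 1, 0, 1, 1, 2], [3, 1, 3, 2, 0, 1, 0, 2], [3, 1, 3, 2, 1, 1, 1, 3],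
  [2, 1, 2, 1, 1, 0, 1, 2], [1, 1, 1, 1, 0, 0, 0, 1], [2, 1, 1, 1, 1, 1, 0, 1]]

/-- the `t`-th of the eight roots -/
def tI (t : Fin 8) : Fin 8 × Fin 8 × Fin 8 := tt.getD t (0, 0, 0)

/-- entries of `CC` -/
def cI (q t : Fin 8) : ℤ := (CC.getD q []).getD t 0

set_option maxRecDepth 100000 in
theorem car_chk : (∀ t : Fin 8, (tI t).1 < (tI t).2.1 ∧ (tI t).2.1 < (tI t).2.2) ∧
    ∀ q q' : Fin 8, ∑ t : Fin 8, cI q t * prN (i1 (tI t).1 (tI t).2.1 (tI t).2.2) q' =
      if q = q' then 1 else 0 := by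
  decide +kernel

/-- the `q`-th Cartan index -/
def cq (q : Fin 8) : Fin 248 := ⟨240 + q, by omega⟩

theorem br_eb_cartan (n : Fin 248) (hn : (n : ℕ) < 240) (u : E8 k) :
    br (eb n) u n = ∑ q : Fin 8, (((- prN n q : ℤ)) : k) * u (cq q) := by
  rw [br_eb_left]
  have h1 : ∀ c : Fin 248, (c : ℕ) < 240 → (sc n c n : k) * u c = 0 := by
    intro c hc
    have h2 : sc n c n = 0 := by
      by_contra hs
      have h3 := scN_wt n.2 c.2 hs
      have h4 : cd c = off := by omega
      have h5 := fnd_cd hc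
      rw [h4] at h5
      exact fnd_off (by omega)
    rw [h2]
    simp
  have h6 : ∀ q : Fin 8, sc n (cq q) n = - prN n q := by
    intro q
    have h7 : sp (n : ℕ) (240 + q) = [((n : ℕ), -prN n (240 + q - 240))] :=
      sp_cartan_right hn (by omega)
    change cf (sp (n : ℕ) (240 + q)) n = _
    rw [h7, cf_cons, cf_nil, if_pos rfl, add_zero, Nat.add_sub_cancel_left]
  have h8 : ∑ c : Fin 248, (sc n c n : k) * u c = ∑ q : Fin 8, (sc n (cq q) n : k) * u (cq q) := by
    symm
    rw [← Finset.sum_image (s := Finset.univ) (g := cq) (f := fun c => (sc n c n : k) * u c)]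
    · apply Finset.sum_subset (Finset.subset_univ _)
      intro c _ hc
      apply h1
      by_contra hge
      apply hc
      rw [Finset.mem_image]
      exact ⟨⟨(c : ℕ) - 240, by omega⟩, Finset.mem_univ _, Fin.ext (by simp only [cq]; omega)⟩
    · intro a _ b _ hab
      have := congrArg Fin.val hab
      simp only [cq] at this
      exact Fin.ext (by omega)
  rw [h8]
  refine Finset.sum_congr rfl fun q _ => ?_
  rw [h6]

theorem cartan_zero {u : E8 k} (h : ∀ x y z : Vec k, br (tri x y z) u = 0) (m : Fin 248)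
    (h1 : 240 ≤ (m : ℕ)) : u m = 0 := by
  have h2 : ∀ t : Fin 8, ∑ q : Fin 8, ((prN (i1 (tI t).1 (tI t).2.1 (tI t).2.2) q : ℤ) : k) *
      u (cq q) = 0 := by
    intro t
    obtain ⟨a1, a2⟩ := car_chk.1 t
    have hr := i1_rng _ _ _ a1 a2
    have h3 : br (T (tI t).1 (tI t).2.1 (tI t).2.2) u = 0 := by rw [← tri_single]; exact h _ _ _
    have h4 := congrFun (eb_of_T a1 a2 h3) (i1 (tI t).1 (tI t).2.1 (tI t).2.2)
    rw [br_eb_cartan _ (by omega), Pi.zero_apply] at h4
    rw [← neg_eq_zero, ← Finset.sum_neg_distrib, ← h4]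
    refine Finset.sum_congr rfl fun q _ => ?_
    push_cast
    ring
  have h5 : m = cq ⟨(m : ℕ) - 240, by omega⟩ := Fin.ext (by simp only [cq]; omega)
  rw [h5]
  generalize (⟨(m : ℕ) - 240, by omega⟩ : Fin 8) = q
  have h6 : u (cq q) = ∑ q' : Fin 8, (if q = q' then (1 : k) else 0) * u (cq q') := by simp
  have h7 : ∀ q' : Fin 8, (if q = q' then (1 : k) else 0) =
      ∑ t : Fin 8, ((cI q t : ℤ) : k) * ((prN (i1 (tI t).1 (tI t).2.1 (tI t).2.2) q' : ℤ) : k) := by
    intro q'
    have h8 := congrArg (fun n : ℤ => (n : k)) (car_chk.2 q q')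
    simp only [Int.cast_sum, Int.cast_mul, Int.cast_ite, Int.cast_one, Int.cast_zero] at h8
    exact h8.symm
  rw [h6]
  simp only [h7, Finset.sum_mul]
  rw [Finset.sum_comm]
  refine Finset.sum_eq_zero fun t _ => ?_
  simp only [mul_assoc]
  rw [← Finset.mul_sum, h2, mul_zero]

theorem H1E (j : ℕ) (hj : j ≤ 4) (u : E8 k) (hu : ∀ a, dgE a ≠ j → u a = 0) (hu0 : u ≠ 0) :
    ∃ x y z : Vec k, br (tri x y z) u ≠ 0 := by
  by_contra hcon
  push Not at hcon
  apply hu0
  funext m
  rw [Pi.zero_apply]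
  by_cases hm : dgE m = j
  · have h1 : 36 ≤ (m : ℕ) := (zdg_chk m).2.2.2.2.1 (by
      have := (zdg_chk m).1
      unfold dgE at hm
      omega)
    rcases lt_or_ge (m : ℕ) 240 with h2 | h2
    · exact root_zero hcon m h1 h2
    · exact cartan_zero hcon m h2
  · exact hu m hm

theorem card_pq : ∀ p q : Fin 8, p < q → Fintype.card {r : Fin 8 // r ≠ p ∧ r ≠ q} = 6 := by
  decide

theorem H2E (u : E8 k) (hu : ∀ a, dgE a ≠ 5 → u a = 0) (hu0 : u ≠ 0) (B : Submodule k (E8 k))
    (hB : finrank k B ≤ 4) : ∃ x y z : Vec k, br (tri x y z) u ∉ B := by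
  by_contra hcon
  push Not at hcon
  obtain ⟨m, hm⟩ := Function.ne_iff.mp hu0
  rw [Pi.zero_apply] at hm
  have h1 : dgE m = 5 := by
    by_contra h
    exact hm (hu m h)
  have h2 : zdg m = 2 := by
    have := (zdg_chk m).1
    unfold dgE at h1
    omega
  obtain ⟨h3, h4⟩ := (zdg_chk m).2.2.2.1 h2
  obtain ⟨p, q, hpq, rfl⟩ := i2_surj m h3 h4
  have h5 : w2 u p q ≠ 0 := by
    unfold w2
    rw [ep2_of_lt hpq]
    simpa using hm
  -- the coordinates outside `p`, `q`
  let F : B →ₗ[k] ({r : Fin 8 // r ≠ p ∧ r ≠ q} → k) :=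
    { toFun := fun v r => (v : E8 k) (ix ((r : Fin 8) : ℕ))
      map_add' := fun v w => rfl
      map_smul' := fun c v => rfl }
  have hF : Function.Surjective F := by
    intro t
    refine ⟨∑ r : {r : Fin 8 // r ≠ p ∧ r ≠ q}, ((w2 u p q)⁻¹ * t r) • (⟨br (T p q r) u, ?_⟩ : B), ?_⟩
    · rw [← tri_single]
      exact hcon _ _ _
    · rw [map_sum]
      funext r'
      rw [Finset.sum_apply, Finset.sum_eq_single r']
      · rw [map_smul, Pi.smul_apply]
        change ((w2 u p q)⁻¹ * t r') * br (T p q r') u (ix ((r' : Fin 8) : ℕ)) = t r'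
        rw [br_T_three', if_neg r'.2.1, if_neg r'.2.2, if_pos rfl]
        field_simp
        ring
      · intro r _ hr
        rw [map_smul, Pi.smul_apply]
        change ((w2 u p q)⁻¹ * t r) * br (T p q r) u (ix ((r' : Fin 8) : ℕ)) = 0
        rw [br_T_three', if_neg r'.2.1, if_neg r'.2.2, if_neg (fun h => hr (Subtype.ext h.symm))]
        ring
      · intro h
        exact absurd (Finset.mem_univ _) h
  have h6 := LinearMap.finrank_range_le F
  rw [LinearMap.range_eq_top.mpr hF, finrank_top, finrank_fintype_fun_eq_card] at h6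
  have h7 := card_pq p q hpq
  omega

/-! ### the exponential -/

theorem br_tri_pow_deg (x y z : Vec A) (n : ℕ) (u : E8 A) (a : Fin 248)
    (h : ∀ b, dgE b + n = dgE a → u b = 0) : ((brL (tri x y z)) ^ n) u a = 0 := by
  induction n generalizing a with
  | zero => simpa using h a rfl
  | succ n ih =>
    rw [pow_succ']
    change br (tri x y z) (((brL (tri x y z)) ^ n) u) a = 0
    refine br_tri_deg x y z _ a fun b hb => ih b fun c hc => h c (by omega)

theorem triE_nil (x y z : Vec A) : (brL (tri x y z)) ^ 7 = 0 := by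
  apply LinearMap.ext
  intro u
  funext a
  refine br_tri_pow_deg x y z 7 u a fun b hb => ?_
  have := dgE_le a
  omega

/-- the reduction of the move -/
theorem Mvx_eq_ex [CharZero k] [Algebra ℚ k] (x y z : Vec k) (c : k) (u : E8 k) :
    Mvx EL x y z c u = ex (tri (c • x) y z) u := by
  rw [ex_apply, Mvx, LinearMap.sum_apply]
  refine Finset.sum_congr rfl fun n _ => ?_
  have h1 : brL (tri (c • x) y z) = c • (EL x y z : Module.End k (Fin 248 → k)) := by
    apply LinearMap.ext
    intro v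
    rw [brL_apply, tri_smul_left, br_smul_left]
    rfl
  rw [h1, smul_pow, LinearMap.smul_apply, LinearMap.smul_apply, LinearMap.smul_apply, smul_smul,
    smul_smul]
  congr 1
  have h2 : (algebraMap ℚ k) ((n.factorial : ℚ)⁻¹) = ((n.factorial : k))⁻¹ := by
    rw [map_inv₀, map_natCast]
  rw [h2]
  ring

/-- **Termination step** for the table -/
theorem gen_meas_E [CharZero k] [Algebra ℚ k] {T : Type*} [AddCommGroup T] [Module k T]
    [FiniteDimensional k T] (i : T →ₗ[k] (Fin 248 → k)) (hi : Function.Injective i)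
    (hT : 4 < finrank k T)
    (hr : finrank k (LinearMap.range (prj k (fun a => 5 < dgE a) ∘ₗ i)) ≤ 4) :
    GenK (k := k) fun x : Vec k => GenK (k := k) fun y : Vec k => GenK (k := k) fun z : Vec k =>
      GenC fun c : k => meas dgE (ex (tri (c • x) y z) ∘ₗ i) < meas dgE i := by
  have h := gen_meas_lt' dgE dgE_le (EL (A := k)) (fun x y z u a h => br_tri_deg x y z u a h)
    (fun j hj u hu hu0 => H1E j hj u hu hu0) (fun u hu hu0 B hB => H2E u hu hu0 B hB)
    (fun x y z u hu => H3E x y z u hu) i hi hT hr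
  refine h.mono fun x hx => hx.mono fun y hy => hy.mono fun z hz => hz.mono fun c hc => ?_
  have e : Mvx EL x y z c = ex (tri (c • x) y z) := LinearMap.ext fun u => Mvx_eq_ex x y z c u
  rwa [e] at hc

end Pool.Agent.Licci
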