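import Pool.Agent.Work.MP_a98e4e_ag.L.Moves
import Pool.Agent.Work.MP_a98e4e_ag.L.TabE
import Pool.Agent.Work.MP_a98e4e_ag.RankLe
import Pool.Agent.Work.MP_a98e4e_ag.Descent2

/-!
# LICCI, codimension 4: the descent from an integral state (helper43)
-/

set_option linter.unusedSectionVars false

noncomputable section

namespace Pool.Agent.Licci

open scoped BigOperators
open Module RingTheory.Sequence IsLocalRing LicciCodimFour

universe u

/-! ### `f ∘ d = 0` -/

section comp

variable {R : Type u} [CommRing R]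

/-- the cyclic sum -/
theorem Th_cyc (X Y Z : E8 R) : Th X Y (p3 Z) + Th Y Z (p3 X) + Th Z X (p3 Y) = 0 := by
  unfold Th
  rw [om_swap Y (p3 X) (p3 Z), om_swap X (p3 Y) (p3 Z), om_swap Z (p3 Y) (p3 X)]
  ring

variable {K : Type u} [Field K] [Algebra R K]

theorem RState.comp [IsDomain R] [Algebra ℚ R] {M : Matrix (Fin 14) (Fin 14) R}
    (hMu : IsUnit M.det) (s : RState R K M) (n : Fin 14) : s.f (p3 (s.γ n)) = 0 := by
  -- the matrix is symmetric
  obtain ⟨u0, hu0⟩ : ∃ u, s.f u ≠ 0 := by
    by_contra h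
    push Not at h
    exact s.f0 (LinearMap.ext h)
  have hsym : ∀ l m, M l m = M m l := by
    intro l m
    have h1 := s.th l m u0
    have h2 := s.th m l u0
    have h3 : Th (s.γ l) (s.γ m) u0 = Th (s.γ m) (s.γ l) u0 := by
      unfold Th
      ring
    rw [h1, h2] at h3
    exact mul_right_cancel₀ hu0 h3
  have hN : M⁻¹ * M = 1 := Matrix.nonsing_inv_mul M hMu
  have hN' : M * M⁻¹ = 1 := Matrix.mul_nonsing_inv M hMu
  set N := M⁻¹ with hNdef
  have hrel : ∀ l m, M l m * s.f (p3 (s.γ n)) + M m n * s.f (p3 (s.γ l)) +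
      M n l * s.f (p3 (s.γ m)) = 0 := by
    intro l m
    rw [← s.th l m, ← s.th m n, ← s.th n l]
    exact Th_cyc _ _ _
  have hsum : ∑ l, ∑ m, N l m * (M l m * s.f (p3 (s.γ n)) + M m n * s.f (p3 (s.γ l)) +
      M n l * s.f (p3 (s.γ m))) = 0 := by
    refine Finset.sum_eq_zero fun l _ => Finset.sum_eq_zero fun m _ => ?_
    rw [hrel, mul_zero]
  have h1 : ∑ l, ∑ m, N l m * (M l m * s.f (p3 (s.γ n))) = 14 * s.f (p3 (s.γ n)) := by
    have h2 : ∀ l, ∑ m, N l m * (M l m * s.f (p3 (s.γ n))) = s.f (p3 (s.γ n)) := by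
      intro l
      have h3 : (N * M) l l = 1 := by rw [hN]; simp
      rw [Matrix.mul_apply] at h3
      have h4 : ∑ m, N l m * (M l m * s.f (p3 (s.γ n))) =
          (∑ m, N l m * M m l) * s.f (p3 (s.γ n)) := by
        rw [Finset.sum_mul]
        refine Finset.sum_congr rfl fun m _ => ?_
        rw [hsym l m]
        ring
      rw [h4, h3, one_mul]
    simp only [h2]
    simp
  have h5 : ∑ l, ∑ m, N l m * (M m n * s.f (p3 (s.γ l))) = s.f (p3 (s.γ n)) := by
    have h6 : ∀ l, ∑ m, N l m * (M m n * s.f (p3 (s.γ l))) =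
        (if l = n then 1 else 0) * s.f (p3 (s.γ l)) := by
      intro l
      have h7 : (N * M) l n = if l = n then 1 else 0 := by rw [hN, Matrix.one_apply]
      rw [Matrix.mul_apply] at h7
      rw [← h7, Finset.sum_mul]
      refine Finset.sum_congr rfl fun m _ => ?_
      ring
    simp only [h6]
    simp
  have h8 : ∑ l, ∑ m, N l m * (M n l * s.f (p3 (s.γ m))) = s.f (p3 (s.γ n)) := by
    rw [Finset.sum_comm]
    have h9 : ∀ m, ∑ l, N l m * (M n l * s.f (p3 (s.γ m))) =
        (if n = m then 1 else 0) * s.f (p3 (s.γ m)) := by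
      intro m
      have h7 : (M * N) n m = if n = m then 1 else 0 := by rw [hN', Matrix.one_apply]
      rw [Matrix.mul_apply] at h7
      rw [← h7, Finset.sum_mul]
      refine Finset.sum_congr rfl fun l _ => ?_
      ring
    simp only [h9]
    simp
  simp only [mul_add, Finset.sum_add_distrib] at hsum
  rw [h1, h5, h8] at hsum
  have h10 : (16 : R) * s.f (p3 (s.γ n)) = 0 := by linear_combination hsum
  have h11 : algebraMap ℚ R (16⁻¹ : ℚ) * (16 : R) = 1 := by
    have h12 : algebraMap ℚ R 16 = (16 : R) := map_ofNat (algebraMap ℚ R) 16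
    rw [← h12, ← map_mul, inv_mul_cancel₀ (by norm_num), map_one]
  have h13 := congrArg (fun t => algebraMap ℚ R (16⁻¹ : ℚ) * t) h10
  simp only [← mul_assoc, h11, one_mul, mul_zero] at h13
  exact h13

end comp

/-! ### the reduced map -/

section reduced

variable {R : Type u} [CommRing R] [IsLocalRing R]

/-- the reduction modulo the maximal ideal of 14 vectors -/
def redI (γ : Fin 14 → E8 R) : (Fin 14 → ResidueField R) →ₗ[ResidueField R]
    (Fin 248 → ResidueField R) :=
  Fintype.linearCombination (ResidueField R) (fun l => red (γ l))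

theorem redI_apply (γ : Fin 14 → E8 R) (c : Fin 14 → ResidueField R) :
    redI γ c = ∑ l, c l • red (γ l) := by
  rw [redI, Fintype.linearCombination_apply]

theorem red_eq_comp {ι : Type*} (v : ι → R) : red v = residue R ∘ v := rfl

/-- the reduction of a moved vector -/
theorem red_ex [Algebra ℚ R] (x y z : Vec R) (c : R) (Y : E8 R) :
    red (ex (tri (c • x) y z) Y) = ex (tri (residue R c • red x) (red y) (red z)) (red Y) := by
  rw [red_eq_comp, ex_map, MV.tri_map]
  congr 2

theorem redI_move [Algebra ℚ R] (γ γ' : Fin 14 → E8 R) (x y z : Vec R) (c : R)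
    (h : ∀ l, γ' l = ex (tri (c • x) y z) (γ l)) :
    redI γ' = ex (tri (residue R c • red x) (red y) (red z)) ∘ₗ redI γ := by
  apply LinearMap.ext
  intro t
  rw [LinearMap.comp_apply, redI_apply, redI_apply, map_sum]
  refine Finset.sum_congr rfl fun l _ => ?_
  rw [h, red_ex, map_smul]

/-- the inclusion of the degree `3` part -/
def V3L (k : Type*) [Field k] : (Fin 8 → k) →ₗ[k] (Fin 248 → k) where
  toFun v := fun m => if h : (m : ℕ) < 8 then v ⟨m, h⟩ else 0
  map_add' v w := by
    funext m
    by_cases h : (m : ℕ) < 8 <;> simp [h]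
  map_smul' c v := by
    funext m
    by_cases h : (m : ℕ) < 8 <;> simp [h]

theorem five_lt_iff (m : Fin 248) : 5 < dgE m ↔ (m : ℕ) < 8 := by
  have h := zdg_chk m
  unfold dgE
  constructor
  · intro h1
    exact h.2.2.1 (by omega)
  · intro h1
    have h2 : zdg m = 3 := by
      by_contra h3
      rcases le_or_gt (zdg m) 1 with h4 | h4
      · have := h.2.2.2.2.1 h4
        omega
      · have := h.2.2.2.1 (by omega)
        omega
    omega

/-- the rank of the degree `3` part -/
theorem rank_top (γ : Fin 14 → E8 R) :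
    finrank (ResidueField R) (LinearMap.range (prj (ResidueField R) (fun a => 5 < dgE a) ∘ₗ
      redI γ)) ≤ finrank (ResidueField R) (redSub (Submodule.span R (Set.range fun l => p3 (γ l)))) := by
  have h1 : LinearMap.range (prj (ResidueField R) (fun a => 5 < dgE a) ∘ₗ redI γ) ≤
      (redSub (Submodule.span R (Set.range fun l => p3 (γ l)))).map (V3L (ResidueField R)) := by
    rintro _ ⟨t, rfl⟩
    refine ⟨∑ l, t l • red (p3 (γ l)), ?_, ?_⟩
    · exact Submodule.sum_mem _ fun l _ => Submodule.smul_mem _ _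
        (red_mem_redSub (Submodule.subset_span ⟨l, rfl⟩))
    · funext m
      rw [LinearMap.comp_apply, prj_apply]
      change (if h : (m : ℕ) < 8 then (∑ l, t l • red (p3 (γ l))) ⟨m, h⟩ else 0) = _
      by_cases h : (m : ℕ) < 8
      · rw [dif_pos h, if_pos ((five_lt_iff m).mpr h), redI_apply, Finset.sum_apply,
          Finset.sum_apply]
        refine Finset.sum_congr rfl fun l _ => ?_
        simp only [Pi.smul_apply, red_eq_comp, Function.comp_apply, p3]
        rw [show ix (((⟨m, h⟩ : Fin 8) : Fin 8) : ℕ) = m from Fin.ext (ix_val m.2)]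
      · rw [dif_neg h, if_neg (fun h2 => h ((five_lt_iff m).mp h2))]
  exact (Submodule.finrank_mono h1).trans (Submodule.finrank_map_le _ _)

end reduced


/-! ### the descent -/

section desc

variable {R : Type u} [CommRing R] [IsDomain R] [IsLocalRing R] [IsNoetherianRing R] [Algebra ℚ R]
  [Infinite (ResidueField R)] {K : Type u} [Field K] [Algebra R K] [IsFractionRing R K]
  [Algebra ℚ K] {M : Matrix (Fin 14) (Fin 14) R}

/-- the states whose 14 vectors are linearly independent modulo the maximal ideal -/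
def GState (R : Type u) [CommRing R] [IsLocalRing R] (K : Type u) [Field K] [Algebra R K]
    (M : Matrix (Fin 14) (Fin 14) R) : Type u :=
  {s : RState R K M // Function.Injective (redI s.γ)}

/-- the `4`-form of a state -/
def RState.nu (hMu : IsUnit M.det) (s : RState R K M) : Vec R [⋀^Fin 4]→ₗ[R] R :=
  (s.exists_nu hMu).choose

theorem RState.nu_spec (hMu : IsUnit M.det) (s : RState R K M) (x y z u : Vec R) :
    algebraMap R K (s.nu hMu ![x, y, z, u]) = nuOf s.k (algebraMap R K ∘ x) (algebraMap R K ∘ y)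
        (algebraMap R K ∘ z) (algebraMap R K ∘ u) :=
  (s.exists_nu hMu).choose_spec.1 x y z u

theorem RState.nu_cyc (hMu : IsUnit M.det) (s : RState R K M) : Cyc s.f (s.nu hMu) :=
  (s.exists_nu hMu).choose_spec.2.1

/-- termination step, without `CharZero` -/
theorem gen_meas_red {k : Type*} [Field k] [Algebra ℚ k] (i : (Fin 14 → k) →ₗ[k] (Fin 248 → k))
    (hi : Function.Injective i)
    (hr : finrank k (LinearMap.range (prj k (fun a => 5 < dgE a) ∘ₗ i)) ≤ 4) :
    GenK (k := k) fun x : Vec k => GenK (k := k) fun y : Vec k => GenK (k := k) fun z : Vec k =>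
      GenC fun c : k => meas dgE (ex (tri (c • x) y z) ∘ₗ i) < meas dgE i := by
  have : CharZero k := algebraRat.charZero _
  exact gen_meas_E i hi (by simp) hr

/-- one general move -/
theorem gen_move (hMu : IsUnit M.det) (s : GState R K M)
    (hI : ∀ v, s.1.f v ∈ maximalIdeal R)
    (hgr : ∃ rs : List R, rs.length = 4 ∧ (∀ y ∈ rs, y ∈ LinearMap.range s.1.f) ∧
      IsRegular R rs) :
    Gen1 fun x => Gen1 fun y => Gen1 fun z => GenS fun c => ∃ s' : GState R K M,
      s'.1.f = stepf s.1.f (s.1.nu hMu) x y z c ∧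
        (∀ w, s'.1.nu hMu ![x, y, z, w] = s.1.nu hMu ![x, y, z, w]) ∧
          meas dgE (redI s'.1.γ) < meas dgE (redI s.1.γ) := by
  have hinjK : Function.Injective (algebraMap R K) := IsFractionRing.injective R K
  have h1 := finrank_redSub_le s.1.f hI hgr (Submodule.span R (Set.range fun l => p3 (s.1.γ l))) (by
    rw [Submodule.span_le]
    rintro _ ⟨l, rfl⟩
    exact s.1.comp hMu l)
  have h2 := rank_top s.1.γ
  have h3 := gen_meas_red (redI s.1.γ) s.2 (by omega)
  have h4 : Gen1 fun x : Vec R => x ∉ LinearMap.ker s.1.f :=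
    Gen1.notMem fun h => s.1.f0 (LinearMap.ker_eq_top.mp h)
  refine (h3.gen1.and h4).mono fun x hx => hx.1.gen1.mono fun y hy => hy.gen1.mono fun z hz =>
    hz.genS.mono fun c hc => ?_
  obtain ⟨s', h5, h7, h8⟩ := s.1.exists_move hMu x y z c hx.2
  have h9 := redI_move s.1.γ s'.γ x y z c h5
  have h10 : Function.Injective (redI s'.γ) := by
    rw [h9]
    exact ((ex_isAut (triE_nil _ _ _)).bij.1).comp s.2
  refine ⟨⟨s', h10⟩, ?_, ?_, ?_⟩
  · apply LinearMap.ext
    intro u
    apply hinjK
    rw [stepf_apply, map_add, map_mul, RState.nu_spec]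
    exact h7 u
  · intro w
    exact hinjK (((s'.nu_spec hMu x y z w).trans (h8 _)).trans (s.1.nu_spec hMu x y z w).symm)
  · change meas dgE (redI s'.γ) < _
    rw [h9]
    exact hc

/-- **The ideal of an integral state is licci.** -/
theorem RState.licci (hMu : IsUnit M.det) (s : RState R K M)
    (hinj : ∀ c : Fin 14 → R, (∀ b, ∑ l, c l * s.γ l b ∈ maximalIdeal R) →
      ∀ l, c l ∈ maximalIdeal R)
    (hI : ∀ v, s.f v ∈ maximalIdeal R)
    (ν : Vec R [⋀^Fin 4]→ₗ[R] R)
    (hν : ∀ x y z u, algebraMap R K (ν ![x, y, z, u]) =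
      nuOf s.k (algebraMap R K ∘ x) (algebraMap R K ∘ y) (algebraMap R K ∘ z)
        (algebraMap R K ∘ u))
    (a0 a1 a2 a3 : Vec R) (ha : IsWeaklyRegular R [s.f a0, s.f a1, s.f a2, s.f a3])
    (hgood : Good s.f ν a0 a1 a2 a3) : IsLicci (LinearMap.range s.f) := by
  have hinj' : Function.Injective (redI s.γ) := by
    rw [← LinearMap.ker_eq_bot, LinearMap.ker_eq_bot']
    intro t ht
    obtain ⟨c, rfl⟩ := red_surjective t
    rw [redI_apply] at ht
    have h1 := hinj c (fun b => by
      have h2 := congrFun ht b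
      rw [Finset.sum_apply] at h2
      rw [← residue_eq_zero_iff, map_sum]
      simpa [red_eq_comp] using h2)
    funext l
    exact (residue_eq_zero_iff _).mpr (h1 l)
  have hinjK : Function.Injective (algebraMap R K) := IsFractionRing.injective R K
  have hν' : ν = s.nu hMu := by
    ext a
    have e : a = ![a 0, a 1, a 2, a 3] := by
      funext j
      fin_cases j <;> rfl
    apply hinjK
    rw [e, hν, RState.nu_spec]
  subst hν'
  exact licci_of_descent2 (𝒮 := GState R K M) (fun s => s.1.f) (fun s => s.1.nu hMu)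
    (fun s => s.1.nu_cyc hMu) (fun s => meas dgE (redI s.1.γ))
    (fun s hI hgr => gen_move hMu s hI hgr) ⟨s, hinj'⟩ hI ⟨a0, a1, a2, a3, ha, hgood⟩

end desc

/-- the descent, in the form of `licci_TasksM` -/
theorem licci_of_rstate {R : Type u} [CommRing R] [IsDomain R] [IsLocalRing R] [IsNoetherianRing R]
    [Infinite (ResidueField R)] [Algebra ℚ R] {K : Type u} [Field K] [Algebra R K]
    [IsFractionRing R K] {M : Matrix (Fin 14) (Fin 14) R} (hMu : IsUnit M.det) (s : RState R K M)
    (hind : ∀ c : Fin 14 → R, (∀ b, ∑ l, c l * s.γ l b ∈ maximalIdeal R) →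
      ∀ l, c l ∈ maximalIdeal R) (ν : Vec R [⋀^Fin 4]→ₗ[R] R) (hν : s.IsNu ν)
    (hI : ∀ v, s.f v ∈ maximalIdeal R) (a0 a1 a2 a3 : Vec R)
    (ha : IsWeaklyRegular R [s.f a0, s.f a1, s.f a2, s.f a3]) (hg : Good s.f ν a0 a1 a2 a3) :
    LicciCodimFour.IsLicci (LinearMap.range s.f) := by
  let _ : Algebra ℚ K := ((algebraMap R K).comp (algebraMap ℚ R)).toAlgebra
  exact RState.licci hMu s hind hI ν hν a0 a1 a2 a3 ha hg

end Pool.Agent.Licci
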