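import Pool.Agent.Work.MP_a98e4e_ag.L.FormA2

/-!
# Module L4a: the `gl_8`-description, elementary facts
-/

set_option linter.unusedSectionVars false

namespace Pool.Agent.Licci

open scoped BigOperators
open U (Sup)

variable {A : Type*} [CommRing A]

/-! ### kernel checks -/

set_option maxRecDepth 100000 in
theorem zdg_lt8 : ∀ a : Fin 8, zdg (ix a) = 3 := by decide +kernel

set_option maxRecDepth 100000 in
theorem zdg_i2 : ∀ i j : Fin 8, i < j → zdg (i2 i j) = 2 := by decide +kernel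

set_option maxRecDepth 100000 in
theorem zdg_i1 : ∀ i j k : Fin 8, i < j → j < k → zdg (i1 i j k) = 1 := by decide +kernel

set_option maxRecDepth 100000 in
theorem zdg_im1 : ∀ i j k : Fin 8, i < j → j < k → zdg (im1 i j k) = -1 := by decide +kernel

set_option maxRecDepth 100000 in
theorem zdg_big : ∀ m : Fin 248, 36 ≤ (m : ℕ) → zdg m < 2 := by decide +kernel

set_option maxRecDepth 100000 in
theorem i2_surj : ∀ m : Fin 248, 8 ≤ (m : ℕ) → (m : ℕ) < 36 → ∃ i j : Fin 8, i < j ∧ i2 i j = m := by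
  decide +kernel

set_option maxRecDepth 100000 in
theorem wtg_i2 : ∀ i j : Fin 8, i < j → ∀ q, wtg q (i2 i j) = 0 ↔ (q = i ∨ q = j) := by
  decide +kernel

set_option maxRecDepth 100000 in
theorem wtg_im1 : ∀ i j k : Fin 8, i < j → j < k → ∀ q, wtg q (im1 i j k) = -1 ↔
    (q = i ∨ q = j ∨ q = k) := by
  decide +kernel

theorem i2_inj {i j i' j' : Fin 8} (h : i < j) (h' : i' < j') (he : i2 i j = i2 i' j') :
    i = i' ∧ j = j' := by
  have h1 := (wtg_i2 i' j' h' i).1 (by rw [← he]; exact (wtg_i2 i j h i).2 (Or.inl rfl))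
  have h2 := (wtg_i2 i' j' h' j).1 (by rw [← he]; exact (wtg_i2 i j h j).2 (Or.inr rfl))
  omega

theorem im1_inj {i j k i' j' k' : Fin 8} (h1 : i < j) (h2 : j < k) (h1' : i' < j') (h2' : j' < k')
    (he : im1 i j k = im1 i' j' k') : i = i' ∧ j = j' ∧ k = k' := by
  have a1 := (wtg_im1 i' j' k' h1' h2' i).1
    (by rw [← he]; exact (wtg_im1 i j k h1 h2 i).2 (Or.inl rfl))
  have a2 := (wtg_im1 i' j' k' h1' h2' j).1
    (by rw [← he]; exact (wtg_im1 i j k h1 h2 j).2 (Or.inr (Or.inl rfl)))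
  have a3 := (wtg_im1 i' j' k' h1' h2' k).1
    (by rw [← he]; exact (wtg_im1 i j k h1 h2 k).2 (Or.inr (Or.inr rfl)))
  omega

/-! ### degree three -/

theorem V3_apply_ix (v : Vec A) (a : Fin 8) : V3 v (ix a) = v a := by
  have h : ((ix a : Fin 248) : ℕ) < 8 := by rw [ix_fin]; exact a.2
  unfold V3
  rw [dif_pos h]
  congr 1
  apply Fin.ext
  exact ix_fin a

theorem V3_apply_of_le (v : Vec A) {m : Fin 248} (h : 8 ≤ (m : ℕ)) : V3 v m = 0 := by
  unfold V3
  rw [dif_neg (by omega)]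

theorem p3_V3 (v : Vec A) : p3 (V3 v) = v := by
  funext a
  exact V3_apply_ix v a

theorem eq_ix {m : Fin 248} (h : (m : ℕ) < 8) : m = ix (⟨m, h⟩ : Fin 8) := by
  apply Fin.ext
  rw [ix_fin]

theorem V3_sup (v : Vec A) : Sup zdg 3 (V3 v) := by
  intro m hm
  rcases lt_or_ge (m : ℕ) 8 with h | h
  · exfalso
    apply hm
    rw [eq_ix h]
    exact zdg_lt8 _
  · exact V3_apply_of_le v h

/-! ### degree two -/

theorem W2_apply (w : Fin 8 → Fin 8 → A) (m : Fin 248) :
    W2 w m = ∑ i, ∑ j, if i < j ∧ i2 i j = m then w i j else 0 := by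
  unfold W2
  rw [Finset.sum_apply]
  refine Finset.sum_congr rfl fun i _ => ?_
  rw [Finset.sum_apply]
  refine Finset.sum_congr rfl fun j _ => ?_
  by_cases h : i < j
  · rw [if_pos h, Pi.smul_apply, eb_apply, smul_eq_mul]
    by_cases h' : i2 i j = m
    · rw [if_pos h'.symm, if_pos ⟨h, h'⟩, mul_one]
    · rw [if_neg (Ne.symm h'), if_neg (fun h'' => h' h''.2), mul_zero]
  · rw [if_neg h, if_neg (fun h'' => h h''.1)]
    rfl

theorem W2_apply_zero (w : Fin 8 → Fin 8 → A) {m : Fin 248}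
    (h : (m : ℕ) < 8 ∨ 36 ≤ (m : ℕ)) : W2 w m = 0 := by
  rw [W2_apply]
  refine Finset.sum_eq_zero fun i _ => Finset.sum_eq_zero fun j _ => ?_
  rw [if_neg]
  rintro ⟨h1, h2⟩
  have := i2_rng i j h1
  rw [h2] at this
  omega

theorem W2_apply_i2 (w : Fin 8 → Fin 8 → A) {i j : Fin 8} (h : i < j) : W2 w (i2 i j) = w i j := by
  rw [W2_apply, Finset.sum_eq_single i, Finset.sum_eq_single j]
  · rw [if_pos ⟨h, rfl⟩]
  · intro b _ hb
    rw [if_neg]
    rintro ⟨h1, h2⟩
    exact hb (i2_inj h1 h h2).2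
  · simp
  · intro b _ hb
    refine Finset.sum_eq_zero fun c _ => ?_
    rw [if_neg]
    rintro ⟨h1, h2⟩
    exact hb (i2_inj h1 h h2).1
  · simp

theorem p3_W2 (w : Fin 8 → Fin 8 → A) : p3 (W2 w) = 0 := by
  funext a
  exact W2_apply_zero w (Or.inl (by rw [ix_fin]; exact a.2))

theorem W2_sup (w : Fin 8 → Fin 8 → A) : Sup zdg 2 (W2 w) := by
  intro m hm
  rw [W2_apply]
  refine Finset.sum_eq_zero fun i _ => Finset.sum_eq_zero fun j _ => ?_
  rw [if_neg]
  rintro ⟨h1, h2⟩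
  apply hm
  rw [← h2]
  exact zdg_i2 i j h1

theorem w2_W2 (w : Fin 8 → Fin 8 → A) (h0 : ∀ i, w i i = 0) (h : ∀ i j, w i j = - w j i)
    (i j : Fin 8) : w2 (W2 w) i j = w i j := by
  have key : ∀ i j : Fin 8, i < j → w2 (W2 w) i j = w i j := by
    intro i j hij
    unfold w2
    rw [ep2_of_lt hij, Int.cast_one, one_mul, W2_apply_i2 w hij]
  rcases lt_trichotomy i j with h1 | h1 | h1
  · exact key i j h1
  · subst h1
    rw [w2_self, h0]
  · rw [w2_swap, key j i h1, h i j]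

theorem w2_V3 (v : Vec A) (i j : Fin 8) : w2 (V3 v) i j = 0 := by
  have key : ∀ i j : Fin 8, i < j → w2 (V3 v) i j = 0 := by
    intro i j hij
    unfold w2
    rw [V3_apply_of_le v (i2_rng i j hij).1, mul_zero]
  rcases lt_trichotomy i j with h1 | h1 | h1
  · exact key i j h1
  · subst h1
    rw [w2_self]
  · rw [w2_swap, key j i h1, neg_zero]

theorem om_V3 (v x y : Vec A) : om (V3 v) x y = 0 := by
  unfold om
  refine Finset.sum_eq_zero fun i _ => Finset.sum_eq_zero fun j _ => ?_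
  rw [w2_V3, zero_mul]

/-- an element of degrees `≥ 2` is `V3 + W2` -/
theorem eq_V3_W2 {Y : E8 A} (h : ∀ m, zdg m < 2 → Y m = 0) : Y = V3 (p3 Y) + W2 (w2 Y) := by
  funext m
  rw [Pi.add_apply]
  rcases lt_or_ge (m : ℕ) 8 with h1 | h1
  · rw [W2_apply_zero _ (Or.inl h1), add_zero]
    conv_rhs => rw [eq_ix h1]
    rw [V3_apply_ix]
    show Y m = Y (ix _)
    rw [← eq_ix h1]
  · rw [V3_apply_of_le _ h1, zero_add]
    rcases lt_or_ge (m : ℕ) 36 with h2 | h2
    · obtain ⟨i, j, hij, rfl⟩ := i2_surj m h1 h2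
      rw [W2_apply_i2 _ hij]
      unfold w2
      rw [ep2_of_lt hij, Int.cast_one, one_mul]
    · rw [W2_apply_zero _ (Or.inr h2), h m (zdg_big m h2)]

/-! ### degree `-1` -/

theorem M1_apply (μ : Fin 8 → Fin 8 → Fin 8 → A) (m : Fin 248) :
    M1 μ m = ∑ i, ∑ j, ∑ k, if (i < j ∧ j < k) ∧ im1 i j k = m then
      ((sg3 i j k : ℤ) : A) * μ i j k else 0 := by
  unfold M1
  rw [Finset.sum_apply]
  refine Finset.sum_congr rfl fun i _ => ?_
  rw [Finset.sum_apply]
  refine Finset.sum_congr rfl fun j _ => ?_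
  rw [Finset.sum_apply]
  refine Finset.sum_congr rfl fun k _ => ?_
  by_cases h : i < j ∧ j < k
  · rw [if_pos h, Pi.smul_apply, eb_apply, smul_eq_mul]
    by_cases h' : im1 i j k = m
    · rw [if_pos h'.symm, if_pos ⟨h, h'⟩, mul_one]
    · rw [if_neg (Ne.symm h'), if_neg (fun h'' => h' h''.2), mul_zero]
  · rw [if_neg h, if_neg (fun h'' => h h''.1)]
    rfl

theorem M1_sup (μ : Fin 8 → Fin 8 → Fin 8 → A) : Sup zdg (-1) (M1 μ) := by
  intro m hm
  rw [M1_apply]
  refine Finset.sum_eq_zero fun i _ => Finset.sum_eq_zero fun j _ => Finset.sum_eq_zero fun k _ => ?_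
  rw [if_neg]
  rintro ⟨⟨h1, h2⟩, h3⟩
  apply hm
  rw [← h3]
  exact zdg_im1 i j k h1 h2

theorem M1_apply_im1 (μ : Fin 8 → Fin 8 → Fin 8 → A) {i j k : Fin 8} (h1 : i < j) (h2 : j < k) :
    M1 μ (im1 i j k) = ((sg3 i j k : ℤ) : A) * μ i j k := by
  rw [M1_apply, Finset.sum_eq_single i, Finset.sum_eq_single j, Finset.sum_eq_single k]
  · rw [if_pos ⟨⟨h1, h2⟩, rfl⟩]
  · intro b _ hb
    rw [if_neg]
    rintro ⟨⟨h3, h4⟩, h5⟩
    exact hb (im1_inj h3 h4 h1 h2 h5).2.2
  · simp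
  · intro b _ hb
    refine Finset.sum_eq_zero fun c _ => ?_
    rw [if_neg]
    rintro ⟨⟨h3, h4⟩, h5⟩
    exact hb (im1_inj h3 h4 h1 h2 h5).2.1
  · simp
  · intro b _ hb
    refine Finset.sum_eq_zero fun c _ => Finset.sum_eq_zero fun d _ => ?_
    rw [if_neg]
    rintro ⟨⟨h3, h4⟩, h5⟩
    exact hb (im1_inj h3 h4 h1 h2 h5).1
  · simp

theorem im1_swap (i j k : Fin 8) : im1 i j k = im1 j i k := by
  unfold im1
  congr 2
  omega

theorem im1_swap' (i j k : Fin 8) : im1 i j k = im1 i k j := by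
  unfold im1
  congr 2
  omega

theorem t1_swap (Y : E8 A) (i j k : Fin 8) : t1 Y i j k = - t1 Y j i k := by
  unfold t1
  rw [im1_swap i j k, sg3_swap i j k, ep3_swap i j k]
  push_cast
  ring

theorem t1_swap' (Y : E8 A) (i j k : Fin 8) : t1 Y i j k = - t1 Y i k j := by
  unfold t1
  rw [im1_swap' i j k, sg3_swap' i j k, ep3_swap' i j k]
  push_cast
  ring

theorem t1_self (Y : E8 A) (i k : Fin 8) : t1 Y i i k = 0 := by
  unfold t1
  rw [ep3_self]
  simp

theorem t1_M1 (μ : Fin 8 → Fin 8 → Fin 8 → A) (h0 : ∀ i j, μ i i j = 0)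
    (h1 : ∀ i j k, μ i j k = - μ j i k) (h2 : ∀ i j k, μ i j k = - μ i k j) (i j k : Fin 8) :
    t1 (M1 μ) i j k = μ i j k := by
  rw [← sub_eq_zero]
  refine alt3_zero (fun i j k => t1 (M1 μ) i j k - μ i j k) ?_ ?_ ?_ ?_ i j k
  · intro i j k
    rw [t1_swap, h1 i j k]
    ring
  · intro i j k
    rw [t1_swap', h2 i j k]
    ring
  · intro i k
    rw [t1_self, h0, sub_zero]
  · intro i j k hij hjk
    have hs : ((sg3 i j k : ℤ) : A) * ((sg3 i j k : ℤ) : A) = 1 := by
      rw [← Int.cast_mul, sg3_sq, Int.cast_one]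
    unfold t1
    rw [M1_apply_im1 μ hij hjk, ep3_of_lt hij hjk]
    push_cast
    linear_combination (μ i j k) * hs

/-! ### `x ∧ y ∧ z` -/

theorem T_sup (i j k : Fin 8) : Sup zdg 1 (T i j k : E8 A) := by
  intro m hm
  refine alt3_zero (fun i j k => (T i j k : E8 A) m) ?_ ?_ ?_ ?_ i j k
  · intro i j k
    rw [T_swap, Pi.neg_apply]
  · intro i j k
    rw [T_swap', Pi.neg_apply]
  · intro i k
    rw [T_self, Pi.zero_apply]
  · intro i j k hij hjk
    unfold T
    rw [Pi.smul_apply, eb_apply, if_neg, smul_zero]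
    rintro rfl
    exact hm (zdg_i1 i j k hij hjk)

theorem tri_sup (x y z : Vec A) : Sup zdg 1 (tri x y z) := by
  intro m hm
  unfold tri
  rw [Finset.sum_apply]
  refine Finset.sum_eq_zero fun i _ => ?_
  rw [Finset.sum_apply]
  refine Finset.sum_eq_zero fun j _ => ?_
  rw [Finset.sum_apply]
  refine Finset.sum_eq_zero fun k _ => ?_
  rw [Pi.smul_apply, T_sup i j k m hm, smul_zero]

theorem tri_swap_left (x y z : Vec A) : tri x y z = - tri y x z := by
  unfold tri
  rw [Finset.sum_comm, ← Finset.sum_neg_distrib]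
  refine Finset.sum_congr rfl fun i _ => ?_
  rw [← Finset.sum_neg_distrib]
  refine Finset.sum_congr rfl fun j _ => ?_
  rw [← Finset.sum_neg_distrib]
  refine Finset.sum_congr rfl fun k _ => ?_
  rw [T_swap, smul_neg, mul_comm (x j)]

theorem tri_swap_right (x y z : Vec A) : tri x y z = - tri x z y := by
  unfold tri
  rw [← Finset.sum_neg_distrib]
  refine Finset.sum_congr rfl fun i _ => ?_
  rw [Finset.sum_comm, ← Finset.sum_neg_distrib]
  refine Finset.sum_congr rfl fun j _ => ?_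
  rw [← Finset.sum_neg_distrib]
  refine Finset.sum_congr rfl fun k _ => ?_
  rw [T_swap', smul_neg, mul_right_comm]

/-- an antisymmetric double sum with symmetric coefficients and zero diagonal vanishes -/
theorem sum_sum_antisymm {M : Type*} [AddCommGroup M] (F : Fin 8 → Fin 8 → M)
    (h0 : ∀ i, F i i = 0) (h : ∀ i j, F i j = - F j i) : ∑ i, ∑ j, F i j = 0 := by
  have e : ∀ i, ∑ j, F i j = ∑ j, (if i < j then F i j else 0) - ∑ j, (if j < i then F j i else 0) := by
    intro i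
    rw [← Finset.sum_sub_distrib]
    refine Finset.sum_congr rfl fun j _ => ?_
    rcases lt_trichotomy i j with h1 | h1 | h1
    · rw [if_pos h1, if_neg (not_lt.2 h1.le), sub_zero]
    · subst h1
      rw [if_neg (lt_irrefl _), sub_zero, h0]
    · rw [if_pos h1, if_neg (not_lt.2 h1.le), zero_sub, h i j]
  rw [Finset.sum_congr rfl fun i _ => e i, Finset.sum_sub_distrib,
    Finset.sum_comm (f := fun i j => if j < i then F j i else 0), sub_self]

theorem tri_self_left (x z : Vec A) : tri x x z = 0 := by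
  unfold tri
  refine sum_sum_antisymm _ (fun i => ?_) fun i j => ?_
  · exact Finset.sum_eq_zero fun k _ => by rw [T_self, smul_zero]
  · rw [← Finset.sum_neg_distrib]
    refine Finset.sum_congr rfl fun k _ => ?_
    rw [T_swap, smul_neg, mul_comm (x i)]

theorem tri_self_right (x y : Vec A) : tri x y y = 0 := by
  rw [tri_swap_left, tri_swap_right, neg_neg, tri_self_left]

theorem om_swap (Y : E8 A) (x y : Vec A) : om Y x y = - om Y y x := by
  unfold om
  rw [Finset.sum_comm, ← Finset.sum_neg_distrib]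
  refine Finset.sum_congr rfl fun i _ => ?_
  rw [← Finset.sum_neg_distrib]
  refine Finset.sum_congr rfl fun j _ => ?_
  rw [w2_swap]
  ring

theorem om_self (Y : E8 A) (x : Vec A) : om Y x x = 0 := by
  unfold om
  refine sum_sum_antisymm _ (fun i => ?_) fun i j => ?_
  · rw [w2_self, zero_mul]
  · rw [w2_swap]
    ring

end Pool.Agent.Licci
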