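import Pool.Agent.Work.MP_a98e4e_ag.L.Dat
import Pool.Agent.Work.MP_a98e4e_ag.L.FormA4

/-!
# LICCI, codimension 4, module L5: `f ∧ θ` in degree `-1` (helper98)
-/

set_option linter.unusedSectionVars false

namespace Pool.Agent.Licci

open scoped BigOperators
open U (Sup)

variable {A : Type*} [CommRing A]

namespace FormB

/-! ### sums over alternating families -/

section sums

variable {M : Type*} [AddCommGroup M] [Module A M]

theorem sum_wedge11 (f η : Vec A) (G : Fin 8 → Fin 8 → M) (h : ∀ i j, G i j = - G j i)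
    (h0 : ∀ i, G i i = 0) :
    ∑ i, ∑ j, (if i < j then wedge11 f η i j • G i j else 0) = ∑ i, ∑ j, (f i * η j) • G i j := by
  have e : ∀ i j, (f i * η j) • G i j = (if i < j then (f i * η j) • G i j else 0) +
      (if j < i then (f i * η j) • G i j else 0) := by
    intro i j
    rcases lt_trichotomy i j with h1 | h1 | h1
    · rw [if_pos h1, if_neg (not_lt.2 h1.le), add_zero]
    · subst h1
      rw [if_neg (lt_irrefl _), h0, smul_zero, add_zero]
    · rw [if_pos h1, if_neg (not_lt.2 h1.le), zero_add]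
  symm
  rw [Finset.sum_congr rfl fun i _ => Finset.sum_congr rfl fun j _ => e i j]
  simp only [Finset.sum_add_distrib]
  rw [Finset.sum_comm (f := fun i j => if j < i then (f i * η j) • G i j else 0),
    ← Finset.sum_add_distrib]
  refine Finset.sum_congr rfl fun i _ => ?_
  rw [← Finset.sum_add_distrib]
  refine Finset.sum_congr rfl fun j _ => ?_
  by_cases h1 : i < j
  · rw [if_pos h1, if_pos h1, if_pos h1, h j i, smul_neg, ← sub_eq_add_neg, ← sub_smul]
    rfl
  · rw [if_neg h1, if_neg h1, if_neg h1, add_zero]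

theorem sum_wedge12 (f : Vec A) (θ : Fin 8 → Fin 8 → A) (G : Fin 8 → Fin 8 → Fin 8 → M)
    (h1 : ∀ i j k, G i j k = - G j i k) (h2 : ∀ i j k, G i j k = - G i k j)
    (h0 : ∀ i k, G i i k = 0) :
    ∑ i, ∑ j, ∑ k, (if i < j ∧ j < k then wedge12 f θ i j k • G i j k else 0) =
      ∑ i, ∑ j, ∑ k, (if j < k then (f i * θ j k) • G i j k else 0) := by
  have e : ∀ i j k, (if j < k then (f i * θ j k) • G i j k else 0) =
      (if i < j ∧ j < k then (f i * θ j k) • G i j k else 0) +
      ((if j < i ∧ i < k then (f i * θ j k) • G i j k else 0) +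
      (if j < k ∧ k < i then (f i * θ j k) • G i j k else 0)) := by
    intro i j k
    by_cases hjk : j < k
    · rw [if_pos hjk]
      rcases lt_trichotomy i j with a | a | a
      · rw [if_pos ⟨a, hjk⟩, if_neg (fun h => absurd h.1 (not_lt.2 a.le)),
          if_neg (fun h => absurd h.2 (not_lt.2 (a.trans hjk).le)), add_zero, add_zero]
      · subst a
        rw [h0, smul_zero]
        simp
      · rw [if_neg (fun h => absurd h.1 (not_lt.2 a.le)), zero_add]
        rcases lt_trichotomy i k with b | b | b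
        · rw [if_pos ⟨a, b⟩, if_neg (fun h => absurd h.2 (not_lt.2 b.le)), add_zero]
        · subst b
          rw [h2, h0]
          simp
        · rw [if_neg (fun h => absurd h.2 (not_lt.2 b.le)), if_pos ⟨hjk, b⟩, zero_add]
    · rw [if_neg hjk, if_neg (fun h => hjk h.2), if_neg (fun h => hjk (h.1.trans h.2)),
        if_neg (fun h => hjk h.1), add_zero, add_zero]
  symm
  rw [Finset.sum_congr rfl fun i _ => Finset.sum_congr rfl fun j _ =>
    Finset.sum_congr rfl fun k _ => e i j k]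
  simp only [Finset.sum_add_distrib]
  have e2 : ∑ i, ∑ j, ∑ k, (if j < i ∧ i < k then (f i * θ j k) • G i j k else 0) =
      ∑ i, ∑ j, ∑ k, (if i < j ∧ j < k then (f j * θ i k) • G j i k else 0) :=
    Finset.sum_comm
  have e3 : ∑ i, ∑ j, ∑ k, (if j < k ∧ k < i then (f i * θ j k) • G i j k else 0) =
      ∑ i, ∑ j, ∑ k, (if i < j ∧ j < k then (f k * θ i j) • G k i j else 0) := by
    rw [Finset.sum_comm]
    refine Finset.sum_congr rfl fun j _ => ?_
    rw [Finset.sum_comm]
  rw [e2, e3]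
  simp only [← Finset.sum_add_distrib]
  refine Finset.sum_congr rfl fun i _ => Finset.sum_congr rfl fun j _ =>
    Finset.sum_congr rfl fun k _ => ?_
  by_cases hs : i < j ∧ j < k
  · rw [if_pos hs, if_pos hs, if_pos hs, if_pos hs, h1 j i k, h1 k i j, h2 i k j, neg_neg, smul_neg]
    unfold wedge12
    rw [add_smul, sub_smul]
    abel
  · rw [if_neg hs, if_neg hs, if_neg hs, if_neg hs, add_zero, add_zero]

/-- a double sum which is antisymmetric in the two `f`-indices vanishes -/
theorem sum_ff (f : Vec A) (H : Fin 8 → Fin 8 → M) (h0 : ∀ i, H i i = 0)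
    (h : ∀ i p, H i p = - H p i) : ∑ i, ∑ p, (f i * f p) • H i p = 0 := by
  refine sum_sum_antisymm _ (fun i => ?_) fun i p => ?_
  · rw [h0, smul_zero]
  · rw [h i p, smul_neg, mul_comm (f i)]

end sums

/-! ### alternating basis vectors -/

/-- `e^i ∧ e^j ∧ e^k` in degree `-1` -/
def E3 (i j k : Fin 8) : E8 A := ((sg3 i j k * ep3 i j k : ℤ) : A) • eb (im1 i j k)

/-- `e^i ∧ e^j` in degree `2` -/
def E2 (i j : Fin 8) : E8 A := ((ep2 i j : ℤ) : A) • eb (i2 i j)

theorem E3_swap (i j k : Fin 8) : (E3 i j k : E8 A) = - E3 j i k := by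
  unfold E3
  rw [im1_swap i j k, sg3_swap i j k, ep3_swap i j k, mul_neg, Int.cast_neg, neg_smul]

theorem E3_swap' (i j k : Fin 8) : (E3 i j k : E8 A) = - E3 i k j := by
  unfold E3
  rw [im1_swap' i j k, sg3_swap' i j k, ep3_swap' i j k, mul_neg, Int.cast_neg, neg_smul]

theorem E3_self (i k : Fin 8) : (E3 i i k : E8 A) = 0 := by
  unfold E3
  rw [ep3_self]
  simp

theorem E2_swap (i j : Fin 8) : (E2 i j : E8 A) = - E2 j i := by
  unfold E2
  rw [i2_swap i j, ep2_swap i j, Int.cast_neg, neg_smul]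

theorem E2_self (i : Fin 8) : (E2 i i : E8 A) = 0 := by
  unfold E2
  rw [ep2_self]
  simp

theorem M1_eq (f : Vec A) (θ : Fin 8 → Fin 8 → A) :
    M1 (wedge12 f θ) = ∑ i, ∑ j, ∑ k, (if j < k then (f i * θ j k) • E3 i j k else 0) := by
  rw [← sum_wedge12 f θ E3 E3_swap E3_swap' E3_self]
  unfold M1
  refine Finset.sum_congr rfl fun i _ => Finset.sum_congr rfl fun j _ =>
    Finset.sum_congr rfl fun k _ => ?_
  by_cases hs : i < j ∧ j < k
  · rw [if_pos hs, if_pos hs]
    unfold E3
    rw [ep3_of_lt hs.1 hs.2, mul_one, smul_smul, mul_comm]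
  · rw [if_neg hs, if_neg hs]

theorem W2_eq (f η : Vec A) : W2 (wedge11 f η) = ∑ i, ∑ j, (f i * η j) • (E2 i j : E8 A) := by
  rw [← sum_wedge11 f η E2 E2_swap E2_self]
  unfold W2
  refine Finset.sum_congr rfl fun i _ => Finset.sum_congr rfl fun j _ => ?_
  by_cases hs : i < j
  · rw [if_pos hs, if_pos hs]
    unfold E2
    rw [ep2_of_lt hs, Int.cast_one, one_smul]
  · rw [if_neg hs, if_neg hs]

/-! ### brackets of basis vectors -/

theorem br_eb_eb_of {n n' c : Fin 248} (h : (c : ℕ) = fnd (cd n + cd n'))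
    (h' : cd (n : ℕ) + cd (n' : ℕ) ≠ off + off) :
    br (eb n : E8 A) (eb n') = ((sc n n' c : ℤ) : A) • eb c := by
  funext m
  rw [br_eb_eb, Pi.smul_apply, eb_apply, smul_eq_mul]
  by_cases hm : m = c
  · rw [if_pos hm, hm, mul_one]
  · rw [if_neg hm, mul_zero]
    have h1 : sc n n' m = 0 := by
      by_contra hs
      have h2 := scN_wt n.2 n'.2 hs
      rcases lt_or_ge (m : ℕ) 240 with h3 | h3
      · apply hm
        apply Fin.ext
        rw [h, h2, fnd_cd h3]
      · apply h'
        rw [h2, cd_cartan h3 m.2]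
    rw [h1, Int.cast_zero]

theorem br_eb_eb_zero {n n' : Fin 248} (h : 240 ≤ fnd (cd n + cd n'))
    (h' : cd (n : ℕ) + cd (n' : ℕ) ≠ off + off) :
    br (eb n : E8 A) (eb n') = 0 := by
  funext m
  rw [br_eb_eb]
  have h1 : sc n n' m = 0 := by
    by_contra hs
    have h2 := scN_wt n.2 n'.2 hs
    rcases lt_or_ge (m : ℕ) 240 with h3 | h3
    · rw [h2, fnd_cd h3] at h
      omega
    · apply h'
      rw [h2, cd_cartan h3 m.2]
  rw [h1, Int.cast_zero]
  rfl

set_option maxRecDepth 100000 in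
theorem m12_chk : ∀ i j k : Fin 8, i < j → j < k → ∀ p q : Fin 8, p < q →
    cd (im1 i j k) + cd (i2 p q) ≠ off + off ∧
    if ep5 i j k p q = 0 then 240 ≤ fnd (cd (im1 i j k) + cd (i2 p q))
    else (cpl i j k p q : ℕ) = fnd (cd (im1 i j k) + cd (i2 p q)) ∧
      sc (im1 i j k) (i2 p q) (cpl i j k p q) = sg3 i j k * ep5 i j k p q := by
  decide +kernel

/-- sign of the permutation sorting `i, j, k, p, q, r` -/
def ep6 (i j k p q r : Fin 8) : ℤ :=
  ep2 i j * ep2 i k * ep2 j k * (ep2 p q * ep2 p r * ep2 q r) * (ep2 i p * ep2 j p * ep2 k p) *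
    (ep2 i q * ep2 j q * ep2 k q) * (ep2 i r * ep2 j r * ep2 k r)

/-- index (degree `-2`) of the pair complementary to `i, j, k, p, q, r` -/
def cpl6 (i j k p q r : Fin 8) : Fin 248 :=
  ix (fnd (0x44444444 - 16 ^ (i : ℕ) - 16 ^ (j : ℕ) - 16 ^ (k : ℕ) - 16 ^ (p : ℕ) -
    16 ^ (q : ℕ) - 16 ^ (r : ℕ)))

set_option maxRecDepth 100000 in
theorem m11_chk : ∀ i j k : Fin 8, i < j → j < k → ∀ p q r : Fin 8, p < q → q < r →
    cd (im1 i j k) + cd (im1 p q r) ≠ off + off ∧
    if ep6 i j k p q r = 0 then 240 ≤ fnd (cd (im1 i j k) + cd (im1 p q r))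
    else (cpl6 i j k p q r : ℕ) = fnd (cd (im1 i j k) + cd (im1 p q r)) ∧
      sc (im1 i j k) (im1 p q r) (cpl6 i j k p q r) = ep6 i j k p q r := by
  decide +kernel

/-! ### signs -/

theorem ep6_swap12 (i j k p q r : Fin 8) : ep6 i j k p q r = - ep6 j i k p q r := by
  unfold ep6
  rw [ep2_swap i j]
  ring

theorem ep6_swap23 (i j k p q r : Fin 8) : ep6 i j k p q r = - ep6 i k j p q r := by
  unfold ep6
  rw [ep2_swap j k]
  ring

theorem ep6_swap45 (i j k p q r : Fin 8) : ep6 i j k p q r = - ep6 i j k q p r := by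
  unfold ep6
  rw [ep2_swap p q]
  ring

theorem ep6_swap56 (i j k p q r : Fin 8) : ep6 i j k p q r = - ep6 i j k p r q := by
  unfold ep6
  rw [ep2_swap q r]
  ring

theorem ep6_swap14 (i j k p q r : Fin 8) : ep6 i j k p q r = - ep6 p j k i q r := by
  unfold ep6
  rw [ep2_swap p j, ep2_swap p k, ep2_swap p i, ep2_swap j i, ep2_swap k i]
  ring

theorem ep6_self12 (i k p q r : Fin 8) : ep6 i i k p q r = 0 := by
  simp [ep6, ep2_self]
theorem ep6_self45 (i j k p r : Fin 8) : ep6 i j k p p r = 0 := by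
  simp [ep6, ep2_self]
theorem ep6_self14 (i j k q r : Fin 8) : ep6 i j k i q r = 0 := by
  simp [ep6, ep2_self]

theorem cpl6_swap12 (i j k p q r : Fin 8) : cpl6 i j k p q r = cpl6 j i k p q r := by
  unfold cpl6
  congr 2
  omega

theorem cpl6_swap23 (i j k p q r : Fin 8) : cpl6 i j k p q r = cpl6 i k j p q r := by
  unfold cpl6
  congr 2
  omega

theorem cpl6_swap45 (i j k p q r : Fin 8) : cpl6 i j k p q r = cpl6 i j k q p r := by
  unfold cpl6
  congr 2
  omega

theorem cpl6_swap56 (i j k p q r : Fin 8) : cpl6 i j k p q r = cpl6 i j k p r q := by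
  unfold cpl6
  congr 2
  omega

theorem cpl6_swap14 (i j k p q r : Fin 8) : cpl6 i j k p q r = cpl6 p j k i q r := by
  unfold cpl6
  congr 2
  omega

/-! ### brackets of alternating basis vectors -/

theorem br_E3_E2 (i j k p q : Fin 8) :
    br (E3 i j k : E8 A) (E2 p q) = ((ep5 i j k p q : ℤ) : A) • eb (cpl i j k p q) := by
  have key : ∀ p q : Fin 8, p < q → ∀ i j k : Fin 8,
      br (E3 i j k : E8 A) (E2 p q) = ((ep5 i j k p q : ℤ) : A) • eb (cpl i j k p q) := by
    intro p q hpq i j k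
    rw [← sub_eq_zero]
    refine alt3_zero (fun i j k => br (E3 i j k : E8 A) (E2 p q) -
      ((ep5 i j k p q : ℤ) : A) • eb (cpl i j k p q)) ?_ ?_ ?_ ?_ i j k
    · intro i j k
      rw [E3_swap i j k, br_neg_left, ep5_swap12 i j k, cpl_swap12 i j k, Int.cast_neg, neg_smul]
      abel
    · intro i j k
      rw [E3_swap' i j k, br_neg_left, ep5_swap23 i j k, cpl_swap23 i j k, Int.cast_neg, neg_smul]
      abel
    · intro i k
      rw [E3_self, br_zero_left]
      simp [ep5, ep3_self]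
    · intro i j k h1 h2
      obtain ⟨hne, hc⟩ := m12_chk i j k h1 h2 p q hpq
      unfold E3 E2
      rw [br_smul_left, br_smul_right, ep3_of_lt h1 h2, ep2_of_lt hpq, mul_one, Int.cast_one,
        one_smul]
      by_cases h : ep5 i j k p q = 0
      · rw [if_pos h] at hc
        rw [br_eb_eb_zero hc hne, h]
        simp
      · rw [if_neg h] at hc
        rw [br_eb_eb_of hc.1 hne, hc.2, smul_smul, ← Int.cast_mul, ← mul_assoc, sg3_sq, one_mul,
          sub_self]
  rcases lt_trichotomy p q with h | h | h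
  · exact key p q h i j k
  · subst h
    rw [E2_self, br_zero_right]
    simp [ep5, ep2_self]
  · rw [E2_swap, br_neg_right, key q p h, ep5_swap45 i j k p q, cpl_swap45 i j k p q, Int.cast_neg,
      neg_smul]

theorem br_E3_E3 (i j k p q r : Fin 8) :
    br (E3 i j k : E8 A) (E3 p q r) =
      ((sg3 i j k * sg3 p q r * ep6 i j k p q r : ℤ) : A) • eb (cpl6 i j k p q r) := by
  have key : ∀ p q r : Fin 8, p < q → q < r → ∀ i j k : Fin 8,
      br (E3 i j k : E8 A) (E3 p q r) =
        ((sg3 i j k * sg3 p q r * ep6 i j k p q r : ℤ) : A) • eb (cpl6 i j k p q r) := by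
    intro p q r hpq hqr i j k
    rw [← sub_eq_zero]
    refine alt3_zero (fun i j k => br (E3 i j k : E8 A) (E3 p q r) -
      ((sg3 i j k * sg3 p q r * ep6 i j k p q r : ℤ) : A) • eb (cpl6 i j k p q r))
      ?_ ?_ ?_ ?_ i j k
    · intro i j k
      rw [E3_swap i j k, br_neg_left, ep6_swap12 i j k, cpl6_swap12 i j k, sg3_swap i j k,
        mul_neg, Int.cast_neg, neg_smul]
      abel
    · intro i j k
      rw [E3_swap' i j k, br_neg_left, ep6_swap23 i j k, cpl6_swap23 i j k, sg3_swap' i j k,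
        mul_neg, Int.cast_neg, neg_smul]
      abel
    · intro i k
      rw [E3_self, br_zero_left, ep6_self12]
      simp
    · intro i j k h1 h2
      obtain ⟨hne, hc⟩ := m11_chk i j k h1 h2 p q r hpq hqr
      unfold E3
      rw [br_smul_left, br_smul_right, ep3_of_lt h1 h2, ep3_of_lt hpq hqr, mul_one, mul_one,
        smul_smul, ← Int.cast_mul]
      by_cases h : ep6 i j k p q r = 0
      · rw [if_pos h] at hc
        rw [br_eb_eb_zero hc hne, h]
        simp
      · rw [if_neg h] at hc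
        rw [br_eb_eb_of hc.1 hne, hc.2, smul_smul, ← Int.cast_mul, sub_self]
  rw [← sub_eq_zero]
  refine alt3_zero (fun p q r => br (E3 i j k : E8 A) (E3 p q r) -
    ((sg3 i j k * sg3 p q r * ep6 i j k p q r : ℤ) : A) • eb (cpl6 i j k p q r))
    ?_ ?_ ?_ ?_ p q r
  · intro p q r
    rw [E3_swap p q r, br_neg_right, ep6_swap45 i j k p q r, cpl6_swap45 i j k p q r,
      sg3_swap p q r, mul_neg, Int.cast_neg, neg_smul]
    abel
  · intro p q r
    rw [E3_swap' p q r, br_neg_right, ep6_swap56 i j k p q r, cpl6_swap56 i j k p q r,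
      sg3_swap' p q r, mul_neg, Int.cast_neg, neg_smul]
    abel
  · intro p r
    rw [E3_self, br_zero_right, ep6_self45]
    simp
  · intro p q r h1 h2
    rw [key p q r h1 h2 i j k, sub_self]

theorem sg3_mul_swap (i j k p q r : Fin 8) : sg3 i j k * sg3 p q r = sg3 p j k * sg3 i q r := by
  unfold sg3
  rw [← pow_add, ← pow_add]
  congr 1
  omega

end FormB

open FormB

theorem br_M1_W2 (f η : Vec A) (θ : Fin 8 → Fin 8 → A) (h0 : ∀ i, θ i i = 0)
    (h : ∀ i j, θ i j = - θ j i) : br (M1 (wedge12 f θ)) (W2 (wedge11 f η)) = 0 := by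
  rw [M1_eq, W2_eq]
  set B : Fin 8 → Fin 8 → E8 A := fun i p => ∑ j, ∑ k, ∑ q,
    (if j < k then (θ j k * η q) • br (E3 i j k : E8 A) (E2 p q) else 0) with hB
  have e : br (∑ i, ∑ j, ∑ k, (if j < k then (f i * θ j k) • (E3 i j k : E8 A) else 0))
      (∑ i, ∑ j, (f i * η j) • (E2 i j : E8 A)) = ∑ i, ∑ p, (f i * f p) • B i p := by
    rw [br_sum_left]
    refine Finset.sum_congr rfl fun i _ => ?_
    rw [br_sum_right]
    refine Finset.sum_congr rfl fun p _ => ?_
    rw [hB, br_sum_left, Finset.smul_sum]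
    refine Finset.sum_congr rfl fun j _ => ?_
    rw [br_sum_left, Finset.smul_sum]
    refine Finset.sum_congr rfl fun k _ => ?_
    rw [br_sum_right, Finset.smul_sum]
    refine Finset.sum_congr rfl fun q _ => ?_
    by_cases hjk : j < k
    · rw [if_pos hjk, if_pos hjk, br_smul_left, br_smul_right, smul_smul, smul_smul]
      congr 1
      ring
    · rw [if_neg hjk, if_neg hjk, br_zero_left, smul_zero]
  rw [e]
  apply sum_ff
  · intro i
    refine Finset.sum_eq_zero fun j _ => Finset.sum_eq_zero fun k _ =>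
      Finset.sum_eq_zero fun q _ => ?_
    have h1 : ep5 i j k i q = 0 := by simp [ep5]
    rw [br_E3_E2, h1, Int.cast_zero, zero_smul, smul_zero, ite_self]
  · intro i p
    simp only [hB, ← Finset.sum_neg_distrib]
    refine Finset.sum_congr rfl fun j _ => Finset.sum_congr rfl fun k _ =>
      Finset.sum_congr rfl fun q _ => ?_
    by_cases hjk : j < k
    · rw [if_pos hjk, if_pos hjk, br_E3_E2, br_E3_E2, ep5_swap14 i j k p q, cpl_swap14 i j k p q,
        Int.cast_neg, neg_smul, smul_neg]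
    · rw [if_neg hjk, if_neg hjk, neg_zero]

theorem br_M1_M1 (f : Vec A) (θ θ' : Fin 8 → Fin 8 → A) (h0 : ∀ i, θ i i = 0)
    (h : ∀ i j, θ i j = - θ j i) (h0' : ∀ i, θ' i i = 0) (h' : ∀ i j, θ' i j = - θ' j i) :
    br (M1 (wedge12 f θ)) (M1 (wedge12 f θ')) = 0 := by
  rw [M1_eq, M1_eq]
  set B : Fin 8 → Fin 8 → E8 A := fun i p => ∑ j, ∑ k, ∑ q, ∑ r,
    (if j < k ∧ q < r then (θ j k * θ' q r) • br (E3 i j k : E8 A) (E3 p q r) else 0) with hB
  have e : br (∑ i, ∑ j, ∑ k, (if j < k then (f i * θ j k) • (E3 i j k : E8 A) else 0))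
      (∑ i, ∑ j, ∑ k, (if j < k then (f i * θ' j k) • (E3 i j k : E8 A) else 0)) =
      ∑ i, ∑ p, (f i * f p) • B i p := by
    rw [br_sum_left]
    refine Finset.sum_congr rfl fun i _ => ?_
    rw [br_sum_right]
    refine Finset.sum_congr rfl fun p _ => ?_
    rw [hB, br_sum_left, Finset.smul_sum]
    refine Finset.sum_congr rfl fun j _ => ?_
    rw [br_sum_left, Finset.smul_sum]
    refine Finset.sum_congr rfl fun k _ => ?_
    rw [br_sum_right, Finset.smul_sum]
    refine Finset.sum_congr rfl fun q _ => ?_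
    rw [br_sum_right, Finset.smul_sum]
    refine Finset.sum_congr rfl fun r _ => ?_
    by_cases hjk : j < k
    · by_cases hqr : q < r
      · rw [if_pos hjk, if_pos hqr, if_pos ⟨hjk, hqr⟩, br_smul_left, br_smul_right, smul_smul,
          smul_smul]
        congr 1
        ring
      · rw [if_neg hqr, if_neg (fun hh : j < k ∧ q < r => hqr hh.2), br_zero_right, smul_zero]
    · rw [if_neg hjk, if_neg (fun hh : j < k ∧ q < r => hjk hh.1), br_zero_left, smul_zero]
  rw [e]
  apply sum_ff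
  · intro i
    refine Finset.sum_eq_zero fun j _ => Finset.sum_eq_zero fun k _ =>
      Finset.sum_eq_zero fun q _ => Finset.sum_eq_zero fun r _ => ?_
    rw [br_E3_E3, ep6_self14, mul_zero, Int.cast_zero, zero_smul, smul_zero, ite_self]
  · intro i p
    simp only [hB, ← Finset.sum_neg_distrib]
    refine Finset.sum_congr rfl fun j _ => Finset.sum_congr rfl fun k _ =>
      Finset.sum_congr rfl fun q _ => Finset.sum_congr rfl fun r _ => ?_
    by_cases hs : j < k ∧ q < r
    · rw [if_pos hs, if_pos hs, br_E3_E3, br_E3_E3, ep6_swap14 i j k p q r,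
        cpl6_swap14 i j k p q r, sg3_mul_swap i j k p q r, mul_neg, Int.cast_neg, neg_smul,
        smul_neg]
    · rw [if_neg hs, if_neg hs, neg_zero]

/-- `[f ∧ θ, v]` for `f (v) = 0` -/
theorem br_M1_V3 (μ : Fin 8 → Fin 8 → Fin 8 → A) (h0 : ∀ i j, μ i i j = 0)
    (h1 : ∀ i j k, μ i j k = - μ j i k) (h2 : ∀ i j k, μ i j k = - μ i k j) (v : Vec A) :
    br (M1 μ) (V3 v) = W2 (fun i j => ∑ m, v m * μ m i j) := by
  have hM : Sup zdg (-1) (M1 μ) := M1_sup μ
  have hMle : Le zdg (-1) (M1 μ) := fun m hm => hM m (by omega)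
  have hB : Sup zdg 2 (br (M1 μ) (V3 v)) := Sup.br (fun i j k => sc_zdg) hM (V3_sup v)
  rw [eq_V3_W2 (Y := br (M1 μ) (V3 v)) (fun m hm => hB m (by omega))]
  have e1 : p3 (br (M1 μ) (V3 v)) = 0 := by
    funext a
    exact hB (ix a) (by rw [zdg_lt8]; norm_num)
  have e2 : w2 (br (M1 μ) (V3 v)) = fun i j => ∑ m, v m * μ m i j := by
    funext i j
    rw [w2_m1 hMle]
    refine Finset.sum_congr rfl fun a _ => ?_
    rw [t1_M1 μ h0 h1 h2, V3_apply_ix, mul_comm]
  have e3 : V3 (0 : Vec A) = (0 : E8 A) := by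
    funext m
    unfold V3
    split_ifs <;> rfl
  rw [e1, e2, e3, zero_add]

end Pool.Agent.Licci
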