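import Pool.Agent.Work.MP_a98e4e_ag.L.Grad
import Pool.Agent.Work.MP_a98e4e_ag.L.Exp

/-!
# LICCI, codimension 4, module L3: unipotent automorphisms with trivial part of degree `-1`
-/

namespace Pool.Agent.Licci

open scoped BigOperators
open U (Sup)

set_option linter.unusedSectionVars false

variable {A : Type*} [CommRing A] [Algebra ℚ A]

namespace RG

theorem Hz_sup : Sup zdg 0 (Hz : E8 A) := by
  intro m hm
  unfold Hz
  split_ifs with h
  · exact absurd (zdN_cartan h m.2) hm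
  · rfl

theorem Sup.le {k : ℤ} {Y : E8 A} (h : Sup zdg k Y) : Le zdg k Y := fun m hm => h m (by omega)

theorem Le.mono {k l : ℤ} {Y : E8 A} (h : Le zdg k Y) (hkl : k ≤ l) : Le zdg l Y :=
  fun m hm => h m (by omega)

theorem Le.neg {k : ℤ} {Y : E8 A} (h : Le zdg k Y) : Le zdg k (-Y) := fun m hm => by
  rw [Pi.neg_apply, h m hm, neg_zero]

theorem Le.sub {k : ℤ} {Y Z : E8 A} (h : Le zdg k Y) (h' : Le zdg k Z) : Le zdg k (Y - Z) :=
  fun m hm => by rw [Pi.sub_apply, h m hm, h' m hm, sub_zero]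

theorem eb_le (m : Fin 248) : Le zdg (zdg m) (eb m : E8 A) := by
  intro k hk
  rw [eb_apply, if_neg]
  rintro rfl
  exact lt_irrefl _ hk

theorem pow_le {x Y : E8 A} (hx : Le zdg (-1) x) {k : ℤ} (hY : Le zdg k Y) (n : ℕ) :
    Le zdg (k - n) (((brL x) ^ n) Y) := by
  induction n with
  | zero => simpa using hY
  | succ n ih =>
    rw [pow_succ', Module.End.mul_apply, brL_apply]
    have := Licci.Le.br (d := zdg) (fun _ _ _ h => sc_zdg h) hx ih
    refine Le.mono this ?_
    push_cast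
    omega

theorem ex_eq_two {x Y : E8 A} (m : Fin 248) (h : ∀ n, 2 ≤ n → n < 7 → ((brL x) ^ n) Y m = 0) :
    ex x Y m = Y m + br x Y m := by
  rw [ex_apply, Finset.sum_apply]
  have h7 : Finset.range 7 = insert 0 (insert 1 (Finset.Ico 2 7)) := by decide
  rw [h7, Finset.sum_insert (by decide), Finset.sum_insert (by decide), Finset.sum_eq_zero]
  · simp
  · intro n hn
    rw [Finset.mem_Ico] at hn
    rw [Pi.smul_apply, h n hn.1 hn.2, smul_zero]

theorem ex_top2 {x Y : E8 A} (hx : Le zdg (-1) x) {k : ℤ} (hY : Le zdg k Y) (m : Fin 248)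
    (hm : k - 1 ≤ zdg m) : ex x Y m = Y m + br x Y m :=
  ex_eq_two m fun n hn _ => pow_le hx hY n m (by omega)

theorem ex_top {x Y : E8 A} (hx : Le zdg (-1) x) {k : ℤ} (hY : Le zdg k Y) (m : Fin 248)
    (hm : k ≤ zdg m) : ex x Y m = Y m := by
  rw [ex_top2 hx hY m (by omega), Licci.Le.br (d := zdg) (fun _ _ _ h => sc_zdg h) hx hY m (by omega), add_zero]

theorem ex_le {x Y : E8 A} (hx : Le zdg (-1) x) {k : ℤ} (hY : Le zdg k Y) : Le zdg k (ex x Y) :=
  fun m hm => by rw [ex_top hx hY m hm.le, hY m hm]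

theorem rat_cancel {n : ℤ} (hn : n ≠ 0) {y : A} (h : (n : A) * y = 0) : y = 0 := by
  have h1 : algebraMap ℚ A (n : ℚ)⁻¹ * ((n : A) * y) = y := by
    rw [← map_intCast (algebraMap ℚ A) n, ← mul_assoc, ← map_mul,
      inv_mul_cancel₀ (Int.cast_ne_zero.2 hn), map_one, one_mul]
  rw [← h1, h, mul_zero]

theorem br_Hz_right (Y : E8 A) (m : Fin 248) : br Y Hz m = -((zdg m : A) * Y m) := by
  rw [br_skew, Pi.neg_apply, br_Hz]

end RG

open RG

/-- an automorphism which fixes `Hz` and is the identity modulo lower degrees is the identity -/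
theorem aut_eq_one {w : E8 A →ₗ[A] E8 A} (hw : IsAut w) (hH : w Hz = Hz)
    (hlow : ∀ (m : Fin 248) (k : Fin 248), zdg m ≤ zdg k → w (eb m) k = if k = m then 1 else 0) :
    w = LinearMap.id := by
  refine E8.hom_ext fun m => ?_
  funext k
  rw [LinearMap.id_apply, eb_apply]
  by_cases h : zdg m ≤ zdg k
  · exact hlow m k h
  · have hkm : k ≠ m := by
      rintro rfl
      exact h le_rfl
    rw [if_neg hkm]
    have h1 : br Hz (eb m : E8 A) = (zdg m : A) • eb m := by
      funext j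
      rw [br_Hz, Pi.smul_apply, smul_eq_mul, eb_apply]
      split_ifs with hj
      · rw [hj]
      · rw [mul_zero, mul_zero]
    have h2 := congrFun (hw.map_br Hz (eb m)) k
    rw [h1, map_smul, hH, br_Hz, Pi.smul_apply, smul_eq_mul] at h2
    refine rat_cancel (n := zdg m - zdg k) (by omega) ?_
    rw [Int.cast_sub, sub_mul, h2, sub_self]

/-- brackets of elements of degrees `≤ -2` vanish -/
theorem br_low {L L' : E8 A} (h : Le zdg (-2) L) (h' : Le zdg (-2) L') : br L L' = 0 := by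
  funext m
  have hz := zdg_ge m
  exact Licci.Le.br (d := zdg) (fun _ _ _ h => sc_zdg h) h h' m (by omega)

/-- `exp` is injective and additive on degrees `≤ -2` -/
theorem ex_low_add {L L' : E8 A} (h : Le zdg (-2) L) (h' : Le zdg (-2) L') (Y : E8 A) :
    ex (L + L') Y = ex L (ex L' Y) := by
  refine ex_add (ad_nil_neg (Le.mono h (by omega))) (ad_nil_neg (Le.mono h' (by omega)))
    (ad_nil_neg ?_) (br_low h h') Y
  intro m hm
  rw [Pi.add_apply, h m (by omega), h' m (by omega), add_zero]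

theorem ex_low_Hz {L : E8 A} (h : Le zdg (-2) L) (m : Fin 248) :
    ex L Hz m = Hz m + br L Hz m := by
  refine ex_eq_two m fun n hn _ => ?_
  obtain ⟨n, rfl⟩ := Nat.exists_eq_add_of_le hn
  have h2 : br L (br L Hz) = 0 := br_low h (Le.mono
    (Licci.Le.br (d := zdg) (fun _ _ _ h => sc_zdg h) h (Sup.le Hz_sup)) (by omega))
  rw [add_comm, pow_add, Module.End.mul_apply, pow_two, Module.End.mul_apply, brL_apply, brL_apply,
    h2, map_zero]
  rfl

theorem ex_low_inj {L L' : E8 A} (h : Le zdg (-2) L) (h' : Le zdg (-2) L')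
    (he : ex L Hz = ex L' Hz) : L = L' := by
  funext m
  by_cases hm : -2 < zdg m
  · rw [h m hm, h' m hm]
  · have h1 := congrFun he m
    rw [ex_low_Hz h, ex_low_Hz h', br_Hz_right, br_Hz_right, add_right_inj, neg_inj] at h1
    rw [← sub_eq_zero]
    refine rat_cancel (n := zdg m) (by omega) ?_
    rw [mul_sub, h1, sub_self]

/-- for `a, b` of degree `-1` (coefficients in a subalgebra `S`) there is `L` of degrees `≤ -2` with
`exp (-b) exp (b - a) exp a = exp L` -/
theorem exists_bch {R : Type*} [CommRing R] [Algebra ℚ R] [Algebra R A] (S : Subalgebra R A)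
    {a b : E8 A} (ha : Sup zdg (-1) a) (hb : Sup zdg (-1) b) (haS : ∀ m, a m ∈ S)
    (hbS : ∀ m, b m ∈ S) : ∃ L : E8 A, Le zdg (-2) L ∧ (∀ m, L m ∈ S) ∧
      ∀ Y, ex (-b) (ex (b - a) (ex a Y)) = ex L Y := by
  have hq : ∀ r : ℚ, algebraMap ℚ A r ∈ S := fun r => by
    rw [← (algebraMap R A).map_rat_algebraMap]
    exact S.algebraMap_mem _
  have hHS : ∀ m, (Hz : E8 A) m ∈ S := fun m => by
    unfold Hz
    split_ifs
    · exact intCast_mem S _
    · exact S.zero_mem
  have ha' : Le zdg (-1) a := Sup.le ha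
  have hb' : Le zdg (-1) b := Sup.le hb
  have hba : Le zdg (-1) (b - a) := Le.sub hb' ha'
  have hnb : Le zdg (-1) (-b) := Le.neg hb'
  have hH0 : Le zdg 0 (Hz : E8 A) := Sup.le Hz_sup
  -- the composite
  set w : E8 A →ₗ[A] E8 A := ex (-b) ∘ₗ ex (b - a) ∘ₗ ex a with hw
  have hwa : ∀ Y, w Y = ex (-b) (ex (b - a) (ex a Y)) := fun Y => rfl
  have hwaut : IsAut w := by
    have h1 := ex_isAut (ad_nil_neg hnb)
    have h2 := ex_isAut (ad_nil_neg hba)
    have h3 := ex_isAut (ad_nil_neg ha')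
    refine ⟨h1.bij.comp (h2.bij.comp h3.bij), fun x y => ?_⟩
    rw [hwa, hwa, hwa, h3.map_br, h2.map_br, h1.map_br]
  -- first order part on `Hz`
  have hfirst : ∀ (x Y : E8 A), Le zdg (-1) x → Le zdg 0 Y → (∀ m, zdg m = 0 → Y m = Hz m) →
      ∀ m, -1 ≤ zdg m → ex x Y m = Y m + br x Hz m := by
    intro x Y hx hY hYH m hm
    rw [ex_top2 hx hY m (by omega)]
    congr 1
    by_cases h0 : zdg m = -1
    · exact br_top (fun _ _ _ h => sc_zdg h) hx hY hx hH0 (fun _ _ => rfl) hYH m (by omega)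
    · rw [Licci.Le.br (d := zdg) (fun _ _ _ h => sc_zdg h) hx hY m (by omega),
        Licci.Le.br (d := zdg) (fun _ _ _ h => sc_zdg h) hx hH0 m (by omega)]
  set Y1 := ex a (Hz : E8 A) with hY1
  set Y2 := ex (b - a) Y1 with hY2
  have hY1le : Le zdg 0 Y1 := ex_le ha' hH0
  have hY2le : Le zdg 0 Y2 := ex_le hba hY1le
  have hY1H : ∀ m, zdg m = 0 → Y1 m = Hz m := fun m hm => ex_top ha' hH0 m (by omega)
  have hY2H : ∀ m, zdg m = 0 → Y2 m = Hz m := fun m hm => by
    rw [hY2, ex_top hba hY1le m (by omega), hY1H m hm]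
  have hN : Le zdg (-2) (w Hz - Hz) := by
    intro m hm
    have e1 := hfirst a Hz ha' hH0 (fun _ _ => rfl) m (by omega)
    have e2 := hfirst (b - a) Y1 hba hY1le hY1H m (by omega)
    have e3 := hfirst (-b) Y2 hnb hY2le hY2H m (by omega)
    rw [Pi.sub_apply, hwa, e3, hY2, e2, hY1, e1, br_sub_left, br_neg_left, Pi.sub_apply,
      Pi.neg_apply]
    ring
  have hNS : ∀ m, (w Hz - Hz : E8 A) m ∈ S := fun m => by
    rw [Pi.sub_apply]
    refine S.sub_mem ?_ (hHS m)
    refine ex_mem S (fun k => ?_) (fun k => ex_mem S (fun l => ?_) (fun l => ex_mem S haS hHS l) k) m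
    · rw [Pi.neg_apply]
      exact S.neg_mem (hbS k)
    · rw [Pi.sub_apply]
      exact S.sub_mem (hbS l) (haS l)
  -- the element `L`
  set L : E8 A := fun m => algebraMap ℚ A (-(zdg m : ℚ)⁻¹) * (w Hz - Hz : E8 A) m with hL
  have hLle : Le zdg (-2) L := fun m hm => by
    rw [hL]
    simp only
    rw [hN m hm, mul_zero]
  have hLS : ∀ m, L m ∈ S := fun m => S.mul_mem (hq _) (hNS m)
  have hLH : ex L Hz = w Hz := by
    funext m
    rw [ex_low_Hz hLle, br_Hz_right]
    by_cases hm : -2 < zdg m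
    · rw [hLle m hm, mul_zero, neg_zero, add_zero]
      have := hN m hm
      rw [Pi.sub_apply, sub_eq_zero] at this
      exact this.symm
    · have hz : (zdg m : ℚ) ≠ 0 := Int.cast_ne_zero.2 (by omega)
      have h1 : (zdg m : A) * L m = -((w Hz - Hz : E8 A) m) := by
        rw [hL]
        simp only
        rw [← map_intCast (algebraMap ℚ A) (zdg m), ← mul_assoc, ← map_mul, mul_neg,
          mul_inv_cancel₀ hz, map_neg, map_one, neg_one_mul]
      rw [h1, neg_neg, Pi.sub_apply, add_sub_cancel]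
  have hL1 : Le zdg (-1) L := Le.mono hLle (by omega)
  have hnL1 : Le zdg (-1) (-L) := Le.neg hL1
  have hLn := ad_nil_neg hL1
  refine ⟨L, hLle, hLS, fun Y => ?_⟩
  have hid : ex (-L) ∘ₗ w = LinearMap.id := by
    refine aut_eq_one ?_ ?_ ?_
    · have h1 := ex_isAut (ad_nil_neg hnL1)
      refine ⟨h1.bij.comp hwaut.bij, fun x y => ?_⟩
      show ex (-L) (w (br x y)) = br (ex (-L) (w x)) (ex (-L) (w y))
      rw [hwaut.map_br, h1.map_br]
    · rw [LinearMap.comp_apply, ← hLH, ex_neg_ex hLn]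
    · intro m k hmk
      have e0 := eb_le (A := A) m
      have e1 := ex_le ha' e0
      have e2 := ex_le hba e1
      have e3 := ex_le hnb e2
      rw [LinearMap.comp_apply, hwa, ex_top hnL1 e3 k hmk, ex_top hnb e2 k hmk,
        ex_top hba e1 k hmk, ex_top ha' e0 k hmk, eb_apply]
  have h1 := LinearMap.congr_fun hid Y
  rw [LinearMap.comp_apply, LinearMap.id_apply] at h1
  rw [← hwa]
  conv_rhs => rw [← h1]
  rw [ex_ex_neg hLn]

end Pool.Agent.Licci
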