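import Pool.Agent.Work.MP_a98e4e_ag.L.Dat
import Pool.Agent.Work.MP_a98e4e_ag.L.Gen
import Pool.Agent.Work.MP_a98e4e_ag.L.Rigid
import Pool.Agent.Work.MP_a98e4e_ag.L.FormB
import Pool.Agent.Work.MP_a98e4e_ag.U.Loc

/-!
# LICCI, codimension 4, module L10: gluing along the `z`-filtration
-/

namespace Pool.Agent.Licci

open scoped BigOperators
open U (Sup)
open Module RingTheory.Sequence IsLocalRing

namespace Glue

section aux

variable {A : Type*} [CommRing A]

theorem zdg_ix : ∀ i : Fin 8, zdg (ix i) = 3 := by decide +kernel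

theorem zdg_i2ne : ∀ i j : Fin 8, i ≠ j → zdg (i2 i j) = 2 := by decide +kernel

theorem ep2_self (i : Fin 8) : ep2 i i = 0 := by simp [ep2]

theorem M1_sub (μ μ' : Fin 8 → Fin 8 → Fin 8 → A) :
    M1 (fun i j k => μ i j k - μ' i j k) = M1 μ - M1 μ' := by
  unfold M1
  simp only [← Finset.sum_sub_distrib]
  refine Finset.sum_congr rfl fun i _ => Finset.sum_congr rfl fun j _ =>
    Finset.sum_congr rfl fun k _ => ?_
  split_ifs
  · rw [mul_sub, sub_smul]
  · rw [sub_zero]

theorem W2_add (w w' : Fin 8 → Fin 8 → A) :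
    W2 (fun i j => w i j + w' i j) = W2 w + W2 w' := by
  unfold W2
  simp only [← Finset.sum_add_distrib]
  refine Finset.sum_congr rfl fun i _ => Finset.sum_congr rfl fun j _ => ?_
  split_ifs
  · rw [add_smul]
  · rw [add_zero]

theorem eb_mem {R : Type*} [CommRing R] [Algebra R A] (S : Subalgebra R A) (i m : Fin 248) :
    (eb i : E8 A) m ∈ S := by
  rw [eb_apply]
  split_ifs
  · exact one_mem S
  · exact zero_mem S

theorem M1_mem {R : Type*} [CommRing R] [Algebra R A] (S : Subalgebra R A)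
    {μ : Fin 8 → Fin 8 → Fin 8 → A} (h : ∀ i j k, μ i j k ∈ S) (m : Fin 248) : M1 μ m ∈ S := by
  unfold M1
  simp only [Finset.sum_apply]
  refine sum_mem fun i _ => sum_mem fun j _ => sum_mem fun k _ => ?_
  split_ifs
  · rw [Pi.smul_apply, smul_eq_mul]
    exact mul_mem (mul_mem (intCast_mem S _) (h i j k)) (eb_mem S _ _)
  · exact zero_mem S

theorem W2_mem {R : Type*} [CommRing R] [Algebra R A] (S : Subalgebra R A)
    {w : Fin 8 → Fin 8 → A} (h : ∀ i j, w i j ∈ S) (m : Fin 248) : W2 w m ∈ S := by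
  unfold W2
  simp only [Finset.sum_apply]
  refine sum_mem fun i _ => sum_mem fun j _ => ?_
  split_ifs
  · rw [Pi.smul_apply, smul_eq_mul]
    exact mul_mem (h i j) (eb_mem S _ _)
  · exact zero_mem S

theorem V3_mem {R : Type*} [CommRing R] [Algebra R A] (S : Subalgebra R A)
    {v : Vec A} (h : ∀ i, v i ∈ S) (m : Fin 248) : V3 v m ∈ S := by
  unfold V3
  split_ifs
  · exact h _
  · exact zero_mem S

theorem sup_le {d : Fin 248 → ℤ} {k : ℤ} {x : E8 A} (h : Sup d k x) : Le d k x :=
  fun m hm => h m (ne_of_gt hm)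

theorem le_mono {d : Fin 248 → ℤ} {k l : ℤ} (hkl : k ≤ l) {x : E8 A} (h : Le d k x) : Le d l x :=
  fun m hm => h m (lt_of_le_of_lt hkl hm)

theorem le_neg {d : Fin 248 → ℤ} {k : ℤ} {x : E8 A} (h : Le d k x) : Le d k (-x) :=
  fun m hm => by rw [Pi.neg_apply, h m hm, neg_zero]

theorem le_sub {d : Fin 248 → ℤ} {k : ℤ} {x y : E8 A} (h : Le d k x) (h' : Le d k y) :
    Le d k (x - y) :=
  fun m hm => by rw [Pi.sub_apply, h m hm, h' m hm, sub_zero]

theorem le_add {d : Fin 248 → ℤ} {k : ℤ} {x y : E8 A} (h : Le d k x) (h' : Le d k y) :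
    Le d k (x + y) :=
  fun m hm => by rw [Pi.add_apply, h m hm, h' m hm, add_zero]

theorem le_three (x : E8 A) : Le zdg 3 x := fun m hm => absurd (zdg_le m) (not_le.mpr hm)

theorem le_pow {x Y : E8 A} {a b : ℤ} (hx : Le zdg a x) (hY : Le zdg b Y) (n : ℕ) :
    Le zdg (n * a + b) (((brL x) ^ n) Y) := by
  induction n with
  | zero => simpa using hY
  | succ n ih =>
    rw [pow_succ', Module.End.mul_apply, brL_apply]
    have := Le.br (fun i j k h => sc_zdg h) hx ih
    refine le_mono (le_of_eq ?_) this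
    push_cast
    ring

variable [Algebra ℚ A]

theorem ex_split (x Y : E8 A) : ex x Y = Y + br x Y +
    ∑ n ∈ Finset.range 5, algebraMap ℚ A (((n + 2).factorial : ℚ)⁻¹) • ((brL x) ^ (n + 2)) Y := by
  rw [ex_apply, Finset.sum_range_succ', Finset.sum_range_succ']
  simp only [zero_add, Nat.factorial_zero, Nat.factorial_one, Nat.cast_one, inv_one, map_one,
    one_smul, pow_zero, pow_one, Module.End.one_apply, brL_apply]
  rw [add_assoc, add_comm, add_comm (br x Y) Y]

theorem ex_of_br_br {x Y : E8 A} (h : br x (br x Y) = 0) : ex x Y = Y + br x Y := by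
  rw [ex_split, Finset.sum_eq_zero, add_zero]
  intro n _
  rw [pow_succ, pow_succ, Module.End.mul_apply, Module.End.mul_apply, brL_apply, brL_apply, h,
    map_zero, smul_zero]

theorem ex_top {x Y : E8 A} (hx : Le zdg (-1) x) {m : Fin 248} (hm : 2 ≤ zdg m) :
    ex x Y m = Y m + br x Y m := by
  rw [ex_split, Pi.add_apply, Pi.add_apply, Finset.sum_apply, Finset.sum_eq_zero, add_zero]
  intro n _
  rw [Pi.smul_apply, le_pow hx (le_three Y) (n + 2) m (by push_cast; omega), smul_zero]

theorem ex_top3 {x Y : E8 A} (hx : Le zdg (-1) x) {m : Fin 248} (hm : zdg m = 3) :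
    ex x Y m = Y m := by
  have h1 : br x Y m = 0 := Le.br (d := zdg) (fun i j k h => sc_zdg h) hx (le_three Y) m (by omega)
  rw [ex_top hx (by omega), h1, add_zero]

theorem ex_low {x Y : E8 A} (hx : Le zdg (-2) x) {m : Fin 248} (hm : 2 ≤ zdg m) :
    ex x Y m = Y m := by
  have h1 : br x Y m = 0 := Le.br (d := zdg) (fun i j k h => sc_zdg h) hx (le_three Y) m (by omega)
  rw [ex_top (le_mono (by norm_num) hx) hm, h1, add_zero]

end aux

section main

variable {R : Type*} [CommRing R] {T : Type*} [CommRing T] [Algebra R T] (D : Dat R)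

theorem nu_aab (i a c : Fin 8) : D.nu i a a c = 0 := by
  rw [D.nu1, D.nu2, neg_neg, D.nu0]

theorem nu_abb (i a b : Fin 8) : D.nu i a b b = 0 := by
  rw [D.nu2, D.nu3, neg_neg, nu_aab]

theorem mu0 (i a b : Fin 8) : D.mu (T := T) i a a b = 0 := by
  rw [Dat.mu, nu_aab, map_zero, mul_zero]

theorem mu1 (i a b c : Fin 8) : D.mu (T := T) i a b c = - D.mu (T := T) i b a c := by
  rw [Dat.mu, Dat.mu, D.nu2 i a b c, map_neg, mul_neg]

theorem mu2 (i a b c : Fin 8) : D.mu (T := T) i a b c = - D.mu (T := T) i a c b := by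
  rw [Dat.mu, Dat.mu, D.nu3 i a b c, map_neg, mul_neg]

theorem mu_self (i b c : Fin 8) : D.mu (T := T) i i b c = 0 := by
  rw [Dat.mu, D.nu0, map_zero, mul_zero]

/-- the `2`-form `θ_ij` with `μ_j - μ_i = f ∧ θ_ij` -/
noncomputable def tht (T : Type*) [CommRing T] [Algebra R T] (D : Dat R) (i j b c : Fin 8) : T :=
  Ring.inverse (algebraMap R T (D.f i)) * Ring.inverse (algebraMap R T (D.f j)) *
    algebraMap R T (D.nu j i b c)

theorem tht0 (i j b : Fin 8) : tht T D i j b b = 0 := by
  rw [tht, nu_abb, map_zero, mul_zero]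

theorem tht1 (i j b c : Fin 8) : tht T D i j b c = - tht T D i j c b := by
  rw [tht, tht, D.nu3 j i b c, map_neg, mul_neg]

/-- the linear form over `T` -/
def fT (T : Type*) [CommRing T] [Algebra R T] (D : Dat R) : Vec T := fun a => algebraMap R T (D.f a)

variable {i j : Fin 8} (hi : IsUnit (algebraMap R T (D.f i))) (hj : IsUnit (algebraMap R T (D.f j)))

include hi hj in
theorem mu_sub (a b c : Fin 8) : D.mu (T := T) j a b c - D.mu (T := T) i a b c =
    wedge12 (fT T D) (tht T D i j) a b c := by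
  have h := congrArg (algebraMap R T) (D.cyc j i a b c)
  simp only [map_add, map_sub, map_mul, map_zero] at h
  have ei := Ring.inverse_mul_cancel _ hi
  have ej := Ring.inverse_mul_cancel _ hj
  simp only [wedge12, fT, tht, Dat.mu]
  set ui := Ring.inverse (algebraMap R T (D.f i))
  set uj := Ring.inverse (algebraMap R T (D.f j))
  linear_combination (-(ui * uj)) * h - (algebraMap R T (D.nu j a b c) * uj) * ei +
    (algebraMap R T (D.nu i a b c) * ui) * ej

include hi hj in
theorem M1_mu_sub : M1 (D.mu (T := T) j) - M1 (D.mu (T := T) i) =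
    M1 (wedge12 (fT T D) (tht T D i j)) := by
  rw [← M1_sub]
  congr 1
  funext a b c
  exact mu_sub D hi hj a b c

/-- the coefficients `w + ι_v μ_i` -/
noncomputable def Wc (T : Type*) [CommRing T] [Algebra R T] (D : Dat R) (i : Fin 8) (v : Vec R)
    (w : Fin 8 → Fin 8 → R) (a b : Fin 8) : T :=
  algebraMap R T (w a b) + ∑ m, algebraMap R T (v m) * D.mu (T := T) i m a b

theorem sv_eq (i : Fin 8) (v : Vec R) (w : Fin 8 → Fin 8 → R) :
    D.sv T i v w = V3 (fun a => algebraMap R T (v a)) + W2 (Wc T D i v w) := rfl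

variable {v : Vec R} {w : Fin 8 → Fin 8 → R} (hvw : D.IsP v w)

include hvw in
theorem Wc0 (a : Fin 8) : Wc T D i v w a a = 0 := by
  rw [Wc, hvw.w0, map_zero, zero_add]
  refine Finset.sum_eq_zero fun m _ => ?_
  rw [Dat.mu, nu_abb, map_zero, mul_zero, mul_zero]

include hvw in
theorem Wc1 (a b : Fin 8) : Wc T D i v w a b = - Wc T D i v w b a := by
  rw [Wc, Wc, hvw.w1 a b, map_neg, neg_add, ← Finset.sum_neg_distrib]
  congr 1
  refine Finset.sum_congr rfl fun m _ => ?_
  rw [mu2 D i m a b, mul_neg]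

include hi hvw in
/-- `f ∧ (w + ι_v μ_i) = 0` -/
theorem Wc_wedge (a b c : Fin 8) : fT T D a * Wc T D i v w b c - fT T D b * Wc T D i v w a c +
    fT T D c * Wc T D i v w a b = 0 := by
  have h1 := congrArg (algebraMap R T) (hvw.fw a b c)
  simp only [map_add, map_sub, map_mul, map_sum] at h1
  have ei := Ring.inverse_mul_cancel _ hi
  -- `f ∧ ι_v μ_i = - ι_v ν`
  have h2 : ∀ m, algebraMap R T (v m) * (fT T D a * D.mu (T := T) i m b c -
      fT T D b * D.mu (T := T) i m a c + fT T D c * D.mu (T := T) i m a b) =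
      Ring.inverse (algebraMap R T (D.f i)) * (algebraMap R T (D.f m) * algebraMap R T (v m)) *
        algebraMap R T (D.nu i a b c) -
      algebraMap R T (v m) * algebraMap R T (D.nu m a b c) := by
    intro m
    have h := congrArg (algebraMap R T) (D.cyc i m a b c)
    simp only [map_add, map_sub, map_mul, map_zero] at h
    simp only [fT, Dat.mu]
    set ui := Ring.inverse (algebraMap R T (D.f i))
    linear_combination (algebraMap R T (v m) * ui) * h -
      (algebraMap R T (v m) * algebraMap R T (D.nu m a b c)) * ei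
  have h3 := congrArg (algebraMap R T) hvw.fv
  simp only [map_sum, map_mul, map_zero] at h3
  have h4 : fT T D a * (∑ m, algebraMap R T (v m) * D.mu (T := T) i m b c) -
      fT T D b * (∑ m, algebraMap R T (v m) * D.mu (T := T) i m a c) +
      fT T D c * (∑ m, algebraMap R T (v m) * D.mu (T := T) i m a b) =
      - ∑ m, algebraMap R T (v m) * algebraMap R T (D.nu m a b c) := by
    have h5 := Finset.sum_congr rfl fun m (_ : m ∈ Finset.univ) => h2 m
    rw [Finset.sum_sub_distrib, ← Finset.sum_mul, ← Finset.mul_sum, h3, mul_zero, zero_mul,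
      zero_sub] at h5
    rw [← h5, Finset.mul_sum, Finset.mul_sum, Finset.mul_sum, ← Finset.sum_sub_distrib,
      ← Finset.sum_add_distrib]
    refine Finset.sum_congr rfl fun m _ => ?_
    ring
  simp only [Wc]
  simp only [fT] at h4 ⊢
  linear_combination h1 + h4

include hi hvw in
/-- `w + ι_v μ_i = f ∧ η` -/
theorem Wc_eq : Wc T D i v w = wedge11 (fT T D)
    (fun c => Ring.inverse (algebraMap R T (D.f i)) * Wc T D i v w i c) := by
  funext b c
  have h := Wc_wedge D hi hvw i b c
  have ei := Ring.inverse_mul_cancel _ hi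
  simp only [wedge11]
  simp only [fT] at h ⊢
  set ui := Ring.inverse (algebraMap R T (D.f i))
  linear_combination ui * h - (Wc T D i v w b c) * ei

include hi hj hvw in
/-- `exp (a_j - a_i)` maps the `i`-th standard vector to the `j`-th one -/
theorem ex_sv [Algebra ℚ T] :
    ex (M1 (D.mu (T := T) j) - M1 (D.mu (T := T) i)) (D.sv T i v w) = D.sv T j v w := by
  have hx := M1_mu_sub D hi hj
  have e1 : br (M1 (D.mu (T := T) j) - M1 (D.mu (T := T) i)) (W2 (Wc T D i v w)) = 0 := by
    rw [hx, Wc_eq D hi hvw]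
    exact br_M1_W2 _ _ _ (tht0 D i j) (tht1 D i j)
  have e2 : br (M1 (D.mu (T := T) j) - M1 (D.mu (T := T) i)) (V3 (fun a => algebraMap R T (v a))) =
      W2 (fun a b => ∑ m, algebraMap R T (v m) * (D.mu (T := T) j m a b - D.mu (T := T) i m a b)) := by
    rw [← M1_sub]
    exact br_M1_V3 _ (fun a b => by rw [mu0, mu0, sub_zero])
      (fun a b c => by rw [mu1 D j a b c, mu1 D i a b c]; ring)
      (fun a b c => by rw [mu2 D j a b c, mu2 D i a b c]; ring) _
  have h3 := congrArg (algebraMap R T) hvw.fv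
  simp only [map_sum, map_mul, map_zero] at h3
  have e3 : (fun a b => ∑ m, algebraMap R T (v m) *
      (D.mu (T := T) j m a b - D.mu (T := T) i m a b)) =
      wedge11 (fT T D) (fun c => - ∑ m, algebraMap R T (v m) * tht T D i j m c) := by
    funext a b
    have h4 : ∀ m, algebraMap R T (v m) * (D.mu (T := T) j m a b - D.mu (T := T) i m a b) =
        algebraMap R T (D.f m) * algebraMap R T (v m) * tht T D i j a b -
        fT T D a * (algebraMap R T (v m) * tht T D i j m b) +
        fT T D b * (algebraMap R T (v m) * tht T D i j m a) := by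
      intro m
      rw [mu_sub D hi hj]
      simp only [wedge12, fT]
      ring
    rw [Finset.sum_congr rfl fun m _ => h4 m, Finset.sum_add_distrib, Finset.sum_sub_distrib,
      ← Finset.sum_mul, h3, zero_mul, ← Finset.mul_sum, ← Finset.mul_sum]
    simp only [wedge11]
    ring
  have e4 : br (M1 (D.mu (T := T) j) - M1 (D.mu (T := T) i))
      (br (M1 (D.mu (T := T) j) - M1 (D.mu (T := T) i)) (V3 (fun a => algebraMap R T (v a)))) = 0 := by
    rw [e2, e3, hx]
    exact br_M1_W2 _ _ _ (tht0 D i j) (tht1 D i j)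
  rw [ex_of_br_br, sv_eq, sv_eq, br_add_right, e1, add_zero, e2, add_assoc, ← W2_add]
  · congr 2
    funext a b
    simp only [Wc]
    rw [add_assoc, ← Finset.sum_add_distrib]
    congr 1
    refine Finset.sum_congr rfl fun m _ => ?_
    ring
  · rw [sv_eq, br_add_right, e1, add_zero, e4]

end main

end Glue

open Glue

/-- GLUE -/
theorem glue {R : Type*} [CommRing R] {T : Type*} [CommRing T] [Algebra R T]
    [IsLocalRing R] [IsNoetherianRing R] [Algebra ℚ R] [Algebra ℚ T] (C : U.Cov R T)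
    (hm : ∀ i, C.f i ∈ maximalIdeal R) (hreg : IsWeaklyRegular R [C.f 0, C.f 1, C.f 2])
    (D : Dat R) (hf : ∀ i : Fin 3, D.f (Fin.castLE (by norm_num) i) = C.f i) :
    ∃ l : Fin 3 → E8 T, (∀ i, Le zdg (-2) (l i)) ∧ (∀ i m, l i m ∈ C.R1 i) ∧
      ∀ v w, D.IsP v w → ∃ γ : E8 R, p3 γ = v ∧ (∀ a b, w2 γ a b = w a b) ∧
        ∀ i : Fin 3, ex (M1 (D.mu (Fin.castLE (by norm_num) i))) (ex (l i) (algebraMap R T ∘ γ)) =
          D.sv T (Fin.castLE (by norm_num) i) v w := by
  have hcast : (3 : ℕ) ≤ 8 := by norm_num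
  set c : Fin 3 → Fin 8 := fun i => Fin.castLE hcast i with hc
  have hu : ∀ i, IsUnit (algebraMap R T (D.f (c i))) := fun i => by
    rw [hc]
    simp only
    rw [hf i]
    exact C.unit i
  set a : Fin 3 → E8 T := fun i => M1 (D.mu (c i)) with ha
  have asup : ∀ i, Sup zdg (-1) (a i) := fun i => M1_sup _
  have hinv : ∀ i, Ring.inverse (algebraMap R T (D.f (c i))) ∈ C.R1 i := by
    intro i
    refine ⟨1, 1, ?_⟩
    rw [pow_one, map_one, ← hf i]
    exact Ring.mul_inverse_cancel _ (hu i)
  have hmu : ∀ i x y z, D.mu (T := T) (c i) x y z ∈ C.R1 i := fun i x y z =>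
    mul_mem (hinv i) ((C.R1 i).algebraMap_mem _)
  have amem : ∀ i m, a i m ∈ C.R1 i := fun i m => M1_mem _ (hmu i) m
  have nil1 : ∀ {x : E8 T}, Le zdg (-1) x → (brL x) ^ 7 = 0 := fun h => ad_nil_neg h
  have ale : ∀ i, Le zdg (-1) (a i) := fun i => sup_le (asup i)
  -- the transition elements
  choose L hL1 hL2 hL3 using fun i j : Fin 3 => exists_bch (C.R2 i j) (asup i) (asup j)
    (fun m => C.R1_le_R2 i j (amem i m)) (fun m => C.R1_le_R2' i j (amem j m))
  have hcomm : ∀ i j k : Fin 3, br (a k - a j) (a j - a i) = 0 := by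
    intro i j k
    simp only [ha]
    rw [M1_mu_sub D (hu j) (hu k), M1_mu_sub D (hu i) (hu j)]
    exact br_M1_M1 _ _ _ (tht0 D _ _) (tht1 D _ _) (tht0 D _ _) (tht1 D _ _)
  have hcoc : ∀ i j k : Fin 3, L i j + L j k = L i k := by
    intro i j k
    have hle : Le zdg (-2) (L j k + L i j) := le_add (hL1 j k) (hL1 i j)
    rw [add_comm]
    apply ex_low_inj hle (hL1 i k)
    rw [ex_low_add (hL1 j k) (hL1 i j), ← hL3 j k, ← hL3 i j,
      ex_ex_neg (nil1 (ale j)), ← hL3 i k,
      ← ex_add (nil1 (le_sub (ale k) (ale j))) (nil1 (le_sub (ale j) (ale i))) _ (hcomm i j k),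
      sub_add_sub_cancel]
    rw [sub_add_sub_cancel]
    exact nil1 (le_sub (ale k) (ale i))
  obtain ⟨b, hb1, hb2⟩ := C.cech hm hreg L hL2 (fun i j k s => congrFun (hcoc i j k) s)
  -- cut off the degrees `> -2`
  set l : Fin 3 → E8 T := fun i m => if zdg m ≤ -2 then b i m else 0 with hl
  have lle : ∀ i, Le zdg (-2) (l i) := by
    intro i m hm'
    simp only [hl]
    rw [if_neg (not_le.mpr hm')]
  have lmem : ∀ i m, l i m ∈ C.R1 i := by
    intro i m
    simp only [hl]
    split_ifs
    · exact hb1 i m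
    · exact zero_mem _
  have hLl : ∀ i j, L i j = l j - l i := by
    intro i j
    funext m
    simp only [hl, Pi.sub_apply]
    split_ifs with h
    · exact hb2 i j m
    · rw [sub_zero]
      exact hL1 i j m (not_le.mp h)
  refine ⟨l, lle, lmem, ?_⟩
  intro v w hvw
  set s : Fin 3 → E8 T := fun i => D.sv T (c i) v w with hs
  set g : Fin 3 → E8 T := fun i => ex (-(l i)) (ex (-(a i)) (s i)) with hg
  have l1 : ∀ i, Le zdg (-1) (l i) := fun i => le_mono (by norm_num) (lle i)
  have hgij : ∀ i j, g j = g i := by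
    intro i j
    have e1 : s j = ex (a j - a i) (s i) := (ex_sv D (hu i) (hu j) hvw).symm
    have e2 : ex (-(a j)) (s j) = ex (L i j) (ex (-(a i)) (s i)) := by
      rw [e1, ← hL3 i j, ex_ex_neg (nil1 (ale i))]
    simp only [hg]
    rw [e2, ← ex_low_add (le_neg (lle j)) (hL1 i j), hLl i j]
    congr 2
    abel
  have smem : ∀ i m, s i m ∈ C.R1 i := by
    intro i m
    simp only [hs]
    rw [sv_eq, Pi.add_apply]
    refine add_mem (V3_mem _ (fun x => (C.R1 i).algebraMap_mem _) m)
      (W2_mem _ (fun x y => ?_) m)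
    exact add_mem ((C.R1 i).algebraMap_mem _)
      (sum_mem fun q _ => mul_mem ((C.R1 i).algebraMap_mem _) (hmu i q x y))
  have gmem : ∀ i m, g i m ∈ C.R1 i := by
    intro i m
    simp only [hg]
    refine ex_mem (C.R1 i) (fun q => neg_mem (lmem i q)) (fun q => ?_) m
    exact ex_mem (C.R1 i) (fun q => neg_mem (amem i q)) (smem i) q
  have gR : ∀ m, ∃ r : R, algebraMap R T r = g 0 m := by
    intro m
    have h1 : g 0 m ∈ C.R1 1 := by
      rw [hgij 1 0]
      exact gmem 1 m
    exact C.inter hm hreg (i := 0) (j := 1) (by decide) (gmem 0 m) h1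
  choose γ hγ using gR
  have hγ' : algebraMap R T ∘ γ = g 0 := funext hγ
  refine ⟨γ, ?_, ?_, ?_⟩
  · funext q
    apply C.inj
    have h1 : algebraMap R T (p3 γ q) = g 0 (ix q) := hγ (ix q)
    rw [h1]
    simp only [hg]
    rw [ex_low (le_neg (lle 0)) (by rw [zdg_ix]; norm_num), ex_top3 (le_neg (ale 0)) (zdg_ix q)]
    have h2 : p3 (s 0) q = algebraMap R T (v q) := by
      simp only [hs]
      rw [sv_eq]
      have h3 : p3 (V3 (fun a => algebraMap R T (v a)) + W2 (Wc T D (c 0) v w)) =
          p3 (V3 (fun a => algebraMap R T (v a))) + p3 (W2 (Wc T D (c 0) v w)) := rfl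
      rw [h3, p3_V3, p3_W2, add_zero]
    exact h2
  · intro x y
    apply C.inj
    have h1 : algebraMap R T (w2 γ x y) = w2 (g 0) x y := by
      rw [← hγ']
      simp only [w2, map_mul, map_intCast, Function.comp_apply]
    rw [h1]
    by_cases hxy : x = y
    · subst hxy
      rw [hvw.w0, map_zero, w2, ep2_self, Int.cast_zero, zero_mul]
    have hz := zdg_i2ne x y hxy
    have h2 : g 0 (i2 x y) = W2 (Wc T D (c 0) v w) (i2 x y) -
        W2 (fun a b => ∑ m, algebraMap R T (v m) * D.mu (T := T) (c 0) m a b) (i2 x y) := by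
      simp only [hg]
      rw [ex_low (le_neg (lle 0)) (by omega), ex_top (le_neg (ale 0)) (by omega)]
      have h3 : s 0 = V3 (fun a => algebraMap R T (v a)) + W2 (Wc T D (c 0) v w) := rfl
      have h4 : br (-(a 0)) (s 0) = - W2 (fun a b => ∑ m, algebraMap R T (v m) *
          D.mu (T := T) (c 0) m a b) - br (a 0) (W2 (Wc T D (c 0) v w)) := by
        rw [h3, br_neg_left, br_add_right]
        simp only [ha]
        rw [br_M1_V3 _ (mu0 D (c 0)) (mu1 D (c 0)) (mu2 D (c 0))]
        abel
      have h5 : br (a 0) (W2 (Wc T D (c 0) v w)) (i2 x y) = 0 :=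
        Sup.br (d := zdg) (fun i j k h => sc_zdg h) (asup 0) (W2_sup _) _ (by omega)
      have h6 : V3 (fun a => algebraMap R T (v a)) (i2 x y) = 0 := V3_sup _ _ (by omega)
      rw [h4, h3, Pi.add_apply, Pi.sub_apply, Pi.neg_apply, h5, h6]
      ring
    have h7 : w2 (g 0) x y = w2 (W2 (Wc T D (c 0) v w)) x y -
        w2 (W2 (fun a b => ∑ m, algebraMap R T (v m) * D.mu (T := T) (c 0) m a b)) x y := by
      rw [w2, w2, w2, h2, mul_sub]
    rw [h7, w2_W2 _ (Wc0 D hvw) (Wc1 D hvw), w2_W2]
    · rw [Wc]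
      ring
    · intro i
      refine Finset.sum_eq_zero fun m _ => ?_
      rw [Dat.mu, nu_abb, map_zero, mul_zero, mul_zero]
    · intro i j
      rw [← Finset.sum_neg_distrib]
      refine Finset.sum_congr rfl fun m _ => ?_
      rw [mu2 D (c 0) m i j, mul_neg]
  · intro i
    rw [hγ', hgij i 0]
    simp only [hg]
    rw [ex_ex_neg (nil1 (l1 i))]
    exact ex_ex_neg (nil1 (ale i)) _

end Pool.Agent.Licci
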