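import Pool.Agent.Work.MP_a98e4e_ag.CA2

/-!
# LICCI, codimension 4: the first state is good
-/

namespace Pool.Agent.Licci

open Module RingTheory.Sequence IsLocalRing

universe u

theorem good_of_exact {R : Type u} [CommRing R] [IsLocalRing R] [IsNoetherianRing R]
    {F1 F2 F3 : Type u} [AddCommGroup F1] [Module R F1]
    [AddCommGroup F2] [Module R F2] [AddCommGroup F3] [Module R F3]
    [Module.Free R F1] [Module.Free R F2] [Module.Free R F3]
    [Module.Finite R F1] [Module.Finite R F2] [Module.Finite R F3]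
    {f : F1 →ₗ[R] R} {e2 : F2 →ₗ[R] F1} {e3 : F3 →ₗ[R] F2} {e4 : R →ₗ[R] F3}
    (h1 : Function.Exact e2 f) (h2 : Function.Exact e3 e2)
    (h3 : Function.Exact e4 e3) (h4 : Function.Injective e4)
    (_hI : ∀ v, f v ∈ maximalIdeal R) (a0 a1 a2 a3 : F1)
    (ha : IsWeaklyRegular R [f a0, f a1, f a2, f a3]) :
    ∃ ν : F1 [⋀^Fin 4]→ₗ[R] R, wedge f 4 ν = 0 ∧ Module.Free R (PP f ν) ∧
      Module.Finite R (PP f ν) ∧
      Module.finrank R F3 + Module.finrank R (PP f ν) =
        Module.finrank R F2 + Module.finrank R F1 ∧ Good f ν a0 a1 a2 a3 := by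
  have hf : HasReg f 4 := by
    refine ⟨[f a0, f a1, f a2, f a3], rfl, ha, ?_⟩
    intro r hr
    simp only [List.mem_cons, List.not_mem_nil, or_false] at hr
    rcases hr with rfl | rfl | rfl | rfl <;> exact ⟨_, rfl⟩
  obtain ⟨ν, hν, hfree, hfin, hrank, hgood⟩ := exists_nu_good h1 h2 h3 h4 hf
  exact ⟨ν, hν, hfree, hfin, hrank, hgood a0 a1 a2 a3 ha⟩

end Pool.Agent.Licci
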