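import Pool.Agent.Work.MP_a98e4e_ag.L.Dat
import Pool.Agent.Work.MP_a98e4e_ag.L.Gen

/-!
# L6: extremality of the `x`-degree `2` part
-/

set_option linter.unusedSectionVars false

namespace Pool.Agent.Licci

open scoped BigOperators
open U (Sup)

namespace LX

/-- `e_j ↦ e_j*` for `j` of `x`-degree `-2` -/
def shL (j : ℕ) : List (ℕ × ℤ) :=
  (List.finRange 7).flatMap (fun q : Fin 7 =>
    (bif Nat.beq (232 + ((q : ℕ) + 1)) j then [((q : ℕ) + 8, 1)] else []) ++
      (bif Nat.beq (204 + (q : ℕ)) j then [((q : ℕ) + 1, 1)] else []))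

/-- the pairs -/
def pr (q r : ℕ) : Bool := Nat.beq r (q + 7) || Nat.beq q (r + 7)

/-- the right hand side on basis vectors -/
def rhsL (q r j : ℕ) : List (ℕ × ℤ) :=
  (bif Nat.beq (ngN (q + 1)) j then [(r + 1, 1)] else []) ++
    ((bif Nat.beq (ngN (r + 1)) j then [(q + 1, 1)] else []) ++
      (bif pr q r then ng (shL j) else []))

/-- the check -/
def ckx (q r j : ℕ) : Bool := zr (lm (q + 1) (sp (r + 1) j) ++ ng (rhsL q r j))

set_option maxRecDepth 100000 in
theorem ckx_all : (List.range 14).all (fun q => (List.range 14).all (fun r =>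
    (List.range 248).all (fun j => ckx q r j))) = true := by decide +kernel

theorem ix_val {k : ℕ} (h : k < 248) : ((ix k : Fin 248) : ℕ) = k := by
  show k % 248 = k
  exact Nat.mod_eq_of_lt h

variable {A : Type*} [CommRing A]

theorem eb_ix {k : ℕ} (h : k < 248) (l : Fin 248) :
    (eb (ix k) : E8 A) l = if k = (l : ℕ) then 1 else 0 := by
  rw [eb_apply]
  refine if_congr ?_ rfl rfl
  rw [Fin.ext_iff, ix_val h, eq_comm]

theorem eb_at {k : ℕ} (h : k < 248) (j : Fin 248) :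
    (eb j : E8 A) (ix k) = if k = (j : ℕ) then 1 else 0 := by
  rw [eb_apply]
  refine if_congr ?_ rfl rfl
  rw [Fin.ext_iff, ix_val h]

theorem cf_bif (b : Bool) (L : List (ℕ × ℤ)) (k : ℕ) :
    cf (bif b then L else []) k = if b = true then cf L k else 0 := by
  cases b <;> simp [cf_nil]

theorem cf_one (a k : ℕ) (c : ℤ) : cf [(a, c)] k = if a = k then c else 0 := by
  rw [cf_cons, cf_nil, add_zero]

theorem cf_flatMap {α : Type} (L : List α) (F : α → List (ℕ × ℤ)) (k : ℕ) :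
    cf (L.flatMap F) k = (L.map (fun x => cf (F x) k)).sum := by
  induction L with
  | nil => simp [cf_nil]
  | cons a L ih => rw [List.flatMap_cons, cf_append, ih, List.map_cons, List.sum_cons]

theorem cf_shL (j k : ℕ) : cf (shL j) k = ∑ q : Fin 7,
    ((if 232 + ((q : ℕ) + 1) = j then (if (q : ℕ) + 8 = k then 1 else 0) else 0) +
      (if 204 + (q : ℕ) = j then (if (q : ℕ) + 1 = k then 1 else 0) else 0)) := by
  rw [shL, cf_flatMap, Fin.sum_univ_def]
  congr 1
  refine List.map_congr_left fun q _ => ?_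
  rw [cf_append, cf_bif, cf_bif, cf_one, cf_one]
  simp only [Nat.beq_eq]

theorem shp_eb (j l : Fin 248) : (shp (eb j) : E8 A) l = ((cf (shL j) l : ℤ) : A) := by
  rw [cf_shL, shp, Finset.sum_apply]
  push_cast
  refine Finset.sum_congr rfl fun q _ => ?_
  have hq := q.2
  rw [Pi.add_apply, Pi.smul_apply, Pi.smul_apply, smul_eq_mul, smul_eq_mul,
    eb_at (by omega), eb_at (by omega), eb_ix (by omega), eb_ix (by omega)]
  simp only [ite_mul, one_mul, zero_mul]

/-- `B_0` on basis vectors -/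
def bz (q r : ℕ) : ℤ := if pr q r = true then -1 else 0

theorem cf_rhsL (q r j k : ℕ) : cf (rhsL q r j) k =
    (if ngN (q + 1) = j then (if r + 1 = k then 1 else 0) else 0) +
      ((if ngN (r + 1) = j then (if q + 1 = k then 1 else 0) else 0) +
        bz q r * cf (shL j) k) := by
  rw [rhsL, cf_append, cf_append, cf_bif, cf_bif, cf_bif, cf_one, cf_one, cf_ng, bz]
  simp only [Nat.beq_eq]
  congr 2
  split_ifs <;> ring

theorem ngN_lt (q : Fin 14) : ngN ((q : ℕ) + 1) < 248 := by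
  have := q.2
  unfold ngN
  split_ifs <;> omega

theorem basis_apply (q r : Fin 14) (j l : Fin 248) :
    (br (eb (ix ((q : ℕ) + 1)) : E8 A) (br (eb (ix ((r : ℕ) + 1))) (eb j))) l =
      ((cf (rhsL q r j) l : ℤ) : A) := by
  have hq := q.2
  have hr := r.2
  have h := all_range (all_range (all_range ckx_all hq) hr) j.2
  have h0 := zr_spec h l
  rw [cf_append, cf_ng, cf_lm] at h0
  have e := sum_cf (sp ((r : ℕ) + 1) j) (fun p hp => sp_rng (by omega) j.2 hp)
    (fun m => scN ((q : ℕ) + 1) m l)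
  rw [br_eb_br, ix_val (by omega), ix_val (by omega)]
  congr 1
  simp only [scN] at *
  rw [e]
  linarith

/-- linear version of `shp` -/
def shpLin : E8 A →ₗ[A] E8 A where
  toFun := shp
  map_add' x y := by
    simp only [shp, Pi.add_apply, add_smul, ← Finset.sum_add_distrib]
    refine Finset.sum_congr rfl fun q _ => ?_
    abel
  map_smul' c x := by
    simp only [shp, Pi.smul_apply, smul_eq_mul, mul_smul, Finset.smul_sum, smul_add,
      RingHom.id_apply]

theorem basis_y (q r : Fin 14) (y : E8 A) :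
    br (eb (ix ((q : ℕ) + 1)) : E8 A) (br (eb (ix ((r : ℕ) + 1))) y) =
      y (ix (ngN ((q : ℕ) + 1))) • eb (ix ((r : ℕ) + 1)) +
        (y (ix (ngN ((r : ℕ) + 1))) • eb (ix ((q : ℕ) + 1)) + ((bz q r : ℤ) : A) • shp y) := by
  let F : E8 A →ₗ[A] E8 A := brL (eb (ix ((q : ℕ) + 1))) ∘ₗ brL (eb (ix ((r : ℕ) + 1)))
  let F' : E8 A →ₗ[A] E8 A :=
    (LinearMap.proj (ix (ngN ((q : ℕ) + 1))) : E8 A →ₗ[A] A).smulRight (eb (ix ((r : ℕ) + 1))) +
      ((LinearMap.proj (ix (ngN ((r : ℕ) + 1))) : E8 A →ₗ[A] A).smulRight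
        (eb (ix ((q : ℕ) + 1))) + ((bz q r : ℤ) : A) • shpLin)
  have h : F = F' := by
    apply E8.hom_ext
    intro j
    funext l
    have hq := q.2
    have hr := r.2
    show (br (eb (ix ((q : ℕ) + 1)) : E8 A) (br (eb (ix ((r : ℕ) + 1))) (eb j))) l =
      (eb j : E8 A) (ix (ngN ((q : ℕ) + 1))) * (eb (ix ((r : ℕ) + 1)) : E8 A) l +
        ((eb j : E8 A) (ix (ngN ((r : ℕ) + 1))) * (eb (ix ((q : ℕ) + 1)) : E8 A) l +
          ((bz q r : ℤ) : A) * (shp (eb j) : E8 A) l)
    rw [basis_apply, cf_rhsL, shp_eb, eb_at (ngN_lt q), eb_at (ngN_lt r), eb_ix (by omega),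
      eb_ix (by omega)]
    push_cast
    simp only [ite_mul, one_mul, zero_mul]
  exact LinearMap.congr_fun h y

set_option maxRecDepth 100000 in
theorem xdg_two : ∀ m : Fin 248, xdg m = 2 → 1 ≤ (m : ℕ) ∧ (m : ℕ) ≤ 14 := by
  decide +kernel

theorem eq_sum_x {g : E8 A} (hg : Sup xdg 2 g) :
    g = ∑ q : Fin 14, g (ix ((q : ℕ) + 1)) • (eb (ix ((q : ℕ) + 1)) : E8 A) := by
  funext l
  rw [Finset.sum_apply]
  by_cases hl : 1 ≤ (l : ℕ) ∧ (l : ℕ) ≤ 14
  · rw [Finset.sum_eq_single (⟨(l : ℕ) - 1, by omega⟩ : Fin 14)]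
    · have e : (l : ℕ) - 1 + 1 = l := by omega
      rw [Pi.smul_apply, smul_eq_mul]
      simp only
      rw [e, eb_ix l.2, if_pos rfl, mul_one]
      congr 1
      exact Fin.ext (ix_val l.2).symm
    · intro q _ hq
      have hq2 := q.2
      rw [Pi.smul_apply, smul_eq_mul, eb_ix (by omega), if_neg, mul_zero]
      intro h
      apply hq
      apply Fin.ext
      simp only
      omega
    · intro h
      exact absurd (Finset.mem_univ _) h
  · have h1 : g l = 0 := hg l (fun h => hl (xdg_two l h))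
    rw [h1]
    symm
    refine Finset.sum_eq_zero fun q _ => ?_
    have hq2 := q.2
    rw [Pi.smul_apply, smul_eq_mul, eb_ix (by omega), if_neg, mul_zero]
    omega

theorem sum_bz (g h : E8 A) : ∑ q : Fin 14, ∑ r : Fin 14,
    (g (ix ((q : ℕ) + 1)) * h (ix ((r : ℕ) + 1))) * ((bz q r : ℤ) : A) = B0 g h := by
  have e1 : ∀ i j : Fin 7, bz (i : ℕ) (j : ℕ) = 0 := by decide
  have e2 : ∀ i j : Fin 7, bz (i : ℕ) (7 + (j : ℕ)) = if i = j then -1 else 0 := by decide
  have e3 : ∀ i j : Fin 7, bz (7 + (i : ℕ)) (j : ℕ) = if i = j then -1 else 0 := by decide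
  have e4 : ∀ i j : Fin 7, bz (7 + (i : ℕ)) (7 + (j : ℕ)) = 0 := by decide
  have split : ∀ f : Fin (7 + 7) → A, ∑ q : Fin 14, f q =
      ∑ i : Fin 7, f (Fin.castAdd 7 i) + ∑ i : Fin 7, f (Fin.natAdd 7 i) :=
    fun f => Fin.sum_univ_add f
  rw [split]
  simp only [split, Fin.val_castAdd, Fin.val_natAdd, e1, e2, e3, e4, Int.cast_zero, mul_zero,
    Finset.sum_const_zero, zero_add, add_zero]
  rw [← Finset.sum_add_distrib, B0, ← Finset.sum_neg_distrib]
  refine Finset.sum_congr rfl fun i _ => ?_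
  have e5 : 7 + (i : ℕ) + 1 = (i : ℕ) + 8 := by omega
  simp only [Int.cast_ite, Int.cast_neg, Int.cast_one, Int.cast_zero, mul_ite, mul_neg, mul_one,
    mul_zero, Finset.sum_ite_eq, Finset.mem_univ, if_true, e5]
  ring

end LX

open LX

variable {A : Type*} [CommRing A]

theorem lemX {g h : E8 A} (hg : Sup xdg 2 g) (hh : Sup xdg 2 h) (y : E8 A) :
    br g (br h y) = kp y g • h + kp y h • g + B0 g h • shp y := by
  have e1 : br g (br h y) = ∑ q : Fin 14, ∑ r : Fin 14,
      (g (ix ((q : ℕ) + 1)) * h (ix ((r : ℕ) + 1))) •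
        br (eb (ix ((q : ℕ) + 1)) : E8 A) (br (eb (ix ((r : ℕ) + 1))) y) := by
    conv_lhs => rw [eq_sum_x hg, eq_sum_x hh]
    rw [br_sum_left, br_sum_left]
    refine Finset.sum_congr rfl fun q _ => ?_
    rw [br_smul_left, br_sum_right, Finset.smul_sum]
    refine Finset.sum_congr rfl fun r _ => ?_
    rw [br_smul_left, br_smul_right, smul_smul]
  rw [e1]
  simp only [basis_y, smul_add, Finset.sum_add_distrib]
  have a1 : ∑ q : Fin 14, ∑ r : Fin 14, (g (ix ((q : ℕ) + 1)) * h (ix ((r : ℕ) + 1))) •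
      (y (ix (ngN ((q : ℕ) + 1))) • (eb (ix ((r : ℕ) + 1)) : E8 A)) = kp y g • h := by
    conv_rhs => rw [eq_sum_x hh]
    rw [kp, Finset.sum_smul]
    refine Finset.sum_congr rfl fun q _ => ?_
    rw [Finset.smul_sum]
    refine Finset.sum_congr rfl fun r _ => ?_
    rw [smul_smul, smul_smul]
    congr 1
    ring
  have a2 : ∑ q : Fin 14, ∑ r : Fin 14, (g (ix ((q : ℕ) + 1)) * h (ix ((r : ℕ) + 1))) •
      (y (ix (ngN ((r : ℕ) + 1))) • (eb (ix ((q : ℕ) + 1)) : E8 A)) = kp y h • g := by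
    conv_rhs => rw [eq_sum_x hg]
    rw [Finset.sum_comm, kp, Finset.sum_smul]
    refine Finset.sum_congr rfl fun q _ => ?_
    rw [Finset.smul_sum]
    refine Finset.sum_congr rfl fun r _ => ?_
    rw [smul_smul, smul_smul]
    congr 1
    ring
  have a3 : ∑ q : Fin 14, ∑ r : Fin 14, (g (ix ((q : ℕ) + 1)) * h (ix ((r : ℕ) + 1))) •
      (((bz q r : ℤ) : A) • (shp y : E8 A)) = B0 g h • shp y := by
    rw [← sum_bz, Finset.sum_smul]
    refine Finset.sum_congr rfl fun q _ => ?_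
    rw [Finset.sum_smul]
    refine Finset.sum_congr rfl fun r _ => ?_
    rw [smul_smul]
  rw [a1, a2, a3, ← add_assoc]

set_option maxRecDepth 100000 in
theorem LX.xdg_i2_ne : ∀ i j : Fin 8, i ≠ 0 → j ≠ 0 → i ≠ j → xdg (i2 i j) ≠ 2 := by
  decide +kernel

set_option maxRecDepth 100000 in
theorem LX.i2_zero : ∀ j : Fin 7, i2 0 j.succ = ix ((j : ℕ) + 8) ∧ i2 j.succ 0 = ix ((j : ℕ) + 8) := by
  decide +kernel

set_option maxRecDepth 100000 in
theorem LX.xdg_zero : xdg (ix 0) ≠ 2 := by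
  decide +kernel

theorem LX.Th_std_aux {g h : E8 A} (hg : Sup xdg 2 g) (hh : Sup xdg 2 h) (u : Vec A) :
    om h (p3 g) u = - (∑ q : Fin 7, g (ix ((q : ℕ) + 1)) * h (ix ((q : ℕ) + 8))) * u 0 := by
  have w00 : ∀ i j : Fin 7, w2 h i.succ j.succ = 0 := by
    intro i j
    by_cases hij : i = j
    · subst hij
      simp [w2, ep2]
    · rw [w2, hh _ (xdg_i2_ne _ _ (Fin.succ_ne_zero i) (Fin.succ_ne_zero j)
        (fun e => hij (Fin.succ_injective _ e))), mul_zero]
  have w1 : ∀ i : Fin 7, w2 h i.succ 0 = - h (ix ((i : ℕ) + 8)) := by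
    intro i
    have e : ep2 i.succ 0 = -1 := by
      unfold ep2
      apply Int.sign_eq_neg_one_of_neg
      simp only [Fin.val_succ]
      push_cast
      simp only [Fin.val_zero]
      omega
    rw [w2, e, (i2_zero i).2]
    simp
  have hp0 : p3 g 0 = 0 := hg _ xdg_zero
  have hps : ∀ i : Fin 7, p3 g i.succ = g (ix ((i : ℕ) + 1)) := by
    intro i
    rfl
  rw [om, Fin.sum_univ_succ, hp0]
  simp only [zero_mul, mul_zero, Finset.sum_const_zero, zero_add]
  rw [← Finset.sum_neg_distrib, Finset.sum_mul]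
  refine Finset.sum_congr rfl fun i _ => ?_
  rw [Fin.sum_univ_succ, w1, hps]
  simp only [w00, zero_mul, Finset.sum_const_zero, add_zero]
  ring

theorem Th_std {g h : E8 A} (hg : Sup xdg 2 g) (hh : Sup xdg 2 h) (u : Vec A) :
    Th g h u = B0 g h * u 0 := by
  rw [Th, Th_std_aux hg hh, Th_std_aux hh hg, B0, ← add_mul, ← neg_add, ← Finset.sum_add_distrib]
  congr 2
  refine Finset.sum_congr rfl fun q _ => ?_
  ring

end Pool.Agent.Licci
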