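import Pool.Agent.Work.MP_a98e4e_ag.L.FormA4

/-!
# LICCI L11b: exponentials of the matrix units in degree `0`
-/

namespace Pool.Agent.Licci

open scoped BigOperators
open U (Sup)

variable {A : Type*} [CommRing A]

namespace Levi

theorem p3_add (Y Z : E8 A) : p3 (Y + Z) = p3 Y + p3 Z := rfl

theorem p3_smul (c : A) (Y : E8 A) : p3 (c • Y) = c • p3 Y := rfl

theorem p3_zero : p3 (0 : E8 A) = 0 := rfl

theorem p3_sum {ι : Type*} (s : Finset ι) (Y : ι → E8 A) :
    p3 (∑ i ∈ s, Y i) = ∑ i ∈ s, p3 (Y i) := by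
  classical
  induction s using Finset.induction_on with
  | empty => simp [p3_zero]
  | insert a s ha ih => rw [Finset.sum_insert ha, Finset.sum_insert ha, p3_add, ih]

theorem om_add (Y Z : E8 A) (x y : Vec A) : om (Y + Z) x y = om Y x y + om Z x y := by
  simp only [om, w2, Pi.add_apply, mul_add, add_mul, Finset.sum_add_distrib]

theorem om_smul (c : A) (Y : E8 A) (x y : Vec A) : om (c • Y) x y = c * om Y x y := by
  simp only [om, w2, Pi.smul_apply, smul_eq_mul, Finset.mul_sum]
  refine Finset.sum_congr rfl fun i _ => Finset.sum_congr rfl fun j _ => ?_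
  ring

theorem om_zero (x y : Vec A) : om (0 : E8 A) x y = 0 := by
  simp [om, w2]

theorem om_sum {ι : Type*} (s : Finset ι) (Y : ι → E8 A) (x y : Vec A) :
    om (∑ i ∈ s, Y i) x y = ∑ i ∈ s, om (Y i) x y := by
  classical
  induction s using Finset.induction_on with
  | empty => simp [om_zero]
  | insert a s ha ih => rw [Finset.sum_insert ha, Finset.sum_insert ha, om_add, ih]

theorem om_add_left (Y : E8 A) (x x' y : Vec A) : om Y (x + x') y = om Y x y + om Y x' y := by
  simp only [om, Pi.add_apply, mul_add, add_mul, Finset.sum_add_distrib]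

theorem om_add_right (Y : E8 A) (x y y' : Vec A) : om Y x (y + y') = om Y x y + om Y x y' := by
  simp only [om, Pi.add_apply, mul_add, Finset.sum_add_distrib]

theorem om_smul_left (Y : E8 A) (c : A) (x y : Vec A) : om Y (c • x) y = c * om Y x y := by
  simp only [om, Pi.smul_apply, smul_eq_mul, Finset.mul_sum]
  refine Finset.sum_congr rfl fun i _ => Finset.sum_congr rfl fun j _ => ?_
  ring

theorem om_smul_right (Y : E8 A) (c : A) (x y : Vec A) : om Y x (c • y) = c * om Y x y := by
  simp only [om, Pi.smul_apply, smul_eq_mul, Finset.mul_sum]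
  refine Finset.sum_congr rfl fun i _ => Finset.sum_congr rfl fun j _ => ?_
  ring

theorem om_sum_left {ι : Type*} (s : Finset ι) (Y : E8 A) (x : ι → Vec A) (y : Vec A) :
    om Y (∑ i ∈ s, x i) y = ∑ i ∈ s, om Y (x i) y := by
  classical
  induction s using Finset.induction_on with
  | empty => simp [om]
  | insert a s ha ih => rw [Finset.sum_insert ha, Finset.sum_insert ha, om_add_left, ih]

theorem om_sum_right {ι : Type*} (s : Finset ι) (Y : E8 A) (x : Vec A) (y : ι → Vec A) :
    om Y x (∑ i ∈ s, y i) = ∑ i ∈ s, om Y x (y i) := by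
  classical
  induction s using Finset.induction_on with
  | empty => simp [om]
  | insert a s ha ih => rw [Finset.sum_insert ha, Finset.sum_insert ha, om_add_right, ih]

/-- `X` acts on `p3` by `v ↦ l v e_i` and on `om` contragrediently, `l (e_i) = 0` -/
structure Act (X : E8 A) (i : Fin 8) (l : Vec A → A) : Prop where
  l0 : ∀ v c, l (v + Pi.single i c) = l v
  l1 : ∀ c, l (Pi.single i c) = 0
  p3 : ∀ Y, Licci.p3 (br X Y) = Pi.single i (l (Licci.p3 Y))
  om : ∀ Y x y, Licci.om (br X Y) x y =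
    -(Licci.om Y (Pi.single i (l x)) y + Licci.om Y x (Pi.single i (l y)))

variable {X : E8 A} {i : Fin 8} {l : Vec A → A}

theorem Act.p3_two (h : Act X i l) (n : ℕ) (Y : E8 A) :
    Licci.p3 (((brL X) ^ (n + 2)) Y) = 0 := by
  rw [pow_succ', pow_succ', Module.End.mul_apply, Module.End.mul_apply, brL_apply, brL_apply, h.p3,
    h.p3, h.l1, Pi.single_zero]

theorem single_eq_smul (i : Fin 8) (c : A) : (Pi.single i c : Vec A) = c • Pi.single i 1 := by
  funext j
  by_cases hj : j = i
  · subst hj; simp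
  · simp [Pi.single_eq_of_ne hj]

theorem om_single_single (Y : E8 A) (i : Fin 8) (c c' : A) :
    Licci.om Y (Pi.single i c) (Pi.single i c') = 0 := by
  rw [single_eq_smul i c, single_eq_smul i c', om_smul_left, om_smul_right, om_self, mul_zero,
    mul_zero]

theorem om_zero_left (Y : E8 A) (y : Vec A) : Licci.om Y 0 y = 0 := by
  simp [Licci.om]

theorem om_zero_right (Y : E8 A) (y : Vec A) : Licci.om Y y 0 = 0 := by
  simp [Licci.om]

theorem Act.om_two (h : Act X i l) (n : ℕ) (Y : E8 A) (x y : Vec A) :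
    Licci.om (((brL X) ^ (n + 2)) Y) x y = 0 := by
  rw [pow_succ', pow_succ', Module.End.mul_apply, Module.End.mul_apply, brL_apply, brL_apply, h.om,
    h.om, h.om, h.l1, h.l1]
  simp only [om_single_single, Pi.single_zero, om_zero_left, om_zero_right]
  ring

variable [Algebra ℚ A]

theorem ex_eq (X Y : E8 A) : ex X Y = Y + br X Y + ∑ n ∈ Finset.range 5,
    algebraMap ℚ A (((n + 2).factorial : ℚ)⁻¹) • ((brL X) ^ (n + 2)) Y := by
  rw [ex, LinearMap.sum_apply, Finset.sum_range_succ', Finset.sum_range_succ']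
  simp only [LinearMap.smul_apply, zero_add, pow_zero, pow_one, Nat.factorial_zero,
    Nat.factorial_one, Nat.cast_one, inv_one, map_one, one_smul, Module.End.one_apply, brL_apply,
    add_assoc, Nat.reduceAdd]
  rw [add_comm, add_comm (br X Y) Y, add_assoc]

theorem Act.ex_p3 (h : Act X i l) (Y : E8 A) :
    Licci.p3 (ex X Y) = Licci.p3 Y + Pi.single i (l (Licci.p3 Y)) := by
  rw [ex_eq, p3_add, p3_add, h.p3, p3_sum, Finset.sum_eq_zero, add_zero]
  intro n _
  rw [p3_smul, h.p3_two, smul_zero]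

theorem Act.ex_om (h : Act X i l) (Y : E8 A) (x y : Vec A) :
    Licci.om (ex X Y) x y = Licci.om Y x y -
      (Licci.om Y (Pi.single i (l x)) y + Licci.om Y x (Pi.single i (l y))) := by
  rw [ex_eq, om_add, om_add, h.om, om_sum, Finset.sum_eq_zero, add_zero]
  · ring
  · intro n _
    rw [om_smul, h.om_two, mul_zero]

theorem Act.ex_om' (h : Act X i l) (Y : E8 A) (x y : Vec A) :
    Licci.om (ex X Y) (x + Pi.single i (l x)) (y + Pi.single i (l y)) = Licci.om Y x y := by
  rw [h.ex_om, h.l0, h.l0]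
  simp only [om_add_left, om_add_right, om_single_single]
  ring

end Levi

open Levi

/-- the row element -/
theorem row_act (t : Fin 8 → A) : Act (∑ j : Fin 7, t j.succ • Eg 0 j.succ : E8 A) 0
    (fun v => ∑ j : Fin 7, t j.succ * v j.succ) where
  l0 v c := by
    refine Finset.sum_congr rfl fun j _ => ?_
    rw [Pi.add_apply, Pi.single_eq_of_ne (Fin.succ_ne_zero j), add_zero]
  l1 c := by
    refine Finset.sum_eq_zero fun j _ => ?_
    rw [Pi.single_eq_of_ne (Fin.succ_ne_zero j), mul_zero]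
  p3 Y := by
    rw [br_sum_left, p3_sum]
    simp only [br_smul_left, p3_smul, p3_Eg (Fin.succ_ne_zero _).symm]
    rw [single_eq_smul 0 (∑ j : Fin 7, _), Finset.sum_smul]
    refine Finset.sum_congr rfl fun j _ => ?_
    rw [smul_smul]
  om Y x y := by
    rw [br_sum_left, om_sum]
    simp only [br_smul_left, om_smul, om_Eg (Fin.succ_ne_zero _).symm]
    rw [single_eq_smul 0 (∑ j : Fin 7, _), single_eq_smul 0 (∑ j : Fin 7, _), Finset.sum_smul,
      Finset.sum_smul, om_sum_left, om_sum_right, ← Finset.sum_add_distrib, ← Finset.sum_neg_distrib]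
    refine Finset.sum_congr rfl fun j _ => ?_
    simp only [om_smul_left, om_smul_right]
    ring

/-- one matrix unit -/
theorem unit_act {i j : Fin 8} (h : i ≠ j) (c : A) : Act (c • Eg i j : E8 A) i
    (fun v => c * v j) where
  l0 v d := by rw [Pi.add_apply, Pi.single_eq_of_ne h.symm, add_zero]
  l1 d := by rw [Pi.single_eq_of_ne h.symm, mul_zero]
  p3 Y := by
    rw [br_smul_left, p3_smul, p3_Eg h, smul_smul, ← single_eq_smul]
  om Y x y := by
    rw [br_smul_left, om_smul, om_Eg h, single_eq_smul i (c * x j), single_eq_smul i (c * y j)]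
    simp only [om_smul_left, om_smul_right]
    ring

theorem row_nil (t : Fin 8 → A) : (brL (∑ j : Fin 7, t j.succ • Eg 0 j.succ : E8 A)) ^ 7 = 0 := by
  refine ad_nil_wt 0 fun m hm => ?_
  rw [Finset.sum_apply]
  refine Finset.sum_eq_zero fun j _ => ?_
  rw [Pi.smul_apply, Eg_wtg (Fin.succ_ne_zero j).symm 0 m, smul_zero]
  rw [if_pos rfl, if_neg (Fin.succ_ne_zero j).symm]
  omega

theorem unit_nil {i j : Fin 8} (h : i ≠ j) (c : A) : (brL (c • Eg i j : E8 A)) ^ 7 = 0 := by
  refine ad_nil_wt i fun m hm => ?_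
  rw [Pi.smul_apply, Eg_wtg h i m, smul_zero]
  rw [if_pos rfl, if_neg h]
  omega

variable [Algebra ℚ A]

/-- exponentials of the matrix units in row `0`: `v ↦ v + (∑_(j ≠ 0) t_j v_j) e_0` -/
theorem row_p3 (t : Fin 8 → A) (Y : E8 A) :
    p3 (ex (∑ j : Fin 7, t j.succ • Eg 0 j.succ) Y) =
      p3 Y + Pi.single 0 (∑ j : Fin 7, t j.succ * p3 Y j.succ) := (row_act t).ex_p3 Y

theorem row_om (t : Fin 8 → A) (Y : E8 A) (x y : Vec A) :
    om (ex (∑ j : Fin 7, t j.succ • Eg 0 j.succ) Y)
      (x + Pi.single 0 (∑ j : Fin 7, t j.succ * x j.succ))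
      (y + Pi.single 0 (∑ j : Fin 7, t j.succ * y j.succ)) = om Y x y := (row_act t).ex_om' Y x y

/-- one matrix unit: `v ↦ v + c v_j e_i` -/
theorem unit_p3 {i j : Fin 8} (h : i ≠ j) (c : A) (Y : E8 A) :
    p3 (ex (c • Eg i j) Y) = p3 Y + Pi.single i (c * p3 Y j) := (unit_act h c).ex_p3 Y

theorem unit_om {i j : Fin 8} (h : i ≠ j) (c : A) (Y : E8 A) (x y : Vec A) :
    om (ex (c • Eg i j) Y) (x + Pi.single i (c * x j)) (y + Pi.single i (c * y j)) = om Y x y :=
  (unit_act h c).ex_om' Y x y

end Pool.Agent.Licci
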