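import Pool.Agent.Work.MP_a98e4e_ag.L.Dat

/-!
# LICCI, codimension 4: the `4`-form of a state is determined by `f ∧ ω = ι_(d l) ν`
-/

namespace Pool.Agent.Licci

open scoped BigOperators
open U (Sup)

universe u

section

variable {R : Type u} [CommRing R]

/-- the last variable of a `4`-form -/
def lastL (ν : Vec R [⋀^Fin 4]→ₗ[R] R) (x y z : Vec R) : Vec R →ₗ[R] R :=
  ν.toMultilinearMap.toLinearMap ![x, y, z, 0] 3

theorem lastL_apply (ν : Vec R [⋀^Fin 4]→ₗ[R] R) (x y z v : Vec R) :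
    lastL ν x y z v = ν ![x, y, z, v] := by
  unfold lastL
  rw [MultilinearMap.toLinearMap_apply]
  have e : Function.update ![x, y, z, (0 : Vec R)] 3 v = ![x, y, z, v] := by
    funext i
    fin_cases i <;> rfl
  rw [e]
  rfl

theorem nu_swap_last (ν : Vec R [⋀^Fin 4]→ₗ[R] R) (x y z v : Vec R) :
    ν ![x, y, z, v] = - ν ![x, y, v, z] := by
  have h := ν.map_swap ![x, y, v, z] (i := 2) (j := 3) (by decide)
  rw [← h]
  congr 1
  funext i
  fin_cases i <;> rfl

theorem nu_last_eq (ν : Vec R [⋀^Fin 4]→ₗ[R] R) (x y v : Vec R) : ν ![x, y, v, v] = 0 :=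
  ν.map_eq_zero_of_eq ![x, y, v, v] (i := 2) (j := 3) rfl (by decide)

end

theorem RState.nu_eq {R : Type u} [CommRing R] [IsDomain R] {K : Type u} [Field K] [Algebra R K]
    [IsFractionRing R K] {M : Matrix (Fin 14) (Fin 14) R} (s : RState R K M)
    (ν ν' : Vec R [⋀^Fin 4]→ₗ[R] R)
    (h : ∀ l x y z, ν ![x, y, z, p3 (s.γ l)] =
        -(s.f x * om (s.γ l) y z - s.f y * om (s.γ l) x z + s.f z * om (s.γ l) x y))
    (h' : ∀ l x y z, ν' ![x, y, z, p3 (s.γ l)] =
        -(s.f x * om (s.γ l) y z - s.f y * om (s.γ l) x z + s.f z * om (s.γ l) x y))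
    (hs : ∀ x, s.f x = 0 → ∃ c : Fin 14 → R, x = ∑ l, c l • p3 (s.γ l)) : ν = ν' := by
  set δ : Vec R [⋀^Fin 4]→ₗ[R] R := ν - ν' with hδ
  have key : ∀ x y z v, s.f v = 0 → δ ![x, y, z, v] = 0 := by
    intro x y z v hv
    obtain ⟨c, rfl⟩ := hs v hv
    rw [← lastL_apply, map_sum]
    refine Finset.sum_eq_zero fun l _ => ?_
    rw [map_smul, lastL_apply, hδ, AlternatingMap.sub_apply, h, h', sub_self, smul_zero]
  obtain ⟨x0, hx0⟩ : ∃ x, s.f x ≠ 0 := by
    by_contra hc
    push Not at hc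
    exact s.f0 (LinearMap.ext fun x => by rw [hc x]; rfl)
  -- replace the last vector
  have rep : ∀ x y z v, s.f x0 * δ ![x, y, z, v] = s.f v * δ ![x, y, z, x0] := by
    intro x y z v
    have e := key x y z (s.f x0 • v - s.f v • x0) (by
      rw [map_sub, map_smul, map_smul, smul_eq_mul, smul_eq_mul]
      ring)
    rw [← lastL_apply, map_sub, map_smul, map_smul, lastL_apply, lastL_apply, smul_eq_mul,
      smul_eq_mul] at e
    exact sub_eq_zero.1 e
  have last : ∀ x y z, δ ![x, y, z, x0] = 0 := by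
    intro x y z
    have e := rep x y x0 z
    rw [nu_last_eq, mul_zero] at e
    rw [nu_swap_last, (mul_eq_zero.1 e).resolve_left hx0, neg_zero]
  have all : ∀ x y z v, δ ![x, y, z, v] = 0 := by
    intro x y z v
    have e := rep x y z v
    rw [last, mul_zero] at e
    exact (mul_eq_zero.1 e).resolve_left hx0
  refine AlternatingMap.ext fun a => ?_
  have ea : a = ![a 0, a 1, a 2, a 3] := by
    funext i
    fin_cases i <;> rfl
  have e := all (a 0) (a 1) (a 2) (a 3)
  rw [← ea, hδ, AlternatingMap.sub_apply] at e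
  exact sub_eq_zero.1 e

end Pool.Agent.Licci
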