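import Pool.Agent.Work.MP_a98e4e_ag.L.RState

/-!
# LICCI, codimension 4: the state of the frames
-/

namespace Pool.Agent.Licci

open scoped BigOperators
open U (Sup)
open Module RingTheory.Sequence IsLocalRing

universe u

set_option linter.unusedSectionVars false in
theorem RState.of_udata {R : Type u} [CommRing R] [IsDomain R] [IsLocalRing R] [Algebra ℚ R]
    {T : Type u} [CommRing T] [Algebra R T] {K : Type u} [Field K] [Algebra R K] [Algebra T K]
    [IsScalarTower R T K] [IsFractionRing R K] (C : U.Cov R T) (W : U.UData xtab C)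
    (f : Vec R →ₗ[R] R) (hf : f ≠ 0) (hth : ∀ l m u, Th (W.γ l) (W.γ m) u = W.M l m * f u) :
    ∃ s : RState R K W.M, s.γ = W.γ ∧ s.f = f := by
  have hφ : ∀ x : E8 R, algebraMap R K ∘ x = algebraMap T K ∘ (algebraMap R T ∘ x) := by
    intro x
    funext m
    exact IsScalarTower.algebraMap_apply R T K (x m)
  refine ⟨{ γ := W.γ
            k := ((W.G' 0).map (algebraMap T K)).mulVecLin
            aut := RS.isAut_of_matrix (algebraMap T K) (W.GG' 0) (W.G'G 0) (W.hom 0)
            g := fun l => algebraMap T K ∘ (W.G 0).mulVec (algebraMap R T ∘ W.γ l)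
            sup := ?_
            kg := ?_
            gram := ?_
            f := f
            th := hth
            f0 := hf }, rfl, rfl⟩
  · intro l m hm
    rw [Function.comp_apply, W.hγ 0 l m hm, map_zero]
  · intro l
    rw [Matrix.mulVecLin_apply, RS.map_mulVec_comp, Matrix.mulVec_mulVec, W.G'G 0,
      Matrix.one_mulVec, hφ]
  · intro l m
    rw [← RS.B0_comp, ← RS.qf_xtab, ← W.hM 0 l m, ← IsScalarTower.algebraMap_apply R T K]

end Pool.Agent.Licci
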