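import Pool.Agent.Work.MP_a98e4e_ag.GenPos

/-!
# LICCI, codimension 4: a general basis of `R ^ 8`
-/

namespace Pool.Agent.Licci

open IsLocalRing RingTheory.Sequence

universe u

variable {R : Type u} [CommRing R] [IsLocalRing R] [IsNoetherianRing R]

theorem exists_general_vectors [Infinite (ResidueField R)] {N : ℕ} (f : (Fin N → R) →ₗ[R] R)
    (hI : ∀ v, f v ∈ maximalIdeal R)
    (hgr : ∃ rs : List R, rs.length = 4 ∧ IsRegular R rs ∧ ∀ r ∈ rs, r ∈ LinearMap.range f) :
    ∀ n : ℕ, n ≤ N → ∃ a : Fin n → (Fin N → R),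
      LinearIndependent (ResidueField R) (fun i => red (a i)) ∧
      IsWeaklyRegular R (List.take 4 (List.ofFn fun i => f (a i))) := by
  have hsum : ∀ v : Fin N → R, f v = ∑ j, v j * f (Pi.single j 1) := by
    intro v
    conv_lhs => rw [show v = ∑ j, v j • (Pi.single j 1 : Fin N → R) by
      funext i; simp [Finset.sum_apply, Pi.single_apply]]
    rw [map_sum]
    exact Finset.sum_congr rfl fun j _ => map_smul _ _ _
  have hspan : Ideal.span (Set.range fun j : Fin N => f (Pi.single j 1)) = LinearMap.range f := by
    apply le_antisymm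
    · rw [Ideal.span_le]
      rintro _ ⟨j, rfl⟩
      exact ⟨_, rfl⟩
    · rintro _ ⟨v, rfl⟩
      rw [hsum]
      exact Ideal.sum_mem _ fun j _ => Ideal.mul_mem_left _ _ (Ideal.subset_span ⟨j, rfl⟩)
  have hI' : Ideal.span (Set.range fun j : Fin N => f (Pi.single j 1)) ≤ maximalIdeal R := by
    rw [hspan]
    rintro _ ⟨v, rfl⟩
    exact hI v
  obtain ⟨rs, hr1, hr2, hr3⟩ := hgr
  have hgr' : ∃ rs : List R, rs.length = 4 ∧
      (∀ y ∈ rs, y ∈ Ideal.span (Set.range fun j : Fin N => f (Pi.single j 1))) ∧
      IsRegular R rs := ⟨rs, hr1, fun y hy => by rw [hspan]; exact hr3 y hy, hr2⟩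
  intro n
  induction n with
  | zero =>
    intro _
    refine ⟨fun i => i.elim0, linearIndependent_empty_type, ?_⟩
    simp
  | succ n ih =>
    intro hn
    obtain ⟨a, ha1, ha2⟩ := ih (by omega)
    have hproper : Submodule.span (ResidueField R) (Set.range fun i => red (a i)) ≠ ⊤ := by
      intro h
      have h1 := finrank_span_eq_card ha1
      rw [h, finrank_top, Module.finrank_fin_fun, Fintype.card_fin] at h1
      omega
    have key : ∀ x : Fin N → R, red x ∉ Submodule.span (ResidueField R)
        (Set.range fun i => red (a i)) →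
        LinearIndependent (ResidueField R) (fun i => red ((Fin.snoc a x : Fin (n + 1) → _) i)) := by
      intro x hx
      have h1 : (fun i => red ((Fin.snoc a x : Fin (n + 1) → (Fin N → R)) i)) =
          Fin.snoc (fun i => red (a i)) (red x) := by
        funext i
        refine Fin.lastCases ?_ (fun i => ?_) i
        · simp
        · simp
      rw [h1, linearIndependent_finSnoc]
      exact ⟨ha1, hx⟩
    have hlist : ∀ x : Fin N → R, (List.ofFn fun i => f ((Fin.snoc a x : Fin (n + 1) → _) i)) =
        (List.ofFn fun i => f (a i)) ++ [f x] := by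
      intro x
      rw [List.ofFn_succ', List.concat_eq_append]
      simp
    by_cases h4 : n < 4
    · have hα : (List.ofFn fun i => f (a i)).length < 4 := by simpa using h4
      have ht : List.take 4 (List.ofFn fun i => f (a i)) = List.ofFn fun i => f (a i) :=
        List.take_of_length_le hα.le
      rw [ht] at ha2
      obtain ⟨x, hx1, hx2⟩ := gp_row (fun j : Fin N => f (Pi.single j 1)) hI' hgr'
        (List.ofFn fun i => f (a i)) hα (by
          intro y hy
          rw [List.mem_ofFn] at hy
          obtain ⟨i, rfl⟩ := hy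
          rw [hspan]
          exact ⟨_, rfl⟩) ha2
        {Submodule.span (ResidueField R) (Set.range fun i => red (a i))} (by
          intro V hV
          rw [Finset.mem_singleton] at hV
          rw [hV]
          exact hproper)
      refine ⟨Fin.snoc a x, key x (hx1 _ (Finset.mem_singleton_self _)), ?_⟩
      rw [hlist, List.take_of_length_le (by simp; omega), hsum x]
      exact hx2
    · obtain ⟨x, hx⟩ := exists_avoid (R := R)
        ({Submodule.span (ResidueField R) (Set.range fun i => red (a i))} :
          Finset (Submodule (ResidueField R) (Fin N → ResidueField R))) (by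
          intro V hV
          rw [Finset.mem_singleton] at hV
          rw [hV]
          exact hproper)
      refine ⟨Fin.snoc a x, key x (hx _ (Finset.mem_singleton_self _)), ?_⟩
      rw [hlist, List.take_append_of_le_length (by simp; omega)]
      exact ha2

/-- A basis of `R ^ N` whose first four vectors give a weakly regular sequence. -/
theorem exists_general_basis [Infinite (ResidueField R)] (f : (Fin 8 → R) →ₗ[R] R)
    (hI : ∀ v, f v ∈ maximalIdeal R)
    (hgr : ∃ rs : List R, rs.length = 4 ∧ IsRegular R rs ∧ ∀ r ∈ rs, r ∈ LinearMap.range f) :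
    ∃ e : (Fin 8 → R) ≃ₗ[R] (Fin 8 → R), IsWeaklyRegular R
      [f (e (Pi.single 0 1)), f (e (Pi.single 1 1)), f (e (Pi.single 2 1)),
        f (e (Pi.single 3 1))] := by
  obtain ⟨a, ha1, ha2⟩ := exists_general_vectors f hI hgr 8 le_rfl
  let E : (Fin 8 → R) →ₗ[R] (Fin 8 → R) := Fintype.linearCombination R a
  have hE : ∀ i, E (Pi.single i 1) = a i := by
    intro i
    simp [E, Fintype.linearCombination_apply, Pi.single_apply]
  have htop : LinearMap.range E = ⊤ := by
    apply eq_top_of_redSub_eq_top
    rw [← top_le_iff, ← ha1.span_eq_top_of_card_eq_finrank (by simp), Submodule.span_le]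
    rintro _ ⟨i, rfl⟩
    exact red_mem_redSub ⟨Pi.single i 1, hE i⟩
  have hsurj : Function.Surjective E := LinearMap.range_eq_top.mp htop
  let e : (Fin 8 → R) ≃ₗ[R] (Fin 8 → R) := LinearEquiv.ofBijective E
    ⟨OrzechProperty.injective_of_surjective_endomorphism E hsurj, hsurj⟩
  refine ⟨e, ?_⟩
  have he : ∀ i, e (Pi.single i 1) = a i := hE
  rw [he, he, he, he]
  exact ha2

/-- general position -/
theorem exists_pos {R : Type u} [CommRing R] [IsLocalRing R] [IsNoetherianRing R]
    [Infinite (ResidueField R)] (f : (Fin 8 → R) →ₗ[R] R) (hI : ∀ v, f v ∈ maximalIdeal R)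
    (hgr : ∃ rs : List R, rs.length = 4 ∧ IsRegular R rs ∧ ∀ r ∈ rs, r ∈ LinearMap.range f) :
    ∃ φ : (Fin 8 → R) ≃ₗ[R] (Fin 8 → R), IsWeaklyRegular R [f (φ (Pi.single 0 1)),
      f (φ (Pi.single 1 1)), f (φ (Pi.single 2 1)), f (φ (Pi.single 3 1))] :=
  exists_general_basis f hI hgr

omit [IsLocalRing R] [IsNoetherianRing R] in
/-- an initial segment of a weakly regular sequence -/
theorem weaklyRegular_init {a b c d : R} (h : IsWeaklyRegular R [a, b, c, d]) :
    IsWeaklyRegular R [a, b, c] := by
  have h1 : IsWeaklyRegular R ([a, b, c] ++ [d]) := h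
  rw [isWeaklyRegular_append_iff] at h1
  exact h1.1

end Pool.Agent.Licci
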