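import Mathlib

/-! The Euler characteristic of a resolution of length four of a nonzero ideal over a domain. -/

namespace Pool.Agent.Licci

open Module

universe u

theorem finrank_range_add_ker {R : Type u} [CommRing R] [IsDomain R] {M N : Type u}
    [AddCommGroup M] [Module R M] [AddCommGroup N] [Module R N] [Module.Finite R M]
    (g : M →ₗ[R] N) :
    finrank R (LinearMap.range g) + finrank R (LinearMap.ker g) = finrank R M := by
  have h := Submodule.finrank_quotient_add_finrank (LinearMap.ker g)
  rwa [(LinearMap.quotKerEquivRange g).finrank_eq] at h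

theorem finrank_of_resolution {R : Type u} [CommRing R] [IsDomain R] {F1 F2 F3 : Type u}
    [AddCommGroup F1] [Module R F1] [AddCommGroup F2] [Module R F2] [AddCommGroup F3] [Module R F3]
    [Module.Free R F1] [Module.Free R F2] [Module.Free R F3]
    [Module.Finite R F1] [Module.Finite R F2] [Module.Finite R F3]
    {f : F1 →ₗ[R] R} {e2 : F2 →ₗ[R] F1} {e3 : F3 →ₗ[R] F2} {e4 : R →ₗ[R] F3}
    (h1 : Function.Exact e2 f) (h2 : Function.Exact e3 e2)
    (h3 : Function.Exact e4 e3) (h4 : Function.Injective e4) (hf : f ≠ 0) :
    finrank R F2 + 2 = finrank R F3 + finrank R F1 := by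
  have a1 := finrank_range_add_ker f
  have a2 := finrank_range_add_ker e2
  have a3 := finrank_range_add_ker e3
  have b1 : finrank R (LinearMap.range f) = 1 := by
    obtain ⟨x, hx⟩ : ∃ x, f x ≠ 0 := by
      by_contra h
      push Not at h
      exact hf (LinearMap.ext h)
    apply le_antisymm
    · have := Submodule.finrank_le (LinearMap.range f)
      rwa [finrank_self] at this
    · have hi : Function.Injective
          (LinearMap.toSpanSingleton R (LinearMap.range f) ⟨f x, ⟨x, rfl⟩⟩) := by
        rw [injective_iff_map_eq_zero]
        intro c hc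
        have hc' : c * f x = 0 := congrArg Subtype.val hc
        exact (mul_eq_zero.1 hc').resolve_right hx
      have := LinearMap.finrank_le_finrank_of_injective hi
      rwa [finrank_self] at this
  have c1 : LinearMap.ker f = LinearMap.range e2 := LinearMap.exact_iff.1 h1
  have c2 : LinearMap.ker e2 = LinearMap.range e3 := LinearMap.exact_iff.1 h2
  have c3 : LinearMap.ker e3 = LinearMap.range e4 := LinearMap.exact_iff.1 h3
  have c4 : finrank R (LinearMap.range e4) = 1 := by
    rw [LinearMap.finrank_range_of_inj h4, finrank_self]
  rw [c1] at a1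
  rw [c2] at a2
  rw [c3, c4] at a3
  omega

end Pool.Agent.Licci
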