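import Pool.Agent.Work.MP_a98e4e_ag.L.UDat
import Pool.Agent.Work.MP_a98e4e_ag.L.OfU
import Pool.Agent.Work.MP_a98e4e_ag.L.Coord
import Pool.Agent.Work.MP_a98e4e_ag.L.Pos
import Pool.Agent.Work.MP_a98e4e_ag.L.Init
import Pool.Agent.Work.MP_a98e4e_ag.L.NuUnique
import Pool.Agent.Work.MP_a98e4e_ag.L.Moves
import Pool.Agent.Work.MP_a98e4e_ag.L.Desc
import Pool.Agent.Work.MP_a98e4e_ag.Reduce2
import Pool.Agent.Work.MP_a98e4e_ag.U.Unimod
import Pool.Agent.Work.MP_a98e4e_ag.L.Rank14
import Pool.Agent.Work.MP_a98e4e_ag.U.Tab6Good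

/-!
# LICCI, codimension 4: the final assembly
-/

namespace Pool.Agent.Licci

open scoped BigOperators
open U (Sup)
open Module RingTheory.Sequence IsLocalRing

universe u

theorem om_eq_sum {A : Type*} [CommRing A] (Y : E8 A) (x y : Vec A) :
    om Y x y = ∑ a, ∑ b, w2 Y a b * (x a * y b) := rfl

/-- `Θ` from the Gram relation in coordinates -/
theorem Th_of_gram {R : Type*} [CommRing R] {γ γ' : E8 R} {v v' : Vec R} {w w' : Fin 8 → Fin 8 → R}
    (h1 : p3 γ = v) (h1' : p3 γ' = v') (h2 : ∀ a b, w2 γ a b = w a b)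
    (h2' : ∀ a b, w2 γ' a b = w' a b) {c : R} {F : Vec R}
    (hM : ∀ a, ∑ m, (w' m a * v m + w m a * v' m) = c * F a) (u : Vec R) :
    Th γ γ' u = c * ∑ m, F m * u m := by
  have e : ∀ (w : Fin 8 → Fin 8 → R) (v : Vec R), ∑ a, ∑ b, w a b * (v a * u b) =
      ∑ b, (∑ a, w a b * v a) * u b := by
    intro w v
    rw [Finset.sum_comm]
    refine Finset.sum_congr rfl fun b _ => ?_
    rw [Finset.sum_mul]
    refine Finset.sum_congr rfl fun a _ => ?_
    ring
  unfold Th
  simp only [om_eq_sum, h1, h1', h2, h2']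
  rw [e, e, ← Finset.sum_add_distrib, Finset.mul_sum]
  refine Finset.sum_congr rfl fun b _ => ?_
  rw [← mul_assoc, ← hM b, ← add_mul, ← Finset.sum_add_distrib]

/-- a cycle of the arguments of a four-form -/
theorem four_cycle {R : Type*} [CommRing R] {P : Type*} [AddCommGroup P] [Module R P]
    (ν : P [⋀^Fin 4]→ₗ[R] R) (x y z v : P) : ν ![x, y, z, v] = - ν ![v, x, y, z] := by
  have h1 : ν ![x, y, z, v] = - ν ![x, y, v, z] := by
    have := ν.map_swap ![x, y, v, z] (i := 2) (j := 3) (by decide)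
    rw [← this]
    congr 1
    funext i
    fin_cases i <;> rfl
  have h2 : ν ![x, y, v, z] = - ν ![x, v, y, z] := by
    have := ν.map_swap ![x, v, y, z] (i := 1) (j := 2) (by decide)
    rw [← this]
    congr 1
    funext i
    fin_cases i <;> rfl
  have h3 : ν ![x, v, y, z] = - ν ![v, x, y, z] := by
    have := ν.map_swap ![v, x, y, z] (i := 0) (j := 1) (by decide)
    rw [← this]
    congr 1
    funext i
    fin_cases i <;> rfl
  rw [h1, h2, h3, neg_neg]

theorem main8 (R : Type u) [CommRing R] [IsRegularLocalRing R] [Infinite (ResidueField R)]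
    [Algebra ℚ R] : LicciCodimFour.MainStatement2 R 8 := by
  intro F3 G _ _ _ _ _ _ _ _ d4 d3 d2 f0 hinj h43 h32 h21 hI0 hgr
  have hdom : IsDomain R := LicciCodimFour.isDomain_of_isRegularLocalRing R
  obtain ⟨φ, hφ⟩ := exists_pos f0 hI0 hgr
  -- the new basis of `R ^ 8`
  let f : Vec R →ₗ[R] R := f0 ∘ₗ φ.toLinearMap
  let e2 : G →ₗ[R] Vec R := φ.symm.toLinearMap ∘ₗ d2
  have hrange : LinearMap.range f = LinearMap.range f0 := by
    apply LinearMap.range_comp_of_range_eq_top
    exact LinearEquiv.range φ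
  have hI : ∀ v, f v ∈ maximalIdeal R := fun v => hI0 (φ v)
  have h1 : Function.Exact e2 f := by
    intro x
    constructor
    · intro hx
      obtain ⟨y, hy⟩ := (h21 (φ x)).1 hx
      exact ⟨y, by show φ.symm (d2 y) = x; rw [hy, LinearEquiv.symm_apply_apply]⟩
    · rintro ⟨y, rfl⟩
      show f0 (φ (φ.symm (d2 y))) = 0
      rw [LinearEquiv.apply_symm_apply, h21.apply_apply_eq_zero]
  have h2 : Function.Exact d3 e2 := by
    intro x
    constructor
    · intro hx
      apply (h32 x).1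
      have : φ.symm (d2 x) = 0 := hx
      exact (LinearEquiv.map_eq_zero_iff φ.symm).1 this
    · rintro ⟨y, rfl⟩
      show φ.symm (d2 (d3 y)) = 0
      rw [h32.apply_apply_eq_zero, map_zero]
  rw [← hrange]
  obtain ⟨ν, hν, hfree, hfin, hrk, hgood⟩ := good_of_exact h1 h2 h43 hinj hI
    (Pi.single 0 1) (Pi.single 1 1) (Pi.single 2 1) (Pi.single 3 1) hφ
  have hreg3 : IsWeaklyRegular R [f (Pi.single 0 1), f (Pi.single 1 1), f (Pi.single 2 1)] := by
    have h := hφ
    rw [show [f0 (φ (Pi.single 0 1)), f0 (φ (Pi.single 1 1)), f0 (φ (Pi.single 2 1)),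
      f0 (φ (Pi.single 3 1))] = [f0 (φ (Pi.single 0 1)), f0 (φ (Pi.single 1 1)),
      f0 (φ (Pi.single 2 1))] ++ [f0 (φ (Pi.single 3 1))] from rfl,
      isWeaklyRegular_append_iff] at h
    exact h.1
  obtain ⟨hz0, hz1, hz2⟩ := U.isSMulRegular_of_isWeaklyRegular_three (hI _) (hI _) (hI _) hreg3
  have hf0 : f ≠ 0 := by
    intro h
    apply hz0
    rw [h]
    rfl
  have hreg : HasReg f 4 := by
    refine ⟨_, rfl, hφ, ?_⟩
    intro r hr
    simp only [List.mem_cons, List.not_mem_nil, or_false] at hr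
    rcases hr with rfl | rfl | rfl | rfl <;> exact ⟨_, rfl⟩
  have hrk14 : finrank R (PP f ν) = 14 := by
    have h := finrank_of_resolution h1 h2 h43 hinj hf0
    have h8 : finrank R (Vec R) = 8 := by
      rw [finrank_fintype_fun_eq_card]
      rfl
    omega
  obtain ⟨D, v, w, M, hDf, hDn, hP, hPP, hMs, hMu, hM, hspan⟩ := exists_dat f ν hν hreg hrk14
  have hDf' : ∀ a, D.f a = f (Pi.single a 1) := by
    intro a
    rw [hDf]
    simp [Pi.single_apply]
  -- the ring of the charts
  set a : R := D.f 0 * D.f 1 * D.f 2 with ha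
  have ha0 : a ≠ 0 := by
    rw [ha, hDf', hDf', hDf']
    exact mul_ne_zero (mul_ne_zero hz0 hz1) hz2
  let T : Type u := Localization.Away a
  have hpow : Submonoid.powers a ≤ nonZeroDivisors R :=
    powers_le_nonZeroDivisors_of_noZeroDivisors ha0
  have hTinj : Function.Injective (algebraMap R T) := IsLocalization.injective T hpow
  have hunita : IsUnit (algebraMap R T a) := IsLocalization.Away.algebraMap_isUnit a
  let C : U.Cov R T :=
    { f := fun i => D.f (Fin.castLE (by norm_num) i)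
      inj := hTinj
      unit := by
        intro i
        refine isUnit_of_dvd_unit (map_dvd _ ?_) hunita
        rw [ha]
        fin_cases i
        · exact ⟨D.f 1 * D.f 2, by simp [mul_assoc]⟩
        · exact ⟨D.f 0 * D.f 2, by simp; ring⟩
        · exact ⟨D.f 0 * D.f 1, by simp; ring⟩ }
  have hCf0 : C.f 0 = D.f 0 := rfl
  have hCf1 : C.f 1 = D.f 1 := rfl
  have hCf2 : C.f 2 = D.f 2 := rfl
  have hCm : ∀ i, C.f i ∈ maximalIdeal R := by
    intro i
    show D.f (Fin.castLE _ i) ∈ _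
    rw [hDf']
    exact hI _
  have hCreg : IsWeaklyRegular R [C.f 0, C.f 1, C.f 2] := by
    rw [hCf0, hCf1, hCf2, hDf', hDf', hDf']
    exact hreg3
  obtain ⟨W, hWM, hW3, hW2⟩ := exists_udata C hCm hCreg D (fun _ => rfl) v w hP M hMs hMu hM
  have hT : ∀ x : T, ∃ N : ℕ, ∃ r : R,
      algebraMap R T (C.f 0 * C.f 1 * C.f 2) ^ N * x = algebraMap R T r := by
    intro x
    obtain ⟨N, r, h⟩ := IsLocalization.Away.surj a x
    exact ⟨N, r, by rw [← h, mul_comm]; rfl⟩
  have hind : ∀ c : Fin 14 → R, (∀ b, ∑ l, c l * W.γ l b ∈ maximalIdeal R) →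
      ∀ l, c l ∈ maximalIdeal R := fun c hc l =>
    U.unimod C hCm hCreg hT xtab xtab_good W c hc l
  -- the first state
  let K : Type u := FractionRing R
  let ψ : T →+* K := IsLocalization.Away.lift a (g := algebraMap R K) (by
    rw [isUnit_iff_ne_zero]
    intro h
    exact ha0 ((IsFractionRing.injective R K) (by rw [h, map_zero])))
  let : Algebra T K := ψ.toAlgebra
  have : IsScalarTower R T K := IsScalarTower.of_algebraMap_eq fun r =>
    (IsLocalization.Away.lift_eq a _ r).symm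
  have hth : ∀ l m u, Th (W.γ l) (W.γ m) u = W.M l m * f u := by
    intro l m u
    rw [hWM, hDf]
    exact Th_of_gram (hW3 l) (hW3 m) (hW2 l) (hW2 m) (hM l m) u
  obtain ⟨s, hsγ, hsf⟩ := RState.of_udata (K := K) C W f hf0 hth
  obtain ⟨ν', hν'1, hν'2, hν'3⟩ := RState.exists_nu (by rw [hWM]; exact hMu) s
  have hνν : ν' = ν := by
    refine RState.nu_eq s ν' ν hν'3 ?_ ?_
    · intro l x y z
      obtain ⟨p, hp, hp1, hp2⟩ := hPP l
      have h := PP_three (⟨p, hp⟩ : PP f ν) x y z
      rw [four_cycle, hsγ, hW3 l, hsf]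
      have e : ∀ x y : Vec R, om (W.γ l) x y = p.2 ![x, y] := by
        intro x y
        rw [om_eq_sum, hp2]
        simp only [hW2]
      rw [e, e, e, ← hp1, neg_inj]
      exact h.symm
    · intro x hx
      rw [hsf] at hx
      obtain ⟨c, hc⟩ := hspan x hx
      refine ⟨c, ?_⟩
      rw [hc]
      refine Finset.sum_congr rfl fun l _ => ?_
      rw [hsγ, hW3]
  subst hνν
  rw [← hsf]
  refine licci_of_rstate (by rw [hWM]; exact hMu) s (by rw [hsγ]; exact hind) ν' hν'1
    (by rw [hsf]; exact hI) (Pi.single 0 1) (Pi.single 1 1) (Pi.single 2 1) (Pi.single 3 1) ?_ ?_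
  · rw [hsf]
    exact hφ
  · rw [hsf]
    exact hgood

end Pool.Agent.Licci
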