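import Pool.Agent.Work.MP_a98e4e_ag.L.Core
import Pool.Agent.Work.MP_a98e4e_ag.U.XTab

/-! The `x`-graded table of `e_8` as an `XTab`. -/

namespace Pool.Agent.Licci

/-- `x`-degree of the `i`-th basis vector: `z`-degree minus `b_0` -/
def xdN (i : ℕ) : ℤ := zdN i - wtN i 0

/-- the Euler element of the `x`-grading, `h_0 + 3 h_1 + 5 h_2 + 7 h_3 + 9 h_4 + 6 h_5 + 3 h_6 + 5 h_7` -/
def xeN (i : ℕ) : ℤ := if 240 ≤ i then ([1, 3, 5, 7, 9, 6, 3, 5] : List ℤ).getD (i - 240) 0 else 0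

/-- `e ↦ e^♭` : `x`-degree `2` (indices `1..7`, `8..14`) to `x`-degree `-2` -/
def flN (i : ℕ) : ℕ := if i < 8 then 203 + i else 225 + i

/-- the table; `q` is `-1` on the pairs `(q, q + 7)`, `q = 1..7`, and `cl e v = 2 [e^♭, v]` -/
noncomputable def xtab : U.XTab (Fin 248) where
  c := sc
  deg := fun i => xdN i
  h := fun i => xeN i
  q := fun i j =>
    if (1 ≤ (i : ℕ) ∧ (i : ℕ) ≤ 7 ∧ (j : ℕ) = i + 7) ∨ (1 ≤ (j : ℕ) ∧ (j : ℕ) ≤ 7 ∧ (i : ℕ) = j + 7)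
    then -1 else 0
  cl := fun i j k => if 1 ≤ (i : ℕ) ∧ (i : ℕ) ≤ 14 then 2 * scN (flN i) j k else 0

theorem xtab_br (A : Type*) [CommRing A] (x y : E8 A) : xtab.br A x y = br x y := by
  rfl

end Pool.Agent.Licci
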