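import Pool.Agent.Work.MP_a98e4e_ag.L.Dat
import Pool.Agent.Work.MP_a98e4e_ag.L.XT

/-!
# LICCI, codimension 4: the first state (`RState`) from the frames (`UData`)
-/

namespace Pool.Agent.Licci

open scoped BigOperators
open U (Sup)

universe u

namespace RS

section qf

variable {A : Type u} [CommRing A]

theorem xtab_q (i j : Fin 248) : xtab.q i j =
    -∑ q : Fin 7, ((if i = ix (q + 1) then if j = ix (q + 8) then (1 : ℤ) else 0 else 0) +
      (if i = ix (q + 8) then if j = ix (q + 1) then 1 else 0 else 0)) := by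
  have hix : ∀ n : ℕ, n < 248 → ∀ i : Fin 248, (i = ix n ↔ (i : ℕ) = n) := by
    intro n hn i
    rw [Fin.ext_iff]
    simp only [ix, Fin.ofNat, Nat.mod_eq_of_lt hn]
  have h1 : ∀ q : Fin 7, ((if i = ix (q + 1) then if j = ix (q + 8) then (1 : ℤ) else 0 else 0) +
      (if i = ix (q + 8) then if j = ix (q + 1) then 1 else 0 else 0)) =
      if (q : ℕ) + 1 = i ∧ (j : ℕ) = i + 7 then 1 else if (q : ℕ) + 1 = j ∧ (i : ℕ) = j + 7 then 1 else 0 := by
    intro q
    simp only [hix _ (show (q : ℕ) + 1 < 248 by omega), hix _ (show (q : ℕ) + 8 < 248 by omega)]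
    split_ifs <;> first | rfl | omega
  rw [Finset.sum_congr rfl fun q _ => h1 q]
  simp only [xtab]
  by_cases c1 : 1 ≤ (i : ℕ) ∧ (i : ℕ) ≤ 7 ∧ (j : ℕ) = i + 7
  · rw [if_pos (Or.inl c1), Finset.sum_eq_single (⟨(i : ℕ) - 1, by omega⟩ : Fin 7)]
    · rw [if_pos]
      simp only
      omega
    · intro q _ hq
      have hq' : (q : ℕ) ≠ (i : ℕ) - 1 := fun h => hq (Fin.ext h)
      rw [if_neg (by omega), if_neg (by omega)]
    · intro h
      exact absurd (Finset.mem_univ _) h
  · by_cases c2 : 1 ≤ (j : ℕ) ∧ (j : ℕ) ≤ 7 ∧ (i : ℕ) = j + 7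
    · rw [if_pos (Or.inr c2), Finset.sum_eq_single (⟨(j : ℕ) - 1, by omega⟩ : Fin 7)]
      · rw [if_neg (by simp only; omega), if_pos]
        simp only
        omega
      · intro q _ hq
        have hq' : (q : ℕ) ≠ (j : ℕ) - 1 := fun h => hq (Fin.ext h)
        rw [if_neg (by omega), if_neg (by omega)]
      · intro h
        exact absurd (Finset.mem_univ _) h
    · rw [if_neg (not_or.mpr ⟨c1, c2⟩), Finset.sum_eq_zero, neg_zero]
      intro q _
      rw [if_neg (by omega), if_neg (by omega)]

theorem sum_pairs {ι : Type*} [Fintype ι] [DecidableEq ι] (a b : Fin 7 → ι) (c : ι → ι → ℤ)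
    (hc : ∀ i j, c i j = -∑ q : Fin 7, ((if i = a q then if j = b q then (1 : ℤ) else 0 else 0) +
      (if i = b q then if j = a q then 1 else 0 else 0))) (x y : ι → A) :
    ∑ i, ∑ j, (c i j : A) * (x i * y j) = -∑ q, (x (a q) * y (b q) + x (b q) * y (a q)) := by
  have h0 : ∀ i j, (c i j : A) * (x i * y j) =
      -∑ q : Fin 7, ((if i = a q then if j = b q then x i * y j else 0 else 0) +
        (if i = b q then if j = a q then x i * y j else 0 else 0)) := by
    intro i j
    rw [hc, Int.cast_neg, Int.cast_sum, neg_mul, Finset.sum_mul]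
    congr 1
    refine Finset.sum_congr rfl fun q _ => ?_
    rw [Int.cast_add, add_mul]
    congr 1 <;> split_ifs <;> simp
  simp only [h0, Finset.sum_neg_distrib, neg_inj]
  have h1 : ∀ i : ι, (∑ j : ι, ∑ q : Fin 7,
      ((if i = a q then if j = b q then x i * y j else 0 else 0) +
       (if i = b q then if j = a q then x i * y j else 0 else 0))) =
      ∑ q : Fin 7, ((if i = a q then x i * y (b q) else 0) +
        (if i = b q then x i * y (a q) else 0)) := by
    intro i
    rw [Finset.sum_comm]
    refine Finset.sum_congr rfl fun q _ => ?_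
    rw [Finset.sum_add_distrib]
    congr 1 <;> split_ifs <;> simp
  rw [Finset.sum_congr rfl fun i _ => h1 i, Finset.sum_comm]
  refine Finset.sum_congr rfl fun q _ => ?_
  rw [Finset.sum_add_distrib]
  simp

theorem qf_xtab (x y : E8 A) : U.qf xtab.q x y = B0 x y :=
  sum_pairs (fun q : Fin 7 => ix (q + 1)) (fun q : Fin 7 => ix (q + 8)) xtab.q xtab_q x y

end qf

section aux

theorem br_comp {A A' : Type*} [CommRing A] [CommRing A'] (φ : A →+* A') (x y : E8 A) :
    φ ∘ br x y = br (φ ∘ x) (φ ∘ y) := by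
  funext k
  simp only [Function.comp_apply, br_apply, map_sum, map_mul, map_intCast]

theorem comp_eb {A A' : Type*} [CommRing A] [CommRing A'] (φ : A →+* A') (i : Fin 248) :
    φ ∘ (eb i : E8 A) = eb i := by
  funext k
  simp only [Function.comp_apply, eb_apply]
  split_ifs <;> simp

theorem map_mulVec_comp {A A' : Type*} [CommRing A] [CommRing A'] (φ : A →+* A')
    (G : Matrix (Fin 248) (Fin 248) A) (x : E8 A) :
    (G.map φ).mulVec (φ ∘ x) = φ ∘ G.mulVec x := by
  funext k
  exact (RingHom.map_mulVec φ G x k).symm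

/-- base change of an automorphism given by a matrix -/
theorem isAut_of_matrix {A A' : Type*} [CommRing A] [CommRing A'] (φ : A →+* A')
    {G G' : Matrix (Fin 248) (Fin 248) A} (h1 : G * G' = 1) (h2 : G' * G = 1)
    (hom : ∀ x y : E8 A, G.mulVec (br x y) = br (G.mulVec x) (G.mulVec y)) :
    IsAut (G'.map φ).mulVecLin := by
  have hom' : ∀ x y : E8 A, G'.mulVec (br x y) = br (G'.mulVec x) (G'.mulVec y) := by
    intro x y
    have e : ∀ z : E8 A, G.mulVec (G'.mulVec z) = z := fun z => by
      rw [Matrix.mulVec_mulVec, h1, Matrix.one_mulVec]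
    have e' : ∀ z : E8 A, G'.mulVec (G.mulVec z) = z := fun z => by
      rw [Matrix.mulVec_mulVec, h2, Matrix.one_mulVec]
    conv_lhs => rw [← e x, ← e y, ← hom, e']
  have hm1 : (G.map φ) * (G'.map φ) = 1 := by
    rw [← Matrix.map_mul, h1, Matrix.map_one _ (map_zero φ) (map_one φ)]
  have hm2 : (G'.map φ) * (G.map φ) = 1 := by
    rw [← Matrix.map_mul, h2, Matrix.map_one _ (map_zero φ) (map_one φ)]
  constructor
  · refine Function.bijective_iff_has_inverse.2 ⟨(G.map φ).mulVecLin, fun x => ?_, fun x => ?_⟩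
    · rw [Matrix.mulVecLin_apply, Matrix.mulVecLin_apply, Matrix.mulVec_mulVec, hm1,
        Matrix.one_mulVec]
    · rw [Matrix.mulVecLin_apply, Matrix.mulVecLin_apply, Matrix.mulVec_mulVec, hm2,
        Matrix.one_mulVec]
  · intro x y
    have key : (brL (A := A')).compr₂ (G'.map φ).mulVecLin =
        (brL (A := A')).compl₁₂ (G'.map φ).mulVecLin (G'.map φ).mulVecLin := by
      refine E8.hom_ext fun i => E8.hom_ext fun j => ?_
      simp only [LinearMap.compr₂_apply, LinearMap.compl₁₂_apply, brL_apply,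
        Matrix.mulVecLin_apply]
      rw [← comp_eb φ i, ← comp_eb φ j, ← br_comp, map_mulVec_comp, map_mulVec_comp,
        map_mulVec_comp, ← br_comp, hom']
    exact LinearMap.congr_fun (LinearMap.congr_fun key x) y

theorem B0_comp {A A' : Type*} [CommRing A] [CommRing A'] (φ : A →+* A') (g h : E8 A) :
    φ (B0 g h) = B0 (φ ∘ g) (φ ∘ h) := by
  simp only [B0, Function.comp_apply, map_neg, map_sum, map_add, map_mul]

end aux

end RS

section lf

variable {R : Type u} [CommRing R]

/-- the linear form with given coefficients -/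
def lf (f : Vec R) : Vec R →ₗ[R] R where
  toFun x := ∑ a, f a * x a
  map_add' x y := by simp only [Pi.add_apply, mul_add, Finset.sum_add_distrib]
  map_smul' c x := by
    simp only [Pi.smul_apply, smul_eq_mul, RingHom.id_apply, Finset.mul_sum]
    exact Finset.sum_congr rfl fun a _ => by ring

theorem lf_apply (f x : Vec R) : lf f x = ∑ a, f a * x a := rfl

theorem lf_coeff (f : Vec R →ₗ[R] R) : lf (fun a => f (Pi.single a 1)) = f := by
  refine LinearMap.ext fun x => ?_
  have h : x = ∑ a, x a • (Pi.single a 1 : Vec R) := by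
    funext b
    simp [Pi.single_apply]
  rw [lf_apply]
  conv_rhs => rw [h]
  rw [map_sum]
  exact Finset.sum_congr rfl fun a _ => by rw [map_smul, smul_eq_mul, mul_comm]

theorem lf_ne_zero {f : Vec R} (hf : f ≠ 0) : lf f ≠ 0 := by
  intro h
  apply hf
  funext a
  have := LinearMap.congr_fun h (Pi.single a 1)
  simpa [lf_apply, Pi.single_apply] using this

theorem Th_lf {Y Z : E8 R} {f : Vec R} {c : R}
    (h : ∀ a, ∑ m, (w2 Z m a * p3 Y m + w2 Y m a * p3 Z m) = c * f a) (u : Vec R) :
    Th Y Z u = c * lf f u := by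
  simp only [Th, om]
  rw [Finset.sum_comm, Finset.sum_comm (f := fun i j => w2 Y i j * (p3 Z i * u j)),
    ← Finset.sum_add_distrib, lf_apply, Finset.mul_sum]
  refine Finset.sum_congr rfl fun a _ => ?_
  rw [← mul_assoc, ← h a, Finset.sum_mul, ← Finset.sum_add_distrib]
  exact Finset.sum_congr rfl fun m _ => by ring

end lf

section state

open RS

variable {R : Type u} [CommRing R] {T : Type u} [CommRing T] [Algebra R T]

/-- the frames give an integral state -/
theorem rstate_of_udata {C : U.Cov R T} (W : U.UData xtab C) (K : Type u) [Field K]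
    [Algebra R K] [Algebra T K] [IsScalarTower R T K] {f : Vec R} (hf : f ≠ 0)
    {M : Matrix (Fin 14) (Fin 14) R} (hWM : W.M = M)
    (hM : ∀ k l a, ∑ m, (w2 (W.γ l) m a * p3 (W.γ k) m + w2 (W.γ k) m a * p3 (W.γ l) m) =
      M k l * f a) :
    ∃ s : RState R K M, s.γ = W.γ ∧ s.f = lf f := by
  subst hWM
  have hφ : ∀ x : E8 R, algebraMap R K ∘ x = algebraMap T K ∘ (algebraMap R T ∘ x) := by
    intro x
    funext m
    exact IsScalarTower.algebraMap_apply R T K (x m)
  refine ⟨{ γ := W.γ
            k := ((W.G' 0).map (algebraMap T K)).mulVecLin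
            aut := isAut_of_matrix (algebraMap T K) (W.GG' 0) (W.G'G 0) (W.hom 0)
            g := fun l => algebraMap T K ∘ (W.G 0).mulVec (algebraMap R T ∘ W.γ l)
            sup := ?_
            kg := ?_
            gram := ?_
            f := lf f
            th := fun l m u => Th_lf (hM l m) u
            f0 := lf_ne_zero hf }, rfl, rfl⟩
  · intro l m hm
    rw [Function.comp_apply, W.hγ 0 l m hm, map_zero]
  · intro l
    rw [Matrix.mulVecLin_apply, map_mulVec_comp, Matrix.mulVec_mulVec, W.G'G 0,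
      Matrix.one_mulVec, hφ]
  · intro l m
    rw [← B0_comp, ← qf_xtab, ← W.hM 0 l m, ← IsScalarTower.algebraMap_apply R T K]

end state

end Pool.Agent.Licci
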