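import Pool.Agent.Work.MP_a98e4e_ag.L.UDatB
import Pool.Agent.Work.MP_a98e4e_ag.L.Glue
import Pool.Agent.Work.MP_a98e4e_ag.U.Loc

/-!
# Module L11c: the frames
-/

namespace Pool.Agent.Licci

open scoped BigOperators
open U (Sup)
open Module RingTheory.Sequence IsLocalRing

universe u

namespace UD

section frame

variable {A : Type u} [CommRing A] [Algebra ℚ A]

/-- the matrix unit `(i, 0)` (zero for `i = 0`) -/
noncomputable def fx1 (i : Fin 8) (c : A) : E8 A := if i = 0 then 0 else c • Eg i 0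

/-- the row -/
noncomputable def fx2 (t : Fin 8 → A) : E8 A := ∑ j : Fin 7, t j.succ • Eg 0 j.succ

theorem fx1_nil (i : Fin 8) (c : A) : (brL (fx1 i c)) ^ 7 = 0 := by
  rw [fx1]
  split_ifs with h
  · rw [map_zero]
    exact zero_pow (by norm_num)
  · exact unit_nil h c

theorem fx2_nil (t : Fin 8 → A) : (brL (fx2 t)) ^ 7 = 0 := row_nil t

theorem fx1_p3 {i : Fin 8} {c : A} (hc : i = 0 → c = 0) (Y : E8 A) :
    p3 (ex (fx1 i c) Y) = p3 Y + Pi.single i (c * p3 Y 0) := by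
  rw [fx1]
  split_ifs with h
  · rw [ex_zero, hc h, zero_mul, Pi.single_zero, add_zero]
    rfl
  · exact unit_p3 h c Y

theorem fx1_om {i : Fin 8} {c : A} (hc : i = 0 → c = 0) (Y : E8 A) (x y : Vec A) :
    om (ex (fx1 i c) Y) (x + Pi.single i (c * x 0)) (y + Pi.single i (c * y 0)) = om Y x y := by
  rw [fx1]
  split_ifs with h
  · rw [ex_zero, hc h, zero_mul, zero_mul, Pi.single_zero, add_zero, add_zero]
    rfl
  · exact unit_om h c Y x y

theorem fx1_sup (i : Fin 8) (c : A) : Sup zdg 0 (fx1 i c) := by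
  intro m hm
  rw [fx1]
  split_ifs with h
  · rfl
  · rw [Pi.smul_apply, Eg_zdg h m hm, smul_zero]

theorem fx2_sup (t : Fin 8 → A) : Sup zdg 0 (fx2 t) := by
  intro m hm
  rw [fx2, Finset.sum_apply]
  refine Finset.sum_eq_zero fun j _ => ?_
  rw [Pi.smul_apply, Eg_zdg (Fin.succ_ne_zero j).symm m hm, smul_zero]

/-- exponentials of degree `0` preserve degrees `≥ 2` -/
theorem ex_low {x : E8 A} (hx : Sup zdg 0 x) {Y : E8 A} (hY : ∀ m, zdg m < 2 → Y m = 0) :
    ∀ m, zdg m < 2 → ex x Y m = 0 := by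
  intro m hm
  rw [eq_V3_W2 hY, map_add, Pi.add_apply, ex_sup_zdg hx (V3_sup _) m (by omega),
    ex_sup_zdg hx (W2_sup _) m (by omega), add_zero]

end frame

section mem

variable {R : Type u} [CommRing R] {T : Type u} [CommRing T] [Algebra R T] (S : Subalgebra R T)

theorem smul_eb_mem {c : T} (hc : c ∈ S) (n m : Fin 248) : (c • eb n : E8 T) m ∈ S := by
  rw [Pi.smul_apply, eb_apply, smul_eq_mul]
  split_ifs
  · rwa [mul_one]
  · rw [mul_zero]
    exact S.zero_mem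

theorem M1_mem {μ : Fin 8 → Fin 8 → Fin 8 → T} (h : ∀ i j k, μ i j k ∈ S) (m : Fin 248) :
    M1 μ m ∈ S := by
  rw [M1, Finset.sum_apply]
  refine S.sum_mem fun i _ => ?_
  rw [Finset.sum_apply]
  refine S.sum_mem fun j _ => ?_
  rw [Finset.sum_apply]
  refine S.sum_mem fun k _ => ?_
  split_ifs
  · exact smul_eb_mem S (S.mul_mem (S.intCast_mem _) (h i j k)) _ _
  · exact S.zero_mem

theorem smul_Eg_mem {c : T} (hc : c ∈ S) (i j : Fin 8) (m : Fin 248) :
    (c • Eg i j : E8 T) m ∈ S := by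
  rw [Eg, smul_smul]
  exact smul_eb_mem S (S.mul_mem hc (S.intCast_mem _)) _ _

theorem fx1_mem {c : T} (hc : c ∈ S) (i : Fin 8) (m : Fin 248) : fx1 i c m ∈ S := by
  rw [fx1]
  split_ifs
  · exact S.zero_mem
  · exact smul_Eg_mem S hc _ _ _

theorem fx2_mem {t : Fin 8 → T} (ht : ∀ j, t j ∈ S) (m : Fin 248) : fx2 t m ∈ S := by
  rw [fx2, Finset.sum_apply]
  exact S.sum_mem fun j _ => smul_Eg_mem S (ht _) _ _ _

end mem

section main

variable {R : Type u} [CommRing R] {T : Type u} [CommRing T] [Algebra R T] [Algebra ℚ T]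

/-- the frame -/
noncomputable def frm (u : Tˣ) (t : Fin 8 → T) (i : Fin 8) (c : T) (a l : E8 T) :
    E8 T →ₗ[T] E8 T :=
  tor 0 u⁻¹ ∘ₗ ex (fx2 t) ∘ₗ ex (fx1 i c) ∘ₗ ex a ∘ₗ ex l

/-- its inverse -/
noncomputable def frm' (u : Tˣ) (t : Fin 8 → T) (i : Fin 8) (c : T) (a l : E8 T) :
    E8 T →ₗ[T] E8 T :=
  ex (-l) ∘ₗ ex (-a) ∘ₗ ex (-fx1 i c) ∘ₗ ex (-fx2 t) ∘ₗ tor 0 u

theorem frm_frm' (u : Tˣ) (t : Fin 8 → T) (i : Fin 8) (c : T) {a l : E8 T}
    (ha : (brL a) ^ 7 = 0) (hl : (brL l) ^ 7 = 0) :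
    frm u t i c a l ∘ₗ frm' u t i c a l = LinearMap.id := by
  refine LinearMap.ext fun Y => ?_
  simp only [frm, frm', LinearMap.comp_apply, LinearMap.id_apply]
  rw [ex_ex_neg hl, ex_ex_neg ha, ex_ex_neg (fx1_nil i c), ex_ex_neg (fx2_nil t),
    tor_inv]

theorem frm'_frm (u : Tˣ) (t : Fin 8 → T) (i : Fin 8) (c : T) {a l : E8 T}
    (ha : (brL a) ^ 7 = 0) (hl : (brL l) ^ 7 = 0) :
    frm' u t i c a l ∘ₗ frm u t i c a l = LinearMap.id := by
  refine LinearMap.ext fun Y => ?_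
  simp only [frm, frm', LinearMap.comp_apply, LinearMap.id_apply]
  have h := tor_inv 0 u⁻¹ (ex (fx2 t) (ex (fx1 i c) (ex a (ex l Y))))
  rw [inv_inv] at h
  rw [h, ex_neg_ex (fx2_nil t), ex_neg_ex (fx1_nil i c), ex_neg_ex ha,
    ex_neg_ex hl]

theorem frm_isAut (u : Tˣ) (t : Fin 8 → T) (i : Fin 8) (c : T) {a l : E8 T}
    (ha : (brL a) ^ 7 = 0) (hl : (brL l) ^ 7 = 0) : IsAut (frm u t i c a l) :=
  isAut_comp (tor_isAut 0 u⁻¹) (isAut_comp (ex_isAut (fx2_nil t))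
    (isAut_comp (ex_isAut (fx1_nil i c)) (isAut_comp (ex_isAut ha) (ex_isAut hl))))

theorem frm_mem [Algebra ℚ R] (S : Subalgebra R T) {u : Tˣ} (h1 : ((u⁻¹ : Tˣ) : T) ∈ S)
    (h2 : (u : T) ∈ S) {t : Fin 8 → T} (ht : ∀ j, t j ∈ S) (i : Fin 8) {c : T} (hc : c ∈ S)
    {a l : E8 T} (ha : ∀ m, a m ∈ S) (hl : ∀ m, l m ∈ S) {Y : E8 T} (hY : ∀ m, Y m ∈ S)
    (m : Fin 248) : frm u t i c a l Y m ∈ S := by
  simp only [frm, LinearMap.comp_apply]
  refine tor_mem S 0 u⁻¹ h1 (by rwa [inv_inv]) ?_ m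
  exact ex_mem S (fx2_mem S ht) (ex_mem S (fx1_mem S hc i) (ex_mem S ha (ex_mem S hl hY)))

theorem neg_mem' (S : Subalgebra R T) {x : E8 T} (hx : ∀ m, x m ∈ S) (m : Fin 248) :
    (-x) m ∈ S := S.neg_mem (hx m)

theorem frm'_mem [Algebra ℚ R] (S : Subalgebra R T) {u : Tˣ} (h1 : ((u⁻¹ : Tˣ) : T) ∈ S)
    (h2 : (u : T) ∈ S) {t : Fin 8 → T} (ht : ∀ j, t j ∈ S) (i : Fin 8) {c : T} (hc : c ∈ S)
    {a l : E8 T} (ha : ∀ m, a m ∈ S) (hl : ∀ m, l m ∈ S) {Y : E8 T} (hY : ∀ m, Y m ∈ S)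
    (m : Fin 248) : frm' u t i c a l Y m ∈ S := by
  simp only [frm', LinearMap.comp_apply]
  refine ex_mem S (neg_mem' S hl) (ex_mem S (neg_mem' S ha) (ex_mem S (neg_mem' S (fx1_mem S hc i))
    (ex_mem S (neg_mem' S (fx2_mem S ht)) ?_))) m
  exact tor_mem S 0 u h2 h1 hY

theorem toMatrix'_mulVec (g : E8 T →ₗ[T] E8 T) (x : E8 T) :
    (LinearMap.toMatrix' g).mulVec x = g x := by
  rw [← Matrix.toLin'_apply, Matrix.toLin'_toMatrix']

end main

section vec

variable {A : Type u} [CommRing A] [Algebra ℚ A]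

/-- `P_1 v` -/
def pv1 (i : Fin 8) (c : A) (x : Vec A) : Vec A := x + Pi.single i (c * x 0)

/-- `P_2 v` -/
def pv2 (t : Fin 8 → A) (x : Vec A) : Vec A :=
  x + Pi.single 0 (∑ j : Fin 7, t j.succ * x j.succ)

theorem two_p3 {i : Fin 8} {c : A} (hc : i = 0 → c = 0) (t : Fin 8 → A) (Y : E8 A) :
    p3 (ex (fx2 t) (ex (fx1 i c) Y)) = pv2 t (pv1 i c (p3 Y)) := by
  have h := row_p3 t (ex (fx1 i c) Y)
  rw [fx1_p3 hc] at h
  exact h

theorem two_om {i : Fin 8} {c : A} (hc : i = 0 → c = 0) (t : Fin 8 → A) (Y : E8 A) (x y : Vec A) :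
    om (ex (fx2 t) (ex (fx1 i c) Y)) (pv2 t (pv1 i c x)) (pv2 t (pv1 i c y)) = om Y x y := by
  have h := row_om t (ex (fx1 i c) Y) (pv1 i c x) (pv1 i c y)
  refine h.trans (fx1_om hc Y x y)

/-- the first coordinate of `P_2 P_1 x` -/
theorem two_zero {i : Fin 8} (f : Fin 8 → A) (hi : IsUnit (f i)) (x : Vec A) :
    f i * pv2 (fun j => Ring.inverse (f i) * f j) (pv1 i (Ring.inverse (f i) * f 0 - 1) x) 0 =
      ∑ m, f m * x m := by
  have hu : f i * Ring.inverse (f i) = 1 := Ring.mul_inverse_cancel _ hi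
  have hc : f i * (Ring.inverse (f i) * f 0 - 1) = f 0 - f i := by
    rw [mul_sub, ← mul_assoc, hu]
    ring
  set c : A := Ring.inverse (f i) * f 0 - 1
  have h1 : f i * (∑ j : Fin 7, Ring.inverse (f i) * f j.succ * pv1 i c x j.succ) =
      ∑ j : Fin 7, f j.succ * pv1 i c x j.succ := by
    rw [Finset.mul_sum]
    refine Finset.sum_congr rfl fun j _ => ?_
    rw [← mul_assoc, ← mul_assoc, hu, one_mul]
  have h2 : ∑ m, f m * pv1 i c x m = ∑ m, f m * x m + (f 0 - f i) * x 0 := by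
    have h3 : ∀ m, f m * pv1 i c x m = f m * x m + if i = m then f i * (c * x 0) else 0 := by
      intro m
      rw [pv1, Pi.add_apply, mul_add, Pi.single_apply]
      by_cases h : m = i
      · rw [if_pos h, if_pos h.symm, h]
      · rw [if_neg h, if_neg (Ne.symm h), mul_zero]
    rw [Finset.sum_congr rfl fun m _ => h3 m, Finset.sum_add_distrib, Finset.sum_ite_eq,
      if_pos (Finset.mem_univ _), ← mul_assoc, hc]
  rw [Fin.sum_univ_succ (fun m => f m * pv1 i c x m)] at h2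
  rw [pv2, Pi.add_apply, Pi.single_eq_same, mul_add, h1]
  have h4 : f i * pv1 i c x 0 - f 0 * pv1 i c x 0 = (f i - f 0) * x 0 := by
    rw [pv1, Pi.add_apply, Pi.single_apply]
    by_cases h : (0 : Fin 8) = i
    · rw [← h]
      ring
    · rw [if_neg h]
      ring
  linear_combination h2 + h4

/-- surjectivity of `P_2 P_1` -/
theorem two_surj (i : Fin 8) (c : A) (hc : i = 0 → c = 0) (t : Fin 8 → A) (y : Vec A) :
    ∃ x, pv2 t (pv1 i c x) = y := by
  have s2 : ∃ z, pv2 t z = y := by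
    refine ⟨y - Pi.single 0 (∑ j : Fin 7, t j.succ * y j.succ), ?_⟩
    rw [pv2]
    have : ∀ j : Fin 7, (y - Pi.single 0 (∑ j : Fin 7, t j.succ * y j.succ) : Vec A) j.succ =
        y j.succ := by
      intro j
      rw [Pi.sub_apply, Pi.single_eq_of_ne (Fin.succ_ne_zero j), sub_zero]
    simp only [this, sub_add_cancel]
  obtain ⟨z, hz⟩ := s2
  refine ⟨z - Pi.single i (c * z 0), ?_⟩
  rw [← hz, pv1]
  congr 1
  by_cases h : i = 0
  · simp [hc h]
  · have : (z - Pi.single i (c * z 0) : Vec A) 0 = z 0 := by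
      rw [Pi.sub_apply, Pi.single_eq_of_ne (Ne.symm h), sub_zero]
    rw [this, sub_add_cancel]

end vec

end UD

open UD

section main2

variable {R : Type u} [CommRing R] {T : Type u} [CommRing T] [Algebra R T] [Algebra ℚ T]

/-- the moved standard vector -/
noncomputable def Dat.yv (D : Dat R) (T : Type u) [CommRing T] [Algebra R T] [Algebra ℚ T]
    (i : Fin 8) (v : Vec R) (w : Fin 8 → Fin 8 → R) : E8 T :=
  ex (fx2 fun j => Ring.inverse (algebraMap R T (D.f i)) * algebraMap R T (D.f j))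
    (ex (fx1 i (Ring.inverse (algebraMap R T (D.f i)) * algebraMap R T (D.f 0) - 1))
      (D.sv T i v w))

theorem Dat.hc0 (D : Dat R) {i : Fin 8} (hi : IsUnit (algebraMap R T (D.f i))) :
    i = 0 → Ring.inverse (algebraMap R T (D.f i)) * algebraMap R T (D.f 0) - 1 = 0 := by
  rintro rfl
  rw [Ring.inverse_mul_cancel _ hi, sub_self]

theorem Dat.yv_p3_zero {D : Dat R} {v : Vec R} {w : Fin 8 → Fin 8 → R} (h : D.IsP v w)
    {i : Fin 8} (hi : IsUnit (algebraMap R T (D.f i))) : p3 (D.yv T i v w) 0 = 0 := by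
  rw [Dat.yv, two_p3 (D.hc0 hi), D.p3_sv]
  apply (hi.mul_right_eq_zero).1
  have h1 := two_zero (fun j => algebraMap R T (D.f j)) hi (fun a => algebraMap R T (v a))
  exact h1.trans (Dat.f_v h)

theorem Dat.yv_w2 {D : Dat R} {v : Vec R} {w : Fin 8 → Fin 8 → R} (h : D.IsP v w)
    {i : Fin 8} (hi : IsUnit (algebraMap R T (D.f i))) (a b : Fin 8) (ha : a ≠ 0) (hb : b ≠ 0) :
    w2 (D.yv T i v w) a b = 0 := by
  obtain ⟨x, hx⟩ := two_surj i _ (D.hc0 hi)
    (fun j => Ring.inverse (algebraMap R T (D.f i)) * algebraMap R T (D.f j)) (Pi.single a 1)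
  obtain ⟨y, hy⟩ := two_surj i _ (D.hc0 hi)
    (fun j => Ring.inverse (algebraMap R T (D.f i)) * algebraMap R T (D.f j)) (Pi.single b 1)
  rw [← om_single, Dat.yv, ← hx, ← hy, two_om (D.hc0 hi), Dat.om_sv h]
  refine Dat.wh_ker h hi x y ?_ ?_
  · rw [← two_zero (fun j => algebraMap R T (D.f j)) hi x, hx, Pi.single_eq_of_ne (Ne.symm ha),
      mul_zero]
  · rw [← two_zero (fun j => algebraMap R T (D.f j)) hi y, hy, Pi.single_eq_of_ne (Ne.symm hb),
      mul_zero]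

theorem Dat.yv_sup {D : Dat R} {v : Vec R} {w : Fin 8 → Fin 8 → R} (h : D.IsP v w)
    {i : Fin 8} (hi : IsUnit (algebraMap R T (D.f i))) : Sup xdg 2 (D.yv T i v w) :=
  sup_xdg_two (ex_low (fx2_sup _) (ex_low (fx1_sup _ _) (D.sv_low i v w)))
    (Dat.yv_p3_zero h hi) (fun a b ha hb => Dat.yv_w2 h hi a b ha hb)

theorem Dat.yv_B0 {D : Dat R} {v v' : Vec R} {w w' : Fin 8 → Fin 8 → R} (h : D.IsP v w)
    (h' : D.IsP v' w') {c : R}
    (hc : ∀ a, ∑ m, (w' m a * v m + w m a * v' m) = c * D.f a)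
    {i : Fin 8} (hi : IsUnit (algebraMap R T (D.f i))) :
    B0 (D.yv T i v w) (D.yv T i v' w') = algebraMap R T c * algebraMap R T (D.f i) := by
  have h1 := Th_std (Dat.yv_sup (T := T) h hi) (Dat.yv_sup (T := T) h' hi) (Pi.single 0 1)
  rw [Pi.single_eq_same, mul_one] at h1
  rw [← h1, Th]
  obtain ⟨x, hx⟩ := two_surj i _ (D.hc0 hi)
    (fun j => Ring.inverse (algebraMap R T (D.f i)) * algebraMap R T (D.f j)) (Pi.single 0 1)
  rw [← hx]
  have e1 : p3 (D.yv T i v w) = pv2 _ (pv1 i _ (p3 (D.sv T i v w))) := two_p3 (D.hc0 hi) _ _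
  have e2 : p3 (D.yv T i v' w') = pv2 _ (pv1 i _ (p3 (D.sv T i v' w'))) := two_p3 (D.hc0 hi) _ _
  rw [e1, e2, Dat.yv, Dat.yv, two_om (D.hc0 hi), two_om (D.hc0 hi), Dat.pair_sv h h' hc,
    ← two_zero (fun j => algebraMap R T (D.f j)) hi x, hx, Pi.single_eq_same, mul_one]

/-- the frames -/
theorem exists_udata {R : Type u} [CommRing R] [IsLocalRing R] [IsNoetherianRing R] [Algebra ℚ R]
    {T : Type u} [CommRing T] [Algebra R T] [Algebra ℚ T] (C : U.Cov R T)
    (hm : ∀ i, C.f i ∈ maximalIdeal R) (hreg : IsWeaklyRegular R [C.f 0, C.f 1, C.f 2])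
    (D : Dat R) (hf : ∀ i : Fin 3, D.f (Fin.castLE (by norm_num) i) = C.f i)
    (v : Fin 14 → Vec R) (w : Fin 14 → Fin 8 → Fin 8 → R) (hvw : ∀ l, D.IsP (v l) (w l))
    (M : Matrix (Fin 14) (Fin 14) R) (hMs : M.transpose = M) (hMu : IsUnit M.det)
    (hM : ∀ k l a, ∑ m, (w l m a * v k m + w k m a * v l m) = M k l * D.f a) :
    ∃ W : U.UData xtab C, W.M = M ∧ (∀ l, p3 (W.γ l) = v l) ∧ ∀ l a b, w2 (W.γ l) a b = w l a b := by
  obtain ⟨l, hl, hlm, hγ⟩ := glue C hm hreg D hf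
  choose γ g1 g2 g3 using fun k => hγ (v k) (w k) (hvw k)
  have hu : ∀ i : Fin 3, IsUnit (algebraMap R T (D.f (Fin.castLE (by norm_num) i))) := by
    intro i
    rw [hf]
    exact C.unit i
  have hinv : ∀ i : Fin 3,
      Ring.inverse (algebraMap R T (D.f (Fin.castLE (by norm_num) i))) ∈ C.R1 i := by
    intro i
    refine ⟨1, 1, ?_⟩
    rw [pow_one, ← hf, Ring.mul_inverse_cancel _ (hu i), map_one]
  set i8 : Fin 3 → Fin 8 := fun i => Fin.castLE (by norm_num) i with hi8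
  have nl : ∀ i, (brL (l i)) ^ 7 = 0 := fun i =>
    ad_nil_neg fun m hm => hl i m (by omega)
  have na : ∀ i, (brL (M1 (D.mu (T := T) (i8 i)))) ^ 7 = 0 := fun i =>
    ad_nil_neg fun m hm => M1_sup _ m (by omega)
  have ht : ∀ i j, Ring.inverse (algebraMap R T (D.f (i8 i))) * algebraMap R T (D.f j) ∈ C.R1 i :=
    fun i j => (C.R1 i).mul_mem (hinv i) ((C.R1 i).algebraMap_mem _)
  have hcm : ∀ i, Ring.inverse (algebraMap R T (D.f (i8 i))) * algebraMap R T (D.f 0) - 1 ∈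
      C.R1 i := fun i => (C.R1 i).sub_mem (ht i 0) (C.R1 i).one_mem
  have ham : ∀ i m, M1 (D.mu (T := T) (i8 i)) m ∈ C.R1 i := fun i =>
    M1_mem _ fun a b c => (C.R1 i).mul_mem (hinv i) ((C.R1 i).algebraMap_mem _)
  have hui : ∀ i, (((hu i).unit⁻¹ : Tˣ) : T) ∈ C.R1 i := by
    intro i
    have : (((hu i).unit⁻¹ : Tˣ) : T) = Ring.inverse (algebraMap R T (D.f (i8 i))) := by
      rw [Ring.inverse_of_isUnit (hu i)]
    rw [this]
    exact hinv i
  have hui' : ∀ i, (((hu i).unit : Tˣ) : T) ∈ C.R1 i := by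
    intro i
    rw [IsUnit.unit_spec]
    exact (C.R1 i).algebraMap_mem _
  set G : Fin 3 → E8 T →ₗ[T] E8 T := fun i => frm (hu i).unit
    (fun j => Ring.inverse (algebraMap R T (D.f (i8 i))) * algebraMap R T (D.f j)) (i8 i)
    (Ring.inverse (algebraMap R T (D.f (i8 i))) * algebraMap R T (D.f 0) - 1)
    (M1 (D.mu (T := T) (i8 i))) (l i) with hG
  set G' : Fin 3 → E8 T →ₗ[T] E8 T := fun i => frm' (hu i).unit
    (fun j => Ring.inverse (algebraMap R T (D.f (i8 i))) * algebraMap R T (D.f j)) (i8 i)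
    (Ring.inverse (algebraMap R T (D.f (i8 i))) * algebraMap R T (D.f 0) - 1)
    (M1 (D.mu (T := T) (i8 i))) (l i) with hG'
  have g3' : ∀ k i, ex (M1 (D.mu (T := T) (i8 i))) (ex (l i) (algebraMap R T ∘ γ k)) =
      D.sv T (i8 i) (v k) (w k) := fun k i => g3 k i
  have hGγ : ∀ i k, G i (algebraMap R T ∘ γ k) =
      tor 0 (hu i).unit⁻¹ (D.yv T (i8 i) (v k) (w k)) := by
    intro i k
    simp only [hG, frm, LinearMap.comp_apply]
    rw [g3' k i, Dat.yv]
  have single_mem : ∀ (S : Subalgebra R T) (b m : Fin 248), (Pi.single b (1 : T) : E8 T) m ∈ S := by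
    intro S b m
    rw [Pi.single_apply]
    split_ifs
    · exact S.one_mem
    · exact S.zero_mem
  refine ⟨{ G := fun i => LinearMap.toMatrix' (G i)
            G' := fun i => LinearMap.toMatrix' (G' i)
            GG' := fun i => ?_
            G'G := fun i => ?_
            hG := fun i a b => ?_
            hG' := fun i a b => ?_
            hom := fun i x y => ?_
            γ := γ
            hγ := fun i k => ?_
            M := M
            hMs := hMs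
            hMu := hMu
            hM := fun i k k' => ?_ }, rfl, g1, g2⟩
  · rw [← LinearMap.toMatrix'_comp, hG, hG']
    dsimp only
    rw [frm_frm' _ _ _ _ (na i) (nl i), LinearMap.toMatrix'_id]
  · rw [← LinearMap.toMatrix'_comp, hG, hG']
    dsimp only
    rw [frm'_frm _ _ _ _ (na i) (nl i), LinearMap.toMatrix'_id]
  · rw [LinearMap.toMatrix'_apply]
    exact frm_mem (C.R1 i) (hui i) (hui' i) (ht i) _ (hcm i) (ham i) (hlm i)
      (fun m => by simpa [Pi.single_apply] using single_mem (C.R1 i) b m) a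
  · rw [LinearMap.toMatrix'_apply]
    exact frm'_mem (C.R1 i) (hui i) (hui' i) (ht i) _ (hcm i) (ham i) (hlm i)
      (fun m => by simpa [Pi.single_apply] using single_mem (C.R1 i) b m) a
  · rw [toMatrix'_mulVec, toMatrix'_mulVec, toMatrix'_mulVec]
    rw [xtab_br, xtab_br]
    exact (frm_isAut _ _ _ _ (na i) (nl i)).map_br x y
  · rw [toMatrix'_mulVec, hGγ]
    exact tor_sup 0 _ (Dat.yv_sup (hvw k) (hu i))
  · rw [toMatrix'_mulVec, toMatrix'_mulVec, hGγ, hGγ, qf_eq_B0, tor_B0,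
      Dat.yv_B0 (hvw k) (hvw k') (hM k k') (hu i)]
    have : (((hu i).unit⁻¹ : Tˣ) : T) * algebraMap R T (D.f (i8 i)) = 1 := (hu i).val_inv_mul
    linear_combination (- algebraMap R T (M k k')) * this

end main2

end Pool.Agent.Licci
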