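import Pool.Agent.Work.MP_a98e4e_ag.L.OfU
import Pool.Agent.Work.MP_a98e4e_ag.L.UDat
import Pool.Agent.Work.MP_a98e4e_ag.U.Unimod
import Pool.Agent.Work.MP_a98e4e_ag.U.Tab6Good

/-!
# LICCI, codimension 4: the first state with its properties
-/

namespace Pool.Agent.Licci

open scoped BigOperators
open U (Sup)
open Module RingTheory.Sequence IsLocalRing

universe u

/-- the first state with its properties, from a linear form `f` (three of whose coefficients are a
weakly regular sequence), a `4`-form `ν` with `f ∧ ν = 0` and 14 elements of `P'` with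
unimodular Gram matrix -/
theorem exists_rstate {R : Type u} [CommRing R] [IsRegularLocalRing R] [Algebra ℚ R]
    (K : Type u) [Field K] [Algebra R K] [IsFractionRing R K] (D : Dat R)
    (hm : ∀ i : Fin 3, D.f (Fin.castLE (by norm_num) i) ∈ maximalIdeal R)
    (hreg : IsWeaklyRegular R [D.f 0, D.f 1, D.f 2])
    (v : Fin 14 → Vec R) (w : Fin 14 → Fin 8 → Fin 8 → R) (hvw : ∀ l, D.IsP (v l) (w l))
    (M : Matrix (Fin 14) (Fin 14) R) (hMs : M.transpose = M) (hMu : IsUnit M.det)
    (hM : ∀ k l a, ∑ m, (w l m a * v k m + w k m a * v l m) = M k l * D.f a) :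
    ∃ s : RState R K M, s.f = lf D.f ∧ (∀ l, p3 (s.γ l) = v l) ∧
      (∀ l a b, w2 (s.γ l) a b = w l a b) ∧
      ∀ c : Fin 14 → R, (∀ b, ∑ l, c l * s.γ l b ∈ maximalIdeal R) →
        ∀ l, c l ∈ maximalIdeal R := by
  have hinjK : Function.Injective (algebraMap R K) := IsFractionRing.injective R K
  have : IsDomain R := hinjK.isDomain _
  -- the three elements are nonzero
  have hne : ∀ i : Fin 3, D.f (Fin.castLE (by norm_num) i) ≠ 0 := by
    have hmem : ∀ r ∈ [D.f 0, D.f 1, D.f 2], r ∈ maximalIdeal R := by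
      intro r hr
      simp only [List.mem_cons, List.not_mem_nil, or_false] at hr
      rcases hr with rfl | rfl | rfl
      · exact hm 0
      · exact hm 1
      · exact hm 2
    have key : ∀ a b c : R, List.Perm [D.f 0, D.f 1, D.f 2] [a, b, c] → a ≠ 0 := by
      intro a b c h h0
      have hw := isWeaklyRegular_of_perm_of_subset_maximalIdeal hreg h hmem
      rw [RingTheory.Sequence.isWeaklyRegular_cons_iff] at hw
      exact one_ne_zero (hw.1 (show a • (1 : R) = a • (0 : R) by rw [h0, zero_smul, zero_smul]))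
    intro i
    fin_cases i
    · exact key _ _ _ (List.Perm.refl _)
    · exact key _ (D.f 0) (D.f 2) (List.Perm.swap _ _ _)
    · exact key _ (D.f 0) (D.f 1)
        (((List.Perm.swap (D.f 2) (D.f 1) []).cons (D.f 0)).trans (List.Perm.swap _ _ _))
  set y : R := D.f 0 * D.f 1 * D.f 2 with hy
  have hy0 : y ≠ 0 := by
    rw [hy]
    exact mul_ne_zero (mul_ne_zero (hne 0) (hne 1)) (hne 2)
  let T := Localization.Away y
  have hyK : IsUnit (algebraMap R K y) :=
    IsUnit.mk0 _ ((map_ne_zero_iff _ hinjK).2 hy0)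
  let : Algebra T K := (IsLocalization.Away.lift (S := T) y hyK).toAlgebra
  have : IsScalarTower R T K := IsScalarTower.of_algebraMap_eq' (by
    rw [RingHom.algebraMap_toAlgebra]
    exact (IsLocalization.Away.lift_comp (S := T) y hyK).symm)
  let : Algebra ℚ T := ((algebraMap R T).comp (algebraMap ℚ R)).toAlgebra
  have hinjT : Function.Injective (algebraMap R T) :=
    IsLocalization.injective T (powers_le_nonZeroDivisors_of_noZeroDivisors hy0)
  have huy : IsUnit (algebraMap R T y) := IsLocalization.Away.algebraMap_isUnit y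
  let C : U.Cov R T :=
    { f := fun i => D.f (Fin.castLE (by norm_num) i)
      inj := hinjT
      unit := by
        intro i
        have hdvd : D.f (Fin.castLE (by norm_num) i) ∣ y := by
          fin_cases i
          · exact ⟨D.f 1 * D.f 2, by rw [hy]; simp; ring⟩
          · exact ⟨D.f 0 * D.f 2, by rw [hy]; simp; ring⟩
          · exact ⟨D.f 0 * D.f 1, by rw [hy]; simp; ring⟩
        exact isUnit_of_dvd_unit (map_dvd (algebraMap R T) hdvd) huy }
  obtain ⟨W, hWM, hWp, hWw⟩ := exists_udata C hm hreg D (fun i => rfl) v w hvw M hMs hMu hM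
  have hf : D.f ≠ 0 := fun h => hne 0 (by rw [h]; rfl)
  obtain ⟨s, hs, hsf⟩ := rstate_of_udata W K hf hWM (by
    intro k l a
    simp only [hWp, hWw]
    exact hM k l a)
  refine ⟨s, hsf, fun l => by rw [hs, hWp], fun l a b => by rw [hs, hWw], ?_⟩
  intro c hc l
  refine U.unimod C hm hreg ?_ xtab xtab_good W c ?_ l
  · intro x
    obtain ⟨n, r, hr⟩ := IsLocalization.Away.surj y x
    refine ⟨n, r, ?_⟩
    rw [← hr, mul_comm]
    rfl
  · intro b
    rw [← hs]
    exact hc b

end Pool.Agent.Licci
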