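import Pool.Agent.Work.MP_a98e4e_ag.L.Dat
import Pool.Agent.Work.MP_a98e4e_ag.L.Gen
import Pool.Agent.Work.MP_a98e4e_ag.L.FormA3
import Pool.Agent.Work.MP_a98e4e_ag.L.LemX

/-!
# LICCI L7: the linear form of an automorphism

`Th_orth`: a `B0`-orthogonal pair in `x`-degree `2` has `Θ = 0` after any automorphism.
`exists_form`: `Θ (k g, k h) = B0 (g, h) f` for one linear form `f`.
-/

set_option linter.unusedSimpArgs false

namespace Pool.Agent.Licci

open scoped BigOperators
open U (Sup)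


namespace ThR

section

variable {A : Type*} [CommRing A]

theorem p3_add (Y Z : E8 A) : p3 (Y + Z) = p3 Y + p3 Z := rfl

theorem p3_smul (c : A) (Y : E8 A) : p3 (c • Y) = c • p3 Y := rfl

theorem w2_add (Y Z : E8 A) (i j : Fin 8) : w2 (Y + Z) i j = w2 Y i j + w2 Z i j := by
  simp [w2, mul_add]

theorem w2_smul (c : A) (Y : E8 A) (i j : Fin 8) : w2 (c • Y) i j = c * w2 Y i j := by
  simp [w2]; ring

/-- `Θ` as a linear form in `u` -/
theorem Th_eq_sum (Y Z : E8 A) (u : Vec A) : Th Y Z u =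
    ∑ j, u j * ∑ i, (w2 Z i j * p3 Y i + w2 Y i j * p3 Z i) := by
  simp only [Th, om]
  rw [Finset.sum_comm, Finset.sum_comm (f := fun i j => w2 Y i j * (p3 Z i * u j)),
    ← Finset.sum_add_distrib]
  refine Finset.sum_congr rfl fun j _ => ?_
  rw [← Finset.sum_add_distrib, Finset.mul_sum]
  refine Finset.sum_congr rfl fun i _ => ?_
  ring

theorem Th_eq_single (Y Z : E8 A) (u : Vec A) : Th Y Z u = ∑ j, u j * Th Y Z (Pi.single j 1) := by
  rw [Th_eq_sum]
  refine Finset.sum_congr rfl fun j _ => ?_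
  rw [Th_eq_sum]
  congr 1
  symm
  rw [Finset.sum_eq_single j]
  · simp
  · intro b _ hb
    rw [Pi.single_eq_of_ne hb, zero_mul]
  · simp

theorem Th_comm (Y Z : E8 A) (u : Vec A) : Th Y Z u = Th Z Y u := by
  rw [Th, Th, add_comm]

theorem Th_add_left (Y Y' Z : E8 A) (u : Vec A) : Th (Y + Y') Z u = Th Y Z u + Th Y' Z u := by
  simp only [Th_eq_sum, w2_add, p3_add, Pi.add_apply]
  rw [← Finset.sum_add_distrib]
  refine Finset.sum_congr rfl fun j _ => ?_
  rw [← mul_add, ← Finset.sum_add_distrib]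
  congr 1
  refine Finset.sum_congr rfl fun i _ => ?_
  ring

theorem Th_smul_left (c : A) (Y Z : E8 A) (u : Vec A) : Th (c • Y) Z u = c * Th Y Z u := by
  simp only [Th_eq_sum, w2_smul, p3_smul, Pi.smul_apply, smul_eq_mul]
  rw [Finset.mul_sum]
  refine Finset.sum_congr rfl fun j _ => ?_
  rw [Finset.mul_sum, Finset.mul_sum, Finset.mul_sum]
  refine Finset.sum_congr rfl fun i _ => ?_
  ring

/-- `Θ (·, ·) (u)` as a bilinear form -/
def ThB (u : Vec A) : E8 A →ₗ[A] E8 A →ₗ[A] A :=
  LinearMap.mk₂ A (fun Y Z => Th Y Z u) (fun Y Y' Z => Th_add_left Y Y' Z u)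
    (fun c Y Z => Th_smul_left c Y Z u)
    (fun Y Z Z' => by rw [Th_comm, Th_add_left, Th_comm Z, Th_comm Z'])
    (fun c Y Z => by rw [Th_comm, Th_smul_left, Th_comm Z, smul_eq_mul])

@[simp] theorem ThB_apply (u : Vec A) (Y Z : E8 A) : ThB u Y Z = Th Y Z u := rfl

theorem det3_zero {s P t Q : Fin 3 → A} {c : A}
    (h : ∀ a b : Fin 3, (if a = b then c else 0) = s a * P b + t a * Q b) : c ^ 3 = 0 := by
  have h00 := h 0 0
  have h01 := h 0 1
  have h02 := h 0 2
  have h10 := h 1 0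
  have h11 := h 1 1
  have h12 := h 1 2
  have h20 := h 2 0
  have h21 := h 2 1
  have h22 := h 2 2
  simp only [Fin.isValue, if_true, show (0 : Fin 3) ≠ 1 by decide, show (0 : Fin 3) ≠ 2 by decide,
    show (1 : Fin 3) ≠ 0 by decide, show (1 : Fin 3) ≠ 2 by decide, show (2 : Fin 3) ≠ 0 by decide,
    show (2 : Fin 3) ≠ 1 by decide, if_false] at h00 h01 h02 h10 h11 h12 h20 h21 h22
  have e : c ^ 3 = (s 0 * P 0 + t 0 * Q 0) * ((s 1 * P 1 + t 1 * Q 1) * (s 2 * P 2 + t 2 * Q 2) -
      (s 1 * P 2 + t 1 * Q 2) * (s 2 * P 1 + t 2 * Q 1)) -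
      (s 0 * P 1 + t 0 * Q 1) * ((s 1 * P 0 + t 1 * Q 0) * (s 2 * P 2 + t 2 * Q 2) -
      (s 1 * P 2 + t 1 * Q 2) * (s 2 * P 0 + t 2 * Q 0)) +
      (s 0 * P 2 + t 0 * Q 2) * ((s 1 * P 0 + t 1 * Q 0) * (s 2 * P 1 + t 2 * Q 1) -
      (s 1 * P 1 + t 1 * Q 1) * (s 2 * P 0 + t 2 * Q 0)) := by
    rw [← h00, ← h01, ← h02, ← h10, ← h11, ← h12, ← h20, ← h21, ← h22]
    ring
  rw [e]
  ring

end

/-- the degree `2` indices -/
theorem xdg_eq_two (m : Fin 248) (h1 : ¬ (1 ≤ (m : ℕ) ∧ (m : ℕ) ≤ 14)) : xdg m ≠ 2 := by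
  revert m
  decide +kernel

theorem xdg_ix (q : Fin 14) : xdg (ix (q + 1)) = 2 := by
  revert q
  decide +kernel

theorem sup_eb {A : Type*} [CommRing A] (q : Fin 14) : Sup xdg 2 (eb (ix (q + 1)) : E8 A) := by
  intro m hm
  rw [eb_apply, if_neg]
  rintro rfl
  exact hm (xdg_ix q)

/-- expansion of an element of `x`-degree `2` -/
theorem sup_two_eq {A : Type*} [CommRing A] {g : E8 A} (hg : Sup xdg 2 g) :
    g = ∑ q : Fin 7, (g (ix (q + 1)) • (eb (ix (q + 1)) : E8 A) + g (ix (q + 8)) • eb (ix (q + 8))) := by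
  ext m
  simp only [Finset.sum_apply, Pi.add_apply, Pi.smul_apply, smul_eq_mul, eb_apply]
  by_cases h1 : 1 ≤ (m : ℕ) ∧ (m : ℕ) ≤ 14
  · obtain ⟨n, hn⟩ := m
    obtain ⟨h1, h2⟩ := h1
    simp only at h1 h2
    interval_cases n <;> simp [Fin.sum_univ_succ, ix, Fin.ext_iff, Fin.ofNat]
  · rw [hg m (xdg_eq_two m h1)]
    symm
    refine Finset.sum_eq_zero fun q _ => ?_
    have e1 : ((ix ((q : ℕ) + 1) : Fin 248) : ℕ) = q + 1 := by
      show ((q : ℕ) + 1) % 248 = q + 1
      omega
    have e2 : ((ix ((q : ℕ) + 8) : Fin 248) : ℕ) = q + 8 := by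
      show ((q : ℕ) + 8) % 248 = q + 8
      omega
    rw [if_neg, if_neg]
    · simp
    · rintro rfl
      omega
    · rintro rfl
      omega

end ThR

open ThR

section

variable {K : Type*} [Field K]

/-- an orthogonal pair in `x`-degree `2` has `Θ = 0` after any automorphism -/
theorem Th_orth {k : E8 K →ₗ[K] E8 K} (hk : IsAut k) {g h : E8 K} (hg : Sup xdg 2 g)
    (hh : Sup xdg 2 h) (h0 : B0 g h = 0) (u : Vec K) : Th (k g) (k h) u = 0 := by
  -- for `i < j`, `η_i e_j - η_j e_i` is in the span of `p3 Y`, `p3 Z`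
  have key : ∀ i j : Fin 8, i < j → ∃ s t : K, ∀ q : Fin 8,
      (if q = j then Th (k g) (k h) (Pi.single i 1) else 0) -
      (if q = i then Th (k g) (k h) (Pi.single j 1) else 0) =
        s * p3 (k g) q + t * p3 (k h) q := by
    intro i j hij
    obtain ⟨y, hy⟩ := hk.bij.2 (eb (im2 i j))
    have h1 := lemX hg hh y
    rw [h0, zero_smul, add_zero] at h1
    have h2 := congrArg k h1
    rw [hk.map_br, hk.map_br, hy, map_add, map_smul, map_smul] at h2
    refine ⟨kp y h - w2 (k h) i j, kp y g - w2 (k g) i j, fun q => ?_⟩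
    have h3 := p3_low (k g) (k h) i j q hij
    rw [h2] at h3
    have h4 : p3 (kp y g • k h + kp y h • k g) q = kp y g * p3 (k h) q + kp y h * p3 (k g) q := rfl
    rw [h4] at h3
    linear_combination -h3
  have key2 : ∀ i j : Fin 8, i ≠ j → ∃ s t : K, ∀ q : Fin 8, q ≠ i →
      (if q = j then Th (k g) (k h) (Pi.single i 1) else 0) = s * p3 (k g) q + t * p3 (k h) q := by
    intro i j hij
    rcases lt_or_gt_of_ne hij with h1 | h1
    · obtain ⟨s, t, hst⟩ := key i j h1
      refine ⟨s, t, fun q hq => ?_⟩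
      rw [← hst q, if_neg hq, sub_zero]
    · obtain ⟨s, t, hst⟩ := key j i h1
      refine ⟨-s, -t, fun q hq => ?_⟩
      have := hst q
      rw [if_neg hq, zero_sub] at this
      rw [neg_mul, neg_mul, ← neg_add, ← this, neg_neg]
  have key3 : ∀ i : Fin 8, Th (k g) (k h) (Pi.single i 1) = 0 := by
    intro i
    have hne : ∀ a : Fin 3, i ≠ i + ⟨a + 1, by omega⟩ := by
      intro a
      revert i
      revert a
      decide
    have hinj : ∀ a b : Fin 3, i + (⟨b + 1, by omega⟩ : Fin 8) = i + ⟨a + 1, by omega⟩ ↔ a = b := by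
      revert i
      decide
    choose s t hst using fun a : Fin 3 => key2 i (i + ⟨a + 1, by omega⟩) (hne a)
    have h3 := det3_zero (c := Th (k g) (k h) (Pi.single i 1)) (s := s) (t := t)
      (P := fun b => p3 (k g) (i + ⟨b + 1, by omega⟩))
      (Q := fun b => p3 (k h) (i + ⟨b + 1, by omega⟩)) (fun a b => by
        have := hst a (i + ⟨b + 1, by omega⟩) (hne b).symm
        rw [← this]
        simp only [hinj])
    exact pow_eq_zero_iff (by norm_num) |>.1 h3
  rw [Th_eq_single]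
  exact Finset.sum_eq_zero fun j _ => by rw [key3, mul_zero]

/-- the linear form of an automorphism -/
theorem exists_form {k : E8 K →ₗ[K] E8 K} (hk : IsAut k) : ∃ f : Vec K →ₗ[K] K,
    ∀ g h : E8 K, Sup xdg 2 g → Sup xdg 2 h → ∀ u, Th (k g) (k h) u = B0 g h * f u := by
  -- the two halves of the basis
  set a : Fin 7 → E8 K := fun q => eb (ix (q + 1)) with ha
  set b : Fin 7 → E8 K := fun q => eb (ix (q + 8)) with hb
  have sa : ∀ q, Sup xdg 2 (a q) := fun q => sup_eb (A := K) ⟨q, by omega⟩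
  have sb : ∀ q, Sup xdg 2 (b q) := fun q => sup_eb (A := K) ⟨q + 7, by omega⟩
  have ia : ∀ q : Fin 7, ((ix ((q : ℕ) + 1) : Fin 248) : ℕ) = q + 1 := fun q => by
    show ((q : ℕ) + 1) % 248 = q + 1
    omega
  have ib : ∀ q : Fin 7, ((ix ((q : ℕ) + 8) : Fin 248) : ℕ) = q + 8 := fun q => by
    show ((q : ℕ) + 8) % 248 = q + 8
    omega
  have aa : ∀ q r : Fin 7, a q (ix (r + 1)) = if q = r then 1 else 0 := fun q r => by
    simp only [ha, eb_apply, Fin.ext_iff, ia]
    congr 1
    exact propext ⟨fun h => by omega, fun h => by omega⟩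
  have ab : ∀ q r : Fin 7, a q (ix (r + 8)) = 0 := fun q r => by
    simp only [ha, eb_apply, Fin.ext_iff, ia, ib]
    rw [if_neg (by omega)]
  have ba : ∀ q r : Fin 7, b q (ix (r + 1)) = 0 := fun q r => by
    simp only [hb, eb_apply, Fin.ext_iff, ia, ib]
    rw [if_neg (by omega)]
  have bb : ∀ q r : Fin 7, b q (ix (r + 8)) = if q = r then 1 else 0 := fun q r => by
    simp only [hb, eb_apply, Fin.ext_iff, ib]
    congr 1
    exact propext ⟨fun h => by omega, fun h => by omega⟩
  have oaa : ∀ q r, B0 (a q) (a r) = 0 := fun q r => by simp [B0, aa, ab]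
  have obb : ∀ q r, B0 (b q) (b r) = 0 := fun q r => by simp [B0, ba, bb]
  have oab : ∀ q r, q ≠ r → B0 (a q) (b r) = 0 := fun q r hqr => by
    simp only [B0, aa, ab, ba, bb, mul_zero, zero_mul, add_zero]
    rw [neg_eq_zero]
    refine Finset.sum_eq_zero fun x _ => ?_
    by_cases h1 : q = x
    · rw [if_neg (show ¬ r = x from fun h => hqr (h1.trans h.symm)), mul_zero]
    · rw [if_neg h1, zero_mul]
  have oadd : ∀ q r, q ≠ r → B0 (a q + a r) (b q - b r) = 0 := fun q r hqr => by
    simp only [B0, Pi.add_apply, Pi.sub_apply, aa, ab, ba, bb, add_zero, sub_zero, zero_mul,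
      mul_zero]
    rw [neg_eq_zero]
    simp only [add_mul, mul_sub, Finset.sum_add_distrib, Finset.sum_sub_distrib, ite_mul, one_mul,
      zero_mul, mul_ite, mul_one, mul_zero, Finset.sum_ite_eq, Finset.mem_univ, if_true]
    simp [hqr, hqr.symm]
  have same : ∀ (q : Fin 7) (u : Vec K), Th (k (a q)) (k (b q)) u = Th (k (a 0)) (k (b 0)) u := by
    intro q u
    by_cases hq : q = 0
    · rw [hq]
    · have h1 := Th_orth hk (g := a q + a 0) (h := b q - b 0)
        (fun m hm => by rw [Pi.add_apply, sa q m hm, sa 0 m hm, add_zero])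
        (fun m hm => by rw [Pi.sub_apply, sb q m hm, sb 0 m hm, sub_zero]) (oadd q 0 hq) u
      have h2 := Th_orth hk (sa q) (sb 0) (oab q 0 hq) u
      have h3 := Th_orth hk (sa 0) (sb q) (oab 0 q (Ne.symm hq)) u
      have e : Th (k (a q + a 0)) (k (b q - b 0)) u =
          Th (k (a q)) (k (b q)) u - Th (k (a q)) (k (b 0)) u + Th (k (a 0)) (k (b q)) u -
            Th (k (a 0)) (k (b 0)) u := by
        rw [← ThB_apply, map_add, map_sub, map_add, LinearMap.add_apply, map_sub, map_sub]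
        simp only [ThB_apply]
        ring
      rw [e, h2, h3] at h1
      linear_combination h1
  refine ⟨{ toFun := fun u => - Th (k (a 0)) (k (b 0)) u
            map_add' := fun u v => by
              rw [Th_eq_single, Th_eq_single _ _ u, Th_eq_single _ _ v, ← neg_add,
                ← Finset.sum_add_distrib]
              congr 1
              exact Finset.sum_congr rfl fun j _ => by rw [Pi.add_apply, add_mul]
            map_smul' := fun c u => by
              rw [Th_eq_single, Th_eq_single _ _ u, RingHom.id_apply, smul_eq_mul, mul_neg,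
                Finset.mul_sum]
              congr 1
              exact Finset.sum_congr rfl fun j _ => by
                rw [Pi.smul_apply, smul_eq_mul, mul_assoc] }, ?_⟩
  intro g h hg hh u
  show Th (k g) (k h) u = B0 g h * (- Th (k (a 0)) (k (b 0)) u)
  set c := Th (k (a 0)) (k (b 0)) u with hc
  have Haa : ∀ q r, ThB u (k (a q)) (k (a r)) = 0 := fun q r => Th_orth hk (sa q) (sa r) (oaa q r) u
  have Hbb : ∀ q r, ThB u (k (b q)) (k (b r)) = 0 := fun q r => Th_orth hk (sb q) (sb r) (obb q r) u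
  have Hab : ∀ q r, ThB u (k (a q)) (k (b r)) = if q = r then c else 0 := fun q r => by
    split_ifs with h1
    · rw [h1, ThB_apply, same r u]
    · exact Th_orth hk (sa q) (sb r) (oab q r h1) u
  have Hba : ∀ q r, ThB u (k (b q)) (k (a r)) = if q = r then c else 0 := fun q r => by
    rw [ThB_apply, Th_comm, ← ThB_apply, Hab]
    simp only [eq_comm]
  have eg : k g = ∑ q : Fin 7, (g (ix (q + 1)) • k (a q) + g (ix (q + 8)) • k (b q)) := by
    conv_lhs => rw [sup_two_eq hg]
    rw [map_sum]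
    exact Finset.sum_congr rfl fun q _ => by rw [map_add, map_smul, map_smul]
  have eh : k h = ∑ q : Fin 7, (h (ix (q + 1)) • k (a q) + h (ix (q + 8)) • k (b q)) := by
    conv_lhs => rw [sup_two_eq hh]
    rw [map_sum]
    exact Finset.sum_congr rfl fun q _ => by rw [map_add, map_smul, map_smul]
  rw [← ThB_apply, eg, eh, B0, neg_mul_neg, Finset.sum_mul, map_sum (ThB u), LinearMap.sum_apply]
  refine Finset.sum_congr rfl fun q _ => ?_
  rw [map_sum, map_add, map_smul, map_smul]
  simp only [map_add, map_smul, LinearMap.add_apply, LinearMap.smul_apply, smul_eq_mul, Haa, Hbb,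
    Hab, Hba, mul_zero, zero_add, add_zero, mul_ite, Finset.sum_add_distrib, Finset.sum_ite_eq,
    Finset.mem_univ, if_true]
  ring

end

end Pool.Agent.Licci
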