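import Pool.Agent.Work.MP_a98e4e_ag.L.Grad
import Pool.Agent.Work.MP_a98e4e_ag.L.Exp
import Pool.Agent.Work.MP_a98e4e_ag.L.FormA1
import Pool.Agent.Work.MP_a98e4e_ag.L.FormA2
import Pool.Agent.Work.MP_a98e4e_ag.L.ThRel

/-!
# LICCI, codimension 4, module L8a: the linear form and the `4`-form of a state over a field
-/

namespace Pool.Agent.Licci

open scoped BigOperators
open U (Sup)

/-! ### functions of `t` which are polynomials, with their first two coefficients -/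

section Dl

variable {K : Type*} [Field K]

/-- `F` is polynomial in `t` with the coefficients `a` (of `1`) and `b` (of `t`). -/
def Dl (F : K → K) (a b : K) : Prop :=
  ∃ P : Polynomial K, (∀ t, F t = P.eval t) ∧ P.coeff 0 = a ∧ P.coeff 1 = b

theorem Dl.const (c : K) : Dl (fun _ => c) c 0 :=
  ⟨Polynomial.C c, fun t => by simp, by simp, by simp⟩

theorem Dl.add {F G : K → K} {a b c d : K} (hF : Dl F a b) (hG : Dl G c d) :
    Dl (fun t => F t + G t) (a + c) (b + d) := by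
  obtain ⟨P, h1, h2, h3⟩ := hF
  obtain ⟨Q, k1, k2, k3⟩ := hG
  exact ⟨P + Q, fun t => by simp [h1, k1], by simp [h2, k2], by simp [h3, k3]⟩

theorem Dl.mul {F G : K → K} {a b c d : K} (hF : Dl F a b) (hG : Dl G c d) :
    Dl (fun t => F t * G t) (a * c) (a * d + b * c) := by
  obtain ⟨P, h1, h2, h3⟩ := hF
  obtain ⟨Q, k1, k2, k3⟩ := hG
  refine ⟨P * Q, fun t => by simp [h1, k1], ?_, ?_⟩
  · rw [Polynomial.mul_coeff_zero, h2, k2]
  · rw [Polynomial.mul_coeff_one, h2, h3, k2, k3]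

theorem Dl.const_mul (e : K) {F : K → K} {a b : K} (hF : Dl F a b) :
    Dl (fun t => e * F t) (e * a) (e * b) := by
  have := (Dl.const e).mul hF
  simpa using this

theorem Dl.neg {F : K → K} {a b : K} (hF : Dl F a b) : Dl (fun t => - F t) (-a) (-b) := by
  have := hF.const_mul (-1)
  simpa using this

theorem Dl.sum {κ : Type*} (s : Finset κ) {F : κ → K → K} {a b : κ → K}
    (h : ∀ i ∈ s, Dl (F i) (a i) (b i)) : Dl (fun t => ∑ i ∈ s, F i t) (∑ i ∈ s, a i)
      (∑ i ∈ s, b i) := by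
  classical
  induction s using Finset.induction_on with
  | empty => simpa using Dl.const (0 : K)
  | insert j s hj ih =>
    have h1 := (h j (Finset.mem_insert_self j s)).add
      (ih fun i hi => h i (Finset.mem_insert_of_mem hi))
    simpa [Finset.sum_insert hj] using h1

theorem Dl.pow (n : ℕ) : Dl (fun t : K => t ^ n) (if n = 0 then 1 else 0)
    (if n = 1 then 1 else 0) := by
  refine ⟨Polynomial.X ^ n, fun t => by simp, ?_, ?_⟩
  · rw [Polynomial.coeff_X_pow]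
    simp [eq_comm]
  · rw [Polynomial.coeff_X_pow]
    simp [eq_comm]

theorem Dl.eq_zero [Infinite K] {F : K → K} {a b : K} (hF : Dl F a b) (h : ∀ t, F t = 0) :
    a = 0 ∧ b = 0 := by
  obtain ⟨P, h1, rfl, rfl⟩ := hF
  have : P = 0 := Polynomial.funext fun t => by rw [← h1, h, Polynomial.eval_zero]
  rw [this]
  simp

end Dl

section vec

variable {K : Type*} [Field K]

theorem Dl.om {Y : K → E8 K} {Y0 Y1 : E8 K} (hY : ∀ m, Dl (fun t => Y t m) (Y0 m) (Y1 m))
    {a b : K → Vec K} {a0 a1 b0 b1 : Vec K} (ha : ∀ i, Dl (fun t => a t i) (a0 i) (a1 i))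
    (hb : ∀ i, Dl (fun t => b t i) (b0 i) (b1 i)) :
    Dl (fun t => Licci.om (Y t) (a t) (b t)) (Licci.om Y0 a0 b0)
      (Licci.om Y1 a0 b0 + Licci.om Y0 a1 b0 + Licci.om Y0 a0 b1) := by
  have h : Dl (fun t => Licci.om (Y t) (a t) (b t)) (Licci.om Y0 a0 b0)
      (∑ i, ∑ j, (w2 Y0 i j * (a0 i * b1 j + a1 i * b0 j) + w2 Y1 i j * (a0 i * b0 j))) := by
    simp only [Licci.om]
    refine Dl.sum _ fun i _ => Dl.sum _ fun j _ => ?_
    have h1 : Dl (fun t => w2 (Y t) i j) (w2 Y0 i j) (w2 Y1 i j) := (hY _).const_mul _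
    exact h1.mul ((ha i).mul (hb j))
  have e : (∑ i, ∑ j, (w2 Y0 i j * (a0 i * b1 j + a1 i * b0 j) + w2 Y1 i j * (a0 i * b0 j))) =
      Licci.om Y1 a0 b0 + Licci.om Y0 a1 b0 + Licci.om Y0 a0 b1 := by
    simp only [Licci.om, ← Finset.sum_add_distrib]
    refine Finset.sum_congr rfl fun i _ => Finset.sum_congr rfl fun j _ => ?_
    ring
  rw [e] at h
  exact h

theorem Dl.Th {Y Z : K → E8 K} {Y0 Y1 Z0 Z1 : E8 K}
    (hY : ∀ m, Dl (fun t => Y t m) (Y0 m) (Y1 m)) (hZ : ∀ m, Dl (fun t => Z t m) (Z0 m) (Z1 m))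
    {u : K → Vec K} {u0 u1 : Vec K} (hu : ∀ i, Dl (fun t => u t i) (u0 i) (u1 i)) :
    Dl (fun t => Licci.Th (Y t) (Z t) (u t)) (Licci.Th Y0 Z0 u0)
      (Licci.Th Y1 Z0 u0 + Licci.Th Y0 Z1 u0 + Licci.Th Y0 Z0 u1) := by
  have h1 := Dl.om hZ (a := fun t => p3 (Y t)) (a0 := p3 Y0) (a1 := p3 Y1) (fun i => hY _) hu
  have h2 := Dl.om hY (a := fun t => p3 (Z t)) (a0 := p3 Z0) (a1 := p3 Z1) (fun i => hZ _) hu
  have h3 := h1.add h2
  have e : Licci.om Z1 (p3 Y0) u0 + Licci.om Z0 (p3 Y1) u0 + Licci.om Z0 (p3 Y0) u1 +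
      (Licci.om Y1 (p3 Z0) u0 + Licci.om Y0 (p3 Z1) u0 + Licci.om Y0 (p3 Z0) u1) =
      Licci.Th Y1 Z0 u0 + Licci.Th Y0 Z1 u0 + Licci.Th Y0 Z0 u1 := by
    simp only [Licci.Th]
    ring
  rw [e] at h3
  exact h3

theorem Dl.ex [Algebra ℚ K] (E Y : E8 K) (m : Fin 248) :
    Dl (fun t => Licci.ex (t • E) Y m) (Y m) (br E Y m) := by
  have h1 : (fun t : K => Licci.ex (t • E) Y m) = fun t => ∑ n ∈ Finset.range 7,
      (algebraMap ℚ K ((n.factorial : ℚ)⁻¹) * ((brL E) ^ n) Y m) * t ^ n := by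
    funext t
    rw [ex_apply, Finset.sum_apply]
    refine Finset.sum_congr rfl fun n _ => ?_
    rw [map_smul, smul_pow]
    simp only [Pi.smul_apply, LinearMap.smul_apply, smul_eq_mul]
    ring
  rw [h1]
  have h2 := Dl.sum (Finset.range 7) (fun n _ => (Dl.pow (K := K) n).const_mul
    (algebraMap ℚ K ((n.factorial : ℚ)⁻¹) * ((brL E) ^ n) Y m))
  refine (congrArg₂ (Dl _) ?_ ?_).mp h2
  · simp
  · simp

end vec

/-! ### the pairs `(1, 8)`, `(2, 9)` of basis vectors of `x`-degree `2` -/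

section basis

variable {A : Type*} [CommRing A]

theorem sup_eb {i : Fin 248} (h : xdg i = 2) : Sup xdg 2 (eb i : E8 A) := by
  intro b hb
  rw [eb_apply, if_neg]
  rintro rfl
  exact hb h

theorem xdg_1 : xdg (ix 1) = 2 := by decide +kernel
theorem xdg_8 : xdg (ix 8) = 2 := by decide +kernel
theorem xdg_2 : xdg (ix 2) = 2 := by decide +kernel
theorem xdg_9 : xdg (ix 9) = 2 := by decide +kernel

theorem B0_symm (g h : E8 A) : B0 g h = B0 h g := by
  simp only [B0]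
  congr 1
  refine Finset.sum_congr rfl fun q _ => ?_
  ring

theorem ix_ne {i j : ℕ} (hi : i < 248) (hj : j < 248) (h : i ≠ j) : ix i ≠ ix j := by
  intro h1
  have h2 := congrArg Fin.val h1
  simp only [ix, Fin.ofNat, Nat.mod_eq_of_lt hi, Nat.mod_eq_of_lt hj] at h2
  exact h h2

theorem B0_1_8 : B0 (eb (ix 1) : E8 A) (eb (ix 8)) = -1 := by
  simp [B0, eb_apply, Fin.sum_univ_succ, ix, Fin.ext_iff]

theorem B0_2_9 : B0 (eb (ix 2) : E8 A) (eb (ix 9)) = -1 := by
  simp [B0, eb_apply, Fin.sum_univ_succ, ix, Fin.ext_iff]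

theorem B0_1_9 : B0 (eb (ix 1) : E8 A) (eb (ix 9)) = 0 := by
  simp [B0, eb_apply, Fin.sum_univ_succ, ix, Fin.ext_iff]

theorem B0_1_2 : B0 (eb (ix 1) : E8 A) (eb (ix 2)) = 0 := by
  simp [B0, eb_apply, Fin.sum_univ_succ, ix, Fin.ext_iff]

theorem B0_8_9 : B0 (eb (ix 8) : E8 A) (eb (ix 9)) = 0 := by
  simp [B0, eb_apply, Fin.sum_univ_succ, ix, Fin.ext_iff]

theorem B0_8_2 : B0 (eb (ix 8) : E8 A) (eb (ix 2)) = 0 := by
  simp [B0, eb_apply, Fin.sum_univ_succ, ix, Fin.ext_iff]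

theorem om_add_left (Y : E8 A) (x x' y : Vec A) : om Y (x + x') y = om Y x y + om Y x' y := by
  simp only [om, ← Finset.sum_add_distrib]
  refine Finset.sum_congr rfl fun i _ => Finset.sum_congr rfl fun j _ => ?_
  simp only [Pi.add_apply]; ring

theorem om_smul_left (Y : E8 A) (c : A) (x y : Vec A) : om Y (c • x) y = c * om Y x y := by
  simp only [om, Finset.mul_sum]
  refine Finset.sum_congr rfl fun i _ => Finset.sum_congr rfl fun j _ => ?_
  simp only [Pi.smul_apply, smul_eq_mul]; ring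

theorem om_sub_left (Y : E8 A) (x x' y : Vec A) : om Y (x - x') y = om Y x y - om Y x' y := by
  rw [sub_eq_add_neg, om_add_left, ← neg_one_smul A x', om_smul_left]; ring

end basis

section L8

variable {K : Type*} [Field K]

/-- the cyclic identity -/
theorem FormOf.cyclic {k : E8 K →ₗ[K] E8 K} {f : Vec K →ₗ[K] K} (hf : FormOf k f) {g h e : E8 K}
    (hg : Sup xdg 2 g) (hh : Sup xdg 2 h) (he : Sup xdg 2 e) :
    B0 g h * f (p3 (k e)) + B0 h e * f (p3 (k g)) + B0 e g * f (p3 (k h)) = 0 := by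
  rw [← hf g h hg hh, ← hf h e hh he, ← hf e g he hg]
  simp only [Th]
  rw [om_swap (k h) (p3 (k g)), om_swap (k g) (p3 (k h)), om_swap (k e) (p3 (k h))]
  ring

/-- `f ∘ d = 0` -/
theorem FormOf.comp {k : E8 K →ₗ[K] E8 K} {f : Vec K →ₗ[K] K} (hf : FormOf k f) {g : E8 K}
    (hg : Sup xdg 2 g) : f (p3 (k g)) = 0 := by
  have s1 : Sup xdg 2 (eb (ix 1) : E8 K) := sup_eb xdg_1
  have s8 : Sup xdg 2 (eb (ix 8) : E8 K) := sup_eb xdg_8
  have s2 : Sup xdg 2 (eb (ix 2) : E8 K) := sup_eb xdg_2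
  have s9 : Sup xdg 2 (eb (ix 9) : E8 K) := sup_eb xdg_9
  have h1 : f (p3 (k (eb (ix 1)))) = 0 := by
    have := hf.cyclic s2 s9 s1
    rw [B0_2_9, B0_symm (eb (ix 9)) (eb (ix 1)), B0_1_9, B0_1_2] at this
    simpa using this
  have h8 : f (p3 (k (eb (ix 8)))) = 0 := by
    have := hf.cyclic s2 s9 s8
    rw [B0_2_9, B0_symm (eb (ix 9)) (eb (ix 8)), B0_8_9, B0_8_2] at this
    simpa using this
  have := hf.cyclic s1 s8 hg
  rw [B0_1_8, h1, h8] at this
  simpa using this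

/-- `ν` is alternating -/
theorem nuOf_self (k : E8 K →ₗ[K] E8 K) (x y z : Vec K) : nuOf k x y z x = 0 := by
  have key : ∀ Y Z : E8 K, Th (br (tri x y z) Y) Z x + Th Y (br (tri x y z) Z) x = 0 := by
    intro Y Z
    simp only [Th]
    rw [p3_tri, p3_tri, om_swap (br (tri x y z) Y) (p3 Z) x, om_tri,
      om_swap (br (tri x y z) Z) (p3 Y) x, om_tri]
    simp only [om_add_left, om_sub_left, om_smul_left, om_self]
    rw [om_swap Z y x, om_swap Z z x, om_swap Y y x, om_swap Y z x]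
    ring
  rw [nuOf, key, neg_zero]

variable [Algebra ℚ K]

omit [Algebra ℚ K] in
theorem IsAut.comp' {k k' : E8 K →ₗ[K] E8 K} (hk : IsAut k) (hk' : IsAut k') :
    IsAut (k' ∘ₗ k) :=
  ⟨hk'.bij.comp hk.bij, fun x y => by simp [hk.map_br, hk'.map_br]⟩

theorem isAut_ex_tri (t : K) (x y z : Vec K) : IsAut (ex (t • tri x y z)) := by
  apply ex_isAut
  apply ad_nil_pos
  intro m hm
  have := tri_sup x y z m (by omega)
  simp [this]

theorem infinite_of_rat : Infinite K := by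
  have : CharZero K := algebraRat.charZero K
  infer_instance

/-- the first order term does not depend on the pair -/
theorem nuOf_spec {k : E8 K →ₗ[K] E8 K} (hk : IsAut k) {f : Vec K →ₗ[K] K} (hf : FormOf k f)
    {g h : E8 K} (hg : Sup xdg 2 g) (hh : Sup xdg 2 h) (x y z u : Vec K) :
    Th (br (tri x y z) (k g)) (k h) u + Th (k g) (br (tri x y z) (k h)) u =
      B0 g h * nuOf k x y z u := by
  have : Infinite K := infinite_of_rat
  set E := tri x y z with hE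
  have s1 : Sup xdg 2 (eb (ix 1) : E8 K) := sup_eb xdg_1
  have s8 : Sup xdg 2 (eb (ix 8) : E8 K) := sup_eb xdg_8
  have hu : ∀ i, Dl (fun _ : K => u i) (u i) ((0 : Vec K) i) := fun i => Dl.const (u i)
  have d1 := Dl.Th (Dl.ex E (k g)) (Dl.ex E (k h)) hu
  have d2 := Dl.Th (Dl.ex E (k (eb (ix 1)))) (Dl.ex E (k (eb (ix 8)))) hu
  have d3 := d1.add (d2.const_mul (B0 g h))
  have hz : ∀ t : K, Th (ex (t • E) (k g)) (ex (t • E) (k h)) u +
      B0 g h * Th (ex (t • E) (k (eb (ix 1)))) (ex (t • E) (k (eb (ix 8)))) u = 0 := by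
    intro t
    obtain ⟨ft, hft⟩ := exists_form (hk.comp' (isAut_ex_tri t x y z))
    have e1 := hft g h hg hh u
    have e2 := hft _ _ s1 s8 u
    simp only [LinearMap.comp_apply] at e1 e2
    rw [e1, e2, B0_1_8]
    ring
  have hTh0 : ∀ Y Z : E8 K, Th Y Z (0 : Vec K) = 0 := by
    intro Y Z
    simp [Th, om]
  have h4 := (d3.eq_zero hz).2
  rw [hTh0, hTh0] at h4
  rw [nuOf, ← hE]
  linear_combination h4

/-- `f ∧ ω_g = ι_{d g} ν` -/
theorem nuOf_d {k : E8 K →ₗ[K] E8 K} (hk : IsAut k) {f : Vec K →ₗ[K] K} (hf : FormOf k f)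
    {g : E8 K} (hg : Sup xdg 2 g) (x y z : Vec K) :
    nuOf k x y z (p3 (k g)) =
      -(f x * om (k g) y z - f y * om (k g) x z + f z * om (k g) x y) := by
  have : Infinite K := infinite_of_rat
  set E := tri x y z with hE
  have s1 : Sup xdg 2 (eb (ix 1) : E8 K) := sup_eb xdg_1
  have s8 : Sup xdg 2 (eb (ix 8) : E8 K) := sup_eb xdg_8
  have hu : ∀ i, Dl (fun t : K => p3 (ex (t • E) (k g)) i) (p3 (k g) i) (p3 (br E (k g)) i) :=
    fun i => Dl.ex E (k g) _
  have d2 := Dl.Th (Dl.ex E (k (eb (ix 1)))) (Dl.ex E (k (eb (ix 8)))) hu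
  have hz : ∀ t : K, Th (ex (t • E) (k (eb (ix 1)))) (ex (t • E) (k (eb (ix 8))))
      (p3 (ex (t • E) (k g))) = 0 := by
    intro t
    obtain ⟨ft, hft⟩ := exists_form (hk.comp' (isAut_ex_tri t x y z))
    have e2 := hft _ _ s1 s8 (p3 (ex (t • E) (k g)))
    simp only [LinearMap.comp_apply] at e2
    have e3 : ft (p3 ((ex (t • E) ∘ₗ k) g)) = 0 := FormOf.comp (k := ex (t • E) ∘ₗ k) hft hg
    simp only [LinearMap.comp_apply] at e3
    rw [e2, e3, mul_zero]
  have h4 := (d2.eq_zero hz).2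
  have h5 : Th (k (eb (ix 1))) (k (eb (ix 8))) (p3 (br E (k g))) = - f (p3 (br E (k g))) := by
    rw [hf _ _ s1 s8, B0_1_8]
    ring
  rw [h5, hE, p3_tri, ← hE] at h4
  simp only [map_add, map_sub, map_smul, smul_eq_mul] at h4
  rw [nuOf, ← hE]
  linear_combination -h4

end L8

end Pool.Agent.Licci
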