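import Pool.Agent.Work.MP_a98e4e_ag.L.State1

/-!
# LICCI, codimension 4: one state over a field, second part

`im d = ker f`, `f ∧ ν = 0` and the effect of a move on `f`.
-/

namespace Pool.Agent.Licci

open scoped BigOperators
open U (Sup)

section L8

variable {K : Type*} [Field K] [Algebra ℚ K]

namespace St2

/-! ### linearity -/

section lin

variable {A : Type*} [CommRing A]

theorem p3_add' (Y Z : E8 A) : p3 (Y + Z) = p3 Y + p3 Z := rfl
theorem p3_smul' (c : A) (Y : E8 A) : p3 (c • Y) = c • p3 Y := rfl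

theorem w2_add' (Y Z : E8 A) (i j : Fin 8) : w2 (Y + Z) i j = w2 Y i j + w2 Z i j := by
  simp only [w2, Pi.add_apply, mul_add]

theorem w2_smul' (c : A) (Y : E8 A) (i j : Fin 8) : w2 (c • Y) i j = c * w2 Y i j := by
  simp only [w2, Pi.smul_apply, smul_eq_mul]
  ring

theorem om_add_fst (Y Z : E8 A) (x y : Vec A) : om (Y + Z) x y = om Y x y + om Z x y := by
  simp only [om, w2_add', add_mul, Finset.sum_add_distrib]

theorem om_smul_fst (c : A) (Y : E8 A) (x y : Vec A) : om (c • Y) x y = c * om Y x y := by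
  simp only [om, w2_smul', Finset.mul_sum]
  exact Finset.sum_congr rfl fun i _ => Finset.sum_congr rfl fun j _ => by ring

theorem om_add_left (Y : E8 A) (x x' y : Vec A) : om Y (x + x') y = om Y x y + om Y x' y := by
  simp only [om, Pi.add_apply, ← Finset.sum_add_distrib]
  exact Finset.sum_congr rfl fun i _ => Finset.sum_congr rfl fun j _ => by ring

theorem om_smul_left (Y : E8 A) (c : A) (x y : Vec A) : om Y (c • x) y = c * om Y x y := by
  simp only [om, Pi.smul_apply, smul_eq_mul, Finset.mul_sum]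
  exact Finset.sum_congr rfl fun i _ => Finset.sum_congr rfl fun j _ => by ring

theorem om_add_right (Y : E8 A) (x y y' : Vec A) : om Y x (y + y') = om Y x y + om Y x y' := by
  simp only [om, Pi.add_apply, ← Finset.sum_add_distrib]
  exact Finset.sum_congr rfl fun i _ => Finset.sum_congr rfl fun j _ => by ring

theorem om_smul_right (Y : E8 A) (c : A) (x y : Vec A) : om Y x (c • y) = c * om Y x y := by
  simp only [om, Pi.smul_apply, smul_eq_mul, Finset.mul_sum]
  exact Finset.sum_congr rfl fun i _ => Finset.sum_congr rfl fun j _ => by ring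

/-- `om` as a linear map in the first vector and the element of `e_8` -/
def omL (x y : Vec A) : E8 A →ₗ[A] A where
  toFun Y := om Y x y
  map_add' Y Z := om_add_fst Y Z x y
  map_smul' c Y := om_smul_fst c Y x y

theorem omL_apply (x y : Vec A) (Y : E8 A) : omL x y Y = om Y x y := rfl

/-- `p3` as a linear map -/
def p3L : E8 A →ₗ[A] Vec A where
  toFun Y := p3 Y
  map_add' Y Z := rfl
  map_smul' c Y := rfl

theorem p3L_apply (Y : E8 A) : p3L Y = p3 Y := rfl

theorem Th_smul (Y Z : E8 A) (c : A) (u : Vec A) : Th Y Z (c • u) = c * Th Y Z u := by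
  simp only [Th, om_smul_right]
  ring

theorem Th_add (Y Z : E8 A) (u u' : Vec A) : Th Y Z (u + u') = Th Y Z u + Th Y Z u' := by
  simp only [Th, om_add_right]
  ring

theorem Th_add_fst (Y Y' Z : E8 A) (u : Vec A) : Th (Y + Y') Z u = Th Y Z u + Th Y' Z u := by
  simp only [Th, p3_add', om_add_left, om_add_fst]
  ring

theorem Th_smul_fst (c : A) (Y Z : E8 A) (u : Vec A) : Th (c • Y) Z u = c * Th Y Z u := by
  simp only [Th, p3_smul', om_smul_left, om_smul_fst]
  ring

theorem Th_add_snd (Y Z Z' : E8 A) (u : Vec A) : Th Y (Z + Z') u = Th Y Z u + Th Y Z' u := by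
  simp only [Th, p3_add', om_add_left, om_add_fst]
  ring

theorem Th_smul_snd (c : A) (Y Z : E8 A) (u : Vec A) : Th Y (c • Z) u = c * Th Y Z u := by
  simp only [Th, p3_smul', om_smul_left, om_smul_fst]
  ring

theorem tri_add_left (x x' y z : Vec A) : tri (x + x') y z = tri x y z + tri x' y z := by
  simp only [tri, Pi.add_apply, ← Finset.sum_add_distrib, ← add_smul]
  exact Finset.sum_congr rfl fun i _ => Finset.sum_congr rfl fun j _ =>
    Finset.sum_congr rfl fun k _ => by ring_nf

theorem tri_smul_left (c : A) (x y z : Vec A) : tri (c • x) y z = c • tri x y z := by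
  simp only [tri, Pi.smul_apply, smul_eq_mul, Finset.smul_sum, smul_smul]
  exact Finset.sum_congr rfl fun i _ => Finset.sum_congr rfl fun j _ =>
    Finset.sum_congr rfl fun k _ => by ring_nf

theorem nuOf_add_right (k : E8 A →ₗ[A] E8 A) (x y z u u' : Vec A) :
    nuOf k x y z (u + u') = nuOf k x y z u + nuOf k x y z u' := by
  simp only [nuOf, Th_add]
  ring

theorem nuOf_smul_right (k : E8 A →ₗ[A] E8 A) (x y z : Vec A) (c : A) (u : Vec A) :
    nuOf k x y z (c • u) = c * nuOf k x y z u := by
  simp only [nuOf, Th_smul]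
  ring

theorem nuOf_add_left (k : E8 A →ₗ[A] E8 A) (x x' y z u : Vec A) :
    nuOf k (x + x') y z u = nuOf k x y z u + nuOf k x' y z u := by
  simp only [nuOf, tri_add_left, br_add_left, Th_add_fst, Th_add_snd]
  ring

theorem nuOf_smul_left (k : E8 A →ₗ[A] E8 A) (c : A) (x y z u : Vec A) :
    nuOf k (c • x) y z u = c * nuOf k x y z u := by
  simp only [nuOf, tri_smul_left, br_smul_left, Th_smul_fst, Th_smul_snd]
  ring

theorem nuOf_zero_right (k : E8 A →ₗ[A] E8 A) (x y z : Vec A) : nuOf k x y z 0 = 0 := by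
  have := nuOf_smul_right k x y z 0 0
  rwa [zero_smul, zero_mul] at this

theorem nuOf_swap_left (k : E8 A →ₗ[A] E8 A) (x y z u : Vec A) :
    nuOf k x y z u = - nuOf k y x z u := by
  simp only [nuOf, tri_swap_left x y z, br_neg_left]
  rw [← neg_one_smul A (br (tri y x z) (k (eb (ix 1)))), ← neg_one_smul A (br (tri y x z)
    (k (eb (ix 8)))), Th_smul_fst, Th_smul_snd]
  ring

theorem nuOf_swap_right (k : E8 A →ₗ[A] E8 A) (x y z u : Vec A) :
    nuOf k x y z u = - nuOf k x z y u := by
  simp only [nuOf, tri_swap_right x y z, br_neg_left]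
  rw [← neg_one_smul A (br (tri x z y) (k (eb (ix 1)))), ← neg_one_smul A (br (tri x z y)
    (k (eb (ix 8)))), Th_smul_fst, Th_smul_snd]
  ring

end lin

theorem nuOf_swap_out (k : E8 K →ₗ[K] E8 K) (x y z u : Vec K) :
    nuOf k x y z u = - nuOf k u y z x := by
  have h := nuOf_self k (x + u) y z
  rw [nuOf_add_left, nuOf_add_right, nuOf_add_right, nuOf_self, nuOf_self, zero_add, add_zero] at h
  exact eq_neg_of_add_eq_zero_left h

/-! ### the vectors of `x`-degree `2` -/

/-- the indices of `x`-degree `2` -/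
def jx (q : Fin 14) : Fin 248 := ix (q + 1)

set_option maxRecDepth 100000 in
theorem xdg_two : ∀ m : Fin 248, xdg m = 2 → ∃ q : Fin 14, m = jx q := by decide +kernel

set_option maxRecDepth 100000 in
theorem xdg_jx : ∀ q : Fin 14, xdg (jx q) = 2 := by decide +kernel

theorem jx_inj {q q' : Fin 14} (h : jx q = jx q') : q = q' := by
  unfold jx ix at h
  simp only [Fin.ofNat, Fin.mk.injEq] at h
  omega

/-- the space of `x`-degree `2` -/
def emb : (Fin 14 → K) →ₗ[K] E8 K where
  toFun c := ∑ q, c q • eb (jx q)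
  map_add' c c' := by simp only [Pi.add_apply, add_smul, Finset.sum_add_distrib]
  map_smul' a c := by simp only [Pi.smul_apply, smul_eq_mul, mul_smul, Finset.smul_sum,
    RingHom.id_apply]

theorem emb_apply_jx (c : Fin 14 → K) (q : Fin 14) : emb c (jx q) = c q := by
  show (∑ q', c q' • (eb (jx q') : E8 K)) (jx q) = c q
  rw [Finset.sum_apply, Finset.sum_eq_single q]
  · simp [eb_apply]
  · intro q' _ h
    rw [Pi.smul_apply, eb_apply, if_neg (fun h' => h (jx_inj h').symm), smul_zero]
  · intro h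
    exact absurd (Finset.mem_univ q) h

theorem emb_sup (c : Fin 14 → K) : Sup xdg 2 (emb c) := by
  intro m hm
  show (∑ q', c q' • (eb (jx q') : E8 K)) m = 0
  rw [Finset.sum_apply]
  refine Finset.sum_eq_zero fun q _ => ?_
  rw [Pi.smul_apply, eb_apply, if_neg, smul_zero]
  rintro rfl
  exact hm (xdg_jx q)

theorem exists_emb {g : E8 K} (hg : Sup xdg 2 g) : g = emb (fun q => g (jx q)) := by
  ext m
  by_cases h : xdg m = 2
  · obtain ⟨q, rfl⟩ := xdg_two m h
    rw [emb_apply_jx]
  · rw [hg m h, emb_sup _ m h]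

/-- partner index -/
theorem B0_nondeg (c : Fin 14 → K) (h : ∀ c', B0 (emb c) (emb c') = 0) : c = 0 := by
  have h1 : ∀ c' : Fin 14 → K, ∑ q : Fin 7, (c (Fin.castAdd 7 q) * c' (Fin.natAdd 7 q) +
      c (Fin.natAdd 7 q) * c' (Fin.castAdd 7 q)) = 0 := by
    intro c'
    have h2 := h c'
    unfold B0 at h2
    rw [neg_eq_zero] at h2
    rw [← h2]
    refine Finset.sum_congr rfl fun q _ => ?_
    have e1 : ix ((q : ℕ) + 1) = jx (Fin.castAdd 7 q) := rfl
    have e2 : ix ((q : ℕ) + 8) = jx (Fin.natAdd 7 q) := by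
      unfold jx
      congr 1
      simp only [Fin.val_natAdd]
      omega
    rw [e1, e2, emb_apply_jx, emb_apply_jx, emb_apply_jx, emb_apply_jx]
  funext m
  refine Fin.addCases (m := 7) (n := 7) (motive := fun m => c m = (0 : Fin 14 → K) m)
    (fun q => ?_) (fun q => ?_) m
  · have h2 := h1 (Pi.single (Fin.natAdd 7 q) 1)
    rw [Finset.sum_eq_single q] at h2
    · simpa [Pi.single_apply, Fin.ext_iff] using h2
    · intro q' _ hq
      have h3 : (Pi.single (Fin.natAdd 7 q) 1 : Fin 14 → K) (Fin.natAdd 7 q') = 0 := by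
        rw [Pi.single_apply, if_neg]
        intro h'
        apply hq
        ext
        have := congrArg Fin.val h'
        simpa using this
      have h4 : (Pi.single (Fin.natAdd 7 q) 1 : Fin 14 → K) (Fin.castAdd 7 q') = 0 := by
        rw [Pi.single_apply, if_neg]
        intro h'
        have := congrArg Fin.val h'
        simp only [Fin.val_castAdd, Fin.val_natAdd] at this
        omega
      rw [h3, h4]
      ring
    · intro h'
      exact absurd (Finset.mem_univ q) h'
  · have h2 := h1 (Pi.single (Fin.castAdd 7 q) 1)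
    rw [Finset.sum_eq_single q] at h2
    · have h4 : (Pi.single (Fin.castAdd 7 q) 1 : Fin 14 → K) (Fin.natAdd 7 q) = 0 := by
        rw [Pi.single_apply, if_neg]
        intro h'
        have := congrArg Fin.val h'
        simp only [Fin.val_castAdd, Fin.val_natAdd] at this
        omega
      rw [h4, mul_zero, zero_add, Pi.single_eq_same, mul_one] at h2
      simpa using h2
    · intro q' _ hq
      have h3 : (Pi.single (Fin.castAdd 7 q) 1 : Fin 14 → K) (Fin.castAdd 7 q') = 0 := by
        rw [Pi.single_apply, if_neg]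
        intro h'
        apply hq
        ext
        have := congrArg Fin.val h'
        simpa using this
      have h4 : (Pi.single (Fin.castAdd 7 q) 1 : Fin 14 → K) (Fin.natAdd 7 q') = 0 := by
        rw [Pi.single_apply, if_neg]
        intro h'
        have := congrArg Fin.val h'
        simp only [Fin.val_castAdd, Fin.val_natAdd] at this
        omega
      rw [h3, h4]
      ring
    · intro h'
      exact absurd (Finset.mem_univ q) h'

end St2

open St2

/-- `im d = ker f` -/
theorem range_d {k : E8 K →ₗ[K] E8 K} (hk : IsAut k) {f : Vec K →ₗ[K] K} (hf : FormOf k f)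
    (hf0 : f ≠ 0) (v : Vec K) (hv : f v = 0) : ∃ g : E8 K, Sup xdg 2 g ∧ p3 (k g) = v := by
  obtain ⟨e, he⟩ : ∃ e, f e = 1 := by
    obtain ⟨e0, he0⟩ : ∃ e0, f e0 ≠ 0 := by
      by_contra hc
      push Not at hc
      exact hf0 (LinearMap.ext hc)
    exact ⟨(f e0)⁻¹ • e0, by rw [map_smul, smul_eq_mul, inv_mul_cancel₀ he0]⟩
  -- the map `d`
  let d : (Fin 14 → K) →ₗ[K] Vec K := p3L ∘ₗ k ∘ₗ emb
  have hd : ∀ c, d c = p3 (k (emb c)) := fun c => rfl
  have hfd : ∀ c, f (d c) = 0 := fun c => hf.comp (emb_sup c)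
  -- the map `l` on the kernel
  let l : (Fin 14 → K) →ₗ[K] (Vec K →ₗ[K] K) :=
    { toFun := fun c =>
        { toFun := fun y => om (k (emb c)) e y
          map_add' := fun y y' => om_add_right _ _ _ _
          map_smul' := fun a y => om_smul_right _ _ _ _ }
      map_add' := fun c c' => by
        ext y
        simp only [map_add, LinearMap.comp_apply, LinearMap.coe_mk, AddHom.coe_mk,
          LinearMap.add_apply, om_add_fst]
      map_smul' := fun a c => by
        ext y
        simp only [map_smul, LinearMap.comp_apply, LinearMap.coe_mk, AddHom.coe_mk,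
          LinearMap.smul_apply, om_smul_fst, RingHom.id_apply, smul_eq_mul] }
  have hl : ∀ c y, l c y = om (k (emb c)) e y := fun c y => rfl
  have hker : ∀ c, d c = 0 → l c = 0 → c = 0 := by
    intro c hc hlc
    apply B0_nondeg c
    intro c'
    have h1 := hf (emb c) (emb c') (emb_sup c) (emb_sup c') e
    rw [he, mul_one] at h1
    rw [← h1]
    unfold Th
    rw [← hd c, hc]
    have h2 := nuOf_d hk hf (emb_sup c) e (d c') e
    rw [← hd c, hc, nuOf_zero_right, he, hfd] at h2
    have h3 := LinearMap.congr_fun hlc (d c')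
    rw [hl, LinearMap.zero_apply] at h3
    have h4 : om (k (emb c)) (d c') e = 0 := by rw [om_swap, h3, neg_zero]
    rw [← hd c', h4, add_zero]
    have := om_smul_left (k (emb c')) 0 0 e
    rwa [zero_smul, zero_mul] at this
  have hle : ∀ c, l c e = 0 := fun c => by rw [hl, om_self]
  -- dimension count
  have h14 : Module.finrank K (LinearMap.range d) + Module.finrank K (LinearMap.ker d) = 14 := by
    rw [LinearMap.finrank_range_add_finrank_ker, Module.finrank_fin_fun]
  have hK : Module.finrank K (LinearMap.ker d) ≤ 7 := by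
    -- inject the kernel into the functionals killing `e`
    let ev : (Vec K →ₗ[K] K) →ₗ[K] K := LinearMap.applyₗ e
    have hev : Module.finrank K (LinearMap.ker ev) = 7 := by
      have h1 := LinearMap.finrank_range_add_finrank_ker ev
      have h2 : LinearMap.range ev = ⊤ := by
        rw [LinearMap.range_eq_top]
        intro a
        refine ⟨a • f, ?_⟩
        show (a • f) e = a
        rw [LinearMap.smul_apply, he, smul_eq_mul, mul_one]
      rw [h2, finrank_top, Module.finrank_self] at h1
      have h3 : Module.finrank K (Vec K →ₗ[K] K) = 8 := by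
        have := Subspace.dual_finrank_eq (K := K) (V := Vec K)
        rw [Module.finrank_fin_fun] at this
        exact this
      omega
    let j : LinearMap.ker d →ₗ[K] LinearMap.ker ev :=
      (l ∘ₗ (LinearMap.ker d).subtype).codRestrict (LinearMap.ker ev) (fun c => hle c)
    have hj : Function.Injective j := by
      rw [injective_iff_map_eq_zero]
      intro c hc
      have h1 : l c = 0 := congrArg Subtype.val hc
      exact Subtype.ext (hker c c.2 h1)
    rw [← hev]
    exact LinearMap.finrank_le_finrank_of_injective hj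
  have hkf : Module.finrank K (LinearMap.ker f) = 7 := by
    have h1 := LinearMap.finrank_range_add_finrank_ker f
    have h2 : LinearMap.range f = ⊤ := by
      rw [LinearMap.range_eq_top]
      intro a
      exact ⟨a • e, by rw [map_smul, he, smul_eq_mul, mul_one]⟩
    rw [h2, finrank_top, Module.finrank_self, Module.finrank_fin_fun] at h1
    omega
  have hle2 : LinearMap.range d ≤ LinearMap.ker f := by
    rintro _ ⟨c, rfl⟩
    exact hfd c
  have heq : LinearMap.range d = LinearMap.ker f := by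
    apply Submodule.eq_of_le_of_finrank_le hle2
    omega
  have hv' : v ∈ LinearMap.range d := by rw [heq]; exact hv
  obtain ⟨c, hc⟩ := hv'
  exact ⟨emb c, emb_sup c, hc⟩

/-- `f ∧ ν = 0` -/
theorem nuOf_cyc {k : E8 K →ₗ[K] E8 K} (hk : IsAut k) {f : Vec K →ₗ[K] K} (hf : FormOf k f)
    (hf0 : f ≠ 0) (a0 a1 a2 a3 u : Vec K) :
    f u * nuOf k a0 a1 a2 a3 = f a0 * nuOf k u a1 a2 a3 + f a1 * nuOf k a0 u a2 a3 +
      f a2 * nuOf k a0 a1 u a3 + f a3 * nuOf k a0 a1 a2 u := by
  obtain ⟨e, he⟩ : ∃ e, f e = 1 := by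
    obtain ⟨e0, he0⟩ : ∃ e0, f e0 ≠ 0 := by
      by_contra hc
      push Not at hc
      exact hf0 (LinearMap.ext hc)
    exact ⟨(f e0)⁻¹ • e0, by rw [map_smul, smul_eq_mul, inv_mul_cancel₀ he0]⟩
  -- `ν (v, x, y, z) = (f ∧ ω) (x, y, z)` for `v ∈ ker f`
  have hv : ∀ v, f v = 0 → ∃ w : Vec K → Vec K → K, (∀ x y, w x y = - w y x) ∧
      ∀ x y z, nuOf k v x y z = f x * w y z - f y * w x z + f z * w x y := by
    intro v hfv
    obtain ⟨g, hg, rfl⟩ := range_d hk hf hf0 v hfv
    refine ⟨fun x y => om (k g) x y, fun x y => om_swap _ _ _, fun x y z => ?_⟩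
    have h1 := nuOf_d hk hf hg z x y
    rw [nuOf_swap_out, h1, om_swap (k g) z y, om_swap (k g) z x]
    ring
  have hcyc0 : ∀ v a1 a2 a3 u, f v = 0 →
      f u * nuOf k v a1 a2 a3 = f v * nuOf k u a1 a2 a3 + f a1 * nuOf k v u a2 a3 +
      f a2 * nuOf k v a1 u a3 + f a3 * nuOf k v a1 a2 u := by
    intro v a1 a2 a3 u hfv
    obtain ⟨w, hw, h⟩ := hv v hfv
    rw [h, h, h, h, hfv, hw a2 u]
    ring
  have hcyc1 : ∀ a0 v a2 a3 u, f v = 0 →
      f u * nuOf k a0 v a2 a3 = f a0 * nuOf k u v a2 a3 + f v * nuOf k a0 u a2 a3 +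
      f a2 * nuOf k a0 v u a3 + f a3 * nuOf k a0 v a2 u := by
    intro a0 v a2 a3 u hfv
    have h := hcyc0 v a0 a2 a3 u hfv
    rw [nuOf_swap_left k a0 v a2 a3, nuOf_swap_left k u v a2 a3, nuOf_swap_left k a0 v u a3,
      nuOf_swap_left k a0 v a2 u, hfv]
    rw [hfv] at h
    linear_combination -h
  have hee : ∀ a b c, nuOf k a a b c = 0 := by
    intro a b c
    have h1 := nuOf_swap_left k a a b c
    have h2 : (2 : K) * nuOf k a a b c = 0 := by linear_combination h1
    have h3 : (2 : K) ≠ 0 := by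
      have h4 : (algebraMap ℚ K) 2 ≠ 0 := by
        rw [map_ne_zero]
        norm_num
      simpa using h4
    exact (mul_eq_zero.1 h2).resolve_left h3
  -- reduction to the kernel
  have hdec : ∀ a : Vec K, ∃ v, f v = 0 ∧ a = v + f a • e := by
    intro a
    refine ⟨a - f a • e, ?_, by rw [sub_add_cancel]⟩
    rw [map_sub, map_smul, he, smul_eq_mul, mul_one, sub_self]
  obtain ⟨v0, hv0, h0⟩ := hdec a0
  obtain ⟨v1, hv1, h1⟩ := hdec a1
  have key0 := hcyc0 v0 a1 a2 a3 u hv0
  have key1 := hcyc1 e v1 a2 a3 u hv1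
  have hadd : ∀ x x' y z t, nuOf k y (x + x') z t = nuOf k y x z t + nuOf k y x' z t := by
    intro x x' y z t
    rw [nuOf_swap_left k y (x + x'), nuOf_add_left, nuOf_swap_left k y x, nuOf_swap_left k y x']
    ring
  have hsm : ∀ c x y z t, nuOf k y (c • x) z t = c * nuOf k y x z t := by
    intro c x y z t
    rw [nuOf_swap_left k y (c • x), nuOf_smul_left, nuOf_swap_left k y x]
    ring
  have key1' : f u * nuOf k e a1 a2 a3 = f e * nuOf k u a1 a2 a3 + f a1 * nuOf k e u a2 a3 +
      f a2 * nuOf k e a1 u a3 + f a3 * nuOf k e a1 a2 u := by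
    have e1 : ∀ y z t, nuOf k y a1 z t = nuOf k y v1 z t + f a1 * nuOf k y e z t := by
      intro y z t
      conv_lhs => rw [h1]
      rw [hadd, hsm]
    rw [e1 e a2 a3, e1 u a2 a3, e1 e u a3, e1 e a2 u, hee, hee, hee, nuOf_swap_left k u e a2 a3, he]
    rw [hv1, he] at key1
    linear_combination key1
  have e0 : ∀ y z t, nuOf k a0 y z t = nuOf k v0 y z t + f a0 * nuOf k e y z t := by
    intro y z t
    conv_lhs => rw [h0]
    rw [nuOf_add_left, nuOf_smul_left]
  rw [e0 a1 a2 a3, e0 u a2 a3, e0 a1 u a3, e0 a1 a2 u]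
  rw [he, one_mul] at key1'
  rw [hv0, zero_mul, zero_add] at key0
  linear_combination key0 + f a0 * key1'

namespace St2

theorem br_tri_om (x y z : Vec K) (Y : E8 K) (u : Vec K) :
    om (br (tri x y z) Y) x u = 0 ∧ om (br (tri x y z) Y) y u = 0 ∧
      om (br (tri x y z) Y) z u = 0 := by
  refine ⟨om_tri x y z Y u, ?_, ?_⟩
  · rw [tri_swap_left, br_neg_left, ← neg_one_smul K (br (tri y x z) Y), om_smul_fst, om_tri,
      mul_zero]
  · rw [tri_swap_right, br_neg_left, ← neg_one_smul K (br (tri x z y) Y), om_smul_fst,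
      tri_swap_left, br_neg_left, ← neg_one_smul K (br (tri z x y) Y), om_smul_fst, om_tri,
      mul_zero, mul_zero]

theorem p3_br_br (x y z : Vec K) (Y : E8 K) : p3 (br (tri x y z) (br (tri x y z) Y)) = 0 := by
  rw [p3_tri]
  obtain ⟨h1, h2, h3⟩ := br_tri_om x y z Y z
  obtain ⟨h4, h5, h6⟩ := br_tri_om x y z Y y
  rw [h2, h1, h4, zero_smul, zero_smul, zero_smul]
  simp

theorem p3_pow (x y z : Vec K) (Y : E8 K) (n : ℕ) :
    p3 (((brL (tri x y z)) ^ (n + 2)) Y) = 0 := by
  have h : ((brL (tri x y z)) ^ (n + 2)) Y =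
      br (tri x y z) (br (tri x y z) (((brL (tri x y z)) ^ n) Y)) := by
    rw [pow_succ', pow_succ']
    rfl
  rw [h, p3_br_br]

theorem om_pow (x y z : Vec K) (Y u : _) (n : ℕ) :
    om (((brL (tri x y z)) ^ (n + 1)) Y) u x = 0 := by
  have h : ((brL (tri x y z)) ^ (n + 1)) Y =
      br (tri x y z) (((brL (tri x y z)) ^ n) Y) := by
    rw [pow_succ']
    rfl
  rw [h, om_swap, om_tri, neg_zero]

theorem p3_ex_tri (x y z : Vec K) (Y : E8 K) :
    p3 (ex (tri x y z) Y) = p3 Y + p3 (br (tri x y z) Y) := by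
  rw [ex_apply, ← p3L_apply, map_sum, Finset.sum_range_succ', Finset.sum_range_succ']
  have h1 : ∀ n ∈ Finset.range 5, p3L (algebraMap ℚ K ((((n + 1 + 1).factorial : ℕ) : ℚ)⁻¹) •
      ((brL (tri x y z)) ^ (n + 1 + 1)) Y) = 0 := by
    intro n _
    rw [map_smul, p3L_apply, p3_pow, smul_zero]
  rw [Finset.sum_eq_zero h1, zero_add]
  simp only [zero_add, Nat.factorial_one, Nat.factorial_zero, Nat.cast_one, inv_one, map_one,
    one_smul, pow_one, pow_zero, brL_apply, p3L_apply, Module.End.one_apply]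
  rw [add_comm]

theorem om_ex_tri (x y z : Vec K) (Y : E8 K) (u : Vec K) :
    om (ex (tri x y z) Y) u x = om Y u x := by
  rw [ex_apply, ← omL_apply, map_sum, Finset.sum_range_succ']
  have h1 : ∀ n ∈ Finset.range 6, omL u x (algebraMap ℚ K ((((n + 1).factorial : ℕ) : ℚ)⁻¹) •
      ((brL (tri x y z)) ^ (n + 1)) Y) = 0 := by
    intro n _
    rw [map_smul, omL_apply, om_pow, smul_zero]
  rw [Finset.sum_eq_zero h1, zero_add]
  simp only [Nat.factorial_zero, Nat.cast_one, inv_one, map_one, one_smul, pow_zero,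
    Module.End.one_apply, omL_apply]

theorem tri_nil (x y z : Vec K) : (brL (tri x y z)) ^ 7 = 0 := by
  apply ad_nil_pos
  intro m hm
  exact tri_sup x y z m (by omega)

theorem form_eq {k : E8 K →ₗ[K] E8 K} {f : Vec K →ₗ[K] K} (hf : FormOf k f) (u : Vec K) :
    f u = - Th (k (eb (ix 1))) (k (eb (ix 8))) u := by
  have h1 : Sup xdg 2 (eb (ix 1) : E8 K) := by
    intro m hm
    rw [eb_apply, if_neg]
    rintro rfl
    exact hm (xdg_jx 0)
  have h8 : Sup xdg 2 (eb (ix 8) : E8 K) := by
    intro m hm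
    rw [eb_apply, if_neg]
    rintro rfl
    exact hm (xdg_jx 7)
  rw [hf _ _ h1 h8]
  have hB : B0 (eb (ix 1) : E8 K) (eb (ix 8)) = -1 := by
    unfold B0
    congr 1
    rw [Finset.sum_eq_single 0]
    · simp [eb_apply, ix, Fin.ext_iff]
    · intro q _ hq
      have hq' : (q : ℕ) ≠ 0 := fun h => hq (Fin.ext h)
      have hq2 : (q : ℕ) < 7 := q.2
      have e1 : (eb (ix 1) : E8 K) (ix ((q : ℕ) + 1)) = 0 := by
        rw [eb_apply, if_neg]
        intro h
        have := congrArg Fin.val h
        simp only [ix, Fin.ofNat] at this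
        omega
      have e2 : (eb (ix 1) : E8 K) (ix ((q : ℕ) + 8)) = 0 := by
        rw [eb_apply, if_neg]
        intro h
        have := congrArg Fin.val h
        simp only [ix, Fin.ofNat] at this
        omega
      rw [e1, e2]
      ring
    · intro h
      exact absurd (Finset.mem_univ _) h
  rw [hB]
  ring

end St2

/-- the move -/
theorem FormOf.move {k : E8 K →ₗ[K] E8 K} (hk : IsAut k) {f : Vec K →ₗ[K] K} (hf : FormOf k f)
    (x y z : Vec K) (hx : f x ≠ 0) {f' : Vec K →ₗ[K] K} (hf' : FormOf (ex (tri x y z) ∘ₗ k) f')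
    (u : Vec K) : f' u = f u + nuOf k x y z u := by
  have haut : IsAut (ex (tri x y z) ∘ₗ k) := by
    have h1 := ex_isAut (tri_nil x y z)
    exact ⟨h1.bij.comp hk.bij, fun a b => by
      rw [LinearMap.comp_apply, hk.map_br, h1.map_br]; rfl⟩
  have hfx : f' x = f x := by
    rw [form_eq hf', form_eq hf]
    have h0 := nuOf_self k x y z
    unfold nuOf at h0
    rw [neg_eq_zero] at h0
    simp only [LinearMap.comp_apply]
    unfold Th at h0 ⊢
    simp only [om_ex_tri, p3_ex_tri, om_add_left]
    have h2 : ∀ Y v, om (br (tri x y z) Y) v x = 0 := by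
      intro Y v
      rw [om_swap, om_tri, neg_zero]
    rw [h2, h2] at h0
    linear_combination -h0
  have hf'0 : f' ≠ 0 := by
    intro h
    rw [h, LinearMap.zero_apply] at hfx
    exact hx hfx.symm
  -- `φ = f + ν (x, y, z, ·)`
  let φ : Vec K →ₗ[K] K :=
    { toFun := fun u => f u + nuOf k x y z u
      map_add' := fun u u' => by rw [map_add, nuOf_add_right]; ring
      map_smul' := fun c u => by
        rw [map_smul, nuOf_smul_right, smul_eq_mul, RingHom.id_apply, smul_eq_mul]; ring }
  have hφ : ∀ u, φ u = f u + nuOf k x y z u := fun _ => rfl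
  have hνx : nuOf k x y z x = 0 := nuOf_self k x y z
  have hνy : nuOf k x y z y = 0 := by
    rw [nuOf_swap_left, nuOf_self, neg_zero]
  have hνz : nuOf k x y z z = 0 := by
    rw [nuOf_swap_right, nuOf_swap_left, nuOf_self, neg_zero, neg_zero]
  have hker : ∀ v, f' v = 0 → φ v = 0 := by
    intro v hv
    obtain ⟨g, hg, rfl⟩ := range_d haut hf' hf'0 v hv
    rw [LinearMap.comp_apply, p3_ex_tri, hφ, map_add, nuOf_add_right, hf.comp hg, p3_tri]
    have h1 := nuOf_d hk hf hg x y z
    have h2 : ∀ a b c : K, nuOf k x y z (a • x - b • y + c • z) = 0 := by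
      intro a b c
      rw [sub_eq_add_neg, ← neg_smul, nuOf_add_right, nuOf_add_right, nuOf_smul_right,
        nuOf_smul_right, nuOf_smul_right, hνx, hνy, hνz]
      ring
    rw [h2, h1, map_add, map_sub, map_smul, map_smul, map_smul]
    simp only [smul_eq_mul]
    ring
  have h3 : φ (f' x • u - f' u • x) = 0 := by
    apply hker
    rw [map_sub, map_smul, map_smul, smul_eq_mul, smul_eq_mul]
    ring
  rw [map_sub, map_smul, map_smul, hφ u, hφ x, hνx, add_zero, hfx] at h3
  simp only [smul_eq_mul] at h3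
  have h4 : f x * (f u + nuOf k x y z u - f' u) = 0 := by linear_combination h3
  have h5 := (mul_eq_zero.1 h4).resolve_left hx
  linear_combination -h5

end L8

end Pool.Agent.Licci
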