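import Pool.Agent.Work.MP_a98e4e_ag.L.Dat
import Pool.Agent.Work.MP_a98e4e_ag.L.FormA1
import Pool.Agent.Work.MP_a98e4e_ag.U.Tab6a

/-!
# L11a: the torus element, the `x`-degree in degrees `≥ 2`, exponentials of degree zero
-/

namespace Pool.Agent.Licci

open scoped BigOperators
open U (Sup)

namespace Tor

theorem wt_add (q : Fin 8) {i j l : ℕ} (hi : i < 248) (hj : j < 248) (hl : l < 248)
    (h : cd i + cd j = cd l + off) : wtN i q + wtN j q = wtN l q := by
  have e := digits_add _ _ _ _ _ _ _ _ _ _ _ _ _ _ _ _ _ _ _ _ _ _ _ _ (xdC_spec hi).bd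
    (xdC_spec hj).bd (xdC_spec hl).bd
    (by rw [← (xdC_spec hi).hc, ← (xdC_spec hj).hc, ← (xdC_spec hl).hc]; exact h)
  have key : ∀ a b c : ℕ, a + b = c + 2 → ((a : ℤ) - 2) + ((b : ℤ) - 2) = (c : ℤ) - 2 := by
    intro a b c h
    omega
  obtain ⟨e0, e1, e2, e3, e4, e5, e6, e7⟩ := e
  fin_cases q
  · exact key _ _ _ e0
  · exact key _ _ _ e1
  · exact key _ _ _ e2
  · exact key _ _ _ e3
  · exact key _ _ _ e4
  · exact key _ _ _ e5
  · exact key _ _ _ e6
  · exact key _ _ _ e7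

theorem zd_add {i j l : ℕ} (hi : i < 248) (hj : j < 248) (hl : l < 248)
    (h : cd i + cd j = cd l + off) : zdN i + zdN j = zdN l := by
  have h1 := xdN_add hi hj hl h
  have h2 := wt_add 0 hi hj hl h
  simp only [xdN] at h1
  change wtN i 0 + wtN j 0 = wtN l 0 at h2
  linarith

theorem sc_wt (q : Fin 8) {i j k : Fin 248} (h : sc i j k ≠ 0) :
    wtg q i + wtg q j = wtg q k :=
  wt_add q i.2 j.2 k.2 (scN_wt i.2 j.2 h)

theorem sc_zd {i j k : Fin 248} (h : sc i j k ≠ 0) : zdg i + zdg j = zdg k :=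
  zd_add i.2 j.2 k.2 (scN_wt i.2 j.2 h)

end Tor

section L11a

variable {A : Type*} [CommRing A]

theorem tor_apply (q : Fin 8) (u : Aˣ) (Y : E8 A) (m : Fin 248) :
    tor q u Y m = ((u ^ (wtg q m) : Aˣ) : A) * Y m := rfl

theorem tor_inv (q : Fin 8) (u : Aˣ) (Y : E8 A) : tor q u⁻¹ (tor q u Y) = Y := by
  funext m
  rw [tor_apply, tor_apply, ← mul_assoc, ← Units.val_mul, inv_zpow, inv_mul_cancel, Units.val_one,
    one_mul]

theorem tor_isAut (q : Fin 8) (u : Aˣ) : IsAut (tor q u) := by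
  refine ⟨⟨?_, ?_⟩, ?_⟩
  · intro Y Z h
    rw [← tor_inv q u Y, h, tor_inv]
  · intro Y
    refine ⟨tor q u⁻¹ Y, ?_⟩
    have := tor_inv q u⁻¹ Y
    rwa [inv_inv] at this
  · intro x y
    funext m
    rw [tor_apply, br_apply, br_apply, Finset.mul_sum]
    refine Finset.sum_congr rfl fun i _ => ?_
    rw [Finset.mul_sum]
    refine Finset.sum_congr rfl fun j _ => ?_
    rw [tor_apply, tor_apply]
    by_cases hs : sc i j m = 0
    · rw [hs, Int.cast_zero, zero_mul, zero_mul, mul_zero]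
    · rw [← Tor.sc_wt q hs, zpow_add, Units.val_mul]
      ring

theorem tor_sup (q : Fin 8) (u : Aˣ) {Y : E8 A} {k : ℤ} (h : Sup xdg k Y) :
    Sup xdg k (tor q u Y) := by
  intro m hm
  rw [tor_apply, h m hm, mul_zero]

theorem wtg_B0 : ∀ q : Fin 7, wtg 0 (ix ((q : ℕ) + 1)) = 1 ∧ wtg 0 (ix ((q : ℕ) + 8)) = 0 := by
  decide +kernel

theorem tor_B0 (u : Aˣ) {g h : E8 A} : B0 (tor 0 u g) (tor 0 u h) = (u : A) * B0 g h := by
  rw [B0, B0, mul_neg, Finset.mul_sum]
  congr 1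
  refine Finset.sum_congr rfl fun q _ => ?_
  rw [tor_apply, tor_apply, tor_apply, tor_apply, (wtg_B0 q).1, (wtg_B0 q).2, zpow_one, zpow_zero,
    Units.val_one]
  ring

theorem tor_mem {R : Type*} [CommRing R] [Algebra R A] (S : Subalgebra R A) (q : Fin 8) (u : Aˣ)
    (h1 : (u : A) ∈ S) (h2 : ((u⁻¹ : Aˣ) : A) ∈ S) {Y : E8 A} (hY : ∀ m, Y m ∈ S) (m : Fin 248) :
    tor q u Y m ∈ S := by
  rw [tor_apply]
  refine S.mul_mem ?_ (hY m)
  obtain ⟨n, hn | hn⟩ := Int.eq_nat_or_neg (wtg q m)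
  · rw [hn, zpow_natCast, Units.val_pow_eq_pow_val]
    exact S.pow_mem h1 n
  · rw [hn, zpow_neg, zpow_natCast, ← inv_pow, Units.val_pow_eq_pow_val]
    exact S.pow_mem h2 n

theorem xdg_ix : ∀ a : Fin 8, a ≠ 0 → xdg (ix a) = 2 := by
  decide +kernel

set_option maxRecDepth 100000 in
theorem xdg_i2 : ∀ j : Fin 8, 0 < j → xdg (i2 0 j) = 2 := by
  decide +kernel

/-- `x`-degree `2` is `v_0 = 0`, `e^0 ∧ w = 0` in degrees `≥ 2` -/
theorem sup_xdg_two {Y : E8 A} (h : ∀ m, zdg m < 2 → Y m = 0) (h0 : p3 Y 0 = 0)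
    (hw : ∀ i j : Fin 8, i ≠ 0 → j ≠ 0 → w2 Y i j = 0) : Sup xdg 2 Y := by
  intro m hm
  rcases lt_or_ge (m : ℕ) 36 with h36 | h36
  · rcases lt_or_ge (m : ℕ) 8 with h8 | h8
    · have e : m = ix ((⟨m, h8⟩ : Fin 8) : ℕ) := by
        apply Fin.ext
        rw [ix_val (show (m : ℕ) < 248 from m.2)]
      by_cases hz : (⟨m, h8⟩ : Fin 8) = 0
      · have h0' : Y (ix ((0 : Fin 8) : ℕ)) = 0 := h0
        rw [e, hz]
        exact h0'
      · exact absurd (by rw [e]; exact xdg_ix _ hz) hm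
    · obtain ⟨i, j, hij, he⟩ := i2_surj m h8 h36
      by_cases hi : i = 0
      · subst hi
        exact absurd (by rw [← he]; exact xdg_i2 j hij) hm
      · have hj : j ≠ 0 := by
          intro hj
          rw [hj] at hij
          exact absurd hij (Fin.not_lt_zero i)
        have h1 := hw i j hi hj
        rw [w2, ep2_of_lt hij, Int.cast_one, one_mul, he] at h1
        exact h1
  · exact h m (zdg_big m h36)

variable [Algebra ℚ A]

theorem br_sup_zdg {x : E8 A} (hx : Sup zdg 0 x) {k : ℤ} {Y : E8 A} (hY : Sup zdg k Y) :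
    Sup zdg k (br x Y) := by
  intro m hm
  rw [br_apply]
  refine Finset.sum_eq_zero fun i _ => Finset.sum_eq_zero fun j _ => ?_
  by_cases hs : sc i j m = 0
  · rw [hs, Int.cast_zero, zero_mul]
  · by_cases hi : zdg i = 0
    · by_cases hj : zdg j = k
      · exact absurd (by rw [← Tor.sc_zd hs, hi, hj, zero_add]) hm
      · rw [hY j hj, mul_zero, mul_zero]
    · rw [hx i hi, zero_mul, mul_zero]

/-- exponentials of degree `0` keep the degree -/
theorem ex_sup_zdg {x : E8 A} (hx : Sup zdg 0 x) {k : ℤ} {Y : E8 A} (hY : Sup zdg k Y) :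
    Sup zdg k (ex x Y) := by
  have hp : ∀ n : ℕ, Sup zdg k (((brL x) ^ n) Y) := by
    intro n
    induction n with
    | zero => simpa using hY
    | succ n ih =>
      rw [pow_succ', Module.End.mul_apply, brL_apply]
      exact br_sup_zdg hx ih
  intro m hm
  rw [ex, LinearMap.sum_apply, Finset.sum_apply]
  refine Finset.sum_eq_zero fun n _ => ?_
  rw [LinearMap.smul_apply, Pi.smul_apply, hp n m hm, smul_zero]

end L11a

end Pool.Agent.Licci
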