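import Pool.Agent.Work.MP_a98e4e_ag.L.Dat
import Pool.Agent.Work.MP_a98e4e_ag.L.XT

/-!
# Module L11c, part A: the quadratic form of the table, and the form `f ∧ ŵ = 0`
-/

namespace Pool.Agent.Licci

open scoped BigOperators
open U (Sup)

universe u

/-- a sum over `Fin 248` of a function supported on `1..14` -/
theorem sum_fourteen {A : Type*} [AddCommMonoid A] (F : Fin 248 → A)
    (h : ∀ i : Fin 248, ¬ (1 ≤ (i : ℕ) ∧ (i : ℕ) ≤ 14) → F i = 0) :
    ∑ i, F i = ∑ q : Fin 7, F (ix (q + 1)) + ∑ q : Fin 7, F (ix (q + 8)) := by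
  have h1 : ∑ q : Fin 14, F (ix (q + 1)) = ∑ q : Fin 7, F (ix (q + 1)) + ∑ q : Fin 7, F (ix (q + 8)) := by
    rw [Fin.sum_univ_add (a := 7) (b := 7) (fun q : Fin (7 + 7) => F (ix (q + 1)))]
    congr 1
  rw [← h1]
  have hinj : Function.Injective (fun q : Fin 14 => ix (q + 1)) := by
    intro a b hab
    have := congrArg Fin.val hab
    simp only [ix, Fin.val_ofNat] at this
    apply Fin.ext
    omega
  refine Eq.trans ?_ (Finset.sum_map Finset.univ ⟨_, hinj⟩ F)
  symm
  refine Finset.sum_subset (Finset.subset_univ _) fun i _ hi => h i fun hi' => hi ?_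
  rw [Finset.mem_map]
  refine ⟨⟨(i : ℕ) - 1, by omega⟩, Finset.mem_univ _, ?_⟩
  apply Fin.ext
  simp only [Function.Embedding.coeFn_mk, ix, Fin.val_ofNat]
  have := i.2
  omega

theorem qf_eq_B0 {A : Type u} [CommRing A] (x y : E8 A) : U.qf xtab.q x y = B0 x y := by
  have hin : ∀ i : Fin 248, ∑ j, ((xtab.q i j : ℤ) : A) * (x i * y j) =
      (if 1 ≤ (i : ℕ) ∧ (i : ℕ) ≤ 7 then -(x i * y (ix (i + 7))) else 0) +
      (if 8 ≤ (i : ℕ) ∧ (i : ℕ) ≤ 14 then -(x i * y (ix (i - 7))) else 0) := by
    intro i
    by_cases h1 : 1 ≤ (i : ℕ) ∧ (i : ℕ) ≤ 7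
    · rw [if_pos h1, if_neg (by omega), add_zero, Finset.sum_eq_single (ix (i + 7))]
      · have : xtab.q i (ix (i + 7)) = -1 := by
          show (if _ then _ else _) = _
          rw [if_pos]
          left
          refine ⟨h1.1, h1.2, ?_⟩
          simp only [ix, Fin.val_ofNat]
          omega
        rw [this]
        push_cast
        ring
      · intro j _ hj
        have : xtab.q i j = 0 := by
          show (if _ then _ else _) = _
          rw [if_neg]
          rintro (⟨_, _, h⟩ | ⟨_, _, h⟩)
          · apply hj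
            apply Fin.ext
            simp only [ix, Fin.val_ofNat]
            omega
          · omega
        rw [this]
        push_cast
        ring
      · simp
    · rw [if_neg h1, zero_add]
      by_cases h2 : 8 ≤ (i : ℕ) ∧ (i : ℕ) ≤ 14
      · rw [if_pos h2, Finset.sum_eq_single (ix (i - 7))]
        · have : xtab.q i (ix (i - 7)) = -1 := by
            show (if _ then _ else _) = _
            rw [if_pos]
            right
            simp only [ix, Fin.val_ofNat]
            omega
          rw [this]
          push_cast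
          ring
        · intro j _ hj
          have : xtab.q i j = 0 := by
            show (if _ then _ else _) = _
            rw [if_neg]
            rintro (⟨_, _, h⟩ | ⟨_, _, h⟩)
            · omega
            · apply hj
              apply Fin.ext
              simp only [ix, Fin.val_ofNat]
              omega
          rw [this]
          push_cast
          ring
        · simp
      · rw [if_neg h2]
        refine Finset.sum_eq_zero fun j _ => ?_
        have : xtab.q i j = 0 := by
          show (if _ then _ else _) = _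
          rw [if_neg]
          rintro (⟨_, _, h⟩ | ⟨_, _, h⟩)
          · omega
          · omega
        rw [this]
        push_cast
        ring
  have e1 : U.qf xtab.q x y = ∑ i : Fin 248,
      ((if 1 ≤ (i : ℕ) ∧ (i : ℕ) ≤ 7 then -(x i * y (ix (i + 7))) else 0) +
      (if 8 ≤ (i : ℕ) ∧ (i : ℕ) ≤ 14 then -(x i * y (ix (i - 7))) else 0)) :=
    Finset.sum_congr rfl fun i _ => hin i
  rw [e1, sum_fourteen _ (by
    intro i hi
    rw [if_neg (by omega), if_neg (by omega), add_zero]), B0, ← Finset.sum_add_distrib,
    ← Finset.sum_neg_distrib]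
  refine Finset.sum_congr rfl fun q _ => ?_
  have v1 : ((ix (q + 1) : Fin 248) : ℕ) = q + 1 := by
    simp only [ix, Fin.val_ofNat]
    omega
  have v2 : ((ix (q + 8) : Fin 248) : ℕ) = q + 8 := by
    simp only [ix, Fin.val_ofNat]
    omega
  rw [v1, v2, if_pos (by omega), if_neg (by omega), if_neg (by omega), if_pos (by omega)]
  have e2 : (q : ℕ) + 1 + 7 = q + 8 := by omega
  have e3 : (q : ℕ) + 8 - 7 = q + 1 := by omega
  rw [e2, e3]
  ring

end Pool.Agent.Licci
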