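import Pool.Agent.Work.MP_a98e4e_ag.L.UDatA
import Pool.Agent.Work.MP_a98e4e_ag.L.Grad
import Pool.Agent.Work.MP_a98e4e_ag.L.Exp
import Pool.Agent.Work.MP_a98e4e_ag.L.FormA1
import Pool.Agent.Work.MP_a98e4e_ag.L.FormA4
import Pool.Agent.Work.MP_a98e4e_ag.L.LemX
import Pool.Agent.Work.MP_a98e4e_ag.L.Tor
import Pool.Agent.Work.MP_a98e4e_ag.L.Levi

/-!
# Module L11c, part B: the standard vectors `v + (w + ι_v μ_i)` in the frame `i`
-/

namespace Pool.Agent.Licci

open scoped BigOperators
open U (Sup)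

universe u

namespace UD

section lin

variable {A : Type*} [CommRing A]

theorem p3_add (Y Z : E8 A) : p3 (Y + Z) = p3 Y + p3 Z := rfl

theorem w2_add (Y Z : E8 A) (i j : Fin 8) : w2 (Y + Z) i j = w2 Y i j + w2 Z i j := by
  simp only [w2, Pi.add_apply]
  ring

theorem om_add (Y Z : E8 A) (x y : Vec A) : om (Y + Z) x y = om Y x y + om Z x y := by
  simp only [om, w2_add, add_mul, Finset.sum_add_distrib]

theorem om_single (Y : E8 A) (i j : Fin 8) :
    om Y (Pi.single i 1) (Pi.single j 1) = w2 Y i j := by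
  rw [om, Finset.sum_eq_single i, Finset.sum_eq_single j]
  · simp
  · intro b _ hb
    simp [hb]
  · simp
  · intro b _ hb
    simp [hb]
  · simp

theorem isAut_comp {k k' : E8 A →ₗ[A] E8 A} (h : IsAut k) (h' : IsAut k') : IsAut (k ∘ₗ k') where
  bij := h.bij.comp h'.bij
  map_br x y := by rw [LinearMap.comp_apply, h'.map_br, h.map_br]; rfl

end lin

end UD

open UD

section dat

variable {R : Type u} [CommRing R] {T : Type u} [CommRing T] [Algebra R T]

/-- `ŵ = w + ι_v μ_i` -/
noncomputable def Dat.wh (D : Dat R) (T : Type u) [CommRing T] [Algebra R T] (i : Fin 8)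
    (v : Vec R) (w : Fin 8 → Fin 8 → R) (a b : Fin 8) : T :=
  algebraMap R T (w a b) + ∑ m, algebraMap R T (v m) * D.mu (T := T) i m a b

theorem Dat.sv_eq (D : Dat R) (i : Fin 8) (v : Vec R) (w : Fin 8 → Fin 8 → R) :
    D.sv T i v w = V3 (fun a => algebraMap R T (v a)) + W2 (D.wh T i v w) := rfl

theorem Dat.nu_last (D : Dat R) (i m a : Fin 8) : D.nu i m a a = 0 := by
  rw [D.nu2, D.nu1, neg_neg, D.nu3, D.nu2, neg_neg, D.nu0]

theorem Dat.mu_last (D : Dat R) (i m a : Fin 8) : D.mu (T := T) i m a a = 0 := by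
  rw [Dat.mu, D.nu_last, map_zero, mul_zero]

theorem Dat.mu_swap (D : Dat R) (i m a b : Fin 8) :
    D.mu (T := T) i m a b = - D.mu (T := T) i m b a := by
  rw [Dat.mu, Dat.mu, D.nu3, map_neg, mul_neg]

theorem Dat.mu_swap' (D : Dat R) (i m a b : Fin 8) :
    D.mu (T := T) i m a b = - D.mu (T := T) i a m b := by
  rw [Dat.mu, Dat.mu, D.nu2, map_neg, mul_neg]

theorem Dat.wh_self {D : Dat R} {v : Vec R} {w : Fin 8 → Fin 8 → R} (h : D.IsP v w) (i a : Fin 8) :
    D.wh T i v w a a = 0 := by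
  rw [Dat.wh, h.w0, map_zero, zero_add]
  exact Finset.sum_eq_zero fun m _ => by rw [D.mu_last, mul_zero]

theorem Dat.wh_swap {D : Dat R} {v : Vec R} {w : Fin 8 → Fin 8 → R} (h : D.IsP v w)
    (i a b : Fin 8) : D.wh T i v w a b = - D.wh T i v w b a := by
  rw [Dat.wh, Dat.wh, h.w1, map_neg, neg_add, ← Finset.sum_neg_distrib]
  congr 1
  exact Finset.sum_congr rfl fun m _ => by rw [D.mu_swap, mul_neg]

theorem Dat.f_mul_mu (D : Dat R) {i : Fin 8} (hi : IsUnit (algebraMap R T (D.f i)))
    (a b c : Fin 8) : algebraMap R T (D.f i) * D.mu (T := T) i a b c =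
      algebraMap R T (D.nu i a b c) := by
  rw [Dat.mu, ← mul_assoc, Ring.mul_inverse_cancel _ hi, one_mul]

/-- `ν = f ∧ μ_i` -/
theorem Dat.nu_eq (D : Dat R) {i : Fin 8} (hi : IsUnit (algebraMap R T (D.f i)))
    (m a b c : Fin 8) : algebraMap R T (D.nu m a b c) =
      algebraMap R T (D.f m) * D.mu (T := T) i a b c -
      algebraMap R T (D.f a) * D.mu (T := T) i m b c +
      algebraMap R T (D.f b) * D.mu (T := T) i m a c -
      algebraMap R T (D.f c) * D.mu (T := T) i m a b := by
  apply hi.mul_left_cancel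
  have h := congrArg (algebraMap R T) (D.cyc i m a b c)
  simp only [map_add, map_sub, map_mul, map_zero, ← D.f_mul_mu hi] at h
  linear_combination h

theorem Dat.f_v {D : Dat R} {v : Vec R} {w : Fin 8 → Fin 8 → R} (h : D.IsP v w) :
    ∑ m, algebraMap R T (D.f m) * algebraMap R T (v m) = 0 := by
  have := congrArg (algebraMap R T) h.fv
  simpa only [map_sum, map_mul, map_zero] using this

/-- `f ∧ ŵ = 0` -/
theorem Dat.wh_wedge {D : Dat R} {v : Vec R} {w : Fin 8 → Fin 8 → R} (h : D.IsP v w)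
    {i : Fin 8} (hi : IsUnit (algebraMap R T (D.f i))) (a b c : Fin 8) :
    algebraMap R T (D.f a) * D.wh T i v w b c - algebraMap R T (D.f b) * D.wh T i v w a c +
      algebraMap R T (D.f c) * D.wh T i v w a b = 0 := by
  have h1 := congrArg (algebraMap R T) (h.fw a b c)
  simp only [map_add, map_sub, map_mul, map_sum] at h1
  have h2 : ∑ m, algebraMap R T (v m) * algebraMap R T (D.nu m a b c) =
      (∑ m, algebraMap R T (D.f m) * algebraMap R T (v m)) * D.mu (T := T) i a b c -
      algebraMap R T (D.f a) * (∑ m, algebraMap R T (v m) * D.mu (T := T) i m b c) +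
      algebraMap R T (D.f b) * (∑ m, algebraMap R T (v m) * D.mu (T := T) i m a c) -
      algebraMap R T (D.f c) * (∑ m, algebraMap R T (v m) * D.mu (T := T) i m a b) := by
    rw [Finset.sum_mul, Finset.mul_sum, Finset.mul_sum, Finset.mul_sum, ← Finset.sum_sub_distrib,
      ← Finset.sum_add_distrib, ← Finset.sum_sub_distrib]
    refine Finset.sum_congr rfl fun m _ => ?_
    rw [D.nu_eq hi m a b c]
    ring
  rw [h2, Dat.f_v h, zero_mul] at h1
  simp only [Dat.wh]
  linear_combination h1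

/-- `ŵ` vanishes on `ker f` -/
theorem Dat.wh_ker {D : Dat R} {v : Vec R} {w : Fin 8 → Fin 8 → R} (h : D.IsP v w)
    {i : Fin 8} (hi : IsUnit (algebraMap R T (D.f i))) (x y : Vec T)
    (hx : ∑ m, algebraMap R T (D.f m) * x m = 0) (hy : ∑ m, algebraMap R T (D.f m) * y m = 0) :
    ∑ a, ∑ b, D.wh T i v w a b * (x a * y b) = 0 := by
  apply (hi.mul_right_eq_zero).1
  have e : ∀ a b, algebraMap R T (D.f i) * D.wh T i v w a b =
      algebraMap R T (D.f a) * D.wh T i v w i b - algebraMap R T (D.f b) * D.wh T i v w i a := by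
    intro a b
    have := Dat.wh_wedge (T := T) h hi i a b
    linear_combination this
  have h1 : algebraMap R T (D.f i) * ∑ a, ∑ b, D.wh T i v w a b * (x a * y b) =
      (∑ a, algebraMap R T (D.f a) * x a) * (∑ b, D.wh T i v w i b * y b) -
      (∑ b, algebraMap R T (D.f b) * y b) * (∑ a, D.wh T i v w i a * x a) := by
    rw [Finset.mul_sum, Finset.sum_mul_sum, Finset.sum_mul_sum]
    rw [Finset.sum_comm (f := fun b a => algebraMap R T (D.f b) * y b * (D.wh T i v w i a * x a)),
      ← Finset.sum_sub_distrib]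
    refine Finset.sum_congr rfl fun a _ => ?_
    rw [Finset.mul_sum, ← Finset.sum_sub_distrib]
    refine Finset.sum_congr rfl fun b _ => ?_
    have := e a b
    linear_combination (x a * y b) * this
  rw [h1, hx, hy, zero_mul, zero_mul, sub_zero]

theorem Dat.p3_sv (D : Dat R) (i : Fin 8) (v : Vec R) (w : Fin 8 → Fin 8 → R) :
    p3 (D.sv T i v w) = fun a => algebraMap R T (v a) := by
  rw [Dat.sv_eq, p3_add, p3_V3, p3_W2, add_zero]

theorem Dat.om_sv {D : Dat R} {v : Vec R} {w : Fin 8 → Fin 8 → R} (h : D.IsP v w) (i : Fin 8)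
    (x y : Vec T) : om (D.sv T i v w) x y = ∑ a, ∑ b, D.wh T i v w a b * (x a * y b) := by
  rw [Dat.sv_eq, om_add, om_V3, zero_add, om]
  refine Finset.sum_congr rfl fun a _ => Finset.sum_congr rfl fun b _ => ?_
  rw [w2_W2 _ (Dat.wh_self h i) (Dat.wh_swap h i)]

theorem Dat.sv_low (D : Dat R) (i : Fin 8) (v : Vec R) (w : Fin 8 → Fin 8 → R) (m : Fin 248)
    (hm : zdg m < 2) : D.sv T i v w m = 0 := by
  rw [Dat.sv_eq, Pi.add_apply, V3_sup _ m (by omega), W2_sup _ m (by omega), add_zero]

/-- the pairing of two standard vectors -/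
theorem Dat.pair_sv {D : Dat R} {v v' : Vec R} {w w' : Fin 8 → Fin 8 → R} (h : D.IsP v w)
    (h' : D.IsP v' w') {c : R}
    (hc : ∀ a, ∑ m, (w' m a * v m + w m a * v' m) = c * D.f a) (i : Fin 8) (x : Vec T) :
    om (D.sv T i v' w') (p3 (D.sv T i v w)) x + om (D.sv T i v w) (p3 (D.sv T i v' w')) x =
      algebraMap R T c * ∑ a, algebraMap R T (D.f a) * x a := by
  rw [Dat.om_sv h', Dat.om_sv h, Dat.p3_sv, Dat.p3_sv, Finset.sum_comm,
    Finset.sum_comm (f := fun a b => D.wh T i v w a b * (algebraMap R T (v' a) * x b)),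
    ← Finset.sum_add_distrib, Finset.mul_sum]
  refine Finset.sum_congr rfl fun b _ => ?_
  have h1 := congrArg (algebraMap R T) (hc b)
  simp only [map_sum, map_add, map_mul] at h1
  have h2 : ∑ a, ∑ m, (algebraMap R T (v' m) * D.mu (T := T) i m a b * algebraMap R T (v a) +
      algebraMap R T (v m) * D.mu (T := T) i m a b * algebraMap R T (v' a)) = 0 := by
    have h3 : ∑ a, ∑ m, algebraMap R T (v' m) * D.mu (T := T) i m a b * algebraMap R T (v a) =
        - ∑ a, ∑ m, algebraMap R T (v m) * D.mu (T := T) i m a b * algebraMap R T (v' a) := by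
      rw [Finset.sum_comm, ← Finset.sum_neg_distrib]
      refine Finset.sum_congr rfl fun a _ => ?_
      rw [← Finset.sum_neg_distrib]
      refine Finset.sum_congr rfl fun m _ => ?_
      rw [D.mu_swap' i a m b]
      ring
    simp only [Finset.sum_add_distrib]
    rw [h3, neg_add_cancel]
  have h4 : ∑ a, D.wh T i v' w' a b * (algebraMap R T (v a) * x b) +
      ∑ a, D.wh T i v w a b * (algebraMap R T (v' a) * x b) =
      (∑ m, (algebraMap R T (w' m b) * algebraMap R T (v m) +
        algebraMap R T (w m b) * algebraMap R T (v' m))) * x b +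
      (∑ a, ∑ m, (algebraMap R T (v' m) * D.mu (T := T) i m a b * algebraMap R T (v a) +
      algebraMap R T (v m) * D.mu (T := T) i m a b * algebraMap R T (v' a))) * x b := by
    rw [← Finset.sum_add_distrib, Finset.sum_mul, Finset.sum_mul, ← Finset.sum_add_distrib]
    refine Finset.sum_congr rfl fun a _ => ?_
    rw [Finset.sum_add_distrib, ← Finset.sum_mul, ← Finset.sum_mul]
    simp only [Dat.wh]
    ring
  rw [h4, h2, h1]
  ring

end dat

end Pool.Agent.Licci
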